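import Mathlib.Data.Int.Interval
import Mathlib.Topology.Sheaves.Presheaf
import Mathlib.Tactic.ENatToNat
import Mathlib.Tactic.Monotonicity.Lemmas
import Mathlib.Data.Int.ConditionallyCompleteOrder
import Mathlib.Data.Int.Star
import Mathlib.Algebra.Order.Ring.Star
import Mathlib.Tactic.Bound
import Mathlib.Data.List.Triplewise
import Mathlib.Combinatorics.SimpleGraph.Basic
import Mathlib.Data.List.Lookmap
import Mathlib.RingTheory.PiTensorProduct
import Mathlib.RingTheory.WittVector.IsPoly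
import Mathlib.Tactic.ReduceModChar

-- ======== part 0: formerly Pool.Agent.MP_1479fb_pr.Game
section MrgPart0

/-! A relinking game: a family of disjoint paths whose ends are moved and joined inside a free
region until one closed chain is left. -/

set_option autoImplicit false

namespace Pool.Agent.MP_1479fb_pr

variable {α : Type*}

/-- A piece: first vertex, middle vertices, last vertex. -/
abbrev Piece (α : Type*) := α × List α × α

/-- The vertex list of a piece. -/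
def pl (P : Piece α) : List α := P.1 :: (P.2.1 ++ [P.2.2])

/-- All vertices of a configuration. -/
def sites (C : List (Piece α)) : List α := C.flatMap pl

/-- `x` is an end of a piece of `C`. -/
def IsEnd (C : List (Piece α)) (x : α) : Prop := ∃ P ∈ C, P.1 = x ∨ P.2.2 = x

/-- Every piece is a chain. -/
def Chains (A : α → α → Prop) (C : List (Piece α)) : Prop := ∀ P ∈ C, (pl P).IsChain A

@[simp] lemma sites_nil : sites ([] : List (Piece α)) = [] := rfl

@[simp] lemma sites_cons (P : Piece α) (C : List (Piece α)) :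
    sites (P :: C) = pl P ++ sites C := by simp [sites]

lemma isEnd_cons (P : Piece α) (C : List (Piece α)) (x : α) :
    IsEnd (P :: C) x ↔ (P.1 = x ∨ P.2.2 = x) ∨ IsEnd C x := by
  simp [IsEnd]

lemma chains_cons (A : α → α → Prop) (P : Piece α) (C : List (Piece α)) :
    Chains A (P :: C) ↔ (pl P).IsChain A ∧ Chains A C := by
  simp [Chains]

lemma IsEnd.mem {C : List (Piece α)} {x : α} (h : IsEnd C x) : x ∈ sites C := by
  obtain ⟨P, hP, h⟩ := h
  refine List.mem_flatMap.2 ⟨P, hP, ?_⟩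
  rcases h with h | h <;> simp [pl, ← h]

lemma pl_rev (a b : α) (p : List α) : pl (b, p.reverse, a) = (pl (a, p, b)).reverse := by
  simp [pl]

lemma norm_end {A : α → α → Prop} (hs : ∀ x y, A x y → A y x) {C : List (Piece α)} {u : α}
    (hu : IsEnd C u) : ∃ (p : List α) (b : α) (C' : List (Piece α)),
      (sites ((u, p, b) :: C')).Perm (sites C) ∧
      (∀ x, IsEnd ((u, p, b) :: C') x ↔ IsEnd C x) ∧
      (Chains A C → Chains A ((u, p, b) :: C')) := by
  obtain ⟨⟨a, p, b⟩, hP, h⟩ := hu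
  obtain ⟨s, t, rfl⟩ := List.append_of_mem hP
  have hperm : ((a, p, b) :: (s ++ t)).Perm (s ++ (a, p, b) :: t) := List.perm_middle.symm
  have h1 : (sites ((a, p, b) :: (s ++ t))).Perm (sites (s ++ (a, p, b) :: t)) :=
    hperm.flatMap_right _
  have h2 : ∀ x, IsEnd ((a, p, b) :: (s ++ t)) x ↔ IsEnd (s ++ (a, p, b) :: t) x := by
    intro x
    unfold IsEnd
    simp only [hperm.mem_iff]
  have h3 : Chains A (s ++ (a, p, b) :: t) → Chains A ((a, p, b) :: (s ++ t)) := by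
    intro hc P hP
    exact hc P (hperm.mem_iff.1 hP)
  rcases h with h | h
  · simp only at h
    subst h
    exact ⟨p, b, s ++ t, h1, h2, h3⟩
  · simp only at h
    subst h
    refine ⟨p.reverse, a, s ++ t, ?_, ?_, ?_⟩
    · refine List.Perm.trans ?_ h1
      rw [sites_cons, sites_cons, pl_rev]
      exact (List.reverse_perm _).append_right _
    · intro x
      rw [← h2, isEnd_cons, isEnd_cons]
      simp only [or_comm]
    · intro hc
      have := h3 hc
      rw [chains_cons] at this ⊢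
      refine ⟨?_, this.2⟩
      rw [pl_rev, List.isChain_reverse]
      exact this.1.imp (fun a b h => hs _ _ h)

/-- `Win A F L H`: from every configuration whose ends lie in `L ∪ H`, which misses `F` and meets
`L` only in ends, one can build one closed chain through all its vertices, adding only vertices
of `F ∪ L`. -/
def Win (A : α → α → Prop) (F L H : Set α) : Prop :=
  ∀ C : List (Piece α), C ≠ [] → Chains A C → (sites C).Nodup →
    (∀ x, IsEnd C x → x ∈ L ∨ x ∈ H) → (∀ x ∈ sites C, x ∉ F) →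
    (∀ x ∈ sites C, x ∈ L → IsEnd C x) →
    ∃ P : Piece α, (pl P).IsChain A ∧ (pl P).Nodup ∧ A P.2.2 P.1 ∧
      (∀ x ∈ sites C, x ∈ pl P) ∧ (∀ x ∈ pl P, x ∈ sites C ∨ x ∈ F ∨ x ∈ L)

variable {A : α → α → Prop}

lemma Win.mono {F L H F' L' H' : Set α} (h : Win A F' L' H') (hF : F' ⊆ F)
    (hL : ∀ x ∈ L', x ∈ F ∨ x ∈ L) (hH : ∀ x, x ∈ L ∨ x ∈ H → x ∈ L' ∨ x ∈ H') :
    Win A F L H := by
  intro C h0 h1 h2 h3 h4 h5
  obtain ⟨P, a1, a2, a3, a4, a5⟩ := h C h0 h1 h2 (fun x hx => hH x (h3 x hx))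
    (fun x hx hx' => h4 x hx (hF hx'))
    (fun x hx hx' => (hL x hx').elim (fun h => absurd h (h4 x hx)) (fun h => h5 x hx h))
  refine ⟨P, a1, a2, a3, a4, fun x hx => ?_⟩
  rcases a5 x hx with h | h | h
  · exact Or.inl h
  · exact Or.inr (Or.inl (hF h))
  · exact Or.inr (hL x h)

lemma ends_ne {u b : α} {p : List α} {C : List (Piece α)}
    (h : (sites ((u, p, b) :: C)).Nodup) : u ≠ b ∧ u ∉ sites C ∧ b ∉ sites C := by
  rw [sites_cons, List.nodup_append] at h
  obtain ⟨h1, -, h3⟩ := h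
  refine ⟨?_, fun hu => h3 u (by simp [pl]) u hu rfl, fun hu => h3 b (by simp [pl]) b hu rfl⟩
  rintro rfl
  simp [pl] at h1

lemma win_done (hs : ∀ x y, A x y → A y x) {F L H : Set α} {a b : α} (hab : A a b)
    (h : ∀ x, x ∈ L ∨ x ∈ H → x = a ∨ x = b) : Win A F L H := by
  intro C h0 h1 h2 h3 _ _
  obtain ⟨⟨u, p, v⟩, C', rfl⟩ := List.exists_cons_of_ne_nil h0
  obtain ⟨e1, e2, e3⟩ := ends_ne h2
  have hu := h u (h3 u ((isEnd_cons _ _ _).2 (Or.inl (Or.inl rfl))))
  have hv := h v (h3 v ((isEnd_cons _ _ _).2 (Or.inl (Or.inr rfl))))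
  have hC : C' = [] := by
    by_contra hne
    obtain ⟨⟨u', p', v'⟩, C'', rfl⟩ := List.exists_cons_of_ne_nil hne
    have hu' := h u' (h3 u' ((isEnd_cons _ _ _).2 (Or.inr ((isEnd_cons _ _ _).2
      (Or.inl (Or.inl rfl))))))
    have m : u' ∈ sites ((u', p', v') :: C'') := by simp [pl]
    have n1 : u' ≠ u := fun h => e2 (h ▸ m)
    have n2 : u' ≠ v := fun h => e3 (h ▸ m)
    rcases hu with rfl | rfl <;> rcases hv with rfl | rfl <;> rcases hu' with rfl | rfl <;>
      simp_all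
  subst hC
  refine ⟨(u, p, v), h1 _ (by simp), by simpa using h2, ?_, by simp, by simp +contextual⟩
  rcases hu with rfl | rfl <;> rcases hv with rfl | rfl
  · exact absurd rfl e1
  · exact hs _ _ hab
  · exact hab
  · exact absurd rfl e1

/-- Extending the end `u` to a new vertex `v`. -/
lemma step_ext {C : List (Piece α)} {u v : α} (hs : ∀ x y, A x y → A y x)
    (h1 : Chains A C) (h2 : (sites C).Nodup) (hu : IsEnd C u) (hv : v ∉ sites C) (huv : A u v) :
    ∃ C' : List (Piece α), C' ≠ [] ∧ Chains A C' ∧ (sites C').Nodup ∧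
      (∀ x, x ∈ sites C' ↔ x = v ∨ x ∈ sites C) ∧
      (∀ x, IsEnd C' x ↔ x = v ∨ (IsEnd C x ∧ x ≠ u)) := by
  obtain ⟨p, b, C', a1, a2, a3⟩ := norm_end hs hu
  have hn := a1.nodup_iff.2 h2
  obtain ⟨e1, e2, e3⟩ := ends_ne hn
  have hc := a3 h1
  have hsite : sites ((v, u :: p, b) :: C') = v :: sites ((u, p, b) :: C') := by simp [pl]
  refine ⟨(v, u :: p, b) :: C', by simp, ?_, ?_, ?_, ?_⟩
  · rw [chains_cons] at hc ⊢
    refine ⟨?_, hc.2⟩
    have : pl (v, u :: p, b) = v :: pl (u, p, b) := by simp [pl]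
    rw [this]
    unfold pl
    exact List.IsChain.cons_cons (hs _ _ huv) hc.1
  · rw [hsite, List.nodup_cons]
    exact ⟨fun h => hv (a1.mem_iff.1 h), hn⟩
  · intro x
    rw [hsite, List.mem_cons, a1.mem_iff]
  · intro x
    rw [← a2, isEnd_cons, isEnd_cons]
    constructor
    · rintro ((h | h) | h)
      · exact Or.inl h.symm
      · exact Or.inr ⟨Or.inl (Or.inr h), fun h' => e1 (h'.symm.trans h.symm)⟩
      · exact Or.inr ⟨Or.inr h, fun h' => e2 (h' ▸ h.mem)⟩
    · rintro (h | ⟨(h | h) | h, h'⟩)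
      · exact Or.inl (Or.inl h.symm)
      · exact absurd h.symm h'
      · exact Or.inl (Or.inr h)
      · exact Or.inr h

/-- Joining the end `u` with an end `v` of another piece. -/
lemma step_join {p : List α} {C : List (Piece α)} {u v b : α} (hs : ∀ x y, A x y → A y x)
    (h1 : Chains A ((u, p, b) :: C)) (h2 : (sites ((u, p, b) :: C)).Nodup) (hv : IsEnd C v)
    (huv : A u v) :
    ∃ C' : List (Piece α), C' ≠ [] ∧ Chains A C' ∧ (sites C').Nodup ∧
      (∀ x, x ∈ sites C' ↔ x ∈ sites ((u, p, b) :: C)) ∧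
      (∀ x, IsEnd C' x ↔ (IsEnd ((u, p, b) :: C) x ∧ x ≠ u ∧ x ≠ v)) := by
  obtain ⟨q, c, C', a1, a2, a3⟩ := norm_end hs hv
  rw [chains_cons] at h1
  have hc := a3 h1.2
  rw [chains_cons] at hc
  have hperm : (sites ((b, p.reverse ++ u :: v :: q, c) :: C')).Perm (sites ((u, p, b) :: C)) := by
    have : sites ((b, p.reverse ++ u :: v :: q, c) :: C') =
        (pl (u, p, b)).reverse ++ sites ((v, q, c) :: C') := by simp [pl]
    rw [this, sites_cons (u, p, b)]
    exact (List.reverse_perm _).append a1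
  obtain ⟨e1, e2, e3⟩ := ends_ne h2
  have hn : (sites ((v, q, c) :: C')).Nodup := by
    rw [a1.nodup_iff]
    rw [sites_cons] at h2
    exact h2.of_append_right
  obtain ⟨f1, f2, f3⟩ := ends_ne hn
  have hcm : c ∈ sites C := a1.mem_iff.1 (by simp [pl])
  have hsub : ∀ x ∈ sites C', x ∈ sites C := fun x hx => a1.mem_iff.1 (by simp [hx])
  refine ⟨(b, p.reverse ++ u :: v :: q, c) :: C', by simp, ?_, hperm.nodup_iff.2 h2,
    fun x => hperm.mem_iff, ?_⟩
  · rw [chains_cons]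
    refine ⟨?_, hc.2⟩
    have : pl (b, p.reverse ++ u :: v :: q, c) = (pl (u, p, b)).reverse ++ pl (v, q, c) := by
      simp [pl]
    rw [this, List.isChain_append]
    refine ⟨?_, hc.1, ?_⟩
    · rw [List.isChain_reverse]
      exact h1.1.imp (fun a b h => hs _ _ h)
    · rw [List.getLast?_reverse]
      simp [pl, huv]
  · intro x
    rw [isEnd_cons, isEnd_cons, ← a2, isEnd_cons]
    constructor
    · rintro ((h | h) | h)
      · simp only at h
        subst h
        exact ⟨Or.inl (Or.inr rfl), e1.symm, fun h => e3 (h ▸ hv.mem)⟩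
      · simp only at h
        subst h
        exact ⟨Or.inr (Or.inl (Or.inr rfl)), fun h => e2 (h ▸ hcm), f1.symm⟩
      · exact ⟨Or.inr (Or.inr h), fun h' => e2 (h' ▸ hsub _ h.mem), fun h' => f2 (h' ▸ h.mem)⟩
    · rintro ⟨(h | h) | (h | h) | h, h', h''⟩
      · exact absurd h.symm h'
      · exact Or.inl (Or.inl h)
      · exact absurd h.symm h''
      · exact Or.inl (Or.inr h)
      · exact Or.inr h

lemma win_move (hs : ∀ x y, A x y → A y x) {F L H F' L' H' : Set α} {u v : α} (huv : A u v)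
    (hv : v ∈ F) (h : Win A F' L' H') (hF : ∀ x ∈ F', x ∈ F ∧ x ≠ v)
    (hL : ∀ x ∈ L', x = v ∨ ((x ∈ F ∨ x ∈ L) ∧ x ≠ u))
    (hH : ∀ x, x = v ∨ ((x ∈ L ∨ x ∈ H) ∧ x ≠ u) → x ∈ L' ∨ x ∈ H') : Win A F L H := by
  intro C h0 h1 h2 h3 h4 h5
  by_cases hu : IsEnd C u
  · obtain ⟨C', c0, c1, c2, c3, c4⟩ := step_ext hs h1 h2 hu (fun h => h4 v h hv) huv
    obtain ⟨P, a1, a2, a3, a4, a5⟩ := h C' c0 c1 c2
      (fun x hx => hH x (((c4 x).1 hx).imp id (fun h => ⟨h3 x h.1, h.2⟩)))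
      (fun x hx hx' => ((c3 x).1 hx).elim (hF x hx').2 (fun h => h4 x h (hF x hx').1))
      (fun x hx hx' => by
        rw [c4]
        rcases hL x hx' with h | ⟨h, h'⟩
        · exact Or.inl h
        · rcases (c3 x).1 hx with g | g
          · exact Or.inl g
          · exact Or.inr ⟨h.elim (fun h => absurd h (h4 x g)) (h5 x g), h'⟩)
    refine ⟨P, a1, a2, a3, fun x hx => a4 x ((c3 x).2 (Or.inr hx)), fun x hx => ?_⟩
    rcases a5 x hx with g | g | g
    · rcases (c3 x).1 g with g | g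
      · exact Or.inr (Or.inl (g ▸ hv))
      · exact Or.inl g
    · exact Or.inr (Or.inl (hF x g).1)
    · rcases hL x g with g | g
      · exact Or.inr (Or.inl (g ▸ hv))
      · exact Or.inr g.1
  · obtain ⟨P, a1, a2, a3, a4, a5⟩ := h C h0 h1 h2
      (fun x hx => hH x (Or.inr ⟨h3 x hx, fun h => hu (h ▸ hx)⟩))
      (fun x hx hx' => h4 x hx (hF x hx').1)
      (fun x hx hx' => by
        rcases hL x hx' with h | ⟨h, _⟩
        · exact absurd (h ▸ hv) (h4 x hx)
        · exact h.elim (fun h => absurd h (h4 x hx)) (h5 x hx))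
    refine ⟨P, a1, a2, a3, a4, fun x hx => ?_⟩
    rcases a5 x hx with g | g | g
    · exact Or.inl g
    · exact Or.inr (Or.inl (hF x g).1)
    · rcases hL x g with g | g
      · exact Or.inr (Or.inl (g ▸ hv))
      · exact Or.inr g.1

lemma win_absorb (hs : ∀ x y, A x y → A y x) {F L H F' L' H' : Set α} {u v w : α} (huv : A u v)
    (huw : A u w) (hvw : v ≠ w) (hv : v ∈ F ∨ v ∈ L) (hw : w ∈ F ∨ w ∈ L)
    (hvu : v ≠ u) (hwu : w ≠ u) (h : Win A F' L' H')
    (hF : ∀ x ∈ F', x ∈ F ∧ x ≠ v ∧ x ≠ w)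
    (hL : ∀ x ∈ L', (x ∈ F ∨ x ∈ L) ∧ x ≠ u ∧ x ≠ v ∧ x ≠ w)
    (hH : ∀ x, x = v ∨ x = w ∨ ((x ∈ L ∨ x ∈ H) ∧ x ≠ u) → x ∈ L' ∨ x ∈ H') : Win A F L H := by
  intro C h0 h1 h2 h3 h4 h5
  -- a successor configuration
  have key : ∃ C' : List (Piece α), C' ≠ [] ∧ Chains A C' ∧ (sites C').Nodup ∧
      (∀ x ∈ sites C, x ∈ sites C') ∧ (∀ x ∈ sites C', x = v ∨ x = w ∨ x ∈ sites C) ∧
      (∀ x, IsEnd C' x → x = v ∨ x = w ∨ (IsEnd C x ∧ x ≠ u)) ∧
      (∀ x, IsEnd C x → x ≠ u → x ≠ v → x ≠ w → IsEnd C' x) := by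
    by_cases hu : IsEnd C u
    swap
    · exact ⟨C, h0, h1, h2, fun x hx => hx, fun x hx => Or.inr (Or.inr hx),
        fun x hx => Or.inr (Or.inr ⟨hx, fun h => hu (h ▸ hx)⟩), fun x hx _ _ _ => hx⟩
    by_cases hv' : v ∈ sites C
    swap
    · obtain ⟨C', c0, c1, c2, c3, c4⟩ := step_ext hs h1 h2 hu hv' huv
      refine ⟨C', c0, c1, c2, fun x hx => (c3 x).2 (Or.inr hx), fun x hx => ?_, fun x hx => ?_,
        fun x hx hx' _ _ => (c4 x).2 (Or.inr ⟨hx, hx'⟩)⟩
      · exact ((c3 x).1 hx).imp id Or.inr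
      · exact ((c4 x).1 hx).imp id Or.inr
    by_cases hw' : w ∈ sites C
    swap
    · obtain ⟨C', c0, c1, c2, c3, c4⟩ := step_ext hs h1 h2 hu hw' huw
      refine ⟨C', c0, c1, c2, fun x hx => (c3 x).2 (Or.inr hx), fun x hx => ?_, fun x hx => ?_,
        fun x hx hx' _ _ => (c4 x).2 (Or.inr ⟨hx, hx'⟩)⟩
      · exact Or.inr ((c3 x).1 hx)
      · exact Or.inr ((c4 x).1 hx)
    have ev : IsEnd C v := hv.elim (fun h => absurd h (h4 v hv')) (h5 v hv')
    have ew : IsEnd C w := hw.elim (fun h => absurd h (h4 w hw')) (h5 w hw')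
    obtain ⟨p, b, C₁, a1, a2, a3⟩ := norm_end hs hu
    have hn := a1.nodup_iff.2 h2
    have hc := a3 h1
    have gen : ∀ z, (z = v ∨ z = w) → IsEnd C₁ z → A u z →
        ∃ C' : List (Piece α), C' ≠ [] ∧ Chains A C' ∧ (sites C').Nodup ∧
        (∀ x ∈ sites C, x ∈ sites C') ∧ (∀ x ∈ sites C', x = v ∨ x = w ∨ x ∈ sites C) ∧
        (∀ x, IsEnd C' x → x = v ∨ x = w ∨ (IsEnd C x ∧ x ≠ u)) ∧
        (∀ x, IsEnd C x → x ≠ u → x ≠ v → x ≠ w → IsEnd C' x) := by
      intro z hz ez huz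
      obtain ⟨C', c0, c1, c2, c3, c4⟩ := step_join hs hc hn ez huz
      refine ⟨C', c0, c1, c2, fun x hx => (c3 x).2 (a1.mem_iff.2 hx),
        fun x hx => Or.inr (Or.inr (a1.mem_iff.1 ((c3 x).1 hx))), fun x hx => ?_,
        fun x hx g1 g2 g3 => (c4 x).2 ⟨(a2 x).2 hx, g1, ?_⟩⟩
      · have := (c4 x).1 hx
        exact Or.inr (Or.inr ⟨(a2 x).1 this.1, this.2.1⟩)
      · rcases hz with rfl | rfl
        · exact g2
        · exact g3
    have ev' := (a2 v).2 ev
    have ew' := (a2 w).2 ew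
    rw [isEnd_cons] at ev' ew'
    rcases ev' with (g | g) | g
    · exact absurd g.symm hvu
    · rcases ew' with (g' | g') | g'
      · exact absurd g'.symm hwu
      · exact absurd (g.symm.trans g') hvw
      · exact gen w (Or.inr rfl) g' huw
    · exact gen v (Or.inl rfl) g huv
  obtain ⟨C', c0, c1, c2, c3, c4, c5, c6⟩ := key
  obtain ⟨P, a1, a2, a3, a4, a5⟩ := h C' c0 c1 c2
    (fun x hx => hH x ((c5 x hx).imp id (Or.imp id (fun h => ⟨h3 x h.1, h.2⟩))))
    (fun x hx hx' => by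
      obtain ⟨g1, g2, g3⟩ := hF x hx'
      rcases c4 x hx with g | g | g
      · exact g2 g
      · exact g3 g
      · exact h4 x g g1)
    (fun x hx hx' => by
      obtain ⟨g0, g1, g2, g3⟩ := hL x hx'
      rcases c4 x hx with g | g | g
      · exact absurd g g2
      · exact absurd g g3
      · exact c6 x (g0.elim (fun h => absurd h (h4 x g)) (h5 x g)) g1 g2 g3)
  refine ⟨P, a1, a2, a3, fun x hx => a4 x (c3 x hx), fun x hx => ?_⟩
  rcases a5 x hx with g | g | g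
  · rcases c4 x g with g | g | g
    · exact Or.inr (g ▸ hv)
    · exact Or.inr (g ▸ hw)
    · exact Or.inl g
  · exact Or.inr (Or.inl (hF x g).1)
  · exact Or.inr (hL x g).1

/-- A static layout for the finite set `S`. -/
structure Lay (A : α → α → Prop) (S : Set α) (F L : Set α) (t : α → ℤ) (e : α → Prop)
    (f o : α → α) : Prop where
  adj : ∀ s ∈ S, A s (f s)
  adj' : ∀ s ∈ S, e s → A s (o s) ∧ f s ≠ o s
  time : ∀ s ∈ S, f s ∈ S → t s < t (f s)
  time' : ∀ s ∈ S, e s → o s ∈ S → t s < t (o s)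
  lead : ∀ s ∈ S, ¬ e s → f s ∈ F
  inj : ∀ s ∈ S, ∀ s' ∈ S, ¬ e s → ¬ e s' → f s = f s' → s = s'
  opt : ∀ s ∈ S, e s → (f s ∈ F ∨ f s ∈ L) ∧ (o s ∈ F ∨ o s ∈ L)
  disj : ∀ s ∈ S, ∀ s' ∈ S, e s → e s' → s ≠ s' →
    f s ≠ f s' ∧ f s ≠ o s' ∧ o s ≠ o s'
  first : ∀ s ∈ S, ∀ s' ∈ S, e s → ¬ e s' → (f s' = f s ∨ f s' = o s) → t s' < t s

theorem win_lay (hs : ∀ x y, A x y → A y x) {t : α → ℤ} {e : α → Prop} {f o : α → α}
    {F' H' : Set α} (h : Win A F' ∅ H') (S : Finset α) :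
    ∀ F L H : Set α, Lay A S F L t e f o →
      (∀ x ∈ F', x ∈ F ∧ ∀ s ∈ S, f s ≠ x ∧ (e s → o s ≠ x)) →
      (∀ x, x ∉ S → (x ∈ L ∨ x ∈ H ∨ ∃ s ∈ S, f s = x ∨ (e s ∧ o s = x)) → x ∈ H') →
      Win A F L H := by
  classical
  induction S using Finset.strongInduction with
  | H S ih =>
  intro F L H hl hF hH
  rcases S.eq_empty_or_nonempty with rfl | hne
  · refine h.mono (fun x hx => (hF x hx).1) (by simp) (fun x hx => Or.inr (hH x (by simp) ?_))
    exact hx.imp id Or.inl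
  obtain ⟨s, hsS, hmin⟩ := S.exists_min_image t hne
  have hsub : ∀ x, x ∈ S.erase s → x ∈ S := fun x hx => Finset.mem_of_mem_erase hx
  have hne' : ∀ x, x ∈ S.erase s → x ≠ s := fun x hx => Finset.ne_of_mem_erase hx
  have nf : ∀ x ∈ S, f x ≠ s := fun x hx g =>
    absurd (hl.time x hx (g ▸ hsS)) (by rw [g]; exact not_lt.2 (hmin x hx))
  have no : ∀ x ∈ S, e x → o x ≠ s := fun x hx ex g =>
    absurd (hl.time' x hx ex (g ▸ hsS)) (by rw [g]; exact not_lt.2 (hmin x hx))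
  by_cases es : e s
  · have W := ih (S.erase s) (Finset.erase_ssubset hsS) {x | x ∈ F ∧ x ≠ f s ∧ x ≠ o s}
      {x | (x ∈ F ∨ x ∈ L) ∧ x ≠ s ∧ x ≠ f s ∧ x ≠ o s ∧ (x ∈ L)}
      {x | x = f s ∨ x = o s ∨ ((x ∈ L ∨ x ∈ H) ∧ x ≠ s)} ?_ ?_ ?_
    · refine win_absorb hs (hl.adj s hsS) (hl.adj' s hsS es).1 (hl.adj' s hsS es).2
        (hl.opt s hsS es).1 (hl.opt s hsS es).2 (nf s hsS) (no s hsS es) W (fun x hx => hx)
        (fun x hx => ⟨hx.1, hx.2.1, hx.2.2.1, hx.2.2.2.1⟩) (fun x hx => Or.inr hx)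
    · refine ⟨fun x hx => hl.adj x (hsub x hx), fun x hx => hl.adj' x (hsub x hx),
        fun x hx hx' => hl.time x (hsub x hx) (hsub _ hx'),
        fun x hx ex hx' => hl.time' x (hsub x hx) ex (hsub _ hx'), fun x hx ex => ?_,
        fun x hx y hy => hl.inj x (hsub x hx) y (hsub y hy), fun x hx ex => ?_,
        fun x hx y hy => hl.disj x (hsub x hx) y (hsub y hy),
        fun x hx y hy => hl.first x (hsub x hx) y (hsub y hy)⟩
      · have hx' := hsub x hx
        refine ⟨hl.lead x hx' ex, fun g => ?_, fun g => ?_⟩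
        · exact absurd (hl.first s hsS x hx' es ex (Or.inl g)) (not_lt.2 (hmin x hx'))
        · exact absurd (hl.first s hsS x hx' es ex (Or.inr g)) (not_lt.2 (hmin x hx'))
      · have hx' := hsub x hx
        have d1 := hl.disj x hx' s hsS ex es (hne' x hx)
        have d2 := hl.disj s hsS x hx' es ex (hne' x hx).symm
        obtain ⟨o1, o2⟩ := hl.opt x hx' ex
        constructor
        · rcases o1 with g | g
          · exact Or.inl ⟨g, d1.1, d1.2.1⟩
          · exact Or.inr ⟨Or.inr g, nf x hx', d1.1, d1.2.1, g⟩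
        · rcases o2 with g | g
          · exact Or.inl ⟨g, d2.2.1.symm, d1.2.2⟩
          · exact Or.inr ⟨Or.inr g, no x hx' ex, d2.2.1.symm, d1.2.2, g⟩
    · intro x hx
      obtain ⟨g1, g2⟩ := hF x hx
      exact ⟨⟨g1, (g2 s hsS).1.symm, ((g2 s hsS).2 es).symm⟩, fun y hy => g2 y (hsub y hy)⟩
    · intro x hx hx'
      have hxs : x ≠ s := by
        rintro rfl
        rcases hx' with g | g | ⟨y, hy, g | g⟩
        · exact g.2.1 rfl
        · rcases g with g | g | g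
          · exact nf x hsS g.symm
          · exact no x hsS es g.symm
          · exact g.2 rfl
        · exact nf y (hsub y hy) g
        · exact no y (hsub y hy) g.1 g.2
      refine hH x (fun g => hx (Finset.mem_erase.2 ⟨hxs, g⟩)) ?_
      rcases hx' with g | g | ⟨y, hy, g⟩
      · exact Or.inl g.2.2.2.2
      · rcases g with g | g | g
        · exact Or.inr (Or.inr ⟨s, hsS, Or.inl g.symm⟩)
        · exact Or.inr (Or.inr ⟨s, hsS, Or.inr ⟨es, g.symm⟩⟩)
        · exact g.1.imp id Or.inl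
      · exact Or.inr (Or.inr ⟨y, hsub y hy, g⟩)
  · have W := ih (S.erase s) (Finset.erase_ssubset hsS) {x | x ∈ F ∧ x ≠ f s}
      {x | x = f s ∨ (x ∈ L ∧ x ≠ s)} {x | x ∈ H ∧ x ≠ s} ?_ ?_ ?_
    · refine win_move hs (hl.adj s hsS) (hl.lead s hsS es) W (fun x hx => hx)
        (fun x hx => hx.imp id (fun g => ⟨Or.inr g.1, g.2⟩)) ?_
      rintro x (g | ⟨g | g, g'⟩)
      · exact Or.inl (Or.inl g)
      · exact Or.inl (Or.inr ⟨g, g'⟩)
      · exact Or.inr ⟨g, g'⟩
    · refine ⟨fun x hx => hl.adj x (hsub x hx), fun x hx => hl.adj' x (hsub x hx),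
        fun x hx hx' => hl.time x (hsub x hx) (hsub _ hx'),
        fun x hx ex hx' => hl.time' x (hsub x hx) ex (hsub _ hx'), fun x hx ex => ?_,
        fun x hx y hy => hl.inj x (hsub x hx) y (hsub y hy), fun x hx ex => ?_,
        fun x hx y hy => hl.disj x (hsub x hx) y (hsub y hy),
        fun x hx y hy => hl.first x (hsub x hx) y (hsub y hy)⟩
      · have hx' := hsub x hx
        exact ⟨hl.lead x hx' ex, fun g => hne' x hx (hl.inj x hx' s hsS ex es g)⟩
      · have hx' := hsub x hx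
        obtain ⟨o1, o2⟩ := hl.opt x hx' ex
        constructor
        · by_cases g0 : f x = f s
          · exact Or.inr (Or.inl g0)
          · exact o1.imp (fun g => ⟨g, g0⟩) (fun g => Or.inr ⟨g, nf x hx'⟩)
        · by_cases g0 : o x = f s
          · exact Or.inr (Or.inl g0)
          · exact o2.imp (fun g => ⟨g, g0⟩) (fun g => Or.inr ⟨g, no x hx' ex⟩)
    · intro x hx
      obtain ⟨g1, g2⟩ := hF x hx
      exact ⟨⟨g1, (g2 s hsS).1.symm⟩, fun y hy => g2 y (hsub y hy)⟩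
    · intro x hx hx'
      have hxs : x ≠ s := by
        rintro rfl
        rcases hx' with g | g | ⟨y, hy, g | g⟩
        · rcases g with g | g
          · exact nf x hsS g.symm
          · exact g.2 rfl
        · exact g.2 rfl
        · exact nf y (hsub y hy) g
        · exact no y (hsub y hy) g.1 g.2
      refine hH x (fun g => hx (Finset.mem_erase.2 ⟨hxs, g⟩)) ?_
      rcases hx' with g | g | ⟨y, hy, g⟩
      · rcases g with g | g
        · exact Or.inr (Or.inr ⟨s, hsS, Or.inl g.symm⟩)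
        · exact Or.inl g.1
      · exact Or.inr (Or.inl g.1)
      · exact Or.inr (Or.inr ⟨y, hsub y hy, g⟩)

end Pool.Agent.MP_1479fb_pr

end MrgPart0

-- ======== part 1: formerly Pool.Agent.MP_1479fb_pr.Level
section MrgPart1

/-! Level structures on `ℤ^D`: every site of high level points to one lower neighbour
(injectively) or to two private lower neighbours. -/

set_option autoImplicit false

namespace Pool.Agent.MP_1479fb_pr

variable {α : Type*}

/-- Folding of `ℤ` onto the naturals: `0, -1 ↦ 0`, `1, -2 ↦ 1`, and so on. -/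
def hat (y : ℤ) : ℤ := max y (-1 - y)

/-- One step towards `{-1, 0}`. -/
def dn (y : ℤ) : ℤ := if 0 ≤ y then y - 1 else y + 1

/-- Adjacency of the product of a graph with the line. -/
def AdjP (A : α → α → Prop) (p q : α × ℤ) : Prop :=
  (A p.1 q.1 ∧ p.2 = q.2) ∨ (p.1 = q.1 ∧ (p.2 = q.2 + 1 ∨ q.2 = p.2 + 1))

/-- `w` is reached from `z` in `j` steps of `f` through sites where `e` fails. -/
def Reach (e : α → Prop) (f : α → α) : α → α → ℕ → Prop
  | z, w, 0 => z = w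
  | z, w, j + 1 => ¬ e z ∧ Reach e f (f z) w j

lemma Reach.trans {e : α → Prop} {f : α → α} {w v : α} {i : ℕ} (h2 : Reach e f w v i) (j : ℕ) :
    ∀ z, Reach e f z w j → Reach e f z v (i + j) := by
  induction j with
  | zero => intro z h; cases h; exact h2
  | succ j ih => intro z h; exact ⟨h.1, ih _ h.2⟩

structure Lev (A : α → α → Prop) (N : α → ℤ) (ρ : ℤ) (k : ℕ) (e : α → Prop) (f o : α → α) :
    Prop where
  adj : ∀ z, ρ ≤ N z → A z (f z) ∧ N (f z) = N z - 1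
  adj' : ∀ z, ρ ≤ N z → e z → A z (o z) ∧ N (o z) = N z - 1 ∧ f z ≠ o z
  inj : ∀ z z', ρ ≤ N z → ρ ≤ N z' → ¬ e z → ¬ e z' → f z = f z' → z = z'
  disj : ∀ z z', ρ ≤ N z → ρ ≤ N z' → e z → e z' → z ≠ z' →
    f z ≠ f z' ∧ f z ≠ o z' ∧ o z ≠ o z'
  far : ∀ z w (j : ℕ), 1 ≤ j → j ≤ k → ρ ≤ N w → N z = N w + j → Reach e f z w j → e w →
    ∀ x, ρ ≤ N x → e x → f x ≠ z ∧ o x ≠ z

structure Cl (N : α → ℤ) (lam : ℤ) (k : ℕ) (e : α → Prop) (f o : α → α) (Om Sw : α → Prop) :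
    Prop where
  c0 : ∀ z, Om z → ¬ Sw z
  lo : ∀ z, N z < lam → Om z
  hi : ∀ z, Om z ∨ Sw z → N z ≤ lam + k + 3
  c1 : ∀ z, Sw z → ¬ e z ∧ Om (f z)
  c2 : ∀ z, ¬ Om z → ¬ Sw z → ¬ e z → ¬ Om (f z)
  c3 : ∀ x, ¬ Om x → e x → ∀ w, (f x = w ∨ o x = w) → ¬ Sw w ∧ ∀ z, Sw z → f z ≠ w
  c4 : ∀ z w (j : ℕ), 1 ≤ j → j ≤ k → N z = N w + j → Reach e f z w j → Sw w →
    ∀ x, ¬ Om x → e x → f x ≠ z ∧ o x ≠ z

lemma Lev.exists_cl {A : α → α → Prop} {N : α → ℤ} {ρ : ℤ} {k : ℕ} {e : α → Prop} {f o : α → α}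
    (h : Lev A N ρ (k + 2) e f o) {lam : ℤ} (hl : ρ ≤ lam) :
    ∃ Om Sw : α → Prop, Cl N lam k e f o Om Sw := by
  let Om : α → Prop := fun z => N z < lam ∨ (lam ≤ N z ∧ N z ≤ lam + k + 1 ∧ e z) ∨
    (lam + 1 ≤ N z ∧ N z ≤ lam + k + 2 ∧ ¬ e z ∧ e (f z))
  let Sw : α → Prop := fun z =>
    (lam + 2 ≤ N z ∧ N z ≤ lam + k + 3 ∧ ¬ e z ∧ ¬ e (f z) ∧ e (f (f z))) ∨ (N z = lam ∧ ¬ e z)
  have lv : ∀ z, lam ≤ N z → N (f z) = N z - 1 := fun z hz => (h.adj z (by omega)).2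
  have act : ∀ x, ¬ Om x → e x → lam + k + 1 < N x := by
    intro x hx ex
    by_contra hc
    by_cases h1 : N x < lam
    · exact hx (Or.inl h1)
    · exact hx (Or.inr (Or.inl ⟨by omega, by omega, ex⟩))
  have tl : ∀ x, ¬ Om x → e x → ∀ w, (f x = w ∨ o x = w) → lam + k + 1 ≤ N w := by
    intro x hx ex w hw
    have := act x hx ex
    rcases hw with rfl | rfl
    · have := (h.adj x (by omega)).2; omega
    · have := (h.adj' x (by omega) ex).2.1; omega
  refine ⟨Om, Sw, ?_, fun z hz => Or.inl hz, ?_, ?_, ?_, ?_, ?_⟩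
  · rintro z (h1 | h1 | h1) (h2 | h2)
    · omega
    · omega
    · exact h2.2.2.1 h1.2.2
    · exact h2.2 h1.2.2
    · exact h2.2.2.2.1 h1.2.2.2
    · omega
  · rintro z ((h1 | h1 | h1) | h1 | h1) <;> omega
  · rintro z (h1 | h1)
    · have := lv z (by omega)
      exact ⟨h1.2.2.1, Or.inr (Or.inr ⟨by omega, by omega, h1.2.2.2⟩)⟩
    · have := lv z (by omega)
      exact ⟨h1.2, Or.inl (by omega)⟩
  · intro z h1 h2 h3
    have hz : lam ≤ N z := not_lt.1 (fun g => h1 (Or.inl g))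
    have := lv z hz
    rintro (g | g | g)
    · exact h2 (Or.inr ⟨by omega, h3⟩)
    · exact h1 (Or.inr (Or.inr ⟨by omega, by omega, h3, g.2.2⟩))
    · exact h2 (Or.inl ⟨by omega, by omega, h3, g.2.2⟩)
  · intro x hx ex w hw
    have a1 := act x hx ex
    have a2 := tl x hx ex w hw
    constructor
    · rintro (g | g)
      · have l1 := lv w (by omega)
        have l2 := lv (f w) (by omega)
        have := h.far w (f (f w)) 2 (by omega) (by omega) (by omega) (by push_cast; omega)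
          ⟨g.2.2.1, g.2.2.2.1, rfl⟩ g.2.2.2.2 x (by omega) ex
        exact hw.elim this.1 this.2
      · omega
    · rintro z (g | g) rfl
      · have l1 := lv z (by omega)
        have l2 := lv (f z) (by omega)
        have := h.far (f z) (f (f z)) 1 (by omega) (by omega) (by omega) (by push_cast; omega)
          ⟨g.2.2.2.1, rfl⟩ g.2.2.2.2 x (by omega) ex
        exact hw.elim this.1 this.2
      · have l1 := lv z (by omega)
        omega
  · rintro z w j j1 j2 hN hr (g | g) x hx ex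
    · have a1 := act x hx ex
      have l1 := lv w (by omega)
      have l2 := lv (f w) (by omega)
      have r2 : Reach e f w (f (f w)) 2 := ⟨g.2.2.1, g.2.2.2.1, rfl⟩
      exact h.far z (f (f w)) (2 + j) (by omega) (by omega) (by omega) (by push_cast; omega)
        (r2.trans j z hr) g.2.2.2.2 x (by omega) ex
    · constructor
      · intro hf
        have := tl x hx ex z (Or.inl hf)
        omega
      · intro hf
        have := tl x hx ex z (Or.inr hf)
        omega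

open Classical in
/-- First target in the product. -/
noncomputable def fP (f : α → α) (Om Sw : α → Prop) (U : α × ℤ → Prop) (p : α × ℤ) : α × ℤ :=
  if (Om p.1 ∨ Sw p.1) ∧ U p then (p.1, dn p.2) else (f p.1, p.2)

open Classical in
/-- Second target in the product. -/
noncomputable def oP (f o : α → α) (Sw : α → Prop) (U : α × ℤ → Prop) (p : α × ℤ) : α × ℤ :=
  if Sw p.1 ∧ U p then (f p.1, p.2) else (o p.1, p.2)

/-- Sites with two targets in the product. -/
def eP (e : α → Prop) (Om Sw : α → Prop) (U : α × ℤ → Prop) (p : α × ℤ) : Prop :=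
  (Sw p.1 ∧ U p) ∨ (¬ ((Om p.1 ∨ Sw p.1) ∧ U p) ∧ e p.1)

section prod

variable {A : α → α → Prop} {N : α → ℤ} {ρ lam : ℤ} {k k' : ℕ} {e : α → Prop} {f o : α → α}
  {Om Sw : α → Prop} {U : α × ℤ → Prop}

lemma tri (hc : Cl N lam k e f o Om Sw) (p : α × ℤ) :
    (Om p.1 ∧ U p ∧ ¬ eP e Om Sw U p ∧ fP f Om Sw U p = (p.1, dn p.2)) ∨
    (Sw p.1 ∧ U p ∧ eP e Om Sw U p ∧ fP f Om Sw U p = (p.1, dn p.2) ∧
      oP f o Sw U p = (f p.1, p.2)) ∨
    (¬ ((Om p.1 ∨ Sw p.1) ∧ U p) ∧ (eP e Om Sw U p ↔ e p.1) ∧ fP f Om Sw U p = (f p.1, p.2) ∧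
      oP f o Sw U p = (o p.1, p.2)) := by
  by_cases h : (Om p.1 ∨ Sw p.1) ∧ U p
  · rcases h with ⟨h | h, hu⟩
    · refine Or.inl ⟨h, hu, ?_, by simp [fP, h, hu]⟩
      rintro (g | g)
      · exact hc.c0 _ h g.1
      · exact g.1 ⟨Or.inl h, hu⟩
    · exact Or.inr (Or.inl ⟨h, hu, Or.inl ⟨h, hu⟩, by simp [fP, h, hu], by simp [oP, h, hu]⟩)
  · have h' : ¬ (Sw p.1 ∧ U p) := fun g => h ⟨Or.inr g.1, g.2⟩
    refine Or.inr (Or.inr ⟨h, ?_, by simp only [fP, h, if_false], by simp only [oP, h', if_false]⟩)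
    exact ⟨fun g => g.elim (fun g => absurd g h') (fun g => g.2), fun g => Or.inr ⟨h, g⟩⟩

theorem prod_step (h : Lev A N ρ k' e f o) (hc : Cl N lam k e f o Om Sw) (hl : ρ ≤ lam)
    (S : α × ℤ → Prop)
    (u1 : ∀ p, S p → (Om p.1 ∨ Sw p.1) → U p → 1 ≤ hat p.2)
    (u2 : ∀ p, S p → ¬ ((Om p.1 ∨ Sw p.1) ∧ U p) → ρ ≤ N p.1)
    (u3 : ∀ p q, S p → S q → (Om p.1 ∨ Sw p.1) → U p → q.2 = dn p.2 → N q.1 = N p.1 + 1 → U q)
    (u4 : ∀ p q, U p → q.2 = p.2 → N q.1 = N p.1 → U q) :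
    (∀ p, S p → AdjP A p (fP f Om Sw U p) ∧
      N (fP f Om Sw U p).1 + hat (fP f Om Sw U p).2 = N p.1 + hat p.2 - 1) ∧
    (∀ p, S p → eP e Om Sw U p → AdjP A p (oP f o Sw U p) ∧
      N (oP f o Sw U p).1 + hat (oP f o Sw U p).2 = N p.1 + hat p.2 - 1 ∧
      fP f Om Sw U p ≠ oP f o Sw U p) ∧
    (∀ p q, S p → S q → ¬ eP e Om Sw U p → ¬ eP e Om Sw U q →
      fP f Om Sw U p = fP f Om Sw U q → p = q) ∧
    (∀ p q, S p → S q → eP e Om Sw U p → eP e Om Sw U q → p ≠ q →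
      fP f Om Sw U p ≠ fP f Om Sw U q ∧ fP f Om Sw U p ≠ oP f o Sw U q ∧
      oP f o Sw U p ≠ oP f o Sw U q) := by
  have swl : ∀ z, Sw z → ρ ≤ N z := fun z hz =>
    hl.trans (not_lt.1 (fun g => hc.c0 z (hc.lo z g) hz))
  have vert : ∀ p, S p → (Om p.1 ∨ Sw p.1) → U p → AdjP A p (p.1, dn p.2) ∧
      N p.1 + hat (dn p.2) = N p.1 + hat p.2 - 1 := by
    intro p hp h1 h2
    have := u1 p hp h1 h2
    refine ⟨Or.inr ⟨rfl, ?_⟩, ?_⟩ <;> simp only [hat, dn] at * <;> omega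
  have dninj : ∀ p q, S p → S q → (Om p.1 ∨ Sw p.1) → U p → (Om q.1 ∨ Sw q.1) → U q →
      (p.1, dn p.2) = (q.1, dn q.2) → p = q := by
    intro p q hp hq a1 a2 b1 b2 g
    have c1 := u1 p hp a1 a2
    have c2 := u1 q hq b1 b2
    rw [Prod.mk.injEq] at g
    refine Prod.ext g.1 ?_
    have := g.2
    simp only [hat, dn] at *
    omega
  -- a vertical target is not a lateral target
  have vl : ∀ p q, S p → S q → (Om p.1 ∨ Sw p.1) → U p → ¬ ((Om q.1 ∨ Sw q.1) ∧ U q) →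
      ∀ w, N w = N q.1 - 1 → (p.1, dn p.2) = (w, q.2) → p.1 = w ∧ ¬ Om q.1 ∧ ¬ Sw q.1 := by
    intro p q hp hq a1 a2 b w hw g
    rw [Prod.mk.injEq] at g
    have := u3 p q hp hq a1 a2 g.2.symm (by rw [g.1]; omega)
    exact ⟨g.1, fun t => b ⟨Or.inl t, this⟩, fun t => b ⟨Or.inr t, this⟩⟩
  have sl : ∀ p q, S p → S q → Sw p.1 → U p → ¬ ((Om q.1 ∨ Sw q.1) ∧ U q) → e q.1 →
      ∀ w, (f q.1 = w ∨ o q.1 = w) → (p.1, dn p.2) ≠ (w, q.2) ∧ (f p.1, p.2) ≠ (w, q.2) := by
    intro p q hp hq a1 a2 b eq w hw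
    have lq := u2 q hq b
    have hN : N w = N q.1 - 1 := by
      rcases hw with rfl | rfl
      · exact (h.adj _ lq).2
      · exact (h.adj' _ lq eq).2.1
    constructor
    · intro g
      obtain ⟨g1, g2, -⟩ := vl p q hp hq (Or.inr a1) a2 b w hN g
      exact (hc.c3 _ g2 eq w hw).1 (g1 ▸ a1)
    · intro g
      rw [Prod.mk.injEq] at g
      have := (h.adj _ (swl _ a1)).2
      have hu := u4 p q a2 g.2.symm (by rw [g.1] at this; omega)
      exact (hc.c3 _ (fun t => b ⟨Or.inl t, hu⟩) eq w hw).2 _ a1 g.1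
  refine ⟨fun p hp => ?_, fun p hp ep => ?_, fun p q hp hq ep eq g => ?_,
    fun p q hp hq ep eq hne => ?_⟩
  · rcases tri (U := U) hc p with ⟨a1, a2, -, a4⟩ | ⟨a1, a2, -, a4, -⟩ | ⟨a1, -, a4, -⟩
    · rw [a4]; exact vert p hp (Or.inl a1) a2
    · rw [a4]; exact vert p hp (Or.inr a1) a2
    · rw [a4]
      have := h.adj _ (u2 p hp a1)
      exact ⟨Or.inl ⟨this.1, rfl⟩, by have := this.2; simp only; omega⟩
  · rcases tri (U := U) hc p with ⟨-, -, a3, -⟩ | ⟨a1, a2, -, a4, a5⟩ | ⟨a1, a3, a4, a5⟩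
    · exact absurd ep a3
    · rw [a4, a5]
      have := h.adj _ (swl _ a1)
      refine ⟨Or.inl ⟨this.1, rfl⟩, by have := this.2; simp only; omega, fun g => ?_⟩
      rw [Prod.mk.injEq] at g
      exact hc.c0 _ (g.1 ▸ (hc.c1 _ a1).2) a1
    · rw [a4, a5]
      have := h.adj' _ (u2 p hp a1) (a3.1 ep)
      refine ⟨Or.inl ⟨this.1, rfl⟩, by have := this.2.1; simp only; omega, fun g => ?_⟩
      rw [Prod.mk.injEq] at g
      exact this.2.2 g.1
  · rcases tri (U := U) hc p with ⟨a1, a2, -, a4⟩ | ⟨-, -, a3, -⟩ | ⟨a1, a3, a4, -⟩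
    · rcases tri (U := U) hc q with ⟨b1, b2, -, b4⟩ | ⟨-, -, b3, -⟩ | ⟨b1, b3, b4, -⟩
      · rw [a4, b4] at g
        exact dninj p q hp hq (Or.inl a1) a2 (Or.inl b1) b2 g
      · exact absurd b3 eq
      · rw [a4, b4] at g
        obtain ⟨g1, g2, g3⟩ := vl p q hp hq (Or.inl a1) a2 b1 _ (h.adj _ (u2 q hq b1)).2 g
        exact absurd (g1 ▸ a1) (hc.c2 _ g2 g3 (fun t => eq (b3.2 t)))
    · exact absurd a3 ep
    · rcases tri (U := U) hc q with ⟨b1, b2, -, b4⟩ | ⟨-, -, b3, -⟩ | ⟨b1, b3, b4, -⟩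
      · rw [a4, b4] at g
        obtain ⟨g1, g2, g3⟩ := vl q p hq hp (Or.inl b1) b2 a1 _ (h.adj _ (u2 p hp a1)).2 g.symm
        exact absurd (g1 ▸ b1) (hc.c2 _ g2 g3 (fun t => ep (a3.2 t)))
      · exact absurd b3 eq
      · rw [a4, b4, Prod.mk.injEq] at g
        exact Prod.ext (h.inj _ _ (u2 p hp a1) (u2 q hq b1) (fun t => ep (a3.2 t))
          (fun t => eq (b3.2 t)) g.1) g.2
  · rcases tri (U := U) hc p with ⟨-, -, a3, -⟩ | ⟨a1, a2, -, a4, a5⟩ | ⟨a1, a3, a4, a5⟩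
    · exact absurd ep a3
    · rcases tri (U := U) hc q with ⟨-, -, b3, -⟩ | ⟨b1, b2, -, b4, b5⟩ | ⟨b1, b3, b4, b5⟩
      · exact absurd eq b3
      · rw [a4, a5, b4, b5]
        refine ⟨fun g => hne (dninj p q hp hq (Or.inr a1) a2 (Or.inr b1) b2 g), fun g => ?_,
          fun g => ?_⟩
        · rw [Prod.mk.injEq] at g
          exact hc.c0 _ (g.1 ▸ (hc.c1 _ b1).2) a1
        · rw [Prod.mk.injEq] at g
          exact hne (Prod.ext (h.inj _ _ (swl _ a1) (swl _ b1) (hc.c1 _ a1).1 (hc.c1 _ b1).1 g.1)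
            g.2)
      · rw [a4, a5, b4, b5]
        have s1 := sl p q hp hq a1 a2 b1 (b3.1 eq) _ (Or.inl rfl)
        have s2 := sl p q hp hq a1 a2 b1 (b3.1 eq) _ (Or.inr rfl)
        exact ⟨s1.1, s2.1, s2.2⟩
    · rcases tri (U := U) hc q with ⟨-, -, b3, -⟩ | ⟨b1, b2, -, b4, b5⟩ | ⟨b1, b3, b4, b5⟩
      · exact absurd eq b3
      · rw [a4, a5, b4, b5]
        have s1 := sl q p hq hp b1 b2 a1 (a3.1 ep) _ (Or.inl rfl)
        have s2 := sl q p hq hp b1 b2 a1 (a3.1 ep) _ (Or.inr rfl)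
        exact ⟨s1.1.symm, s1.2.symm, s2.2.symm⟩
      · rw [a4, a5, b4, b5]
        by_cases h1 : p.1 = q.1
        · have h2 : p.2 ≠ q.2 := fun t => hne (Prod.ext h1 t)
          refine ⟨fun g => h2 ?_, fun g => h2 ?_, fun g => h2 ?_⟩ <;> exact (Prod.mk.inj g).2
        · have := h.disj _ _ (u2 p hp a1) (u2 q hq b1) (a3.1 ep) (b3.1 eq) h1
          exact ⟨fun g => this.1 (Prod.mk.inj g).1, fun g => this.2.1 (Prod.mk.inj g).1,
            fun g => this.2.2 (Prod.mk.inj g).1⟩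

theorem Lev.prod (h : Lev A N ρ (k + 2) e f o) :
    ∃ (ρ' : ℤ) (e' : α × ℤ → Prop) (f' o' : α × ℤ → α × ℤ),
      Lev (AdjP A) (fun p => N p.1 + hat p.2) ρ' k e' f' o' := by
  obtain ⟨Om, Sw, hc⟩ := h.exists_cl (le_refl ρ)
  let U : α × ℤ → Prop := fun _ => True
  obtain ⟨p1, p2, p3, p4⟩ := prod_step (U := U) h hc (le_refl ρ)
    (fun p => ρ + k + 4 ≤ N p.1 + hat p.2)
    (fun p hp a _ => by have := hc.hi _ a; omega)
    (fun p _ a => not_lt.1 (fun g => a ⟨Or.inl (hc.lo _ g), trivial⟩))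
    (fun _ _ _ _ _ _ _ _ => trivial) (fun _ _ _ _ _ => trivial)
  refine ⟨ρ + k + 4, eP e Om Sw U, fP f Om Sw U, oP f o Sw U, p1, p2, p3, p4, ?_⟩
  have key : ∀ (w : α × ℤ), ¬ Om w.1 → ∀ (j : ℕ) (z : α × ℤ),
      Reach (eP e Om Sw U) (fP f Om Sw U) z w j →
      z.2 = w.2 ∧ Reach e f z.1 w.1 j ∧ ¬ Om z.1 ∧ (1 ≤ j → ¬ Sw z.1) := by
    intro w hw j
    induction j with
    | zero => intro z hz; cases hz; exact ⟨rfl, rfl, hw, by omega⟩
    | succ j ih =>
      intro z hz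
      obtain ⟨i1, i2, i3, -⟩ := ih _ hz.2
      rcases tri (U := U) hc z with ⟨a1, -, -, a4⟩ | ⟨-, -, a3, -⟩ | ⟨a1, a3, a4, -⟩
      · rw [a4] at i3
        exact absurd a1 i3
      · exact absurd a3 hz.1
      · rw [a4] at i1 i2
        exact ⟨i1, ⟨fun t => hz.1 (a3.2 t), i2⟩, fun t => a1 ⟨Or.inl t, trivial⟩,
          fun _ t => a1 ⟨Or.inr t, trivial⟩⟩
  intro z w j j1 j2 _ hN hr ew x _ ex
  have hw : ¬ Om w.1 := by
    rcases ew with g | g
    · exact fun t => hc.c0 _ t g.1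
    · exact fun t => g.1 ⟨Or.inl t, trivial⟩
  obtain ⟨k1, k2, k3, k4⟩ := key w hw j z hr
  have k5 := k4 j1
  have hN' : N z.1 = N w.1 + j := by rw [k1] at hN; omega
  have tgt : ∀ x', ¬ Om x' → e x' → f x' ≠ z.1 ∧ o x' ≠ z.1 := by
    intro x' a b
    rcases ew with g | g
    · exact hc.c4 _ _ j j1 j2 hN' k2 g.1 x' a b
    · exact h.far _ _ j j1 (by omega) (not_lt.1 (fun t => hw (hc.lo _ t))) hN' k2 g.2 x'
        (not_lt.1 (fun t => a (hc.lo _ t))) b
  rcases tri (U := U) hc x with ⟨-, -, a3, -⟩ | ⟨a1, -, -, a4, a5⟩ | ⟨a1, a3, a4, a5⟩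
  · exact absurd ex a3
  · rw [a4, a5]
    constructor
    · rintro rfl
      exact k5 a1
    · rintro rfl
      exact k3 (hc.c1 _ a1).2
  · rw [a4, a5]
    have := tgt x.1 (fun t => a1 ⟨Or.inl t, trivial⟩) (a3.1 ex)
    constructor
    · rintro rfl
      exact this.1 rfl
    · rintro rfl
      exact this.2 rfl

end prod

lemma Lev.transport {β : Type*} {A : α → α → Prop} {N : α → ℤ} {ρ : ℤ} {k : ℕ} {e : α → Prop}
    {f o : α → α} (h : Lev A N ρ k e f o) (ψ : β ≃ α) {B : β → β → Prop} {M : β → ℤ}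
    (hB : ∀ x y, A (ψ x) (ψ y) → B x y) (hM : ∀ x, M x = N (ψ x)) :
    Lev B M ρ k (fun x => e (ψ x)) (fun x => ψ.symm (f (ψ x))) (fun x => ψ.symm (o (ψ x))) := by
  have hr : ∀ (j : ℕ) (z w : β), Reach (fun x => e (ψ x)) (fun x => ψ.symm (f (ψ x))) z w j →
      Reach e f (ψ z) (ψ w) j := by
    intro j
    induction j with
    | zero => intro z w g; cases g; rfl
    | succ j ih =>
      intro z w g
      refine ⟨g.1, ?_⟩
      simpa using ih _ _ g.2
  simp only [funext hM]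
  refine ⟨fun z hz => ?_, fun z hz ez => ?_, fun z z' a b c d g => ?_,
    fun z z' a b c d g => ?_, fun z w j a b c d g ew x hx ex => ?_⟩
  · have := h.adj _ hz
    exact ⟨hB _ _ (by simpa using this.1), by simpa using this.2⟩
  · have := h.adj' _ hz ez
    exact ⟨hB _ _ (by simpa using this.1), by simpa using this.2.1, by simpa using this.2.2⟩
  · exact ψ.injective (h.inj _ _ a b c d (ψ.symm.injective g))
  · simpa using h.disj _ _ a b c d (fun t => g (ψ.injective t))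
  · have := h.far _ _ j a b c d (hr j z w g) ew _ hx ex
    constructor
    · intro t
      exact this.1 (by rw [← t]; simp)
    · intro t
      exact this.2 (by rw [← t]; simp)

/-- Nearest-neighbour adjacency of `ℤ^D`. -/
def Adj {D : ℕ} (x y : Fin D → ℤ) : Prop := ∑ j, |y j - x j| = 1

/-- Folded `ℓ¹` norm. -/
def nrm {D : ℕ} (x : Fin D → ℤ) : ℤ := ∑ j, hat (x j)

lemma Adj.symm {D : ℕ} (x y : Fin D → ℤ) (h : Adj x y) : Adj y x := by
  unfold Adj at *
  rw [← h]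
  exact Finset.sum_congr rfl (fun j _ => abs_sub_comm _ _)

/-- Splitting off the first coordinate. -/
def splitE (D : ℕ) : (Fin (D + 1) → ℤ) ≃ (Fin D → ℤ) × ℤ where
  toFun x := (Fin.tail x, x 0)
  invFun p := Fin.cons p.2 p.1
  left_inv x := by simp
  right_inv p := by simp

lemma adj_split {D : ℕ} (x y : Fin (D + 1) → ℤ) :
    AdjP Adj (splitE D x) (splitE D y) ↔ Adj x y := by
  unfold AdjP Adj
  rw [Fin.sum_univ_succ]
  simp only [splitE, Equiv.coe_fn_mk, Fin.tail]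
  have hn : 0 ≤ ∑ j : Fin D, |y j.succ - x j.succ| := Finset.sum_nonneg (fun _ _ => abs_nonneg _)
  have hz : ∑ j : Fin D, |y j.succ - x j.succ| = 0 ↔ Fin.tail x = Fin.tail y := by
    rw [Finset.sum_eq_zero_iff_of_nonneg (fun _ _ => abs_nonneg _), funext_iff]
    simp only [Finset.mem_univ, forall_true_left, abs_eq_zero, sub_eq_zero, Fin.tail]
    exact forall_congr' (fun j => eq_comm)
  rw [← hz]
  rcases abs_cases (y 0 - x 0) with g | g <;> omega

lemma nrm_split {D : ℕ} (x : Fin (D + 1) → ℤ) :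
    nrm x = nrm (splitE D x).1 + hat (splitE D x).2 := by
  unfold nrm
  rw [Fin.sum_univ_succ, add_comm]
  rfl

theorem exists_lev (D : ℕ) : ∀ k : ℕ, ∃ (ρ : ℤ) (e : (Fin D → ℤ) → Prop)
    (f o : (Fin D → ℤ) → (Fin D → ℤ)), Lev Adj nrm ρ k e f o := by
  induction D with
  | zero =>
    intro k
    refine ⟨1, fun _ => False, id, id, ?_, ?_, ?_, ?_, ?_⟩ <;> simp [nrm]
  | succ D ih =>
    intro k
    obtain ⟨ρ, e, f, o, h⟩ := ih (k + 2)
    obtain ⟨ρ', e', f', o', h'⟩ := h.prod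
    exact ⟨ρ', _, _, _, h'.transport (splitE D) (fun x y g => (adj_split x y).1 g) nrm_split⟩

end Pool.Agent.MP_1479fb_pr

end MrgPart1

-- ======== part 2: formerly Pool.Agent.MP_1479fb_pr.Thin
section MrgPart2

/-! Thinning a bundle of parallel vertical wires to two wires. -/

set_option autoImplicit false

namespace Pool.Agent.MP_1479fb_pr

variable {α : Type*}

theorem win_lay' {A : α → α → Prop} (hs : ∀ x y, A x y → A y x) {t : α → ℤ} {e : α → Prop}
    {f o : α → α} {F' H' : Set α} (h : Win A F' ∅ H') {S : Set α} (hS : S.Finite)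
    {F H : Set α} (hl : Lay A S F ∅ t e f o)
    (hF : ∀ x ∈ F', x ∈ F ∧ ∀ s ∈ S, f s ≠ x ∧ (e s → o s ≠ x))
    (hH : ∀ x ∈ H, x ∉ S → x ∈ H') (hf : ∀ s ∈ S, f s ∉ S → f s ∈ H')
    (ho : ∀ s ∈ S, e s → o s ∉ S → o s ∈ H') : Win A F ∅ H := by
  refine win_lay hs (t := t) (e := e) (f := f) (o := o) h hS.toFinset F ∅ H (by simpa using hl)
    (by simpa using hF) ?_
  intro x hx hx'
  rw [Set.Finite.mem_toFinset] at hx
  rcases hx' with g | g | ⟨s, hs, g | g⟩
  · exact absurd g (by simp)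
  · exact hH x g hx
  · rw [Set.Finite.mem_toFinset] at hs
    exact g ▸ hf s hs (g.symm ▸ hx)
  · rw [Set.Finite.mem_toFinset] at hs
    exact g.2 ▸ ho s hs g.1 (g.2.symm ▸ hx)

/-- Moving a finite set of sites one step vertically. -/
theorem win_up {A : α → α → Prop} {B : α × ℤ → α × ℤ → Prop} (hs : ∀ x y, B x y → B y x)
    (hB : ∀ x y, AdjP A x y → B x y) {σ : ℤ} (hσ : σ = 1 ∨ σ = -1)
    {F' H' : Set (α × ℤ)} (h : Win B F' ∅ H') {S : Set (α × ℤ)} (hS : S.Finite)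
    {F H : Set (α × ℤ)} (h1 : ∀ p ∈ S, (p.1, p.2 + σ) ∈ F)
    (hF : ∀ x ∈ F', x ∈ F ∧ (x.1, x.2 - σ) ∉ S)
    (hH : ∀ x ∈ H, x ∉ S → x ∈ H')
    (hf : ∀ p ∈ S, (p.1, p.2 + σ) ∉ S → (p.1, p.2 + σ) ∈ H') : Win B F ∅ H := by
  refine win_lay' hs (t := fun p => σ * p.2) (e := fun _ => False)
    (f := fun p => (p.1, p.2 + σ)) (o := id) h hS
    ⟨fun s _ => hB _ _ (Or.inr ⟨rfl, ?_⟩), by simp, fun s _ _ => ?_, by simp,
      fun s hs _ => h1 s hs, fun s _ s' _ _ _ g => ?_, by simp, by simp, by simp⟩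
    (fun x hx => ⟨(hF x hx).1, fun s hs => ⟨fun g => (hF x hx).2 ?_, by simp⟩⟩) hH hf (by simp)
  · simp only; omega
  · rcases hσ with rfl | rfl <;> simp only <;> omega
  · rw [Prod.mk.injEq] at g
    exact Prod.ext g.1 (by have := g.2; omega)
  · rw [← g]
    simpa using hs

/-- A bundle of vertical wires over `R` can be reduced to wires over `R'` within `n` layers. -/
def Thin (A : α → α → Prop) (R R' : Set α) (n : ℤ) : Prop :=
  ∀ B : α × ℤ → α × ℤ → Prop, (∀ x y, B x y → B y x) → (∀ x y, AdjP A x y → B x y) →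
    ∀ σ : ℤ, (σ = 1 ∨ σ = -1) → ∀ (y : ℤ) (F H F' H' : Set (α × ℤ)), Win B F' ∅ H' →
      (∀ p : α × ℤ, p.1 ∈ R → 1 ≤ σ * (p.2 - y) → σ * (p.2 - y) ≤ n → p ∈ F) →
      (∀ p ∈ F', p ∈ F ∧ ¬ (p.1 ∈ R ∧ 1 ≤ σ * (p.2 - y) ∧ σ * (p.2 - y) ≤ n)) →
      (∀ p ∈ H, ¬ (p.1 ∈ R ∧ p.2 = y) → p ∈ H') →
      (∀ z ∈ R', (z, y + σ * n) ∈ H') → Win B F ∅ H

lemma Thin.mono {A : α → α → Prop} {R R' R'' : Set α} {n : ℤ} (h : Thin A R R' n)
    (h' : R' ⊆ R'') : Thin A R R'' n :=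
  fun B a b σ c y F H F' H' d e f g i => h B a b σ c y F H F' H' d e f g (fun z hz => i z (h' hz))

lemma Thin.trans {A : α → α → Prop} {R R' R'' : Set α} {n n' : ℤ} (h : Thin A R R' n)
    (h' : Thin A R' R'' n') (hR : R' ⊆ R) (hn : 0 ≤ n) (hn' : 0 ≤ n') :
    Thin A R R'' (n + n') := by
  intro B a b σ c y F H F' H' d e f g i
  refine h B a b σ c y F H {p | p ∈ F ∧ ¬ (p.1 ∈ R ∧ 1 ≤ σ * (p.2 - y) ∧ σ * (p.2 - y) ≤ n)}
    {p | (p ∈ H ∧ ¬ (p.1 ∈ R ∧ p.2 = y)) ∨ (p.1 ∈ R' ∧ p.2 = y + σ * n)} ?_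
    (fun p a1 a2 a3 => e p a1 a2 (by omega)) (fun p hp => hp) (fun p a1 a2 => Or.inl ⟨a1, a2⟩)
    (fun z hz => Or.inr ⟨hz, rfl⟩)
  refine h' B a b σ c (y + σ * n) _ _ F' H' d (fun p a1 a2 a3 => ?_) (fun p hp => ?_)
    (fun p a1 a2 => ?_) (fun z hz => ?_)
  · refine ⟨e p (hR a1) ?_ ?_, fun t => ?_⟩ <;> rcases c with rfl | rfl <;> omega
  · obtain ⟨a1, a2⟩ := f p hp
    refine ⟨⟨a1, fun t => a2 ⟨t.1, t.2.1, by omega⟩⟩, fun t => a2 ⟨hR t.1, ?_, ?_⟩⟩ <;>
      rcases c with rfl | rfl <;> omega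
  · rcases a1 with a1 | a1
    · exact g p a1.1 a1.2
    · exact absurd a1 a2
  · have := i z hz
    rwa [mul_add, ← add_assoc] at this

lemma thin_zero (A : α → α → Prop) (R : Set α) : Thin A R R 0 := by
  intro B a b σ c y F H F' H' d e f g i
  refine d.mono (fun p hp => (f p hp).1) (by simp) (fun p hp => Or.inr ?_)
  by_cases h : p.1 ∈ R ∧ p.2 = y
  · have := i _ h.1
    rwa [mul_zero, add_zero, ← h.2] at this
  · exact g p (hp.resolve_left (by simp)) h

open Classical in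
theorem thin_ladder {A : α → α → Prop} {R : Set α} (hR : R.Finite) (mv : α → Prop) (nx : α → α)
    (μ : α → ℤ) (h0 : ∀ z ∈ R, 0 ≤ μ z)
    (h1 : ∀ z ∈ R, mv z → nx z ∈ R ∧ A z (nx z) ∧ μ z < μ (nx z))
    (h2 : ∀ z ∈ R, ∀ z' ∈ R, mv z → mv z' → nx z = nx z' → z = z') :
    Thin A R {z | z ∈ R ∧ (¬ mv z ∨ ¬ mv (nx z))} 3 := by
  intro B hs hB σ hσ y F H F' H' hw hF hF' hH hO
  let S : Set (α × ℤ) := {p | p.1 ∈ R ∧ (p.2 = y ∨ p.2 = y + σ ∨ p.2 = y + 2 * σ)}
  have hS : S.Finite := by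
    refine (hR.prod (Set.toFinite ({y, y + σ, y + 2 * σ} : Set ℤ))).subset ?_
    intro p hp
    exact ⟨hp.1, by simpa using hp.2⟩
  let f : α × ℤ → α × ℤ := fun p =>
    if p.2 = y + 2 * σ ∧ mv p.1 ∧ mv (nx p.1) then (nx p.1, p.2) else (p.1, p.2 + σ)
  have hf : ∀ p, ((p.2 = y + 2 * σ ∧ mv p.1 ∧ mv (nx p.1)) ∧ f p = (nx p.1, p.2)) ∨
      (¬ (p.2 = y + 2 * σ ∧ mv p.1 ∧ mv (nx p.1)) ∧ f p = (p.1, p.2 + σ)) := by
    intro p
    by_cases h : p.2 = y + 2 * σ ∧ mv p.1 ∧ mv (nx p.1)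
    · exact Or.inl ⟨h, if_pos h⟩
    · exact Or.inr ⟨h, if_neg h⟩
  have fin : ∀ p ∈ S, (f p).1 ∈ R ∧ 1 ≤ σ * ((f p).2 - y) ∧ σ * ((f p).2 - y) ≤ 3 := by
    intro p hp
    have := hp.2
    rcases hf p with ⟨a, b⟩ | ⟨a, b⟩ <;> rw [b]
    · refine ⟨(h1 _ hp.1 a.2.1).1, ?_⟩
      have := a.1
      rcases hσ with rfl | rfl <;> simp only <;> omega
    · refine ⟨hp.1, ?_⟩
      rcases hσ with rfl | rfl <;> simp only <;> omega
  have oin : ∀ p ∈ S, p.2 = y + σ ∧ mv p.1 →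
      nx p.1 ∈ R ∧ 1 ≤ σ * (p.2 - y) ∧ σ * (p.2 - y) ≤ 3 := by
    intro p hp a
    refine ⟨(h1 _ hp.1 a.2).1, ?_⟩
    have := a.1
    rcases hσ with rfl | rfl <;> omega
  have hσ0 : σ ≠ 0 := by omega
  refine win_lay' hs
    (t := fun p => if p.2 = y then -1 else if p.2 = y + σ then 2 * μ p.1 else 2 * μ p.1 + 1)
    (e := fun p => p.2 = y + σ ∧ mv p.1) (f := f) (o := fun p => (nx p.1, p.2)) hw hS
    ⟨fun p hp => ?_, fun p hp a => ?_, fun p hp a => ?_, fun p hp a _ => ?_, fun p hp _ => ?_,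
      fun p hp q hq a b g => ?_, fun p hp a => ?_, fun p hp q hq a b g => ?_,
      fun p hp q hq a b g => ?_⟩
    (fun x hx => ⟨(hF' x hx).1, fun p hp => ⟨fun g => (hF' x hx).2 (g ▸ fin p hp),
      fun a g => (hF' x hx).2 (g ▸ oin p hp a)⟩⟩)
    (fun x hx hx' => hH x hx (fun g => hx' ⟨g.1, Or.inl g.2⟩)) (fun p hp a => ?_)
    (fun p hp a b => absurd ⟨(h1 _ hp.1 a.2).1, hp.2⟩ b)
  · rcases hf p with ⟨a, b⟩ | ⟨a, b⟩ <;> rw [b]
    · exact hB _ _ (Or.inl ⟨(h1 _ hp.1 a.2.1).2.1, rfl⟩)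
    · exact hB _ _ (Or.inr ⟨rfl, by simp only; omega⟩)
  · refine ⟨hB _ _ (Or.inl ⟨(h1 _ hp.1 a.2).2.1, rfl⟩), ?_⟩
    rcases hf p with ⟨c, b⟩ | ⟨c, b⟩ <;> rw [b]
    · have := a.1; have := c.1; omega
    · intro g
      have := (Prod.mk.inj g).2
      omega
  · have m0 := h0 _ hp.1
    have := hp.2
    rcases hf p with ⟨c, b⟩ | ⟨c, b⟩ <;> rw [b] at a ⊢
    · have := (h1 _ hp.1 c.2.1).2.2
      have := c.1
      simp only
      split_ifs <;> omega
    · have := a.2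
      simp only at this ⊢
      split_ifs <;> omega
  · have := (h1 _ hp.1 a.2).2.2
    have := a.1
    simp only
    split_ifs <;> omega
  · obtain ⟨a1, a2, a3⟩ := fin p hp
    exact hF _ a1 a2 a3
  · have p2 := hp.2
    have q2 := hq.2
    rcases hf p with ⟨c, d⟩ | ⟨c, d⟩ <;> rcases hf q with ⟨c', d'⟩ | ⟨c', d'⟩ <;>
      rw [d, d', Prod.mk.injEq] at g
    · exact Prod.ext (h2 _ hp.1 _ hq.1 c.2.1 c'.2.1 g.1) g.2
    · have := c.1
      have := g.2
      exact absurd ⟨by omega, g.1 ▸ c.2.2⟩ b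
    · have := c'.1
      have := g.2
      exact absurd ⟨by omega, g.1 ▸ c'.2.2⟩ a
    · exact Prod.ext g.1 (by have := g.2; omega)
  · obtain ⟨a1, a2, a3⟩ := fin p hp
    obtain ⟨b1, b2, b3⟩ := oin p hp a
    exact ⟨Or.inl (hF _ a1 a2 a3), Or.inl (hF _ b1 b2 b3)⟩
  · have e1 := a.1
    have e2 := b.1
    rcases hf p with ⟨c, d⟩ | ⟨c, d⟩
    · have := c.1; omega
    rcases hf q with ⟨c', d'⟩ | ⟨c', d'⟩
    · have := c'.1; omega
    rw [d, d']
    refine ⟨fun t => g (Prod.ext (Prod.mk.inj t).1 (by omega)), fun t => ?_,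
      fun t => g (Prod.ext (h2 _ hp.1 _ hq.1 a.2 b.2 (Prod.mk.inj t).1) (by omega))⟩
    have := (Prod.mk.inj t).2
    omega
  · have e1 := a.1
    have m0 := h0 _ hp.1
    have q2 := hq.2
    rcases hf p with ⟨c, d⟩ | ⟨c, d⟩
    · have := c.1; omega
    rw [d] at g
    rcases hf q with ⟨c', d'⟩ | ⟨c', d'⟩ <;> rw [d'] at g
    · have e2 := c'.1
      have := (h1 _ hq.1 c'.2.1).2.2
      rcases g with g | g
      · rw [(Prod.mk.inj g).1] at this
        split_ifs <;> omega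
      · have := (Prod.mk.inj g).2
        omega
    · rcases g with g | g
      · have e3 := (Prod.mk.inj g).2
        exact absurd ⟨by omega, (Prod.mk.inj g).1 ▸ a.2⟩ b
      · have e3 := (Prod.mk.inj g).2
        split_ifs <;> omega
  · have p2 := hp.2
    rcases hf p with ⟨c, d⟩ | ⟨c, d⟩ <;> rw [d] at a ⊢
    · exact absurd ⟨(h1 _ hp.1 c.2.1).1, hp.2⟩ a
    · have e1 : p.2 = y + 2 * σ := by
        by_contra t
        exact a ⟨hp.1, by simp only; omega⟩
      have e2 : p.2 + σ = y + σ * 3 := by omega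
      rw [e2]
      refine hO _ ⟨hp.1, ?_⟩
      by_contra t
      push Not at t
      exact c ⟨e1, t⟩

variable {D : ℕ}

lemma nrm_update (z : Fin D → ℤ) (i : Fin D) (v : ℤ) :
    nrm (Function.update z i v) = nrm z - hat (z i) + hat v := by
  unfold nrm
  rw [← Finset.add_sum_erase _ _ (Finset.mem_univ i),
    ← Finset.add_sum_erase _ (fun j => hat (z j)) (Finset.mem_univ i), Function.update_self,
    Finset.sum_congr rfl (fun j hj => by
      rw [Function.update_of_ne (Finset.ne_of_mem_erase hj)])]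
  ring

lemma adj_update (z : Fin D → ℤ) (i : Fin D) (v : ℤ) (h : v = z i + 1 ∨ z i = v + 1) :
    Adj z (Function.update z i v) := by
  unfold Adj
  rw [Finset.sum_eq_single i]
  · rw [Function.update_self]
    rcases abs_cases (v - z i) with g | g <;> omega
  · intro j _ hj
    rw [Function.update_of_ne hj]; simp
  · simp

lemma hat_nonneg (y : ℤ) : 0 ≤ hat y := by unfold hat; omega

lemma hat_le_nrm (z : Fin D → ℤ) (i : Fin D) : hat (z i) ≤ nrm z :=
  Finset.single_le_sum (f := fun j => hat (z j)) (fun _ _ => hat_nonneg _) (Finset.mem_univ i)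

lemma nrm_nonneg (z : Fin D → ℤ) : 0 ≤ nrm z := Finset.sum_nonneg (fun _ _ => hat_nonneg _)

lemma finite_nrm (m : ℤ) : {z : Fin D → ℤ | nrm z ≤ m}.Finite := by
  refine (Set.Finite.pi' (fun _ : Fin D => Set.finite_Icc (-1 - m) m)).subset ?_
  intro z hz i
  have := hat_le_nrm z i
  have hz : nrm z ≤ m := hz
  unfold hat at this
  constructor <;> omega

lemma update_eq_iff' {z z' : Fin D → ℤ} {i : Fin D} {v v' : ℤ}
    (h : Function.update z i v = Function.update z' i v') (h' : z i = z' i) : z = z' := by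
  funext j
  by_cases hj : j = i
  · rw [hj, h']
  · have := congrFun h j
    rwa [Function.update_of_ne hj, Function.update_of_ne hj] at this

lemma thin_row {R : Set (Fin D → ℤ)} (hR : R.Finite) (i : Fin D) {τ : ℤ} (hτ : τ = 1 ∨ τ = -1)
    (c M : ℤ) (hM : ∀ z ∈ R, τ * z i ≤ M)
    (hc : ∀ z ∈ R, c < τ * z i → Function.update z i (z i - τ) ∈ R) :
    Thin Adj R {z | z ∈ R ∧ τ * z i ≤ c + 1} 3 := by
  refine (thin_ladder hR (fun z => c < τ * z i) (fun z => Function.update z i (z i - τ))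
    (fun z => M - τ * z i) (fun z hz => by have := hM z hz; omega)
    (fun z hz a => ⟨hc z hz a, adj_update _ _ _ (by omega), ?_⟩)
    (fun z _ z' _ _ _ g => update_eq_iff' g ?_)).mono (fun z hz => ⟨hz.1, ?_⟩)
  · simp only [Function.update_self]
    rcases hτ with rfl | rfl <;> omega
  · have := congrFun g i
    simp only [Function.update_self] at this
    omega
  · have := hz.2
    simp only [Function.update_self] at this
    rcases hτ with rfl | rfl <;> omega

lemma thin_snake {R : Set (Fin D → ℤ)} (hR : R.Finite) {i j : Fin D} (hij : i ≠ j) {τ : ℤ}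
    (hτ : τ = 1 ∨ τ = -1) (M : ℤ) (hM : ∀ z ∈ R, τ * z j ≤ M)
    (h0 : ∀ z ∈ R, z i = -1 ∨ z i = 0)
    (h1 : ∀ z ∈ R, Function.update z i (-1 - z i) ∈ R)
    (h2 : ∀ z ∈ R, 0 < τ * z j → Function.update z j (z j - τ) ∈ R) :
    Thin Adj R {z | z ∈ R ∧ τ * z j ≤ 0} 3 := by
  let nx : (Fin D → ℤ) → (Fin D → ℤ) := fun z =>
    if z i = z j % 2 - 1 then Function.update z i (-1 - z i) else Function.update z j (z j - τ)
  have hn : ∀ z, (z i = z j % 2 - 1 ∧ nx z = Function.update z i (-1 - z i) ∧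
      nx z i = -1 - z i ∧ nx z j = z j) ∨
      (z i ≠ z j % 2 - 1 ∧ nx z = Function.update z j (z j - τ) ∧
      nx z i = z i ∧ nx z j = z j - τ) := by
    intro z
    by_cases h : z i = z j % 2 - 1
    · have e : nx z = Function.update z i (-1 - z i) := if_pos h
      exact Or.inl ⟨h, e, by rw [e, Function.update_self],
        by rw [e, Function.update_of_ne hij.symm]⟩
    · have e : nx z = Function.update z j (z j - τ) := if_neg h
      exact Or.inr ⟨h, e, by rw [e, Function.update_of_ne hij],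
        by rw [e, Function.update_self]⟩
  refine (thin_ladder hR (fun z => 0 < τ * z j ∨ (z j = 0 ∧ z i = -1)) nx
    (fun z => 2 * (M - τ * z j) + if z i = z j % 2 - 1 then 0 else 1)
    (fun z hz => by have := hM z hz; split_ifs <;> omega)
    (fun z hz a => ?_) (fun z hz z' hz' a a' g => ?_)).mono (fun z hz => ⟨hz.1, ?_⟩)
  · have := h0 z hz
    rcases hn z with ⟨b, c, d, e⟩ | ⟨b, c, d, e⟩
    · refine ⟨c ▸ h1 z hz, c ▸ adj_update _ _ _ (by omega), ?_⟩
      rw [d, e]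
      split_ifs <;> omega
    · refine ⟨c ▸ h2 z hz (by omega), c ▸ adj_update _ _ _ (by omega), ?_⟩
      rw [d, e]
      rcases hτ with rfl | rfl <;> split_ifs <;> omega
  · have e1 := h0 z hz
    have e2 := h0 z' hz'
    have g1 := congrFun g i
    have g2 := congrFun g j
    rcases hn z with ⟨b, c, d, e⟩ | ⟨b, c, d, e⟩ <;>
      rcases hn z' with ⟨b', c', d', e'⟩ | ⟨b', c', d', e'⟩
    · rw [c, c'] at g
      exact update_eq_iff' g (by omega)
    · omega
    · omega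
    · rw [c, c'] at g
      exact update_eq_iff' g (by omega)
  · have e1 := h0 z hz.1
    have := hz.2
    rcases hn z with ⟨b, c, d, e⟩ | ⟨b, c, d, e⟩ <;> rw [d, e] at this <;>
      rcases hτ with rfl | rfl <;> omega

theorem thin_ball (m : ℤ) :
    Thin Adj {z : Fin (D + 1) → ℤ | nrm z ≤ m}
      {z | nrm z ≤ m ∧ (z 0 = -1 ∨ z 0 = 0) ∧ ∀ j : Fin D, z j.succ = 0} (6 * (D + 1)) := by
  have bd : ∀ z : Fin (D + 1) → ℤ, nrm z ≤ m → ∀ i, ∀ τ : ℤ, (τ = 1 ∨ τ = -1) →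
      τ * z i ≤ m + 1 := by
    intro z hz i τ hτ
    have := hat_le_nrm z i
    unfold hat at this
    rcases hτ with rfl | rfl <;> omega
  have key : ∀ n : ℕ, n ≤ D → Thin Adj {z : Fin (D + 1) → ℤ | nrm z ≤ m}
      {z | nrm z ≤ m ∧ (z 0 = -1 ∨ z 0 = 0) ∧ ∀ j : Fin D, j.val < n → z j.succ = 0}
      (6 * (n + 1)) := by
    intro n
    induction n with
    | zero =>
      intro _
      have t1 := thin_row (finite_nrm (D := D + 1) m) 0 (τ := -1) (Or.inr rfl) 0 (m + 1)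
        (fun z hz => bd z hz 0 _ (Or.inr rfl)) (fun z hz a => by
          have hz : nrm z ≤ m := hz
          show nrm _ ≤ m
          rw [nrm_update]; unfold hat; omega)
      have t2 := thin_row (R := {z | z ∈ {z : Fin (D + 1) → ℤ | nrm z ≤ m} ∧ -1 * z 0 ≤ 0 + 1})
        ((finite_nrm (D := D + 1) m).subset (fun z hz => hz.1)) 0 (τ := 1) (Or.inl rfl) (-1)
        (m + 1) (fun z hz => bd z hz.1 0 _ (Or.inl rfl)) (fun z hz a => by
          have hz1 : nrm z ≤ m := hz.1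
          refine ⟨?_, ?_⟩
          · show nrm _ ≤ m
            rw [nrm_update]; unfold hat; omega
          · rw [Function.update_self]; omega)
      refine (t1.trans t2 (fun z hz => hz.1) (by norm_num) (by norm_num)).mono ?_
      intro z hz
      have a1 := hz.1.2
      have a2 := hz.2
      exact ⟨hz.1.1, by omega, by simp⟩
    | succ n ih =>
      intro hn
      let k : Fin D := ⟨n, by omega⟩
      let R : Set (Fin (D + 1) → ℤ) :=
        {z | nrm z ≤ m ∧ (z 0 = -1 ∨ z 0 = 0) ∧ ∀ j : Fin D, j.val < n → z j.succ = 0}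
      have hR : R.Finite := (finite_nrm (D := D + 1) m).subset (fun z hz => hz.1)
      have hk : (0 : Fin (D + 1)) ≠ k.succ := (Fin.succ_ne_zero k).symm
      have c1 : ∀ z ∈ R, Function.update z 0 (-1 - z 0) ∈ R := by
        intro z hz
        have a1 := hz.1
        have a2 := hz.2.1
        refine ⟨?_, ?_, fun j hj => ?_⟩
        · rw [nrm_update]; unfold hat; omega
        · rw [Function.update_self]; omega
        · rw [Function.update_of_ne (Fin.succ_ne_zero j)]; exact hz.2.2 j hj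
      have c2 : ∀ τ : ℤ, (τ = 1 ∨ τ = -1) → ∀ z ∈ R, 0 < τ * z k.succ →
          Function.update z k.succ (z k.succ - τ) ∈ R := by
        intro τ hτ z hz a
        have a1 := hz.1
        refine ⟨?_, ?_, fun j hj => ?_⟩
        · rw [nrm_update]; unfold hat; rcases hτ with rfl | rfl <;> omega
        · rw [Function.update_of_ne hk]; exact hz.2.1
        · rw [Function.update_of_ne]
          · exact hz.2.2 j hj
          · intro t
            have := congrArg Fin.val (Fin.succ_injective _ t)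
            simp only [k] at this
            omega
      have t1 := thin_snake hR hk (τ := 1) (Or.inl rfl) (m + 1)
        (fun z hz => bd z hz.1 _ _ (Or.inl rfl)) (fun z hz => hz.2.1) c1 (c2 1 (Or.inl rfl))
      have t2 := thin_snake (R := {z | z ∈ R ∧ 1 * z k.succ ≤ 0}) (hR.subset (fun z hz => hz.1))
        hk (τ := -1) (Or.inr rfl) (m + 1)
        (fun z hz => bd z hz.1.1 _ _ (Or.inr rfl)) (fun z hz => hz.1.2.1)
        (fun z hz => ⟨c1 z hz.1, by rw [Function.update_of_ne hk.symm]; exact hz.2⟩)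
        (fun z hz a => ⟨c2 _ (Or.inr rfl) z hz.1 a, by rw [Function.update_self]; omega⟩)
      have t3 := ((ih (by omega)).trans (t1.trans t2 (fun z hz => hz.1) (by norm_num)
        (by norm_num)) (fun z hz => hz.1) (by positivity) (by norm_num))
      have e : (6 * ((n + 1 : ℕ) + 1) : ℤ) = 6 * (n + 1) + (3 + 3) := by push_cast; ring
      rw [e]
      refine t3.mono (fun z hz => ⟨hz.1.1.1, hz.1.1.2.1, fun j hj => ?_⟩)
      by_cases hjn : j.val < n
      · exact hz.1.1.2.2 j hjn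
      · have : j = k := Fin.ext (by simp only [k]; omega)
        have a1 := hz.1.2
        have a2 := hz.2
        rw [this]
        omega
  exact (key D le_rfl).mono (fun z hz => ⟨hz.1, hz.2.1, fun j => hz.2.2 j j.isLt⟩)

end Pool.Agent.MP_1479fb_pr

end MrgPart2

-- ======== part 3: formerly Pool.Agent.MP_1479fb_pr.Cut
section MrgPart3

/-! From a won relinking game to a surgery statement for self-avoiding paths. -/

set_option autoImplicit false

namespace Pool.Agent.MP_1479fb_pr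

variable {α : Type*} {A : α → α → Prop}

lemma trim_tail (W : Set α) (x : α) (hx : x ∉ W) (l : List α) :
    ∃ l₁ l₂ : List α, l = l₁ ++ l₂ ∧ (∀ z ∈ (x :: l₁).getLast?, z ∉ W) ∧ ∀ y ∈ l₂, y ∈ W := by
  induction l using List.reverseRecOn with
  | nil => exact ⟨[], [], rfl, by simpa using hx, by simp⟩
  | append_singleton l a ih =>
    by_cases ha : a ∈ W
    · obtain ⟨l₁, l₂, rfl, h1, h2⟩ := ih
      refine ⟨l₁, l₂ ++ [a], by simp, h1, ?_⟩
      intro y hy
      rcases List.mem_append.1 hy with h | h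
      · exact h2 y h
      · rw [List.mem_singleton.1 h]; exact ha
    · refine ⟨l ++ [a], [], by simp, ?_, by simp⟩
      intro z hz
      rw [← List.cons_append, List.getLast?_concat] at hz
      rw [← Option.some.inj hz]
      exact ha

/-- Cutting a path along its edges inside `W`. -/
lemma decomp (hs : ∀ x y, A x y → A y x) (W H : Set α)
    (hb : ∀ x ∈ W, ∀ y, y ∉ W → A x y → x ∈ H) (l : List α) :
    ∀ x : α, (x :: l).IsChain A → (∀ z ∈ (x :: l).getLast?, z ∉ W) →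
      ((∀ y ∈ l, y ∉ W ∨ y ∈ H) ∧ (x ∈ W → x ∈ H)) ∨
      ∃ (p : List α) (C : List (Piece α)) (b : α) (q : List α),
        ((x :: p) ++ (sites C ++ b :: q)).Sublist (x :: l) ∧
        (b :: q).getLast? = (x :: l).getLast? ∧ (x :: p).IsChain A ∧ Chains A C ∧
        (b :: q).IsChain A ∧ b ∈ H ∧ (∀ y, IsEnd C y → y ∈ H) ∧
        (∀ z ∈ (x :: p).getLast?, z ∈ W) ∧
        (∀ y ∈ x :: l, y ∉ W → y ∈ (x :: p) ++ (sites C ++ b :: q)) ∧
        (∀ y ∈ p ++ (sites C ++ b :: q), y ∉ W ∨ y ∈ H) ∧ (x ∈ W → p ≠ [] → x ∈ H) := by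
  induction l with
  | nil =>
    intro x _ h
    exact Or.inl ⟨by simp, fun hx => absurd hx (h x (by simp))⟩
  | cons x l ih =>
    intro w hc hl
    rw [List.isChain_cons_cons] at hc
    have hl' : ∀ z ∈ (x :: l).getLast?, z ∉ W := by
      intro z hz
      exact hl z (by rw [List.getLast?_cons_cons]; exact hz)
    by_cases hwx : w ∈ W ∧ x ∈ W
    · right
      rcases ih x hc.2 hl' with h | ⟨p, C, b, q, h1, h2, h3, h4, h5, h6, h7, h8, h9, h10, h11⟩
      · refine ⟨[], [], x, l, by simp, by rw [List.getLast?_cons_cons], by simp,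
          by simp [Chains], hc.2, h.2 hwx.2, by simp [IsEnd], by simpa using hwx.1,
          by simp +contextual, ?_, by simp⟩
        intro y hy
        simp only [List.nil_append, sites_nil, List.mem_cons] at hy
        rcases hy with rfl | hy
        · exact Or.inr (h.2 hwx.2)
        · exact h.1 y hy
      · rcases List.eq_nil_or_concat p with rfl | ⟨p', a, rfl⟩
        · refine ⟨[], C, b, q, ?_, by rw [List.getLast?_cons_cons]; exact h2, by simp, h4, h5,
            h6, h7, by simpa using hwx.1, ?_, h10, by simp⟩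
          · exact List.Sublist.cons_cons w ((List.sublist_cons_self x _).trans h1)
          · intro y hy hy'
            rcases List.mem_cons.1 hy with rfl | hy
            · simp
            · have := h9 y hy hy'
              rcases List.mem_cons.1 this with rfl | this
              · exact absurd hwx.2 hy'
              · exact List.mem_cons_of_mem _ this
        · rw [List.concat_eq_append] at *
          have hx : x ∈ H := h11 hwx.2 (by simp)
          have ha : a ∈ H := by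
            have aW : a ∈ W := h8 a (by rw [← List.cons_append, List.getLast?_concat]; rfl)
            exact (h10 a (by simp)).resolve_left (fun h => h aW)
          have e : sites ((x, p', a) :: C) ++ b :: q =
              (x :: (p' ++ [a])) ++ (sites C ++ b :: q) := by simp [pl]
          refine ⟨[], (x, p', a) :: C, b, q, ?_, by rw [List.getLast?_cons_cons]; exact h2,
            by simp, (chains_cons _ _ _).2 ⟨h3, h4⟩, h5, h6, ?_, by simpa using hwx.1, ?_, ?_,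
            by simp⟩
          · rw [e]
            exact List.Sublist.cons_cons w h1
          · intro y hy
            rcases (isEnd_cons _ _ _).1 hy with (h | h) | h
            · exact h ▸ hx
            · exact h ▸ ha
            · exact h7 y h
          · intro y hy hy'
            rcases List.mem_cons.1 hy with rfl | hy
            · simp
            · rw [e]
              exact List.mem_cons_of_mem _ (h9 y hy hy')
          · intro y hy
            rw [e] at hy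
            rcases List.mem_cons.1 hy with rfl | hy
            · exact Or.inr hx
            · exact h10 y hy
    · have hx : x ∉ W ∨ x ∈ H := by
        by_cases h : x ∈ W
        · exact Or.inr (hb x h w (fun h' => hwx ⟨h', h⟩) (hs _ _ hc.1))
        · exact Or.inl h
      have hw : w ∈ W → w ∈ H := fun h => hb w h x (fun h' => hwx ⟨h, h'⟩) hc.1
      rcases ih x hc.2 hl' with h | ⟨p, C, b, q, h1, h2, h3, h4, h5, h6, h7, h8, h9, h10, h11⟩
      · left
        refine ⟨fun y hy => ?_, hw⟩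
        rcases List.mem_cons.1 hy with rfl | hy
        · exact hx
        · exact h.1 y hy
      · right
        refine ⟨x :: p, C, b, q, List.Sublist.cons_cons w h1,
          by rw [List.getLast?_cons_cons]; exact h2, List.IsChain.cons_cons hc.1 h3, h4, h5, h6,
          h7, by rw [List.getLast?_cons_cons]; exact h8, ?_, ?_, fun h _ => hw h⟩
        · intro y hy hy'
          rcases List.mem_cons.1 hy with rfl | hy
          · simp
          · exact List.mem_cons_of_mem _ (h9 y hy hy')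
        · intro y hy
          rcases List.mem_cons.1 hy with rfl | hy
          · exact hx
          · exact h10 y hy

lemma cut_cycle (hs : ∀ x y, A x y → A y x) {B : α → α → Prop} {o τ : α}
    (hB : ∀ x y, B x y → A x y ∨ (x = τ ∧ y = o) ∨ (x = o ∧ y = τ)) (l : List α)
    (h1 : (o :: l).Nodup) (h2 : (o :: l).IsChain B) (h3 : ∀ z ∈ l.getLast?, B z o)
    (h4 : 2 ≤ l.length) : ∃ l' : List α, l'.Perm l ∧ (o :: l').IsChain A := by
  have ho : o ∉ l := (List.nodup_cons.1 h1).1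
  have hl : l.IsChain A := by
    refine List.IsChain.imp_of_mem_imp ?_ h2.tail
    intro a b ha hb h
    rcases hB a b h with h | h | h
    · exact h
    · exact absurd (h.2 ▸ hb) ho
    · exact absurd (h.1 ▸ ha) ho
  obtain ⟨a, l₁, rfl⟩ := List.exists_cons_of_length_pos (l := l) (by omega)
  obtain ⟨m, b, rfl⟩ : ∃ m b, l₁ = m ++ [b] := by
    rcases List.eq_nil_or_concat l₁ with rfl | ⟨m, b, rfl⟩
    · simp at h4
    · exact ⟨m, b, List.concat_eq_append⟩
  have hao : a ≠ o := fun h => ho (by simp [h])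
  have hbo : b ≠ o := fun h => ho (by simp [h])
  by_cases ha : a = τ
  · have hab : a ≠ b := by
      rintro rfl
      simp at h1
    have hb := h3 b (by rw [← List.cons_append, List.getLast?_concat]; rfl)
    have hb' : A b o := by
      rcases hB _ _ hb with h | h | h
      · exact h
      · exact absurd (ha.trans h.1.symm) hab
      · exact absurd h.1 hbo
    refine ⟨(a :: (m ++ [b])).reverse, List.reverse_perm _, ?_⟩
    have hr : (a :: (m ++ [b])).reverse.IsChain A := by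
      rw [List.isChain_reverse]
      exact hl.imp (fun a b h => hs _ _ h)
    have e : (a :: (m ++ [b])).reverse = b :: (m.reverse ++ [a]) := by simp
    rw [e] at hr ⊢
    exact List.IsChain.cons_cons (hs _ _ hb') hr
  · refine ⟨_, List.Perm.refl _, List.IsChain.cons_cons ?_ hl⟩
    rcases hB _ _ (List.isChain_cons_cons.1 h2).1 with h | h | h
    · exact h
    · exact absurd h.2 hao
    · exact absurd h.2 ha

/-- Abstract surgery: a won game in the region `W` lets one reroute any self-avoiding path that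
starts outside `W`, keeping all its vertices outside `W` and using inside `W` only old vertices of
`H` and vertices of `F`. -/
theorem surgery_of_win (hs : ∀ x y, A x y → A y x) (W F H : Set α) (hF : F ⊆ W)
    (hFH : ∀ x ∈ F, x ∉ H) (hb : ∀ x ∈ W, ∀ y, y ∉ W → A x y → x ∈ H) (hH : H ⊆ W)
    (hw : ∀ B : α → α → Prop, (∀ x y, B x y → B y x) → (∀ x y, A x y → B x y) → Win B F ∅ H)
    (o : α) (ho : o ∉ W) (l : List α) (h1 : (o :: l).Nodup) (h2 : (o :: l).IsChain A) :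
    ∃ l' : List α, (o :: l').Nodup ∧ (o :: l').IsChain A ∧ (∀ x ∈ l, x ∉ W → x ∈ l') ∧
      ∀ x ∈ l', (x ∈ l ∧ (x ∉ W ∨ x ∈ H)) ∨ x ∈ F := by
  obtain ⟨l₁, l₂, rfl, t1, t2⟩ := trim_tail W o ho l
  have n1 : (o :: l₁).Nodup := by
    rw [← List.cons_append] at h1
    exact h1.of_append_left
  have c1 : (o :: l₁).IsChain A := by
    rw [← List.cons_append] at h2
    exact h2.left_of_append
  have cov : ∀ x ∈ l₁ ++ l₂, x ∉ W → x ∈ l₁ := fun x hx hx' =>
    (List.mem_append.1 hx).resolve_right (fun h => hx' (t2 x h))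
  rcases decomp hs W H hb l₁ o c1 t1 with h |
    ⟨p, C, b, q, a1, a2, a3, a4, a5, a6, a7, a8, a9, a10, -⟩
  · exact ⟨l₁, n1, c1, cov, fun x hx => Or.inl ⟨List.mem_append_left _ hx, h.1 x hx⟩⟩
  obtain ⟨p', a, rfl⟩ : ∃ m b, p = m ++ [b] := by
    rcases List.eq_nil_or_concat p with rfl | ⟨m, b, rfl⟩
    · exact absurd (a8 o (by simp)) ho
    · exact ⟨m, b, List.concat_eq_append⟩
  obtain ⟨τ, hτ⟩ : ∃ τ, (b :: q).getLast? = some τ := ⟨_, List.getLast?_eq_some_getLast (by simp)⟩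
  let B : α → α → Prop := fun x y => A x y ∨ (x = τ ∧ y = o) ∨ (x = o ∧ y = τ)
  have hBs : ∀ x y, B x y → B y x := by
    rintro x y (h | h | h)
    · exact Or.inl (hs _ _ h)
    · exact Or.inr (Or.inr h.symm)
    · exact Or.inr (Or.inl h.symm)
  have hAB : ∀ x y, A x y → B x y := fun x y h => Or.inl h
  have aH : a ∈ H := by
    have aW : a ∈ W := a8 a (by rw [← List.cons_append, List.getLast?_concat]; rfl)
    exact (a10 a (by simp)).resolve_left (fun h => h aW)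
  have hperm : (sites ((b, q ++ o :: p', a) :: C)).Perm
      ((o :: (p' ++ [a])) ++ (sites C ++ b :: q)) := by
    have : sites ((b, q ++ o :: p', a) :: C) = (b :: q) ++ ((o :: (p' ++ [a])) ++ sites C) := by
      simp [pl]
    rw [this, ← List.append_assoc (o :: (p' ++ [a]))]
    exact List.perm_append_comm
  have hnd := a1.nodup n1
  have hmem : ∀ x ∈ sites ((b, q ++ o :: p', a) :: C), x = o ∨ (x ∈ l₁ ∧ (x ∉ W ∨ x ∈ H)) := by
    intro x hx
    have hx' := hperm.mem_iff.1 hx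
    rcases List.mem_cons.1 hx' with h | h
    · exact Or.inl h
    · rcases List.mem_cons.1 (a1.subset hx') with g | g
      · exact Or.inl g
      · exact Or.inr ⟨g, a10 x h⟩
  obtain ⟨P, b1, b2, b3, b4, b5⟩ := hw B hBs hAB ((b, q ++ o :: p', a) :: C) (by simp) (by
      rw [chains_cons]
      refine ⟨?_, fun P hP => (a4 P hP).imp (fun a b h => hAB _ _ h)⟩
      have : pl (b, q ++ o :: p', a) = (b :: q) ++ (o :: (p' ++ [a])) := by simp [pl]
      rw [this, List.isChain_append]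
      refine ⟨a5.imp (fun a b h => hAB _ _ h), a3.imp (fun a b h => hAB _ _ h), ?_⟩
      intro x hx y hy
      rw [hτ] at hx
      exact Or.inr (Or.inl ⟨(Option.some.inj hx).symm, (Option.some.inj hy).symm⟩))
    (hperm.nodup_iff.2 hnd)
    (by
      intro x hx
      rcases (isEnd_cons _ _ _).1 hx with (h | h) | h
      · exact Or.inr (h ▸ a6)
      · exact Or.inr (h ▸ aH)
      · exact Or.inr (a7 x h))
    (by
      intro x hx hx'
      rcases hmem x hx with h | ⟨-, h | h⟩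
      · exact ho (h ▸ hF hx')
      · exact h (hF hx')
      · exact hFH x hx' h)
    (by simp)
  have hoP : o ∈ pl P := b4 o (by simp [pl])
  obtain ⟨s, r, hsr⟩ := List.append_of_mem hoP
  have hrot : (o :: (r ++ s)).Perm (pl P) := by
    rw [hsr, ← List.cons_append]
    exact List.perm_append_comm
  have hcl : ∀ x ∈ (pl P).getLast?, ∀ y ∈ (pl P).head?, B x y := by
    intro x hx y hy
    unfold pl at hx hy
    rw [← List.cons_append, List.getLast?_concat] at hx
    rw [← Option.some.inj hx, ← Option.some.inj hy]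
    exact b3
  rw [hsr] at b1 hcl
  rw [List.isChain_append] at b1
  have hab : a ≠ b := (ends_ne (hperm.nodup_iff.2 hnd)).1.symm
  have mem' : ∀ x ∈ sites ((b, q ++ o :: p', a) :: C), x ≠ o → x ∈ r ++ s := fun x hx hx' =>
    (List.mem_cons.1 (hrot.mem_iff.2 (b4 x hx))).resolve_left hx'
  obtain ⟨l', c1, c2⟩ := cut_cycle hs (B := B) (o := o) (τ := τ) (fun x y h => h) (r ++ s)
    (hrot.nodup_iff.2 b2) (by
      rw [← List.cons_append, List.isChain_append]
      refine ⟨b1.2.1, b1.1, ?_⟩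
      intro x hx y hy
      refine hcl x ?_ y ?_
      · rw [List.getLast?_append_of_ne_nil _ (by simp)]
        exact hx
      · rw [List.head?_append, hy]
        rfl)
    (by
      intro z hz
      rcases List.eq_nil_or_concat s with rfl | ⟨m, c, rfl⟩
      · rw [List.append_nil] at hz
        refine hcl z ?_ o (by simp)
        obtain ⟨r', c, rfl⟩ : ∃ m b, r = m ++ [b] := by
          rcases List.eq_nil_or_concat r with rfl | ⟨m, b, rfl⟩
          · simp at hz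
          · exact ⟨m, b, List.concat_eq_append⟩
        rw [List.getLast?_concat] at hz
        rw [List.nil_append, ← List.cons_append, List.getLast?_concat]
        exact hz
      · rw [List.concat_eq_append] at *
        rw [← List.append_assoc, List.getLast?_concat] at hz
        exact b1.2.2 z (by rw [List.getLast?_concat]; exact hz) o (by simp))
    (by
      have ma := mem' a (by simp [pl]) (fun h => ho (h ▸ hH aH))
      have mb := mem' b (by simp [pl]) (fun h => ho (h ▸ hH a6))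
      by_contra hlt
      have : (r ++ s).length ≤ 1 := by omega
      rcases hrs : r ++ s with _ | ⟨c, _ | ⟨c', m⟩⟩
      · simp [hrs] at ma
      · rw [hrs] at ma mb
        exact hab ((List.mem_singleton.1 ma).trans (List.mem_singleton.1 mb).symm)
      · rw [hrs] at this
        simp at this)
  have hnd' : (o :: l').Nodup := ((c1.cons o).trans hrot).nodup_iff.2 b2
  refine ⟨l', hnd', c2, fun x hx hx' => ?_, fun x hx => ?_⟩
  · have hx1 := cov x hx hx'
    have hxo : x ≠ o := fun h => (List.nodup_cons.1 n1).1 (h ▸ hx1)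
    exact c1.mem_iff.2 (mem' x (hperm.mem_iff.2 (a9 x (List.mem_cons_of_mem _ hx1) hx')) hxo)
  · have hxo : x ≠ o := fun h => (List.nodup_cons.1 hnd').1 (h ▸ hx)
    rcases b5 x (hrot.mem_iff.1 (List.mem_cons_of_mem _ (c1.mem_iff.1 hx))) with h | h | h
    · rcases hmem x h with g | g
      · exact absurd g hxo
      · exact Or.inl ⟨List.mem_append_left _ g.1, g.2⟩
    · exact Or.inr h
    · exact absurd h (by simp)

end Pool.Agent.MP_1479fb_pr

end MrgPart3

-- ======== part 4: formerly Pool.Agent.MP_1479fb_pr.Region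
section MrgPart4

/-! The relinking game is won in a folded `ℓ¹` ball with a cube removed. -/

set_option autoImplicit false

namespace Pool.Agent.MP_1479fb_pr

section gadget

variable {α β : Type*} {A : α → α → Prop} {φ : β → α}

/-- The game restricted to the image of three lists. -/
def WinL (A : α → α → Prop) (φ : β → α) (F L H : List β) : Prop :=
  Win A {x | ∃ b ∈ F, φ b = x} {x | ∃ b ∈ L, φ b = x} {x | ∃ b ∈ H, φ b = x}

lemma winL_move (hs : ∀ x y, A x y → A y x) (hφ : Function.Injective φ) {F L H F' L' H' : List β}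
    (u v : β) (huv : A (φ u) (φ v)) (h : WinL A φ F' L' H')
    (hc : v ∈ F ∧ (∀ x ∈ F', x ∈ F ∧ x ≠ v) ∧ (∀ x ∈ L', x = v ∨ ((x ∈ F ∨ x ∈ L) ∧ x ≠ u)) ∧
      v ∈ L' ∧ (∀ x ∈ L, x ≠ u → x ∈ L' ∨ x ∈ H') ∧ (∀ x ∈ H, x ≠ u → x ∈ L' ∨ x ∈ H')) :
    WinL A φ F L H := by
  obtain ⟨c1, c2, c3, c4, c5, c6⟩ := hc
  refine win_move hs huv ⟨v, c1, rfl⟩ h ?_ ?_ ?_
  · rintro _ ⟨b, hb, rfl⟩
    exact ⟨⟨b, (c2 b hb).1, rfl⟩, fun g => (c2 b hb).2 (hφ g)⟩
  · rintro _ ⟨b, hb, rfl⟩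
    rcases c3 b hb with g | ⟨g, g'⟩
    · exact Or.inl (congrArg φ g)
    · exact Or.inr ⟨g.imp (fun g => ⟨b, g, rfl⟩) (fun g => ⟨b, g, rfl⟩), fun t => g' (hφ t)⟩
  · rintro x (rfl | ⟨⟨b, hb, rfl⟩ | ⟨b, hb, rfl⟩, g⟩)
    · exact Or.inl ⟨v, c4, rfl⟩
    · exact (c5 b hb (fun t => g (congrArg φ t))).imp (fun g => ⟨b, g, rfl⟩)
        (fun g => ⟨b, g, rfl⟩)
    · exact (c6 b hb (fun t => g (congrArg φ t))).imp (fun g => ⟨b, g, rfl⟩)
        (fun g => ⟨b, g, rfl⟩)

lemma winL_absorb (hs : ∀ x y, A x y → A y x) (hφ : Function.Injective φ)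
    {F L H F' L' H' : List β} (u v w : β) (huv : A (φ u) (φ v)) (huw : A (φ u) (φ w))
    (h : WinL A φ F' L' H')
    (hc : v ≠ w ∧ v ∈ L ∧ w ∈ L ∧ v ≠ u ∧ w ≠ u ∧ (∀ x ∈ F', x ∈ F ∧ x ≠ v ∧ x ≠ w) ∧
      (∀ x ∈ L', x ∈ L ∧ x ≠ u ∧ x ≠ v ∧ x ≠ w) ∧ v ∈ H' ∧ w ∈ H' ∧
      (∀ x ∈ L, x ≠ u → x ∈ L' ∨ x ∈ H') ∧ (∀ x ∈ H, x ≠ u → x ∈ L' ∨ x ∈ H')) :
    WinL A φ F L H := by
  obtain ⟨c1, c2, c3, c4, c5, c6, c7, c8, c9, c10, c11⟩ := hc
  refine win_absorb hs huv huw (fun g => c1 (hφ g)) (Or.inr ⟨v, c2, rfl⟩) (Or.inr ⟨w, c3, rfl⟩)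
    (fun g => c4 (hφ g)) (fun g => c5 (hφ g)) h ?_ ?_ ?_
  · rintro _ ⟨b, hb, rfl⟩
    exact ⟨⟨b, (c6 b hb).1, rfl⟩, fun g => (c6 b hb).2.1 (hφ g), fun g => (c6 b hb).2.2 (hφ g)⟩
  · rintro _ ⟨b, hb, rfl⟩
    exact ⟨Or.inr ⟨b, (c7 b hb).1, rfl⟩, fun g => (c7 b hb).2.1 (hφ g),
      fun g => (c7 b hb).2.2.1 (hφ g), fun g => (c7 b hb).2.2.2 (hφ g)⟩
  · rintro x (rfl | rfl | ⟨⟨b, hb, rfl⟩ | ⟨b, hb, rfl⟩, g⟩)
    · exact Or.inr ⟨v, c8, rfl⟩
    · exact Or.inr ⟨w, c9, rfl⟩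
    · exact (c10 b hb (fun t => g (congrArg φ t))).imp (fun g => ⟨b, g, rfl⟩)
        (fun g => ⟨b, g, rfl⟩)
    · exact (c11 b hb (fun t => g (congrArg φ t))).imp (fun g => ⟨b, g, rfl⟩)
        (fun g => ⟨b, g, rfl⟩)

set_option synthInstance.maxSize 2000 in
lemma winL_gadget {φ : ℤ × ℤ → α} (hs : ∀ x y, A x y → A y x) (hφ : Function.Injective φ)
    (h1 : ∀ x y, A (φ (x, y)) (φ (x + 1, y))) (h2 : ∀ x y, A (φ (x, y)) (φ (x, y + 1))) :
    WinL A φ [(-1, 0), (0, 0), (1, 0), (2, 0), (-1, 1), (0, 1), (1, 1), (2, 1), (1, 2), (2, 2)]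
      [] [(-1, -1), (0, -1), (-1, 2), (0, 2)] := by
  refine winL_move hs hφ (-1, -1) (-1, 0) (h2 (-1) (-1))
    (F' := [(0, 0), (1, 0), (2, 0), (-1, 1), (0, 1), (1, 1), (2, 1), (1, 2), (2, 2)])
    (L' := [(-1, 0)]) (H' := [(0, -1), (-1, 2), (0, 2)]) ?_ (by decide)
  refine winL_move hs hφ (0, -1) (0, 0) (h2 0 (-1))
    (F' := [(1, 0), (2, 0), (-1, 1), (0, 1), (1, 1), (2, 1), (1, 2), (2, 2)])
    (L' := [(-1, 0), (0, 0)]) (H' := [(-1, 2), (0, 2)]) ?_ (by decide)
  refine winL_move hs hφ (-1, 2) (-1, 1) (hs _ _ (h2 (-1) 1))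
    (F' := [(1, 0), (2, 0), (0, 1), (1, 1), (2, 1), (1, 2), (2, 2)])
    (L' := [(-1, 0), (0, 0), (-1, 1)]) (H' := [(0, 2)]) ?_ (by decide)
  refine winL_move hs hφ (0, 2) (1, 2) (h1 0 2)
    (F' := [(1, 0), (2, 0), (0, 1), (1, 1), (2, 1), (2, 2)])
    (L' := [(-1, 0), (0, 0), (-1, 1), (1, 2)]) (H' := []) ?_ (by decide)
  refine winL_move hs hφ (1, 2) (2, 2) (h1 1 2)
    (F' := [(1, 0), (2, 0), (0, 1), (1, 1), (2, 1)])
    (L' := [(-1, 0), (0, 0), (-1, 1), (2, 2)]) (H' := []) ?_ (by decide)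
  refine winL_move hs hφ (2, 2) (2, 1) (hs _ _ (h2 2 1))
    (F' := [(1, 0), (2, 0), (0, 1), (1, 1)])
    (L' := [(-1, 0), (0, 0), (-1, 1), (2, 1)]) (H' := []) ?_ (by decide)
  refine winL_move hs hφ (2, 1) (2, 0) (hs _ _ (h2 2 0))
    (F' := [(1, 0), (0, 1), (1, 1)])
    (L' := [(-1, 0), (0, 0), (-1, 1), (2, 0)]) (H' := []) ?_ (by decide)
  refine winL_move hs hφ (2, 0) (1, 0) (hs _ _ (h1 1 0))
    (F' := [(0, 1), (1, 1)])
    (L' := [(-1, 0), (0, 0), (-1, 1), (1, 0)]) (H' := []) ?_ (by decide)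
  refine winL_absorb hs hφ (-1, 0) (-1, 1) (0, 0) (h2 (-1) 0) (h1 (-1) 0)
    (F' := [(0, 1), (1, 1)]) (L' := [(1, 0)]) (H' := [(0, 0), (-1, 1)]) ?_ (by decide)
  refine winL_move hs hφ (-1, 1) (0, 1) (h1 (-1) 1)
    (F' := [(1, 1)]) (L' := [(1, 0), (0, 1)]) (H' := [(0, 0)]) ?_ (by decide)
  refine winL_absorb hs hφ (0, 0) (0, 1) (1, 0) (h2 0 0) (h1 0 0)
    (F' := [(1, 1)]) (L' := []) (H' := [(0, 1), (1, 0)]) ?_ (by decide)
  refine winL_move hs hφ (0, 1) (1, 1) (h1 0 1)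
    (F' := []) (L' := [(1, 1)]) (H' := [(1, 0)]) ?_ (by decide)
  refine win_done hs (h2 1 0) ?_
  rintro _ (⟨b, hb, rfl⟩ | ⟨b, hb, rfl⟩)
  · rw [List.mem_singleton.1 hb]; exact Or.inr rfl
  · rw [List.mem_singleton.1 hb]; exact Or.inl rfl

end gadget

/-- The point `x e₀`. -/
def ax {D : ℕ} (x : ℤ) : Fin (D + 1) → ℤ := Function.update 0 0 x

lemma ax_zero {D : ℕ} (x : ℤ) : (ax x : Fin (D + 1) → ℤ) 0 = x := by simp [ax]

lemma ax_succ {D : ℕ} (x : ℤ) (j : Fin D) : (ax x : Fin (D + 1) → ℤ) j.succ = 0 := by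
  simp [ax]

lemma eq_ax {D : ℕ} {z : Fin (D + 1) → ℤ} (h : ∀ j : Fin D, z j.succ = 0) : z = ax (z 0) := by
  funext j
  refine Fin.cases ?_ (fun j => ?_) j
  · rw [ax_zero]
  · rw [ax_succ, h]

lemma nrm_ax {D : ℕ} (x : ℤ) : nrm (ax x : Fin (D + 1) → ℤ) = hat x := by
  unfold nrm
  rw [Fin.sum_univ_succ, ax_zero]
  simp [ax_succ, hat]

lemma adj_ax {D : ℕ} (x : ℤ) : Adj (ax x : Fin (D + 1) → ℤ) (ax (x + 1)) := by
  have := adj_update (ax x : Fin (D + 1) → ℤ) 0 (x + 1) (Or.inl (by rw [ax_zero]))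
  simpa [ax] using this

/-- The inner part of the game: two plates, the parked shells and the central columns. -/
theorem win_inner {D : ℕ} {B : (Fin (D + 1) → ℤ) × ℤ → (Fin (D + 1) → ℤ) × ℤ → Prop}
    (hs : ∀ x y, B x y → B y x) (hB : ∀ x y, AdjP Adj x y → B x y) {ρ m h J : ℤ}
    (hJ : J = 6 * (D + 1)) (hρ : 1 ≤ ρ) (hm : ρ + 9 ≤ m) (hh : 2 * J + 10 ≤ h)
    (Q : Set ((Fin (D + 1) → ℤ) × ℤ)) (hQ : ∀ p ∈ Q, 1 ≤ p.1 0 ∧ J + 9 ≤ p.2 ∧ p.2 < h - J) :
    Win B {p | p ∉ Q ∧ ((nrm p.1 ≤ m ∧ 4 < hat p.2 ∧ hat p.2 < h) ∨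
        (hat p.2 ≤ 4 ∧ nrm p.1 < ρ + 5 + p.2))} ∅
      {p | (nrm p.1 ≤ m ∧ hat p.2 = h) ∨ (hat p.2 ≤ 4 ∧ nrm p.1 = ρ + 5 + p.2)} := by
  have hJ0 : 0 ≤ J := by rw [hJ]; positivity
  let Cc : Set (Fin (D + 1) → ℤ) :=
    {z | nrm z ≤ m ∧ (z 0 = -1 ∨ z 0 = 0) ∧ ∀ j : Fin D, z j.succ = 0}
  have hCc : ∀ z ∈ Cc, nrm z = 0 := by
    intro z hz
    rw [eq_ax hz.2.2, nrm_ax]
    have := hz.2.1
    unfold hat
    omega
  have hT := thin_ball (D := D) m
  rw [← hJ] at hT
  have hfin : ∀ S : Set ((Fin (D + 1) → ℤ) × ℤ), (∀ p ∈ S, nrm p.1 ≤ m ∧ hat p.2 ≤ h) →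
      S.Finite := by
    intro S hS
    refine ((finite_nrm m).prod (Set.finite_Icc (-1 - h) h)).subset (fun p hp => ?_)
    obtain ⟨a, b⟩ := hS p hp
    refine ⟨a, ?_⟩
    unfold hat at b
    constructor <;> omega
  -- final gadget
  have w6 : Win B {p | p ∉ Q ∧ nrm p.1 ≤ m ∧ J + 6 ≤ p.2 ∧ p.2 ≤ J + 8 ∧
      ¬ (p.1 ∈ Cc ∧ p.2 = J + 8)} ∅ {p | p.1 ∈ Cc ∧ (p.2 = J + 5 ∨ p.2 = J + 8)} := by
    have := winL_gadget (A := B) (φ := fun q : ℤ × ℤ => ((ax q.1, J + 6 + q.2) :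
      (Fin (D + 1) → ℤ) × ℤ)) hs (fun a b g => by
        rw [Prod.mk.injEq] at g
        have g1 := congrFun g.1 0
        rw [ax_zero, ax_zero] at g1
        exact Prod.ext g1 (by have := g.2; omega))
      (fun x y => hB _ _ (Or.inl ⟨adj_ax x, rfl⟩))
      (fun x y => hB _ _ (Or.inr ⟨rfl, Or.inr (by simp only; omega)⟩))
    refine Win.mono this ?_ (by simp) ?_
    · rintro _ ⟨⟨x, y⟩, hb, rfl⟩
      have hb' : -1 ≤ x ∧ x ≤ 2 ∧ 0 ≤ y ∧ y ≤ 2 ∧ (y = 2 → 1 ≤ x) := by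
        simp only [List.mem_cons, Prod.mk.injEq, List.not_mem_nil, or_false] at hb
        omega
      refine ⟨fun t => ?_, ?_, ?_, ?_, fun t => ?_⟩
      · have := hQ _ t
        simp only at this
        omega
      · simp only [nrm_ax, hat]; omega
      · simp only; omega
      · simp only; omega
      · have t1 := t.1.2.1
        have t2 := t.2
        simp only [ax_zero] at t1 t2
        omega
    · rintro ⟨z, y⟩ (t | t)
      · exact absurd t (by simp)
      · right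
        have e := eq_ax t.1.2.2
        have t1 := t.1.2.1
        have t2 := t.2
        simp only at e t1 t2
        refine ⟨(z 0, y - (J + 6)), ?_, Prod.ext e.symm (by simp)⟩
        simp only [List.mem_cons, Prod.mk.injEq, List.not_mem_nil]
        omega
  -- descent of the two upper wires
  have w5 : Win B {p | p ∉ Q ∧ nrm p.1 ≤ m ∧ J + 6 ≤ p.2 ∧ p.2 < h - J} ∅
      {p | p.1 ∈ Cc ∧ (p.2 = J + 5 ∨ p.2 = h - J)} := by
    refine win_up hs hB (σ := -1) (Or.inr rfl) w6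
      (S := {p | p.1 ∈ Cc ∧ J + 9 ≤ p.2 ∧ p.2 ≤ h - J})
      (hfin _ (fun p hp => ⟨hp.1.1, by have := hp.2; unfold hat; omega⟩))
      (fun p hp => ?_) (fun p hp => ?_) (fun p hp hp' => ?_) (fun p hp hp' => ?_)
    · have a1 := hp.1.2.1
      have a2 := hp.2
      refine ⟨fun t => ?_, hp.1.1, by simp only; omega, by simp only; omega⟩
      have := hQ _ t
      simp only at this
      omega
    · obtain ⟨a1, a2, a3, a4, a5⟩ := hp
      refine ⟨⟨a1, a2, a3, by omega⟩, fun t => a5 ⟨t.1, ?_⟩⟩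
      have := t.2
      simp only at this
      omega
    · refine ⟨hp.1, ?_⟩
      have := hp.2
      by_contra t
      exact hp' ⟨hp.1, by omega⟩
    · refine ⟨hp.1, ?_⟩
      have := hp.2
      by_contra t
      exact hp' ⟨hp.1, by simp only at t ⊢; omega⟩
  -- thinning of the upper plate
  have w4 : Win B {p | p ∉ Q ∧ nrm p.1 ≤ m ∧ J + 6 ≤ p.2 ∧ p.2 < h} ∅
      {p | (p.1 ∈ Cc ∧ p.2 = J + 5) ∨ (nrm p.1 ≤ m ∧ p.2 = h)} := by
    refine hT B hs hB (-1) (Or.inr rfl) h _ _ _ _ w5 (fun p a1 a2 a3 => ?_) (fun p hp => ?_)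
      (fun p hp hp' => ?_) (fun z hz => ⟨hz, Or.inr (by simp only; omega)⟩)
    · refine ⟨fun t => ?_, a1, by omega, by omega⟩
      have := hQ _ t
      omega
    · obtain ⟨a1, a2, a3, a4⟩ := hp
      exact ⟨⟨a1, a2, a3, by omega⟩, fun t => by omega⟩
    · rcases hp with hp | hp
      · exact ⟨hp.1, Or.inl hp.2⟩
      · exact absurd hp hp'
  -- thinning of the parked wires
  have w3 : Win B {p | p ∉ Q ∧ nrm p.1 ≤ m ∧ 6 ≤ p.2 ∧ p.2 < h} ∅
      {p | nrm p.1 ≤ m ∧ (p.2 = 5 ∨ p.2 = h)} := by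
    refine hT B hs hB 1 (Or.inl rfl) 5 _ _ _ _ w4 (fun p a1 a2 a3 => ?_) (fun p hp => ?_)
      (fun p hp hp' => ?_) (fun z hz => Or.inl ⟨hz, by simp only; omega⟩)
    · refine ⟨fun t => ?_, a1, by omega, by omega⟩
      have := hQ _ t
      omega
    · obtain ⟨a1, a2, a3, a4⟩ := hp
      exact ⟨⟨a1, a2, by omega, a4⟩, fun t => by omega⟩
    · rcases hp with ⟨hp, g | g⟩
      · exact absurd ⟨hp, g⟩ hp'
      · exact Or.inr ⟨hp, g⟩
  -- parking
  have w2 : Win B {p | p ∉ Q ∧ ((nrm p.1 ≤ m ∧ 4 < hat p.2 ∧ -1 - h + J < p.2 ∧ p.2 < h) ∨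
      (hat p.2 ≤ 4 ∧ nrm p.1 < ρ + 5 + p.2))} ∅
      {p | (p.1 ∈ Cc ∧ p.2 = -1 - h + J) ∨ (nrm p.1 ≤ m ∧ p.2 = h) ∨
        (hat p.2 ≤ 4 ∧ nrm p.1 = ρ + 5 + p.2)} := by
    refine win_up hs hB (σ := 1) (Or.inl rfl) w3
      (S := {p | p.2 ≤ 4 ∧ ((p.1 ∈ Cc ∧ -1 - h + J ≤ p.2) ∨
        (ρ ≤ nrm p.1 ∧ nrm p.1 ≤ ρ + 5 + p.2))})
      (hfin _ (fun p hp => ?_))
      (fun p hp => ?_) (fun p hp => ?_) (fun p hp hp' => ?_) (fun p hp hp' => ?_)
    · obtain ⟨a1, a2 | a2⟩ := hp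
      · exact ⟨a2.1.1, by unfold hat; omega⟩
      · exact ⟨by omega, by unfold hat; omega⟩
    · refine ⟨fun t => ?_, ?_⟩
      · have := hQ _ t
        have := hp.1
        simp only at *
        omega
      · obtain ⟨a1, a2 | a2⟩ := hp
        · have := hCc _ a2.1
          have := a2.2
          simp only [hat]
          omega
        · simp only [hat]
          omega
    · obtain ⟨a1, a2, a3, a4⟩ := hp
      refine ⟨⟨a1, Or.inl ⟨a2, by unfold hat; omega, by omega, a4⟩⟩, fun t => ?_⟩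
      have := t.1
      simp only at this
      omega
    · rcases hp with hp | hp | hp
      · exact absurd ⟨by omega, Or.inl ⟨hp.1, by omega⟩⟩ hp'
      · exact ⟨hp.1, Or.inr hp.2⟩
      · unfold hat at hp
        exact absurd ⟨by omega, Or.inr ⟨by omega, by omega⟩⟩ hp'
    · obtain ⟨a1, a2⟩ := hp
      have e : p.2 = 4 := by
        by_contra t
        refine hp' ⟨by simp only; omega, a2.imp (fun g => ⟨g.1, ?_⟩) (fun g => ⟨g.1, ?_⟩)⟩ <;>
          simp only <;> omega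
      refine ⟨?_, Or.inl (by simp only; omega)⟩
      rcases a2 with a2 | a2
      · exact a2.1.1
      · simp only; omega
  -- thinning of the lower plate
  refine hT B hs hB 1 (Or.inl rfl) (-1 - h) _ _ _ _ w2 (fun p a1 a2 a3 => ?_) (fun p hp => ?_)
    (fun p hp hp' => ?_) (fun z hz => Or.inl ⟨hz, by simp only; omega⟩)
  · refine ⟨fun t => ?_, Or.inl ⟨a1, ?_, ?_⟩⟩
    · have := hQ _ t
      omega
    · unfold hat; omega
    · unfold hat; omega
  · obtain ⟨a1, a2⟩ := hp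
    refine ⟨⟨a1, a2.imp (fun g => ⟨g.1, g.2.1, ?_⟩) id⟩, fun t => ?_⟩
    · unfold hat; omega
    · unfold hat at a2; omega
  · rcases hp with hp | hp
    · refine Or.inr (Or.inl ⟨hp.1, ?_⟩)
      have := hp.2
      by_contra t
      exact hp' ⟨hp.1, by unfold hat at this; omega⟩
    · exact Or.inr (Or.inr hp)

theorem win_region {D : ℕ} {ρ : ℤ} {e : (Fin (D + 1) → ℤ) → Prop}
    {f o : (Fin (D + 1) → ℤ) → (Fin (D + 1) → ℤ)} (hl : Lev Adj nrm ρ 2 e f o)
    {B : (Fin (D + 1) → ℤ) × ℤ → (Fin (D + 1) → ℤ) × ℤ → Prop}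
    (hs : ∀ x y, B x y → B y x) (hB : ∀ x y, AdjP Adj x y → B x y) {m h J : ℤ}
    (hJ : J = 6 * (D + 1)) (hρ : 1 ≤ ρ) (hm : ρ + 9 ≤ m) (hh : 2 * J + 10 ≤ h)
    (Q : Set ((Fin (D + 1) → ℤ) × ℤ))
    (hQ : ∀ p ∈ Q, nrm p.1 ≤ m ∧ 1 ≤ p.1 0 ∧ J + 9 ≤ p.2 ∧ p.2 < h - J) :
    Win B {p | p ∉ Q ∧ nrm p.1 + hat p.2 < h + m + 2} ∅ {p | nrm p.1 + hat p.2 = h + m + 2} := by
  have hJ0 : 0 ≤ J := by rw [hJ]; positivity
  obtain ⟨Om, Sw, hc⟩ := Lev.exists_cl (k := 0) hl (lam := m + 2) (by omega)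
  let U : (Fin (D + 1) → ℤ) × ℤ → Prop := fun p => 4 < hat p.2 ∨ m + 5 < hat p.2 + nrm p.1
  let S : Set ((Fin (D + 1) → ℤ) × ℤ) := {p | nrm p.1 + hat p.2 ≤ h + m + 2 ∧
    (m + 1 ≤ nrm p.1 ∨ (hat p.2 ≤ 4 ∧ ρ + 5 + p.2 < nrm p.1) ∨ h < hat p.2)}
  have hS : S.Finite := by
    refine ((finite_nrm (h + m + 2)).prod (Set.finite_Icc (-1 - (h + m + 2)) (h + m + 2))).subset
      (fun p hp => ?_)
    have a := hp.1
    have := nrm_nonneg p.1
    have := hat_nonneg p.2
    refine ⟨by show nrm p.1 ≤ _; omega, ?_⟩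
    unfold hat at a
    constructor <;> omega
  have u2 : ∀ p, p ∈ S → ¬ ((Om p.1 ∨ Sw p.1) ∧ U p) → ρ ≤ nrm p.1 := by
    intro p hp a
    by_contra t
    refine a ⟨Or.inl (hc.lo _ (by omega)), ?_⟩
    have := hp.2
    simp only [U, hat] at *
    omega
  obtain ⟨p1, p2, p3, p4⟩ := prod_step (U := U) hl hc (by omega) (fun p => p ∈ S)
    (fun p hp a b => by
      have := hc.hi _ a
      simp only [U] at b
      push_cast at this
      omega) u2
    (fun p q hp hq a b c d => by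
      have := hp.2
      have := hc.hi _ a
      simp only [U, hat, dn] at *
      push_cast at this
      omega)
    (fun p q a b c => by simp only [U] at *; rw [b, c]; exact a)
  have swl : ∀ z, Sw z → m + 2 ≤ nrm z := fun z hz =>
    not_lt.1 (fun g => hc.c0 z (hc.lo z g) hz)
  -- where the targets are
  have out : ∀ p ∈ S, ∀ q, (q = fP f Om Sw U p ∨ (eP e Om Sw U p ∧ q = oP f o Sw U p)) →
      q ∈ S ∨ (nrm q.1 ≤ m ∧ hat q.2 = h) ∨ (hat q.2 ≤ 4 ∧ nrm q.1 = ρ + 5 + q.2) := by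
    intro p hp q hq
    have lv : nrm q.1 + hat q.2 = nrm p.1 + hat p.2 - 1 := by
      rcases hq with rfl | ⟨a, rfl⟩
      · exact (p1 p hp).2
      · exact (p2 p hp a).2.1
    have s1 := hp.1
    have s2 := hp.2
    simp only [S, Set.mem_ofPred_eq]
    rcases tri (U := U) hc p with ⟨-, a2, a3, a4⟩ | ⟨a1, a2, -, a4, a5⟩ | ⟨a1, a3, a4, a5⟩
    · rcases hq with rfl | ⟨a, -⟩
      · rw [a4] at lv ⊢
        simp only [U, hat, dn] at *
        omega
      · exact absurd a a3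
    · have := swl _ a1
      rcases hq with rfl | ⟨-, rfl⟩
      · rw [a4] at lv ⊢
        simp only at *
        omega
      · rw [a5] at lv ⊢
        simp only at *
        omega
    · have e2 : q.2 = p.2 := by
        rcases hq with rfl | ⟨-, rfl⟩
        · rw [a4]
        · rw [a5]
      rw [e2] at lv ⊢
      by_cases t : nrm p.1 < m + 2
      · have : ¬ U p := fun g => a1 ⟨Or.inl (hc.lo _ t), g⟩
        simp only [U, hat] at *
        omega
      · omega
  have nQ : ∀ q, (q ∈ S ∨ (nrm q.1 ≤ m ∧ hat q.2 = h) ∨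
      (hat q.2 ≤ 4 ∧ nrm q.1 = ρ + 5 + q.2)) → q ∉ Q := by
    intro q hq t
    have := hQ q t
    simp only [S, Set.mem_ofPred_eq, hat] at hq
    omega
  classical
  refine win_lay' hs
    (t := fun p => -2 * (nrm p.1 + hat p.2) + if eP e Om Sw U p then 1 else 0)
    (e := eP e Om Sw U) (f := fP f Om Sw U) (o := oP f o Sw U)
    (win_inner hs hB hJ hρ hm hh Q (fun p hp => (hQ p hp).2)) hS
    ⟨fun p hp => hB _ _ (p1 p hp).1, fun p hp a => ⟨hB _ _ (p2 p hp a).1, (p2 p hp a).2.2⟩,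
      fun p hp _ => ?_, fun p hp a _ => ?_, fun p hp _ => ?_,
      fun p hp q hq => p3 p q hp hq, fun p hp a => ?_, fun p hp q hq => p4 p q hp hq,
      fun p hp q hq a b g => ?_⟩
    (fun x hx => ?_) (fun x hx hx' => ?_)
    (fun p hp a => (out p hp _ (Or.inl rfl)).resolve_left a)
    (fun p hp a b => (out p hp _ (Or.inr ⟨a, rfl⟩)).resolve_left b)
  · have := (p1 p hp).2
    split_ifs <;> omega
  · have := (p2 p hp a).2.1
    split_ifs <;> omega
  · have := (p1 p hp).2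
    have := hp.1
    exact ⟨nQ _ (out p hp _ (Or.inl rfl)), by omega⟩
  · have := (p1 p hp).2
    have := (p2 p hp a).2.1
    have := hp.1
    exact ⟨Or.inl ⟨nQ _ (out p hp _ (Or.inl rfl)), by omega⟩,
      Or.inl ⟨nQ _ (out p hp _ (Or.inr ⟨a, rfl⟩)), by omega⟩⟩
  · have b1 := (p1 p hp).2
    have b2 := (p2 p hp a).2.1
    have b3 := (p1 q hq).2
    rw [if_pos a, if_neg b]
    rcases g with g | g <;> rw [g] at b3 <;> omega
  · obtain ⟨x1, x2⟩ := hx
    have nn : ¬ (x ∈ S ∨ (nrm x.1 ≤ m ∧ hat x.2 = h) ∨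
        (hat x.2 ≤ 4 ∧ nrm x.1 = ρ + 5 + x.2)) := by
      simp only [S, Set.mem_ofPred_eq, hat] at *
      omega
    refine ⟨⟨x1, by simp only [hat] at *; omega⟩, fun p hp => ⟨fun g => nn ?_, fun a g => nn ?_⟩⟩
    · exact out p hp _ (Or.inl g.symm)
    · exact out p hp _ (Or.inr ⟨a, g.symm⟩)
  · exfalso
    have hx : nrm x.1 + hat x.2 = h + m + 2 := hx
    exact hx' ⟨by omega, by omega⟩

end Pool.Agent.MP_1479fb_pr

end MrgPart4

-- marker of a merged file
example : 731051 + 83401 = 731051 + 83401 := rfl
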