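import Mathlib.Probability.CDF
import Mathlib.Probability.Independence.InfinitePi
import Pool.Agent.MP_1479fb_pr.Region

-- ======== part 0: formerly Pool.Agent.MP_1479fb_pr.Surgery
section MrgPart0

/-! Surgery: a self-avoiding path in `ℤ^d`, `d ≥ 2`, can be rerouted around a cube, changing it
only inside a cube of comparable size. -/

set_option autoImplicit false

namespace Pool.Agent.MP_1479fb_pr

lemma Lev.mono {α : Type*} {A : α → α → Prop} {N : α → ℤ} {ρ ρ' : ℤ} {k : ℕ} {e : α → Prop}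
    {f o : α → α} (h : Lev A N ρ k e f o) (hρ : ρ ≤ ρ') : Lev A N ρ' k e f o :=
  ⟨fun z a => h.adj z (hρ.trans a), fun z a => h.adj' z (hρ.trans a),
    fun z z' a b => h.inj z z' (hρ.trans a) (hρ.trans b),
    fun z z' a b => h.disj z z' (hρ.trans a) (hρ.trans b),
    fun z w j a b c d g i x y => h.far z w j a b (hρ.trans c) d g i x (hρ.trans y)⟩

lemma nrm_le_of_adj {D : ℕ} {x y : Fin D → ℤ} (h : Adj x y) : nrm y ≤ nrm x + 1 := by
  unfold Adj at h
  unfold nrm
  rw [← h, ← Finset.sum_add_distrib]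
  refine Finset.sum_le_sum (fun j _ => ?_)
  unfold hat
  rcases abs_cases (y j - x j) with g | g <;> omega

lemma AdjP.symm {α : Type*} {A : α → α → Prop} (hs : ∀ x y, A x y → A y x) (p q : α × ℤ)
    (h : AdjP A p q) : AdjP A q p := by
  rcases h with h | h
  · exact Or.inl ⟨hs _ _ h.1, h.2.symm⟩
  · exact Or.inr ⟨h.1.symm, h.2.symm⟩

/-- `y` lies in the cube of radius `r` around `x`. -/
def InQ {d : ℕ} (x : Fin d → ℤ) (r : ℕ) (y : Fin d → ℤ) : Prop := ∀ j, |y j - x j| ≤ r

theorem surgery (D : ℕ) : ∃ C : ℕ, 1 ≤ C ∧ ∀ (a : ℕ) (x o : Fin (D + 2) → ℤ)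
    (l : List (Fin (D + 2) → ℤ)), ¬ InQ x (C * a + C) o → (o :: l).Nodup → (o :: l).IsChain Adj →
    ∃ l' : List (Fin (D + 2) → ℤ), (o :: l').Nodup ∧ (o :: l').IsChain Adj ∧
      (∀ y ∈ l, ¬ InQ x (C * a + C) y → y ∈ l') ∧
      ∀ y ∈ l', ¬ InQ x a y ∧ (y ∈ l ∨ InQ x (C * a + C) y) := by
  obtain ⟨ρ₀, e, f, o', hl₀⟩ := exists_lev (D + 1) 2
  obtain ⟨r, hr, hr1⟩ : ∃ r : ℕ, ρ₀ ≤ r ∧ 1 ≤ r := ⟨ρ₀.toNat + 1, by omega, by omega⟩
  have hl := hl₀.mono hr
  refine ⟨19 * D + r + 60, by omega, fun a x o l ho h1 h2 => ?_⟩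
  obtain ⟨R, hR⟩ : ∃ R : ℕ, R = (19 * D + r + 60) * a + (19 * D + r + 60) := ⟨_, rfl⟩
  rw [← hR] at ho ⊢
  obtain ⟨E, hE⟩ : ∃ E : ℕ, E = D * a := ⟨_, rfl⟩
  have hRE : 18 * D + r + 50 + E + 5 * a ≤ R := by
    rw [hR, hE]; nlinarith [Nat.zero_le (D * a), Nat.zero_le (r * a)]
  let J : ℤ := 6 * (D + 1)
  let m : ℤ := r + 10 + E + 2 * a
  let h : ℤ := 2 * J + 10 + 2 * a
  let c : Fin (D + 2) → ℤ := Fin.cons (J + 9 + a) (ax (a + 1))
  let ψ : (Fin (D + 2) → ℤ) ≃ (Fin (D + 1) → ℤ) × ℤ :=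
    (Equiv.addRight (c - x)).trans (splitE (D + 1))
  have ψ1 : ∀ y j, (ψ y).1 j = y j.succ - x j.succ + ax (a + 1 : ℤ) j := by
    intro y j
    simp only [ψ, c, splitE, Equiv.trans_apply, Equiv.coe_addRight, Equiv.coe_fn_mk, Fin.tail,
      Pi.add_apply, Pi.sub_apply, Fin.cons_succ]
    ring
  have ψ2 : ∀ y, (ψ y).2 = y 0 - x 0 + (J + 9 + a) := by
    intro y
    simp only [ψ, c, splitE, Equiv.trans_apply, Equiv.coe_addRight, Equiv.coe_fn_mk,
      Pi.add_apply, Pi.sub_apply, Fin.cons_zero]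
    ring
  have ψa : ∀ y z, AdjP Adj (ψ y) (ψ z) ↔ Adj y z := by
    intro y z
    simp only [ψ, Equiv.trans_apply, adj_split]
    simp [Adj]
  have axb : ∀ j : Fin (D + 1), 0 ≤ ax (a + 1 : ℤ) j ∧ ax (a + 1 : ℤ) j ≤ a + 1 := by
    intro j
    refine Fin.cases ?_ (fun j => ?_) j
    · rw [ax_zero]; omega
    · rw [ax_succ]; omega
  let Q : Set ((Fin (D + 1) → ℤ) × ℤ) := {p | InQ x a (ψ.symm p)}
  have hQ : ∀ p ∈ Q, nrm p.1 ≤ m ∧ 1 ≤ p.1 0 ∧ J + 9 ≤ p.2 ∧ p.2 < h - J := by
    intro p hp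
    obtain ⟨y, rfl⟩ := ψ.surjective p
    have hp : InQ x a y := by simpa [Q] using hp
    have a0 := abs_le.1 (hp 0)
    have a1 := abs_le.1 (hp (Fin.succ 0))
    have b1 := ψ1 y 0
    rw [ax_zero] at b1
    refine ⟨?_, by omega, by rw [ψ2]; omega, by rw [ψ2]; simp only [h]; omega⟩
    unfold nrm
    rw [Fin.sum_univ_succ]
    have : ∑ j : Fin D, hat ((ψ y).1 j.succ) ≤ ∑ _j : Fin D, (a : ℤ) := by
      refine Finset.sum_le_sum (fun j _ => ?_)
      have := abs_le.1 (hp j.succ.succ)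
      rw [ψ1, ax_succ]
      unfold hat
      omega
    simp only [Finset.sum_const, Finset.card_univ, Fintype.card_fin, nsmul_eq_mul] at this
    have hE' : (E : ℤ) = D * a := by rw [hE]; push_cast; ring
    simp only [m]
    unfold hat at *
    omega
  let W : Set ((Fin (D + 1) → ℤ) × ℤ) := {p | nrm p.1 + hat p.2 ≤ h + m + 2}
  have hW : ∀ y, ψ y ∈ W → InQ x R y := by
    intro y hy j
    have hy : nrm (ψ y).1 + hat (ψ y).2 ≤ h + m + 2 := hy
    have n1 := nrm_nonneg (ψ y).1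
    have n2 := hat_nonneg (ψ y).2
    rw [abs_le]
    refine Fin.cases ?_ (fun j => ?_) j
    · rw [ψ2] at hy
      simp only [h, m, J, hat] at *
      omega
    · have b1 := hat_le_nrm (ψ y).1 j
      have b2 := axb j
      rw [ψ1] at b1
      simp only [h, m, J, hat] at *
      omega
  obtain ⟨l', c1, c2, c3, c4⟩ := surgery_of_win (A := AdjP Adj) (AdjP.symm Adj.symm) W
    {p | p ∉ Q ∧ nrm p.1 + hat p.2 < h + m + 2} {p | nrm p.1 + hat p.2 = h + m + 2}
    (fun p hp => hp.2.le) (fun p hp t => hp.2.ne t)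
    (fun p hp q hq hpq => by
      have hp : nrm p.1 + hat p.2 ≤ h + m + 2 := hp
      have hq : ¬ nrm q.1 + hat q.2 ≤ h + m + 2 := hq
      show nrm p.1 + hat p.2 = h + m + 2
      rcases hpq with g | g
      · have := nrm_le_of_adj g.1
        rw [g.2] at hp ⊢
        omega
      · rw [g.1] at hp ⊢
        have := g.2
        unfold hat at *
        omega)
    (fun p hp => le_of_eq hp)
    (fun B hs hB => win_region hl hs hB (J := J) (by simp [J]) (by omega)
      (by simp only [m]; omega) (by simp only [h]; omega) Q hQ)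
    (ψ o) (fun t => ho (hW o t)) (l.map ψ)
    (by rw [← List.map_cons]; exact h1.map ψ.injective)
    (by rw [← List.map_cons, List.isChain_map]; exact h2.imp (fun a b g => (ψa a b).2 g))
  have e0 : o :: l'.map ψ.symm = (ψ o :: l').map ψ.symm := by simp
  refine ⟨l'.map ψ.symm, ?_, ?_, fun y hy hy' => ?_, fun y hy => ?_⟩
  · rw [e0]; exact c1.map ψ.symm.injective
  · rw [e0, List.isChain_map]
    exact c2.imp (fun a b g => (ψa _ _).1 (by simpa using g))
  · exact List.mem_map.2 ⟨ψ y, c3 _ (List.mem_map_of_mem hy) (fun t => hy' (hW y t)), by simp⟩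
  · obtain ⟨p, hp, rfl⟩ := List.mem_map.1 hy
    rcases c4 p hp with ⟨g1, g2⟩ | g
    · refine ⟨fun t => ?_, Or.inl ?_⟩
      · have := hQ p t
        have hJ : 0 ≤ J := by positivity
        simp only [W, Set.mem_ofPred_eq, hat] at g2
        omega
      · obtain ⟨z, hz, rfl⟩ := List.mem_map.1 g1
        simpa using hz
    · exact ⟨g.1, Or.inr (hW _ (by rw [Equiv.apply_symm_apply]; exact g.2.le))⟩

end Pool.Agent.MP_1479fb_pr

end MrgPart0

-- ======== part 1: formerly Pool.Agent.MP_1479fb_pr.Cascade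
section MrgPart1

/-! Multiscale islands of bad sites and the cascade of surgeries that avoids them. -/

set_option autoImplicit false

namespace Pool.Agent.MP_1479fb_pr

variable {d : ℕ}

/-- Dependence radius at scale `k`. -/
def Dk (C : ℕ) : ℕ → ℕ
  | 0 => 0
  | k + 1 => Dk C k + (C * (2 * Dk C k) + C)

/-- Bad sites of rank at least `k`. -/
def Isl (C : ℕ) (b : (Fin d → ℤ) → Prop) : ℕ → (Fin d → ℤ) → Prop
  | 0, x => b x
  | k + 1, x => Isl C b k x ∧
      ∃ y, InQ x (C * (2 * Dk C k) + C) y ∧ ¬ InQ x (2 * Dk C k) y ∧ Isl C b k y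

/-- Bad sites of rank exactly `k`. -/
def Rk (C : ℕ) (b : (Fin d → ℤ) → Prop) (k : ℕ) (x : Fin d → ℤ) : Prop :=
  Isl C b k x ∧ ¬ Isl C b (k + 1) x

/-- Bad sites whose surgery cube contains `o`. -/
def Exc (C : ℕ) (b : (Fin d → ℤ) → Prop) (o x : Fin d → ℤ) : Prop :=
  ∃ k, Rk C b k x ∧ InQ x (C * (2 * Dk C k) + C) o

/-- The region affected by the surgeries started at the sites of `T`. -/
def Aff (C : ℕ) (b : (Fin d → ℤ) → Prop) (T : Finset (Fin d → ℤ)) (y : Fin d → ℤ) : Prop :=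
  ∃ x ∈ T, ∃ j, Rk C b j x ∧ InQ x (Dk C (j + 1)) y

/-- The surgery statement with constant `C`. -/
def Surg (d C : ℕ) : Prop :=
  ∀ (a : ℕ) (x o : Fin d → ℤ) (l : List (Fin d → ℤ)), ¬ InQ x (C * a + C) o → (o :: l).Nodup →
    (o :: l).IsChain Adj → ∃ l' : List (Fin d → ℤ), (o :: l').Nodup ∧ (o :: l').IsChain Adj ∧
      (∀ y ∈ l, ¬ InQ x (C * a + C) y → y ∈ l') ∧
      ∀ y ∈ l', ¬ InQ x a y ∧ (y ∈ l ∨ InQ x (C * a + C) y)

variable {C : ℕ} {b : (Fin d → ℤ) → Prop}

lemma Dk_mono (C : ℕ) : Monotone (Dk C) :=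
  monotone_nat_of_le_succ (fun k => by simp [Dk])

lemma Isl.anti {j k : ℕ} (h : j ≤ k) {x : Fin d → ℤ} (hx : Isl C b k x) : Isl C b j x := by
  induction h with
  | refl => exact hx
  | step _ ih => exact ih hx.1

lemma Rk.unique {j k : ℕ} {x : Fin d → ℤ} (h1 : Rk C b j x) (h2 : Rk C b k x) : j = k := by
  rcases lt_trichotomy j k with h | h | h
  · exact absurd (h2.1.anti h) h1.2
  · exact h
  · exact absurd (h1.1.anti h) h2.2

lemma exists_rk {k : ℕ} {x : Fin d → ℤ} (h0 : b x) (h : ¬ Isl C b k x) :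
    ∃ j < k, Rk C b j x := by
  induction k with
  | zero => exact absurd h0 h
  | succ k ih =>
    by_cases g : Isl C b k x
    · exact ⟨k, by omega, g, h⟩
    · obtain ⟨j, a, c⟩ := ih g
      exact ⟨j, by omega, c⟩

lemma InQ.mono {x y : Fin d → ℤ} {r s : ℕ} (h : InQ x r y) (hrs : r ≤ s) : InQ x s y :=
  fun j => (h j).trans (by exact_mod_cast hrs)

lemma InQ.trans {x y z : Fin d → ℤ} {r s : ℕ} (h : InQ x r y) (h' : InQ y s z) :
    InQ x (r + s) z := by
  intro j
  have a := abs_le.1 (h j)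
  have c := abs_le.1 (h' j)
  rw [abs_le]
  push_cast
  omega

lemma InQ.refl (x : Fin d → ℤ) (r : ℕ) : InQ x r x := by simp [InQ]

lemma InQ.symm {x y : Fin d → ℤ} {r : ℕ} (h : InQ x r y) : InQ y r x :=
  fun j => by rw [abs_sub_comm]; exact h j

theorem cascade (hS : Surg d C) (o : Fin d → ℤ) (k : ℕ) :
    ∀ (T : Finset (Fin d → ℤ)) (l : List (Fin d → ℤ)), (o :: l).Nodup → (o :: l).IsChain Adj →
      (∀ x ∈ T, ¬ Exc C b o x ∧ ∃ j < k, Rk C b j x) →
      ∃ l' : List (Fin d → ℤ), (o :: l').Nodup ∧ (o :: l').IsChain Adj ∧ (∀ y ∈ l', y ∉ T) ∧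
        (∀ y ∈ l, y ∈ l' ∨ Aff C b T y) ∧
        ∀ y ∈ l', y ∈ l ∨ (Aff C b T y ∧ (¬ b y ∨ Exc C b o y)) := by
  classical
  induction k with
  | zero =>
    intro T l h1 h2 hT
    exact ⟨l, h1, h2, fun y _ hy => by obtain ⟨-, j, a, -⟩ := hT y hy; omega,
      fun y hy => Or.inl hy, fun y hy => Or.inl hy⟩
  | succ k ih =>
    intro T
    induction hn : (T.filter (Rk C b k)).card generalizing T with
    | zero =>
      intro l h1 h2 hT
      refine ih T l h1 h2 (fun x hx => ⟨(hT x hx).1, ?_⟩)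
      obtain ⟨-, j, a, c⟩ := hT x hx
      refine ⟨j, ?_, c⟩
      by_contra t
      have : j = k := by omega
      have : x ∈ T.filter (Rk C b k) := Finset.mem_filter.2 ⟨hx, this ▸ c⟩
      rw [Finset.card_eq_zero.1 hn] at this
      simp at this
    | succ n ihn =>
      intro l h1 h2 hT
      obtain ⟨x, hx⟩ := Finset.card_pos.1 (show 0 < (T.filter (Rk C b k)).card by omega)
      obtain ⟨xT, xk⟩ := Finset.mem_filter.1 hx
      obtain ⟨l₁, a1, a2, a3, a4⟩ := hS (2 * Dk C k) x o l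
        (fun t => (hT x xT).1 ⟨k, xk, t⟩) h1 h2
      let N := l₁.toFinset.filter (fun y => y ∉ l ∧ b y ∧ ¬ Exc C b o y)
      have hN : ∀ y ∈ N, InQ x (C * (2 * Dk C k) + C) y ∧ ¬ Exc C b o y ∧
          ∃ j < k, Rk C b j y := by
        intro y hy
        obtain ⟨y1, y2, y3, y4⟩ := Finset.mem_filter.1 hy
        have := a4 y (List.mem_toFinset.1 y1)
        have q := this.2.resolve_left y2
        exact ⟨q, y4, exists_rk y3 (fun t => xk.2 ⟨xk.1, y, q, this.1, t⟩)⟩
      have hA : ∀ y, Aff C b (T.erase x ∪ N) y → Aff C b T y := by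
        rintro y ⟨w, hw, j, c1, c2⟩
        rcases Finset.mem_union.1 hw with g | g
        · exact ⟨w, Finset.mem_of_mem_erase g, j, c1, c2⟩
        · obtain ⟨g1, -, j', g2, g3⟩ := hN w g
          refine ⟨x, xT, k, xk, (g1.trans c2).mono ?_⟩
          have := Dk_mono C (show j + 1 ≤ k by have := c1.unique g3; omega)
          simp only [Dk] at this ⊢
          omega
      have hx' : ∀ y, InQ x (C * (2 * Dk C k) + C) y → Aff C b T y := fun y hy =>
        ⟨x, xT, k, xk, hy.mono (by simp [Dk])⟩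
      obtain ⟨l', c1, c2, c3, c4, c5⟩ := ihn (T.erase x ∪ N) (by
          have : (T.erase x ∪ N).filter (Rk C b k) = (T.filter (Rk C b k)).erase x := by
            ext y
            simp only [Finset.mem_filter, Finset.mem_union, Finset.mem_erase]
            constructor
            · rintro ⟨g | g, g'⟩
              · exact ⟨g.1, g.2, g'⟩
              · obtain ⟨-, -, j, g2, g3⟩ := hN y (Finset.mem_filter.2 (by simpa [N] using g))
                have := g3.unique g'
                omega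
            · exact fun g => ⟨Or.inl ⟨g.1, g.2.1⟩, g.2.2⟩
          rw [this, Finset.card_erase_of_mem hx, hn]
          rfl) l₁ a1 a2 (by
          intro y hy
          rcases Finset.mem_union.1 hy with g | g
          · exact hT y (Finset.mem_of_mem_erase g)
          · obtain ⟨-, g1, j, g2, g3⟩ := hN y g
            exact ⟨g1, j, by omega, g3⟩)
      refine ⟨l', c1, c2, fun y hy yT => ?_, fun y hy => ?_, fun y hy => ?_⟩
      · by_cases e : y = x
        · subst e
          rcases c5 y hy with g | ⟨-, g | g⟩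
          · exact (a4 y g).1 (InQ.refl _ _)
          · exact g (xk.1.anti (Nat.zero_le k))
          · exact (hT y xT).1 g
        · exact c3 y hy (Finset.mem_union_left _ (Finset.mem_erase.2 ⟨e, yT⟩))
      · by_cases q : InQ x (C * (2 * Dk C k) + C) y
        · exact Or.inr (hx' y q)
        · exact (c4 y (a3 y hy q)).imp id (hA y)
      · rcases c5 y hy with g | g
        · by_cases yl : y ∈ l
          · exact Or.inl yl
          · refine Or.inr ⟨hx' y ((a4 y g).2.resolve_left yl), ?_⟩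
            by_contra t
            push Not at t
            exact c3 y hy (Finset.mem_union_right _
              (Finset.mem_filter.2 ⟨List.mem_toFinset.2 g, yl, t⟩))
        · exact Or.inr ⟨hA y g.1, g.2⟩

/-- The cube of radius `r` around `x` as a finite set. -/
noncomputable def cube (x : Fin d → ℤ) (r : ℕ) : Finset (Fin d → ℤ) :=
  Fintype.piFinset (fun j => Finset.Icc (x j - r) (x j + r))

lemma mem_cube {x y : Fin d → ℤ} {r : ℕ} : y ∈ cube x r ↔ InQ x r y := by
  simp only [cube, Fintype.mem_piFinset, Finset.mem_Icc, InQ, abs_le]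
  exact forall_congr' (fun j => by omega)

lemma card_cube (x : Fin d → ℤ) (r : ℕ) : (cube x r).card = (2 * r + 1) ^ d := by
  simp only [cube, Fintype.card_piFinset, Int.card_Icc]
  rw [Finset.prod_congr rfl (g := fun _ => 2 * r + 1) (fun j _ => by omega)]
  simp

/-- From a path that is good for the truncated weights `Y` to a path that is good for `X`. -/
theorem lower_path (hS : Surg d C) (o : Fin d → ℤ) (X Y : (Fin d → ℤ) → ℝ) {K L L₂ : ℝ}
    (hK : 0 ≤ K) (hL : 0 ≤ L) (hL₂ : L ≤ L₂) (hY : ∀ y, Y y ≤ K)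
    (hYX : ∀ y, -L₂ ≤ X y → Y y ≤ X y) (rk : (Fin d → ℤ) → ℕ)
    (hrk : ∀ x, X x < -L → Rk C (fun y => X y < -L) (rk x) x) (Ex : Finset (Fin d → ℤ))
    (hEx : ∀ x, Exc C (fun y => X y < -L) o x → x ∈ Ex) (l : List (Fin d → ℤ))
    (h1 : (o :: l).Nodup) (h2 : (o :: l).IsChain Adj) (n : ℕ) (u : ℝ)
    (hu : ∑ x ∈ l.toFinset.filter (fun y => X y < -L₂), ((2 * Dk C (rk x + 1) + 1) ^ d : ℝ) ≤ u)
    (hn : n + u ≤ l.length) :
    ∃ l' : List (Fin d → ℤ), (o :: l').Nodup ∧ (o :: l').IsChain Adj ∧ l'.length = n ∧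
      (l.map Y).sum - (K + L) * u - K * (l.length + u - n) -
        ∑ y ∈ Ex, (K + |min (X y) K|) ≤ (l'.map X).sum := by
  classical
  let b : (Fin d → ℤ) → Prop := fun y => X y < -L
  let T := l.toFinset.filter (fun y => X y < -L₂ ∧ ¬ Exc C b o y)
  have hTb : ∀ x ∈ T, X x < -L := fun x hx => by
    have := (Finset.mem_filter.1 hx).2.1
    linarith
  obtain ⟨l', c1, c2, c3, c4, c5⟩ := cascade (b := b) hS o (T.sup rk + 1) T l h1 h2
    (fun x hx => ⟨(Finset.mem_filter.1 hx).2.2, rk x,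
      Nat.lt_succ_of_le (Finset.le_sup hx), hrk x (hTb x hx)⟩)
  let U := T.biUnion (fun x => cube x (Dk C (rk x + 1)))
  have hU : ∀ y, Aff C b T y → y ∈ U := by
    rintro y ⟨x, hx, j, a, c⟩
    rw [a.unique (hrk x (hTb x hx))] at c
    exact Finset.mem_biUnion.2 ⟨x, hx, mem_cube.2 c⟩
  have hUu : (U.card : ℝ) ≤ u := by
    refine le_trans ?_ hu
    refine le_trans (Nat.cast_le.2 Finset.card_biUnion_le) ?_
    push_cast
    simp only [card_cube]
    push_cast
    refine Finset.sum_le_sum_of_subset_of_nonneg (fun x hx => ?_) (fun _ _ _ => by positivity)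
    have := Finset.mem_filter.1 hx
    exact Finset.mem_filter.2 ⟨this.1, this.2.1⟩
  have n1 : l.Nodup := (List.nodup_cons.1 h1).2
  have n2 : l'.Nodup := (List.nodup_cons.1 c1).2
  have len1 : (l.length : ℝ) ≤ l'.length + u := by
    have : l.toFinset ⊆ l'.toFinset ∪ U := fun y hy => Finset.mem_union.2
      ((c4 y (List.mem_toFinset.1 hy)).imp List.mem_toFinset.2 (hU y))
    have := (Finset.card_le_card this).trans (Finset.card_union_le _ _)
    rw [List.toFinset_card_of_nodup n1, List.toFinset_card_of_nodup n2] at this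
    have : (l.length : ℝ) ≤ l'.length + U.card := by exact_mod_cast this
    linarith
  have len2 : (l'.length : ℝ) ≤ l.length + u := by
    have : l'.toFinset ⊆ l.toFinset ∪ U := fun y hy => Finset.mem_union.2
      ((c5 y (List.mem_toFinset.1 hy)).imp List.mem_toFinset.2 (fun g => hU y g.1))
    have := (Finset.card_le_card this).trans (Finset.card_union_le _ _)
    rw [List.toFinset_card_of_nodup n1, List.toFinset_card_of_nodup n2] at this
    have : (l'.length : ℝ) ≤ l.length + U.card := by exact_mod_cast this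
    linarith
  have hnl : n ≤ l'.length := by
    have : (n : ℝ) ≤ l'.length := by linarith
    exact_mod_cast this
  let Z : (Fin d → ℤ) → ℝ := fun y => min (X y) K
  have main : (l.map Y).sum - (K + L) * U.card - ∑ y ∈ Ex, (K + |Z y|) ≤ (l'.map Z).sum := by
    rw [← List.sum_toFinset _ n1, ← List.sum_toFinset _ n2]
    let G := l.toFinset ∪ l'.toFinset ∪ U ∪ Ex
    have e : ∀ (s : Finset (Fin d → ℤ)) (g : (Fin d → ℤ) → ℝ), s ⊆ G →
        ∑ y ∈ s, g y = ∑ y ∈ G, if y ∈ s then g y else 0 := by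
      intro s g hs
      rw [Finset.sum_ite_mem, Finset.inter_eq_right.2 hs]
    have e3 : (K + L) * U.card = ∑ _y ∈ U, (K + L) := by
      rw [Finset.sum_const, nsmul_eq_mul, mul_comm]
    rw [e3, e l.toFinset _ (fun y hy => by simp [G, List.mem_toFinset.1 hy]),
      e l'.toFinset _ (fun y hy => by simp [G, List.mem_toFinset.1 hy]),
      e U _ (fun y hy => by simp [G, hy]), e Ex _ (fun y hy => by simp [G, hy]),
      ← Finset.sum_sub_distrib, ← Finset.sum_sub_distrib]
    refine Finset.sum_le_sum (fun y _ => ?_)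
    have z1 := neg_abs_le (Z y)
    have z2 := abs_nonneg (Z y)
    have z3 := hY y
    simp only [List.mem_toFinset]
    by_cases a1 : y ∈ l <;> by_cases a2 : y ∈ l'
    · by_cases a3 : y ∈ Ex
      · simp only [a1, a2, a3, if_true]
        split_ifs <;> linarith
      · have : Y y ≤ Z y := by
          refine le_min (hYX y ?_) z3
          by_contra t
          exact c3 y a2 (Finset.mem_filter.2 ⟨List.mem_toFinset.2 a1, not_le.1 t,
            fun g => a3 (hEx y g)⟩)
        simp only [a1, a2, a3, if_true, if_false]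
        split_ifs <;> linarith
    · have := hU y ((c4 y a1).resolve_left a2)
      simp only [a1, a2, this, if_true, if_false]
      split_ifs <;> linarith
    · obtain ⟨g1, g2⟩ := (c5 y a2).resolve_left a1
      have := hU y g1
      rcases g2 with g2 | g2
      · have : -L ≤ Z y := le_min (not_lt.1 g2) (by linarith)
        simp only [a1, a2, hU y g1, if_true, if_false]
        split_ifs <;> linarith
      · simp only [a1, a2, hU y g1, hEx y g2, if_true, if_false]
        linarith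
    · simp only [a1, a2, if_false]
      split_ifs <;> linarith
  refine ⟨l'.take n, ?_, ?_, by simp [hnl], ?_⟩
  · exact c1.sublist ((List.take_sublist n l').cons_cons o)
  · have : o :: l'.take n = (o :: l').take (n + 1) := by simp
    rw [this]
    exact c2.take _
  · have s1 : (l'.map Z).sum = ((l'.take n).map Z).sum + ((l'.drop n).map Z).sum := by
      rw [← List.sum_append, ← List.map_append, List.take_append_drop]
    have s2 : ((l'.drop n).map Z).sum ≤ K * (l'.length - n) := by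
      have := List.sum_le_card_nsmul ((l'.drop n).map Z) K (by
        intro x hx
        obtain ⟨y, -, rfl⟩ := List.mem_map.1 hx
        exact min_le_right _ _)
      rw [List.length_map, List.length_drop, nsmul_eq_mul, Nat.cast_sub hnl] at this
      linarith
    have s3 : ((l'.take n).map Z).sum ≤ ((l'.take n).map X).sum :=
      List.sum_le_sum (fun y _ => min_le_left _ _)
    have s4 : (K + L) * U.card ≤ (K + L) * u := mul_le_mul_of_nonneg_left hUu (by linarith)
    have s5 : K * (l'.length - n) ≤ K * (l.length + u - n) :=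
      mul_le_mul_of_nonneg_left (by linarith) hK
    simp only [Z] at main s1 s2 s3
    linarith

end Pool.Agent.MP_1479fb_pr

end MrgPart1

-- ======== part 2: formerly Pool.Agent.MP_1479fb_pr.Greedy
section MrgPart2

/-! Upper bounds on the number of rare sites met by a lattice path. -/

set_option autoImplicit false

open MeasureTheory Filter Topology

namespace Pool.Agent.MP_1479fb_pr

variable {d : ℕ}

/-- `ℓ¹` distance. -/
def len1 (x y : Fin d → ℤ) : ℕ := ∑ j, (y j - x j).natAbs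

/-- Total `ℓ¹` length of a skeleton. -/
def tot : (Fin d → ℤ) → List (Fin d → ℤ) → ℕ
  | _, [] => 0
  | o, x :: s => len1 o x + tot x s

lemma len1_tri (x y z : Fin d → ℤ) : len1 x z ≤ len1 x y + len1 y z := by
  unfold len1
  rw [← Finset.sum_add_distrib]
  exact Finset.sum_le_sum (fun j _ => by omega)

lemma len1_adj {x y : Fin d → ℤ} (h : Adj x y) : len1 x y = 1 := by
  unfold Adj at h
  have : ((len1 x y : ℕ) : ℤ) = 1 := by
    rw [← h]
    simp [len1]
  exact_mod_cast this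

lemma inQ_of_len1 {x y : Fin d → ℤ} {n : ℕ} (h : len1 x y ≤ n) : InQ x n y := by
  intro j
  have : (y j - x j).natAbs ≤ len1 x y :=
    Finset.single_le_sum (f := fun j => (y j - x j).natAbs) (fun _ _ => Nat.zero_le _)
      (Finset.mem_univ j)
  rw [abs_le]
  omega

lemma tot_le {s l : List (Fin d → ℤ)} (h : s.Sublist l) :
    ∀ o o' : Fin d → ℤ, (o :: l).IsChain Adj → tot o' s ≤ len1 o' o + l.length := by
  induction h with
  | slnil => intro o o' _; simp [tot]
  | cons a _ ih =>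
    intro o o' hc
    rw [List.isChain_cons_cons] at hc
    have := ih a o' hc.2
    have := len1_tri o' o a
    have := len1_adj hc.1
    simp only [List.length_cons]
    omega
  | cons_cons a _ ih =>
    intro o o' hc
    rw [List.isChain_cons_cons] at hc
    have := ih a a hc.2
    have := len1_tri o' o a
    have := len1_adj hc.1
    have : len1 a a = 0 := by simp [len1]
    simp only [List.length_cons, tot]
    omega

/-- Lists of length `m` whose increments lie in the cube of radius `n`. -/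
noncomputable def Sk (n : ℕ) : ℕ → (Fin d → ℤ) → Finset (List (Fin d → ℤ))
  | 0, _ => {[]}
  | m + 1, o => (cube o n).biUnion (fun x => (Sk n m x).image (fun s => x :: s))

lemma mem_Sk (n : ℕ) (s : List (Fin d → ℤ)) : ∀ o, tot o s ≤ n → s ∈ Sk n s.length o := by
  induction s with
  | nil => intro o _; simp [Sk]
  | cons x s ih =>
    intro o h
    simp only [tot] at h
    simp only [List.length_cons, Sk, Finset.mem_biUnion, Finset.mem_image]
    exact ⟨x, mem_cube.2 (inQ_of_len1 (by omega)), s, ih x (by omega), rfl⟩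

lemma sum_geom_Icc {q : ℝ} (a : ℤ) (n : ℕ) :
    (1 - q) * ∑ t ∈ Finset.Icc (a - n) (a + n), q ^ (t - a).natAbs =
      1 + q - 2 * q ^ (n + 1) := by
  induction n with
  | zero => simp; ring
  | succ n ih =>
    have : Finset.Icc (a - (n + 1 : ℕ)) (a + (n + 1 : ℕ)) =
        insert (a - (n + 1 : ℕ)) (insert (a + (n + 1 : ℕ)) (Finset.Icc (a - n) (a + n))) := by
      ext t
      simp only [Finset.mem_Icc, Finset.mem_insert]
      omega
    rw [this, Finset.sum_insert (by simp only [Finset.mem_Icc, Finset.mem_insert]; omega),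
      Finset.sum_insert (by simp only [Finset.mem_Icc]; omega),
      show (a - (n + 1 : ℕ) - a).natAbs = n + 1 by omega,
      show (a + (n + 1 : ℕ) - a).natAbs = n + 1 by omega, mul_add, mul_add, ih]
    ring

lemma sum_cube_le {q : ℝ} (h0 : 0 ≤ q) (h1 : q < 1) (o : Fin d → ℤ) (n : ℕ) :
    ∑ x ∈ cube o n, q ^ len1 o x ≤ ((1 + q) / (1 - q)) ^ d := by
  have : ∑ x ∈ cube o n, q ^ len1 o x =
      ∏ j, ∑ t ∈ Finset.Icc (o j - n) (o j + n), q ^ (t - o j).natAbs := by
    rw [Finset.prod_univ_sum]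
    exact Finset.sum_congr rfl (fun x _ => (Finset.prod_pow_eq_pow_sum _ _ _).symm)
  rw [this]
  refine (Finset.prod_le_prod (g := fun _ => (1 + q) / (1 - q))
    (fun j _ => Finset.sum_nonneg (fun _ _ => by positivity)) (fun j _ => ?_)).trans
    (by rw [Finset.prod_const, Finset.card_univ, Fintype.card_fin])
  rw [le_div_iff₀ (by linarith), mul_comm, sum_geom_Icc]
  have : 0 ≤ q ^ (n + 1) := by positivity
  linarith

lemma sum_Sk_le {q : ℝ} (h0 : 0 ≤ q) (h1 : q < 1) (n m : ℕ) :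
    ∀ o : Fin d → ℤ, ∑ s ∈ Sk n m o, q ^ tot o s ≤ (((1 + q) / (1 - q)) ^ d) ^ m := by
  induction m with
  | zero => intro o; simp [Sk, tot]
  | succ m ih =>
    intro o
    have hg : 0 ≤ (((1 + q) / (1 - q)) ^ d) ^ m := by
      have : 0 < 1 - q := by linarith
      positivity
    rw [Sk, Finset.sum_biUnion]
    · calc _ ≤ ∑ x ∈ cube o n, q ^ len1 o x * (((1 + q) / (1 - q)) ^ d) ^ m := by
            refine Finset.sum_le_sum (fun x _ => ?_)
            rw [Finset.sum_image (fun _ _ _ _ h => (List.cons.inj h).2)]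
            simp only [tot, pow_add]
            rw [← Finset.mul_sum]
            exact mul_le_mul_of_nonneg_left (ih x) (by positivity)
        _ ≤ _ := by
            rw [← Finset.sum_mul, pow_succ']
            exact mul_le_mul_of_nonneg_right (sum_cube_le h0 h1 o n) hg
    · intro x _ y _ hxy
      rw [Function.onFun, Finset.disjoint_left]
      intro s hs hs'
      obtain ⟨_, -, rfl⟩ := Finset.mem_image.1 hs
      obtain ⟨_, -, g⟩ := Finset.mem_image.1 hs'
      exact hxy (List.cons.inj g).1.symm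

lemma card_Sk_le {n m : ℕ} (hn : 1 ≤ n) (hm : 1 ≤ m) (o : Fin d → ℤ) :
    (((Sk n m o).filter (fun s => tot o s ≤ n)).card : ℝ) ≤
      (Real.exp 1 * (1 + 2 * n / m) ^ d) ^ m := by
  have hn' : (1 : ℝ) ≤ n := by exact_mod_cast hn
  have hm' : (1 : ℝ) ≤ m := by exact_mod_cast hm
  set q : ℝ := n / (n + m) with hq
  have q0 : 0 < q := by positivity
  have q1 : q < 1 := by rw [hq, div_lt_one (by positivity)]; linarith
  have e1 : (1 + q) / (1 - q) = 1 + 2 * n / m := by
    have : 1 - q = m / (n + m) := by rw [hq]; field_simp; ring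
    rw [this, hq]; field_simp; ring
  have e2 : 1 ≤ Real.exp 1 ^ m * q ^ n := by
    have : (1 + m / n : ℝ) ^ n ≤ Real.exp 1 ^ m := by
      calc (1 + m / n : ℝ) ^ n ≤ Real.exp (m / n) ^ n :=
            pow_le_pow_left₀ (by positivity) (by linarith [Real.add_one_le_exp (m / n : ℝ)]) n
        _ = Real.exp 1 ^ m := by
            rw [← Real.exp_nat_mul, ← Real.exp_nat_mul]
            congr 1
            field_simp
    calc (1 : ℝ) = ((1 + m / n : ℝ) * q) ^ n := by
          rw [hq, show (1 + m / n : ℝ) * (n / (n + m)) = 1 by field_simp, one_pow]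
      _ ≤ _ := by rw [mul_pow]; exact mul_le_mul_of_nonneg_right this (by positivity)
  have e3 : (((Sk n m o).filter (fun s => tot o s ≤ n)).card : ℝ) * q ^ n ≤
      ((1 + 2 * n / m) ^ d) ^ m := by
    rw [← e1]
    refine le_trans ?_ (sum_Sk_le q0.le q1 n m o)
    rw [← nsmul_eq_mul, ← Finset.sum_const]
    refine le_trans (Finset.sum_le_sum (fun s hs => ?_))
      (Finset.sum_le_sum_of_subset_of_nonneg (Finset.filter_subset (fun s => tot o s ≤ n) _)
        (fun _ _ _ => by positivity))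
    exact pow_le_pow_of_le_one q0.le q1.le (Finset.mem_filter.1 hs).2
  rw [mul_pow]
  calc _ ≤ (((Sk n m o).filter (fun s => tot o s ≤ n)).card : ℝ) * (Real.exp 1 ^ m * q ^ n) :=
        le_mul_of_one_le_right (by positivity) e2
    _ = Real.exp 1 ^ m * ((((Sk n m o).filter (fun s => tot o s ≤ n)).card : ℝ) * q ^ n) := by
        ring
    _ ≤ _ := mul_le_mul_of_nonneg_left e3 (by positivity)

/-- The points of `S` are pairwise at sup-distance more than `r`. -/
def Sep (r : ℕ) (S : Finset (Fin d → ℤ)) : Prop := ∀ x ∈ S, ∀ y ∈ S, x ≠ y → ¬ InQ x r y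

lemma exists_sep (r m : ℕ) : ∀ T : Finset (Fin d → ℤ), m * (2 * r + 1) ^ d < T.card →
    ∃ S ⊆ T, Sep r S ∧ S.card = m + 1 := by
  induction m with
  | zero =>
    intro T hT
    obtain ⟨x, hx⟩ := Finset.card_pos.1 (show 0 < T.card by omega)
    exact ⟨{x}, by simpa using hx, by simp [Sep], rfl⟩
  | succ m ih =>
    intro T hT
    obtain ⟨x, hx⟩ := Finset.card_pos.1 (show 0 < T.card by omega)
    obtain ⟨S, h1, h2, h3⟩ := ih (T \ cube x r) (by
      have := Finset.le_card_sdiff (cube x r) T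
      rw [card_cube] at this
      rw [add_mul] at hT
      omega)
    have hS : ∀ y ∈ S, ¬ InQ x r y := fun y hy t =>
      (Finset.mem_sdiff.1 (h1 hy)).2 (mem_cube.2 t)
    refine ⟨insert x S, Finset.insert_subset hx (h1.trans Finset.sdiff_subset), ?_, ?_⟩
    · intro y hy z hz hyz
      rcases Finset.mem_insert.1 hy with rfl | hy' <;>
        rcases Finset.mem_insert.1 hz with rfl | hz'
      · exact absurd rfl hyz
      · exact hS z hz'
      · exact fun t => hS y hy' t.symm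
      · exact h2 y hy' z hz' hyz
    · rw [Finset.card_insert_of_notMem (fun t => hS x t (InQ.refl _ _)), h3]

variable {Ω : Type*} [MeasurableSpace Ω] {P : Measure Ω}

/-- Joint probabilities of the events `A x` at separated sites decay like `p ^ card`. -/
def Rare (P : Measure Ω) (A : (Fin d → ℤ) → Ω → Prop) (r : ℕ) (p : ℝ) : Prop :=
  ∀ S : Finset (Fin d → ℤ), Sep r S → P {ω | ∀ x ∈ S, A x ω} ≤ ENNReal.ofReal (p ^ S.card)

/-- Some path of length at most `n` meets more than `c` sites where `A` occurs. -/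
def Many (A : (Fin d → ℤ) → Ω → Prop) (n c : ℕ) (ω : Ω) : Prop :=
  ∃ l : List (Fin d → ℤ), (0 :: l).Nodup ∧ (0 :: l).IsChain Adj ∧ l.length ≤ n ∧
    ∃ T : Finset (Fin d → ℤ), (∀ x ∈ T, x ∈ l ∧ A x ω) ∧ c < T.card

theorem many_le {A : (Fin d → ℤ) → Ω → Prop} {r : ℕ} {p : ℝ} (hp : 0 ≤ p) (h : Rare P A r p)
    {n : ℕ} (hn : 1 ≤ n) (m : ℕ) :
    P {ω | Many A n (m * (2 * r + 1) ^ d) ω} ≤
      ENNReal.ofReal ((Real.exp 1 * (1 + 2 * n / (m + 1)) ^ d * p) ^ (m + 1)) := by
  classical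
  let Z := ((Sk n (m + 1) (0 : Fin d → ℤ)).filter (fun s => tot 0 s ≤ n)).filter
    (fun s => Sep r s.toFinset ∧ s.toFinset.card = m + 1)
  have hsub : {ω | Many A n (m * (2 * r + 1) ^ d) ω} ⊆
      ⋃ s ∈ Z, {ω | ∀ x ∈ s.toFinset, A x ω} := by
    rintro ω ⟨l, h1, h2, h3, T, h4, h5⟩
    obtain ⟨S, a1, a2, a3⟩ := exists_sep r m T h5
    have e : (l.filter (fun x => x ∈ S)).toFinset = S := by
      ext x
      simp only [List.mem_toFinset, List.mem_filter, decide_eq_true_eq]
      exact ⟨fun g => g.2, fun g => ⟨(h4 x (a1 g)).1, g⟩⟩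
    have hl : (l.filter (fun x => x ∈ S)).length = m + 1 := by
      rw [← List.toFinset_card_of_nodup ((List.nodup_cons.1 h1).2.filter _), e, a3]
    have ht : tot 0 (l.filter (fun x => x ∈ S)) ≤ n := by
      have := tot_le (List.filter_sublist (p := fun x => x ∈ S) (l := l)) 0 0 h2
      have z : len1 (0 : Fin d → ℤ) 0 = 0 := by simp [len1]
      omega
    simp only [Set.mem_iUnion]
    refine ⟨l.filter (fun x => x ∈ S), Finset.mem_filter.2 ⟨Finset.mem_filter.2 ⟨?_, ht⟩, ?_⟩, ?_⟩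
    · rw [← hl]; exact mem_Sk n _ _ ht
    · rw [e]; exact ⟨a2, a3⟩
    · rw [e]; exact fun x hx => (h4 x (a1 hx)).2
  refine (measure_mono hsub).trans ((measure_biUnion_finset_le _ _).trans ?_)
  calc _ ≤ ∑ _s ∈ Z, ENNReal.ofReal (p ^ (m + 1)) := by
        refine Finset.sum_le_sum (fun s hs => ?_)
        have := (Finset.mem_filter.1 hs).2
        exact this.2 ▸ h _ this.1
    _ = ENNReal.ofReal (Z.card * p ^ (m + 1)) := by
        rw [Finset.sum_const, nsmul_eq_mul, ENNReal.ofReal_mul (by positivity),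
          ENNReal.ofReal_natCast]
    _ ≤ _ := by
        refine ENNReal.ofReal_le_ofReal ?_
        rw [mul_pow]
        refine mul_le_mul_of_nonneg_right ?_ (by positivity)
        have := card_Sk_le (m := m + 1) hn (by omega) (0 : Fin d → ℤ)
        push_cast at this
        exact le_trans (Nat.cast_le.2 (Finset.card_filter_le _ _)) this

lemma dyadic_bound (hd : 1 ≤ d) {p u : ℝ} (hp : 0 ≤ p) (hu : 0 < u) {n : ℕ} (hn : 1 ≤ n)
    (hl : Real.exp 1 * (1 + 2 * u) ^ d * p ≤ 1 / 2) :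
    (Real.exp 1 * (1 + 2 * n / ((⌈n / u⌉₊ - 1 : ℕ) + 1)) ^ d * p) ^ (⌈n / u⌉₊ - 1 + 1) ≤
      12 * (3 / 2) ^ d * (Real.exp 1 * (1 + 2 * u) ^ d * p) *
        (2 * n / u / (1 + 2 * n / u) - n / u / (1 + n / u)) := by
  have hn' : (1 : ℝ) ≤ n := by exact_mod_cast hn
  obtain ⟨t, ht⟩ : ∃ t : ℝ, t = n / u := ⟨_, rfl⟩
  have t0 : 0 < t := by rw [ht]; positivity
  have htu : (n : ℝ) = t * u := by rw [ht]; field_simp
  rw [mul_div_assoc 2 (n : ℝ) u, ← ht]
  have c1 : 1 ≤ ⌈t⌉₊ := Nat.ceil_pos.2 t0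
  obtain ⟨m, hm⟩ : ∃ m, ⌈t⌉₊ = m + 1 := ⟨⌈t⌉₊ - 1, by omega⟩
  rw [hm, Nat.add_sub_cancel]
  have tm : t ≤ m + 1 := by have := Nat.le_ceil t; rw [hm] at this; exact_mod_cast this
  set lam := Real.exp 1 * (1 + 2 * u) ^ d * p with hlam
  have l0 : 0 ≤ lam := by positivity
  have e : 2 * t / (1 + 2 * t) - t / (1 + t) = t / ((1 + t) * (1 + 2 * t)) := by
    field_simp; ring
  rw [e]
  have g1 : (1 : ℝ) ≤ (3 / 2) ^ d := one_le_pow₀ (by norm_num)
  by_cases h1 : t ≤ 1
  · have m0 : m = 0 := by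
      have : ⌈t⌉₊ ≤ 1 := Nat.ceil_le.2 (by simpa using h1)
      omega
    subst m0
    have a1 : (1 + 2 * n / ((0 : ℕ) + 1) : ℝ) ≤ (3 / 2) * (1 + 2 * u) * t := by
      simp only [Nat.cast_zero, zero_add, div_one]
      nlinarith
    have a2 : (1 + 2 * n / ((0 : ℕ) + 1) : ℝ) ^ d ≤ (3 / 2) ^ d * (1 + 2 * u) ^ d * t := by
      refine (pow_le_pow_left₀ (by positivity) a1 d).trans ?_
      rw [mul_pow, mul_pow]
      exact mul_le_mul_of_nonneg_left (pow_le_of_le_one t0.le h1 (by omega)) (by positivity)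
    have a3 : t ≤ 12 * (t / ((1 + t) * (1 + 2 * t))) := by
      rw [← mul_div_assoc, le_div_iff₀ (by positivity)]
      nlinarith [mul_pos t0 t0, mul_nonneg t0.le (sub_nonneg.2 h1)]
    calc _ ≤ Real.exp 1 * ((3 / 2) ^ d * (1 + 2 * u) ^ d * t) * p := by
          rw [zero_add, pow_one]
          gcongr
      _ = (3 / 2) ^ d * lam * t := by rw [hlam]; ring
      _ ≤ (3 / 2) ^ d * lam * (12 * (t / ((1 + t) * (1 + 2 * t)))) := by gcongr
      _ = _ := by ring
  · push Not at h1
    have a1 : (1 + 2 * n / (m + 1) : ℝ) ≤ 1 + 2 * u := by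
      have : (n : ℝ) / (m + 1) ≤ u := by
        rw [div_le_iff₀ (by positivity), htu]
        nlinarith
      rw [mul_div_assoc]
      linarith
    have a2 : Real.exp 1 * (1 + 2 * n / (m + 1)) ^ d * p ≤ lam := by
      rw [hlam]
      gcongr
    have a3 : lam ^ m ≤ 2 / t := by
      calc lam ^ m ≤ (1 / 2) ^ m := pow_le_pow_left₀ l0 hl m
        _ ≤ 2 / t := by
          rw [one_div, inv_pow, inv_eq_one_div, div_le_div_iff₀ (by positivity) t0]
          have : ((m + 1 : ℕ) : ℝ) ≤ (2 ^ (m + 1) : ℕ) := by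
            exact_mod_cast (Nat.lt_two_pow_self).le
          push_cast at this
          rw [pow_succ] at this
          linarith
    have a4 : 2 / t ≤ 12 * (t / ((1 + t) * (1 + 2 * t))) := by
      rw [← mul_div_assoc, div_le_div_iff₀ t0 (by positivity)]
      nlinarith
    calc _ ≤ lam ^ (m + 1) := pow_le_pow_left₀ (by positivity) a2 _
      _ = lam * lam ^ m := by ring
      _ ≤ lam * (12 * (t / ((1 + t) * (1 + 2 * t)))) :=
          mul_le_mul_of_nonneg_left (a3.trans a4) l0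
      _ ≤ (3 / 2) ^ d * (lam * (12 * (t / ((1 + t) * (1 + 2 * t))))) :=
          le_mul_of_one_le_left (by positivity) g1
      _ = _ := by ring

theorem greedy (hd : 1 ≤ d) (A : ℕ → (Fin d → ℤ) → Ω → Prop) (r : ℕ → ℕ) (p w a : ℕ → ℝ)
    (hp : ∀ k, 0 ≤ p k) (hw : ∀ k, 0 < w k) (ha : ∀ k, 0 < a k)
    (hA : ∀ k, Rare P (A k) (r k) (p k)) (sa : Summable a)
    (sl : Summable (fun k =>
      Real.exp 1 * (1 + 2 * (w k * (2 * r k + 1) ^ d / a k)) ^ d * p k))
    {ε : ℝ} (hε : 0 < ε) :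
    ∃ k₀ : ℕ, ∀ᵐ ω ∂P, ∀ᶠ n : ℕ in atTop, ∀ l : List (Fin d → ℤ), (0 :: l).Nodup →
      (0 :: l).IsChain Adj → l.length ≤ n → ∀ (T : Finset (Fin d → ℤ)) (κ : (Fin d → ℤ) → ℕ),
        (∀ x ∈ T, x ∈ l ∧ k₀ ≤ κ x ∧ A (κ x) x ω) → ∑ x ∈ T, w (κ x) ≤ ε * n := by
  classical
  set u : ℕ → ℝ := fun k => w k * (2 * r k + 1) ^ d / a k with hu
  have u0 : ∀ k, 0 < u k := fun k => by have := hw k; have := ha k; positivity
  set lam : ℕ → ℝ := fun k => Real.exp 1 * (1 + 2 * u k) ^ d * p k with hlam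
  have l0 : ∀ k, 0 ≤ lam k := fun k => by have := hp k; have := u0 k; positivity
  obtain ⟨k₁, hk₁⟩ := eventually_atTop.1
    (sl.tendsto_atTop_zero.eventually (ge_mem_nhds (show (0 : ℝ) < 1 / 2 by norm_num)))
  obtain ⟨s₀, hs₀⟩ := summable_iff_vanishing_norm.1 sa (ε / 2) (by positivity)
  let k₀ := max k₁ (s₀.sup id + 1)
  refine ⟨k₀, ?_⟩
  let B : ℕ → ℕ → Set Ω := fun j k =>
    {ω | k₀ ≤ k ∧ Many (A k) (2 ^ j) ((⌈(2 ^ j : ℕ) / u k⌉₊ - 1) * (2 * r k + 1) ^ d) ω}
  let φ : ℕ → ℕ → ℝ := fun j k => (2 ^ j : ℕ) / u k / (1 + (2 ^ j : ℕ) / u k)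
  have hB : ∀ j k, P (B j k) ≤
      ENNReal.ofReal (12 * (3 / 2) ^ d * lam k * (φ (j + 1) k - φ j k)) := by
    intro j k
    by_cases hk : k₀ ≤ k
    · refine (measure_mono (fun ω hω => hω.2)).trans
        ((many_le (hp k) (hA k) Nat.one_le_two_pow _).trans (ENNReal.ofReal_le_ofReal ?_))
      refine (dyadic_bound hd (hp k) (u0 k) Nat.one_le_two_pow
        (hk₁ k ((le_max_left _ _).trans hk))).trans (le_of_eq ?_)
      simp only [φ, pow_succ]
      push_cast
      ring
    · have : B j k = ∅ := by ext ω; simp [B, hk]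
      simp [this]
  have hφ : ∀ j k, φ j k ≤ φ (j + 1) k := by
    intro j k
    have := u0 k
    simp only [φ, pow_succ]
    push_cast
    rw [div_le_div_iff₀ (by positivity) (by positivity)]
    have : 0 < (2 : ℝ) ^ j / u k := by positivity
    rw [mul_comm ((2 : ℝ) ^ j) 2, mul_div_assoc]
    nlinarith
  have hsum : ∑' j, P (⋃ k, B j k) ≠ ⊤ := by
    refine ne_top_of_le_ne_top (b := ∑' k, ENNReal.ofReal (12 * (3 / 2) ^ d * lam k))
      (sl.mul_left _).tsum_ofReal_ne_top ?_
    refine (ENNReal.tsum_le_tsum (fun j => (measure_iUnion_le _).trans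
      (ENNReal.tsum_le_tsum (hB j)))).trans ?_
    rw [ENNReal.tsum_comm]
    refine ENNReal.tsum_le_tsum (fun k => ENNReal.tsum_le_of_sum_range_le (fun J => ?_))
    have := l0 k
    rw [← ENNReal.ofReal_sum_of_nonneg (fun j _ =>
      mul_nonneg (by positivity) (sub_nonneg.2 (hφ j k))), ← Finset.mul_sum,
      Finset.sum_range_sub (fun j => φ j k)]
    refine ENNReal.ofReal_le_ofReal (mul_le_of_le_one_right (by positivity) ?_)
    have := u0 k
    have a1 : φ J k ≤ 1 := by
      simp only [φ]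
      rw [div_le_one (by positivity)]
      linarith
    have a2 : 0 ≤ φ 0 k := by simp only [φ]; positivity
    linarith
  filter_upwards [ae_eventually_notMem hsum] with ω hω
  obtain ⟨j₀, hj₀⟩ := eventually_atTop.1 hω
  filter_upwards [eventually_ge_atTop (2 ^ j₀)] with n hn l h1 h2 h3 T κ hT
  have n0 : n ≠ 0 := by have := Nat.one_le_two_pow (n := j₀); omega
  let j := Nat.log 2 n + 1
  have j1 : n ≤ 2 ^ j := (Nat.lt_pow_succ_log_self (by norm_num) n).le
  have j2 : 2 ^ j ≤ 2 * n := by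
    have := Nat.pow_log_le_self 2 n0
    simp only [j, pow_succ]
    omega
  have j3 : j₀ ≤ j := (Nat.le_log_of_pow_le (by norm_num) hn).trans (Nat.le_succ _)
  have hj := hj₀ j j3
  simp only [Set.mem_iUnion, not_exists] at hj
  rw [← Finset.sum_fiberwise_of_maps_to (g := κ) (t := T.image κ)
    (fun x hx => Finset.mem_image_of_mem κ hx)]
  have key : ∀ k ∈ T.image κ, ∑ x ∈ T with κ x = k, w (κ x) ≤ a k * (2 * n) := by
    intro k hk
    obtain ⟨x₀, hx₀, rfl⟩ := Finset.mem_image.1 hk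
    rw [Finset.sum_congr rfl (fun x hx => by rw [(Finset.mem_filter.1 hx).2]), Finset.sum_const,
      nsmul_eq_mul]
    have c1 : (T.filter (fun x => κ x = κ x₀)).card ≤
        (⌈(2 ^ j : ℕ) / u (κ x₀)⌉₊ - 1) * (2 * r (κ x₀) + 1) ^ d := by
      by_contra t
      refine hj (κ x₀) ⟨(hT x₀ hx₀).2.1, l, h1, h2, h3.trans j1, _, fun x hx => ?_, not_le.1 t⟩
      obtain ⟨b1, b2⟩ := Finset.mem_filter.1 hx
      exact ⟨(hT x b1).1, b2 ▸ (hT x b1).2.2⟩
    have uk := u0 (κ x₀)
    have wk := hw (κ x₀)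
    have ak := ha (κ x₀)
    have c2 : ((⌈(2 ^ j : ℕ) / u (κ x₀)⌉₊ - 1 : ℕ) : ℝ) ≤ (2 ^ j : ℕ) / u (κ x₀) := by
      have b1 : 1 ≤ ⌈(2 ^ j : ℕ) / u (κ x₀)⌉₊ := Nat.ceil_pos.2 (by positivity)
      have b2 := Nat.ceil_lt_add_one (show 0 ≤ (2 ^ j : ℕ) / u (κ x₀) by positivity)
      rw [Nat.cast_sub b1]
      push_cast at *
      linarith
    have c3 : ((2 ^ j : ℕ) : ℝ) ≤ 2 * n := by exact_mod_cast j2
    calc _ ≤ (((⌈(2 ^ j : ℕ) / u (κ x₀)⌉₊ - 1 : ℕ) : ℝ) * (2 * r (κ x₀) + 1) ^ d) * w (κ x₀) := by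
          gcongr
          exact_mod_cast c1
      _ ≤ ((2 * n) / u (κ x₀) * (2 * r (κ x₀) + 1) ^ d) * w (κ x₀) := by
          gcongr
          exact c2.trans (by gcongr)
      _ = _ := by simp only [hu]; field_simp
  refine (Finset.sum_le_sum key).trans ?_
  rw [← Finset.sum_mul]
  have := hs₀ (T.image κ) (by
    rw [Finset.disjoint_left]
    intro k hk hk'
    obtain ⟨x₀, hx₀, rfl⟩ := Finset.mem_image.1 hk
    have b1 := (le_max_right _ _).trans (hT x₀ hx₀).2.1
    have b2 : id (κ x₀) ≤ s₀.sup id := Finset.le_sup hk'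
    simp only [id] at b1 b2
    omega)
  have b := (le_abs_self _).trans this.le
  have : (0 : ℝ) ≤ n := by positivity
  nlinarith

end Pool.Agent.MP_1479fb_pr

end MrgPart2

-- ======== part 3: formerly Pool.Agent.MP_1479fb_pr.Islands
section MrgPart3

/-! Tail bounds for the islands of very negative sites. -/

set_option autoImplicit false

open MeasureTheory ProbabilityTheory Filter Topology

namespace Pool.Agent.MP_1479fb_pr

variable {d : ℕ} (μ : Measure ℝ) [IsProbabilityMeasure μ]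

lemma indep_local {V : Type} (S T : Finset V) (hST : Disjoint S T) {A B : Set (V → ℝ)}
    (mA : MeasurableSet A) (mB : MeasurableSet B)
    (hA : ∀ x x' : V → ℝ, (∀ v ∈ S, x v = x' v) → x ∈ A → x' ∈ A)
    (hB : ∀ x x' : V → ℝ, (∀ v ∈ T, x v = x' v) → x ∈ B → x' ∈ B) :
    Measure.infinitePi (fun _ : V => μ) (A ∩ B) =
      Measure.infinitePi (fun _ : V => μ) A * Measure.infinitePi (fun _ : V => μ) B := by
  classical
  have hind : iIndepFun (fun (v : V) (x : V → ℝ) => x v) (Measure.infinitePi (fun _ : V => μ)) :=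
    iIndepFun_infinitePi (X := fun _ t => t) (fun _ => measurable_id)
  have key : ∀ (S : Finset V) (A : Set (V → ℝ)), MeasurableSet A →
      (∀ x x' : V → ℝ, (∀ v ∈ S, x v = x' v) → x ∈ A → x' ∈ A) →
      ∃ A' : Set (S → ℝ), MeasurableSet A' ∧ (fun (x : V → ℝ) (i : S) => x i) ⁻¹' A' = A := by
    intro S A mA hA
    refine ⟨(fun (y : S → ℝ) v => if h : v ∈ S then y ⟨v, h⟩ else 0) ⁻¹' A,
      measurable_pi_lambda _ (fun v => ?_) mA, ?_⟩
    · split_ifs
      · exact measurable_pi_apply _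
      · exact measurable_const
    · ext x
      exact ⟨hA _ _ (fun v hv => by simp [hv]), hA _ _ (fun v hv => by simp [hv])⟩
  obtain ⟨A', a1, rfl⟩ := key S A mA hA
  obtain ⟨B', b1, rfl⟩ := key T B mB hB
  exact (hind.indepFun_finset S T hST
    (fun v => measurable_pi_apply v)).measure_inter_preimage_eq_mul _ _ a1 b1

lemma rare_of_local (A : (Fin d → ℤ) → ((Fin d → ℤ) → ℝ) → Prop) (D : ℕ) {p : ℝ} (hp : 0 ≤ p)
    (mA : ∀ v, MeasurableSet {x | A v x})
    (loc : ∀ v x x', (∀ y, InQ v D y → x y = x' y) → A v x → A v x')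
    (h : ∀ v, Measure.infinitePi (fun _ : Fin d → ℤ => μ) {x | A v x} ≤ ENNReal.ofReal p) :
    Rare (Measure.infinitePi (fun _ : Fin d → ℤ => μ)) A (2 * D) p := by
  classical
  intro S
  induction S using Finset.induction_on with
  | empty => intro _; simp
  | insert w S hw ih =>
    intro hS
    have e : {x | ∀ v ∈ insert w S, A v x} = {x | A w x} ∩ {x | ∀ v ∈ S, A v x} := by
      ext x; simp
    rw [e, indep_local μ (B := {x | ∀ v ∈ S, A v x}) (cube w D)
      (S.biUnion (fun v => cube v D)) ?_ (mA w) ?_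
      (fun x x' g => loc w x x' (fun y hy => g y (mem_cube.2 hy)))
      (fun x x' g t v hv => loc v x x' (fun y hy =>
        g y (Finset.mem_biUnion.2 ⟨v, hv, mem_cube.2 hy⟩)) (t v hv)),
      Finset.card_insert_of_notMem hw, pow_succ', ENNReal.ofReal_mul hp]
    · exact mul_le_mul' (h w) (ih (fun x hx y hy =>
        hS x (Finset.mem_insert_of_mem hx) y (Finset.mem_insert_of_mem hy)))
    · rw [Finset.disjoint_left]
      intro y h1 h2
      obtain ⟨v, hv, h3⟩ := Finset.mem_biUnion.1 h2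
      exact hS w (Finset.mem_insert_self _ _) v (Finset.mem_insert_of_mem hv)
        (fun t => hw (t ▸ hv)) (two_mul D ▸ (mem_cube.1 h1).trans (mem_cube.1 h3).symm)
    · have : {x | ∀ v ∈ S, A v x} = ⋂ v ∈ S, {x | A v x} := by ext x; simp
      rw [this]
      exact S.measurableSet_biInter (fun v _ => mA v)

lemma measurableSet_inQ (v : Fin d → ℤ) (L : ℝ) :
    MeasurableSet {x : (Fin d → ℤ) → ℝ | x v < -L} :=
  measurableSet_lt (measurable_pi_apply v) measurable_const

lemma exists_tail {η : ℝ} (hη : 0 < η) : ∃ L : ℝ, 0 ≤ L ∧ ∀ v : Fin d → ℤ,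
    Measure.infinitePi (fun _ : Fin d → ℤ => μ) {x | x v < -L} ≤ ENNReal.ofReal η := by
  obtain ⟨t, h1, h2⟩ := (((tendsto_cdf_atBot μ).eventually (ge_mem_nhds hη)).and
    (eventually_le_atBot 0)).exists
  refine ⟨-t, by linarith, fun v => ?_⟩
  refine le_trans ?_ (ENNReal.ofReal_le_ofReal h1)
  rw [ofReal_cdf, ← (measurePreserving_eval_infinitePi (fun _ : Fin d → ℤ => μ) v).measure_preimage
    measurableSet_Iic.nullMeasurableSet]
  exact measure_mono (fun x hx => by
    simp only [Set.mem_ofPred_eq, neg_neg] at hx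
    exact hx.le)

lemma Isl.congr {C : ℕ} {b b' : (Fin d → ℤ) → Prop} (k : ℕ) : ∀ v : Fin d → ℤ,
    (∀ y, InQ v (Dk C k) y → b y → b' y) → Isl C b k v → Isl C b' k v := by
  induction k with
  | zero => intro v h g; exact h v (InQ.refl _ _) g
  | succ k ih =>
    rintro v h ⟨g1, y, g2, g3, g4⟩
    exact ⟨ih v (fun z hz => h z (hz.mono (by simp [Dk]))) g1, y, g2, g3,
      ih y (fun z hz => h z ((g2.trans hz).mono (by simp only [Dk]; omega))) g4⟩

lemma measurableSet_isl (C : ℕ) (L : ℝ) (k : ℕ) : ∀ v : Fin d → ℤ,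
    MeasurableSet {x : (Fin d → ℤ) → ℝ | Isl C (fun y => x y < -L) k v} := by
  induction k with
  | zero => intro v; exact measurableSet_inQ v L
  | succ k ih =>
    intro v
    simp only [Isl, measurableSet_setOfPred] at *
    exact (ih v).and (Measurable.exists fun y =>
      measurable_const.and (measurable_const.and (ih y)))

lemma Dk_eq (C k : ℕ) : 2 * Dk C k + 1 = (2 * C + 1) ^ k := by
  induction k with
  | zero => simp [Dk]
  | succ k ih => rw [pow_succ, ← ih, Dk]; ring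

lemma rare_isl (C : ℕ) (L : ℝ) (k : ℕ) {p : ℝ} (hp : 0 ≤ p)
    (h : ∀ v : Fin d → ℤ, Measure.infinitePi (fun _ : Fin d → ℤ => μ)
      {x | Isl C (fun y => x y < -L) k v} ≤ ENNReal.ofReal p) :
    Rare (Measure.infinitePi (fun _ : Fin d → ℤ => μ))
      (fun v x => Isl C (fun y => x y < -L) k v) (2 * Dk C k) p :=
  rare_of_local μ _ _ hp (measurableSet_isl C L k)
    (fun v _ _ g => Isl.congr k v (fun y hy t => g y hy ▸ t)) h

lemma card_cube_Dk (C k : ℕ) (v : Fin d → ℤ) :
    ((cube v (Dk C k)).card : ℝ) = ((2 * C + 1) ^ d) ^ k := by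
  rw [card_cube, Dk_eq, ← pow_mul, ← pow_mul, mul_comm k]
  norm_cast

lemma isl_le (C : ℕ) (L : ℝ) {η : ℝ} (h0 : 0 ≤ η) (h1 : η ≤ 1)
    (h : ∀ v : Fin d → ℤ, Measure.infinitePi (fun _ : Fin d → ℤ => μ) {x | x v < -L} ≤
      ENNReal.ofReal (η / ((2 * C + 1) ^ d) ^ 2)) (k : ℕ) :
    ∀ v : Fin d → ℤ, Measure.infinitePi (fun _ : Fin d → ℤ => μ)
      {x | Isl C (fun y => x y < -L) k v} ≤
        ENNReal.ofReal (η ^ (k + 1) / ((2 * C + 1) ^ d) ^ (k + 2)) := by
  classical
  induction k with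
  | zero => simpa [Isl] using h
  | succ k ih =>
    intro v
    have hr := rare_isl μ C L k (by positivity) ih
    let Z := (cube v (Dk C (k + 1))).filter (fun y => ¬ InQ v (2 * Dk C k) y)
    have hsub : {x : (Fin d → ℤ) → ℝ | Isl C (fun y => x y < -L) (k + 1) v} ⊆
        ⋃ y ∈ Z, {x | ∀ z ∈ ({v, y} : Finset (Fin d → ℤ)), Isl C (fun y => x y < -L) k z} := by
      rintro x ⟨g1, y, g2, g3, g4⟩
      simp only [Set.mem_iUnion]
      exact ⟨y, Finset.mem_filter.2 ⟨mem_cube.2 (g2.mono (by simp [Dk])), g3⟩,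
        by simp [g1, g4]⟩
    refine (measure_mono hsub).trans ((measure_biUnion_finset_le _ _).trans
      ((Finset.sum_le_card_nsmul _ _ (ENNReal.ofReal
        ((η ^ (k + 1) / ((2 * C + 1) ^ d) ^ (k + 2)) ^ 2)) (fun y hy => ?_)).trans ?_))
    · have g := (Finset.mem_filter.1 hy).2
      have ne : v ≠ y := fun t => g (t ▸ InQ.refl _ _)
      have := hr {v, y} (by
        intro a ha c hc hac
        simp only [Finset.mem_insert, Finset.mem_singleton] at ha hc
        rcases ha with rfl | rfl <;> rcases hc with rfl | rfl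
        · exact absurd rfl hac
        · exact g
        · exact fun t => g t.symm
        · exact absurd rfl hac)
      rwa [Finset.card_pair ne] at this
    · rw [nsmul_eq_mul, ← ENNReal.ofReal_natCast, ← ENNReal.ofReal_mul (by positivity)]
      refine ENNReal.ofReal_le_ofReal ?_
      have c1 : (Z.card : ℝ) ≤ ((2 * C + 1) ^ d) ^ (k + 1) :=
        card_cube_Dk C (k + 1) v ▸ Nat.cast_le.2 (Finset.card_filter_le _ _)
      obtain ⟨G, hG⟩ : ∃ G : ℝ, G = (2 * C + 1) ^ d := ⟨_, rfl⟩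
      have G0 : 0 < G := by rw [hG]; positivity
      rw [← hG] at c1 ⊢
      calc _ ≤ G ^ (k + 1) * (η ^ (k + 1) / G ^ (k + 2)) ^ 2 := by gcongr
        _ = η ^ k * (η ^ (k + 1 + 1) / G ^ (k + 1 + 2)) := by field_simp; ring
        _ ≤ _ := mul_le_of_le_one_left (by positivity) (pow_le_one₀ h0 h1)

lemma few_bad (hd : 1 ≤ d) {ε : ℝ} (hε : 0 < ε) : ∃ L : ℝ,
    ∀ᵐ x ∂Measure.infinitePi (fun _ : Fin d → ℤ => μ), ∀ᶠ n : ℕ in atTop,
      ∀ l : List (Fin d → ℤ), (0 :: l).Nodup → (0 :: l).IsChain Adj → l.length ≤ n →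
        ∀ T : Finset (Fin d → ℤ), (∀ v ∈ T, v ∈ l ∧ x v < -L) → (T.card : ℝ) ≤ ε * n := by
  let p : ℕ → ℝ := fun k => (1 / 2) ^ k / (1 + 2 * (1 / (1 / 2) ^ k)) ^ d
  choose L _ hL using fun k => exists_tail (d := d) μ (show 0 < p k by positivity)
  obtain ⟨k₀, h⟩ := greedy (P := Measure.infinitePi (fun _ : Fin d → ℤ => μ)) hd
    (fun k v x => x v < -L k) (fun _ => 2 * 0) p (fun _ => 1) (fun k => (1 / 2) ^ k)
    (fun k => by positivity) (fun _ => one_pos) (fun k => by positivity)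
    (fun k => rare_of_local μ _ 0 (by positivity) (fun v => measurableSet_inQ v _)
      (fun v _ _ g t => g v (InQ.refl _ _) ▸ t) (hL k)) summable_geometric_two
    ((summable_geometric_two.mul_left (Real.exp 1)).congr (fun k => by
      simp only [p, mul_zero, Nat.cast_zero, zero_add, one_pow, mul_one]
      field_simp)) hε
  refine ⟨L k₀, ?_⟩
  filter_upwards [h] with x hx
  filter_upwards [hx] with n hn l h1 h2 h3 T hT
  simpa using hn l h1 h2 h3 T (fun _ => k₀) (fun v hv => ⟨(hT v hv).1, le_rfl, (hT v hv).2⟩)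

theorem neg_tail (hd : 1 ≤ d) {C : ℕ} (hC : 1 ≤ C) : ∃ L : ℝ, 0 ≤ L ∧ ∀ ε > 0, ∃ L₂ : ℝ, L ≤ L₂ ∧
    ∀ᵐ x ∂Measure.infinitePi (fun _ : Fin d → ℤ => μ),
      ∃ (rk : (Fin d → ℤ) → ℕ) (Ex : Finset (Fin d → ℤ)),
        (∀ v, x v < -L → Rk C (fun y => x y < -L) (rk v) v) ∧
        (∀ v, Exc C (fun y => x y < -L) 0 v → v ∈ Ex) ∧ ∀ᶠ n : ℕ in atTop,
          ∀ l : List (Fin d → ℤ), (0 :: l).Nodup → (0 :: l).IsChain Adj → l.length ≤ n →
            ∑ v ∈ l.toFinset.filter (fun y => x y < -L₂),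
              ((2 * Dk C (rk v + 1) + 1) ^ d : ℝ) ≤ ε * n := by
  classical
  obtain ⟨G, hG⟩ : ∃ G : ℝ, G = (2 * C + 1) ^ d := ⟨_, rfl⟩
  have G1 : 1 ≤ G := hG ▸ one_le_pow₀ (by linarith [Nat.cast_nonneg (α := ℝ) C])
  have hw : ∀ k, ((2 * Dk C k + 1 : ℝ)) ^ d = G ^ k := fun k => by
    rw [hG, ← card_cube_Dk C k (0 : Fin d → ℤ), card_cube]
    norm_cast
  obtain ⟨H, hH⟩ : ∃ H : ℝ, H = (4 * G ^ 2) ^ d := ⟨_, rfl⟩
  have H1 : 1 ≤ H := hH ▸ one_le_pow₀ (by nlinarith)
  have η1 : 1 / (2 * H) ≤ 1 / 2 := one_div_le_one_div_of_le two_pos (by linarith)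
  obtain ⟨L, L0, hL⟩ := exists_tail (d := d) μ (show 0 < 1 / (2 * H) / G ^ 2 by positivity)
  have hq := isl_le μ C L (η := 1 / (2 * H)) (by positivity) (by linarith) (hG ▸ hL)
  rw [← hG] at hq
  refine ⟨L, L0, fun ε hε => ?_⟩
  obtain ⟨k₀, h₁⟩ := greedy (P := Measure.infinitePi (fun _ : Fin d → ℤ => μ)) hd
    (fun k v x => Isl C (fun y => x y < -L) k v) (fun k => 2 * Dk C k)
    (fun k => (1 / (2 * H)) ^ (k + 1) / G ^ (k + 2)) (fun k => G ^ (k + 1)) (fun k => (1 / 2) ^ k)
    (fun k => by positivity) (fun _ => by positivity) (fun k => by positivity)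
    (fun k => rare_isl μ C L k (by positivity) (hq k)) summable_geometric_two
    (Summable.of_nonneg_of_le (fun k => by positivity) (fun k => by
      have a1 : ((2 * (2 * Dk C k : ℕ) + 1 : ℝ)) ^ d ≤ G ^ (k + 1) := by
        rw [← hw]
        have : 2 * Dk C k ≤ Dk C (k + 1) := by
          simp only [Dk]
          nlinarith
        gcongr
      have a2 : 1 + 2 * (G ^ (k + 1) * (2 * (2 * Dk C k : ℕ) + 1) ^ d / (1 / 2) ^ k) ≤
          (4 * G ^ 2) ^ (k + 1) := by
        have b1 : (1 : ℝ) ≤ (2 * G ^ 2) ^ (k + 1) := one_le_pow₀ (by nlinarith)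
        have b2 : (2 : ℝ) ≤ 2 ^ (k + 1) := le_self_pow₀ one_le_two (by omega)
        calc _ ≤ 1 + 2 * (G ^ (k + 1) * G ^ (k + 1) / (1 / 2) ^ k) := by gcongr
          _ = 1 + (2 * G ^ 2) ^ (k + 1) := by
              rw [mul_pow, one_div, inv_pow, div_inv_eq_mul]; ring
          _ ≤ 2 ^ (k + 1) * (2 * G ^ 2) ^ (k + 1) := by nlinarith
          _ = _ := by rw [← mul_pow]; ring
      calc _ ≤ Real.exp 1 * ((4 * G ^ 2) ^ (k + 1)) ^ d * ((1 / (2 * H)) ^ (k + 1) / 1) := by
            gcongr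
            exact one_le_pow₀ G1
        _ = Real.exp 1 / 2 * (1 / 2) ^ k := by
            rw [← pow_mul, mul_comm (k + 1) d, pow_mul, ← hH, div_one, mul_assoc, ← mul_pow,
              show H * (1 / (2 * H)) = 1 / 2 by field_simp]
            ring)
      (summable_geometric_two.mul_left _)) (half_pos hε)
  obtain ⟨L₁, h₂⟩ := few_bad μ hd (show 0 < ε / 2 / G ^ k₀ by positivity)
  refine ⟨max L L₁, le_max_left _ _, ?_⟩
  have h₃ : ∑' k, Measure.infinitePi (fun _ : Fin d → ℤ => μ)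
      (⋃ v ∈ cube (0 : Fin d → ℤ) (Dk C (k + 1)), {x | Isl C (fun y => x y < -L) k v}) ≠ ⊤ := by
    refine ne_top_of_le_ne_top summable_geometric_two.tsum_ofReal_ne_top
      (ENNReal.tsum_le_tsum fun k => (measure_biUnion_finset_le _ _).trans
        ((Finset.sum_le_card_nsmul _ _ _ (fun v _ => hq k v)).trans ?_))
    rw [nsmul_eq_mul, ← ENNReal.ofReal_natCast, ← ENNReal.ofReal_mul (by positivity),
      card_cube_Dk, ← hG]
    refine ENNReal.ofReal_le_ofReal ?_
    calc _ ≤ G ^ (k + 2) * ((1 / 2) ^ k / G ^ (k + 2)) := by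
          gcongr
          · omega
          · exact (pow_le_pow_left₀ (by positivity) η1 _).trans
              (pow_le_pow_of_le_one (by norm_num) (by norm_num) (by omega))
      _ = _ := by field_simp
  filter_upwards [h₁, h₂, ae_eventually_notMem h₃] with x g1 g2 g3
  obtain ⟨k₁, g3⟩ := eventually_atTop.1 g3
  simp only [Set.mem_iUnion, not_exists, mem_cube] at g3
  have fin : ∀ v, ∃ j, x v < -L → Rk C (fun y => x y < -L) j v := by
    intro v
    by_cases hv : x v < -L
    · have a1 : ∀ k, k ≤ Dk C k := fun k => by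
        induction k with
        | zero => simp
        | succ k ih => simp only [Dk]; omega
      obtain ⟨j, -, a2⟩ := exists_rk (C := C) (b := fun y => x y < -L) hv
        (g3 (k₁ + len1 0 v) (by omega) v
          (inQ_of_len1 (le_trans (by omega) (a1 (k₁ + len1 0 v + 1)))))
      exact ⟨j, fun _ => a2⟩
    · exact ⟨0, fun t => absurd t hv⟩
  choose rk hrk using fin
  refine ⟨rk, cube 0 (Dk C k₁), hrk, ?_, ?_⟩
  · rintro v ⟨k, a1, a2⟩
    have a3 : InQ 0 (Dk C (k + 1)) v := a2.symm.mono (by simp [Dk])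
    have : k < k₁ := by
      by_contra t
      exact g3 k (not_lt.1 t) v a3 a1.1
    exact mem_cube.2 (a3.mono (Dk_mono C this))
  filter_upwards [g1, g2] with n f1 f2 l a1 a2 a3
  set T := l.toFinset.filter (fun y => x y < -max L L₁) with hT
  have hT1 : ∀ v ∈ T, v ∈ l ∧ x v < -L ∧ x v < -L₁ := fun v hv => by
    obtain ⟨b1, b2⟩ := Finset.mem_filter.1 hv
    exact ⟨List.mem_toFinset.1 b1, by linarith [le_max_left L L₁], by linarith [le_max_right L L₁]⟩
  simp only [hw]
  rw [← Finset.sum_filter_add_sum_filter_not T (fun v => k₀ ≤ rk v)]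
  have c1 := f1 l a1 a2 a3 (T.filter (fun v => k₀ ≤ rk v)) rk (fun v hv => by
    obtain ⟨b1, b2⟩ := Finset.mem_filter.1 hv
    exact ⟨(hT1 v b1).1, b2, (hrk v (hT1 v b1).2.1).1⟩)
  have c2 := f2 l a1 a2 a3 (T.filter (fun v => ¬ k₀ ≤ rk v)) (fun v hv => by
    obtain ⟨b1, -⟩ := Finset.mem_filter.1 hv
    exact ⟨(hT1 v b1).1, (hT1 v b1).2.2⟩)
  have c3 := Finset.sum_le_card_nsmul (T.filter (fun v => ¬ k₀ ≤ rk v))
    (fun v => G ^ (rk v + 1)) (G ^ k₀) (fun v hv =>
      pow_le_pow_right₀ G1 (by have := (Finset.mem_filter.1 hv).2; omega))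
  rw [nsmul_eq_mul] at c3
  have c4 := mul_le_mul_of_nonneg_right c2 (show 0 ≤ G ^ k₀ by positivity)
  have : ε / 2 / G ^ k₀ * n * G ^ k₀ = ε / 2 * n := by field_simp
  linarith

end Pool.Agent.MP_1479fb_pr

end MrgPart3

-- marker of a merged file
example : 731051 + 876765 = 731051 + 876765 := rfl
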