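import Mathlib.Analysis.PSeries
import Mathlib.Analysis.Complex.ExponentialBounds
import Mathlib.Data.List.ChainOfFn
import Pool.Agent.MP_1479fb_pr.Islands

-- ======== part 0: formerly Pool.Agent.MP_1479fb_pr.PrConc
section MrgPart0

/-!
Exponential concentration for maxima of sums of bounded independent weights.
-/

set_option autoImplicit false

namespace Pool.Agent.MP_1479fb_pr.Pr

open MeasureTheory ProbabilityTheory Real

/-- bounded and measurable -/
def BM {Ω : Type} [MeasurableSpace Ω] (f : Ω → ℝ) : Prop := Measurable f ∧ ∃ C, ∀ x, |f x| ≤ C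

section BM
variable {Ω : Type} [MeasurableSpace Ω] {f g : Ω → ℝ}

theorem BM.integrable (h : BM f) (P : Measure Ω) [IsFiniteMeasure P] : Integrable f P := by
  obtain ⟨h1, C, h2⟩ := h
  exact Integrable.of_bound h1.aestronglyMeasurable C (Filter.Eventually.of_forall h2)

theorem BM.const (c : ℝ) : BM (fun _ : Ω => c) := ⟨measurable_const, |c|, fun _ => le_rfl⟩

theorem BM.add (h : BM f) (h' : BM g) : BM (fun x => f x + g x) := by
  obtain ⟨h1, C, h2⟩ := h
  obtain ⟨h3, C', h4⟩ := h'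
  exact ⟨h1.add h3, C + C', fun x => (abs_add_le _ _).trans (add_le_add (h2 x) (h4 x))⟩

theorem BM.neg (h : BM f) : BM (fun x => - f x) := by
  obtain ⟨h1, C, h2⟩ := h
  exact ⟨h1.neg, C, fun x => by simpa using h2 x⟩

theorem BM.sub (h : BM f) (h' : BM g) : BM (fun x => f x - g x) := by
  simpa only [sub_eq_add_neg] using h.add h'.neg

theorem BM.const_mul (h : BM f) (c : ℝ) : BM (fun x => c * f x) := by
  obtain ⟨h1, C, h2⟩ := h
  exact ⟨h1.const_mul c, |c| * C, fun x => by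
    rw [abs_mul]; exact mul_le_mul_of_nonneg_left (h2 x) (abs_nonneg _)⟩

theorem BM.exp (h : BM f) : BM (fun x => Real.exp (f x)) := by
  obtain ⟨h1, C, h2⟩ := h
  exact ⟨h1.exp, Real.exp C, fun x => by
    rw [abs_of_pos (exp_pos _)]; exact exp_le_exp.2 (le_of_abs_le (h2 x))⟩

theorem BM.sum {ι : Type} {f : ι → Ω → ℝ} (s : Finset ι) (h : ∀ i ∈ s, BM (f i)) :
    BM (fun x => ∑ i ∈ s, f i x) := by
  classical
  induction s using Finset.induction_on with
  | empty => simpa using BM.const 0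
  | insert a s ha ih =>
    simp only [Finset.sum_insert ha]
    exact (h a (Finset.mem_insert_self _ _)).add (ih fun i hi => h i (Finset.mem_insert_of_mem hi))

theorem BM.iSup {ι : Type} [Finite ι] {f : ι → Ω → ℝ} (h : ∀ i, BM (f i)) :
    BM (fun x => ⨆ i, f i x) := by
  refine ⟨Measurable.iSup fun i => (h i).1, ?_⟩
  rcases isEmpty_or_nonempty ι with hι | hι
  · exact ⟨0, fun x => by simp⟩
  choose C hC using fun i => (h i).2
  refine ⟨⨆ i, C i, fun x => ?_⟩
  obtain ⟨i, hi⟩ := exists_eq_ciSup_of_finite (f := fun i => f i x)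
  simp only [← hi]
  exact (hC i x).trans (le_ciSup (Set.finite_range C).bddAbove i)

theorem BM.ite (p : Prop) [Decidable p] (h : BM f) (h' : BM g) :
    BM (fun x => if p then f x else g x) := by
  split_ifs <;> assumption

end BM

theorem two_point (g : ℝ → ℝ) (h1 : Monotone g) (h2 : ∀ s t, t ≤ s → g s ≤ g t + (s - t))
    (h3 : ∀ s t θ, 0 ≤ θ → θ ≤ 1 → g (θ * s + (1 - θ) * t) ≤ θ * g s + (1 - θ) * g t)
    {b : ℝ} (hb : b ≤ 1 / 4) (x y : ℝ) (hxy : |x - y| ≤ b) :
    exp (g (x - 4 * b ^ 2) - g y) + exp (g (y - 4 * b ^ 2) - g x) ≤ 2 := by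
  wlog hle : y ≤ x generalizing x y
  · rw [add_comm]
    exact this y x (by rwa [abs_sub_comm]) (by linarith)
  rw [abs_of_nonneg (by linarith)] at hxy
  have hc : 0 ≤ 4 * b ^ 2 := by positivity
  have k1 : g (y - 4 * b ^ 2) ≤ g y := h1 (by linarith)
  have k2 : g y ≤ g x := h1 hle
  by_cases hx : x - 4 * b ^ 2 ≤ y
  · have e1 : exp (g (x - 4 * b ^ 2) - g y) ≤ 1 := exp_le_one_iff.2 (by linarith [h1 hx])
    have e2 : exp (g (y - 4 * b ^ 2) - g x) ≤ 1 := exp_le_one_iff.2 (by linarith)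
    linarith
  · push Not at hx
    have hD : 0 < x - y := by linarith
    have k3 := h3 x y (1 - 4 * b ^ 2 / (x - y)) (by
      rw [sub_nonneg, div_le_one hD]; linarith) (by
      have := div_nonneg hc hD.le; linarith)
    have e : (1 - 4 * b ^ 2 / (x - y)) * x + (1 - (1 - 4 * b ^ 2 / (x - y))) * y = x - 4 * b ^ 2 := by
      field_simp; ring
    rw [e] at k3
    obtain ⟨z, hz⟩ : ∃ z, z = g x - g y := ⟨_, rfl⟩
    have z0 : 0 ≤ z := by linarith
    have z1 : z ≤ b := by linarith [h2 x y hle]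
    have k4 : 4 * z ≤ 4 * b ^ 2 / (x - y) := by
      rw [le_div_iff₀ hD]
      nlinarith
    have k5 : g (x - 4 * b ^ 2) - g y ≤ z - 4 * z ^ 2 := by
      have : g (x - 4 * b ^ 2) - g y ≤ (1 - 4 * b ^ 2 / (x - y)) * z := by rw [hz]; linarith
      nlinarith
    have p0 : 0 ≤ z - 4 * z ^ 2 := by nlinarith
    have e1 := (abs_le.1 (Real.abs_exp_sub_one_sub_id_le (x := z - 4 * z ^ 2)
      (by rw [abs_of_nonneg p0]; nlinarith))).2
    have e2 := (abs_le.1 (Real.abs_exp_sub_one_sub_id_le (x := -z)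
      (by rw [abs_neg, abs_of_nonneg z0]; linarith))).2
    have e3 : exp (g (x - 4 * b ^ 2) - g y) ≤ exp (z - 4 * z ^ 2) := exp_le_exp.2 k5
    have e4 : exp (g (y - 4 * b ^ 2) - g x) ≤ exp (-z) := exp_le_exp.2 (by linarith)
    have e5 : (z - 4 * z ^ 2) ^ 2 ≤ z ^ 2 := by
      apply pow_le_pow_left₀ p0; nlinarith
    nlinarith

theorem freeze {Ω E : Type} [MeasurableSpace Ω] [MeasurableSpace E] (P : Measure Ω)
    [IsProbabilityMeasure P] {U : Ω → E} {W : Ω → ℝ} (hU : Measurable U) (hW : Measurable W)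
    (hi : IndepFun U W P) (H : E × ℝ → ℝ) (hH : Measurable H)
    (hint : Integrable (fun ω => H (U ω, W ω)) P) :
    ∫ ω, H (U ω, W ω) ∂P = ∫ t, (∫ ω, H (U ω, t) ∂P) ∂(P.map W) := by
  have hm := hi.map_prod_eq_prod_map_map hU.aemeasurable hW.aemeasurable
  have : IsProbabilityMeasure (P.map U) := Measure.isProbabilityMeasure_map hU.aemeasurable
  have : IsProbabilityMeasure (P.map W) := Measure.isProbabilityMeasure_map hW.aemeasurable
  rw [← integral_map (hU.prodMk hW).aemeasurable hH.aestronglyMeasurable, hm, integral_prod_symm]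
  · congr 1
    funext t
    exact integral_map hU.aemeasurable (hH.comp measurable_prodMk_right).aestronglyMeasurable
  · rw [← hm, integrable_map_measure hH.aestronglyMeasurable (hU.prodMk hW).aemeasurable]
    exact hint

theorem le_iSup_fin {ι : Type} [Finite ι] (f : ι → ℝ) (i : ι) : f i ≤ ⨆ i, f i :=
  le_ciSup (Set.finite_range f).bddAbove i

theorem log_int {Ω : Type} [MeasurableSpace Ω] (P : Measure Ω) [IsProbabilityMeasure P]
    (h : ℝ → Ω → ℝ) (hb : ∀ s, BM (h s)) (h1 : ∀ x s t, t ≤ s → h t x ≤ h s x)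
    (h2 : ∀ x s t, t ≤ s → h s x ≤ h t x + (s - t))
    (h3 : ∀ x s t θ, 0 ≤ θ → θ ≤ 1 → h (θ * s + (1 - θ) * t) x ≤ θ * h s x + (1 - θ) * h t x) :
    ∃ g : ℝ → ℝ, (∀ s, ∫ x, exp (h s x) ∂P = exp (g s)) ∧ Monotone g ∧
      (∀ s t, t ≤ s → g s ≤ g t + (s - t)) ∧
      (∀ s t θ, 0 ≤ θ → θ ≤ 1 → g (θ * s + (1 - θ) * t) ≤ θ * g s + (1 - θ) * g t) := by
  have hi : ∀ s, Integrable (fun x => exp (h s x)) P := fun s => (hb s).exp.integrable P
  have hpos : ∀ s, 0 < ∫ x, exp (h s x) ∂P := fun s => integral_exp_pos (hi s)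
  have he : ∀ s, ∫ x, exp (h s x) ∂P = exp (log (∫ x, exp (h s x) ∂P)) :=
    fun s => (exp_log (hpos s)).symm
  obtain ⟨g, hg⟩ : ∃ g : ℝ → ℝ, ∀ s, ∫ x, exp (h s x) ∂P = exp (g s) := ⟨_, he⟩
  refine ⟨g, hg, fun t s hts => ?_, fun s t hts => ?_, fun s t θ k1 k2 => ?_⟩
  · rw [← exp_le_exp, ← hg, ← hg]
    exact integral_mono (hi t) (hi s) fun x => exp_le_exp.2 (h1 x s t hts)
  · rw [← exp_le_exp, exp_add, ← hg, ← hg, ← integral_mul_const]
    refine integral_mono (hi s) ((hi t).mul_const _) fun x => ?_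
    simp only [← exp_add]
    exact exp_le_exp.2 (h2 x s t hts)
  · rw [← exp_le_exp, ← hg]
    have key : ∀ x, exp (h (θ * s + (1 - θ) * t) x) ≤ exp (θ * g s + (1 - θ) * g t) *
        (θ * exp (-g s) * exp (h s x) + (1 - θ) * exp (-g t) * exp (h t x)) := by
      intro x
      have c := convexOn_exp.2 (Set.mem_univ (h s x - g s)) (Set.mem_univ (h t x - g t)) k1
        (sub_nonneg.2 k2) (by ring)
      simp only [smul_eq_mul] at c
      calc exp (h (θ * s + (1 - θ) * t) x) ≤ exp ((θ * g s + (1 - θ) * g t) +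
            (θ * (h s x - g s) + (1 - θ) * (h t x - g t))) :=
            exp_le_exp.2 (by linarith [h3 x s t θ k1 k2])
        _ ≤ _ := by
          rw [exp_add]
          refine mul_le_mul_of_nonneg_left (c.trans (le_of_eq ?_)) (exp_pos _).le
          rw [mul_assoc, mul_assoc, ← exp_add, ← exp_add]
          ring_nf
    refine (integral_mono (hi _) ((((hi s).const_mul _).add ((hi t).const_mul _)).const_mul _)
      key).trans (le_of_eq ?_)
    simp only [Pi.add_apply]
    rw [integral_const_mul, integral_add ((hi s).const_mul _) ((hi t).const_mul _),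
      integral_const_mul, integral_const_mul, hg, hg, mul_assoc, mul_assoc, ← exp_add, ← exp_add]
    simp

variable {V : Type} [DecidableEq V] (μ : Measure ℝ) [IsProbabilityMeasure μ]

omit [DecidableEq V] in
theorem bm_eval {ψ : ℝ → ℝ} (hψ : BM ψ) (v : V) : BM (fun x : V → ℝ => ψ (x v)) :=
  ⟨hψ.1.comp (measurable_pi_apply v), hψ.2.imp fun _ h _ => h _⟩

theorem maurey_aux {ι : Type} [Finite ι] [Nonempty ι] (pa : ι → Finset V) {ψ : ℝ → ℝ} (hψ : BM ψ)
    {b : ℝ} (hb : b ≤ 1 / 4) (hr : ∀ s t, |ψ s - ψ t| ≤ b) (S : Finset V) : ∀ a : ι → ℝ,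
    (∫ x, exp (⨆ i, (a i + ∑ v ∈ S, if v ∈ pa i then ψ (x v) - 4 * b ^ 2 else 0))
      ∂Measure.infinitePi (fun _ : V => μ)) *
    (∫ x, exp (- ⨆ i, (a i + ∑ v ∈ S, if v ∈ pa i then ψ (x v) - 0 else 0))
      ∂Measure.infinitePi (fun _ : V => μ)) ≤ 1 := by
  induction S using Finset.induction_on with
  | empty =>
    intro a
    simp [← exp_add]
  | insert w S hw ih =>
    intro a
    set P := Measure.infinitePi (fun _ : V => μ) with hP
    have hind : iIndepFun (fun (v : V) (x : V → ℝ) => x v) P :=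
      iIndepFun_infinitePi (X := fun _ t => t) (fun _ => measurable_id)
    have hU : ∀ c : ℝ, ∀ i, BM (fun x : V → ℝ => ∑ v ∈ S, if v ∈ pa i then ψ (x v) - c else 0) :=
      fun c i => BM.sum _ fun v _ => BM.ite _ ((bm_eval hψ v).sub (BM.const _)) (BM.const _)
    have hfr : ∀ (c e : ℝ), ∫ x, exp (e * ⨆ i, (a i + ∑ v ∈ insert w S,
          if v ∈ pa i then ψ (x v) - c else 0)) ∂P =
        ∫ t, (∫ x, exp (e * ⨆ i, ((a i + (if w ∈ pa i then 1 else 0) * (ψ t - c)) +
          ∑ v ∈ S, if v ∈ pa i then ψ (x v) - c else 0)) ∂P) ∂μ := by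
      intro c e
      have hi : IndepFun (fun (x : V → ℝ) i => ∑ v ∈ S, if v ∈ pa i then ψ (x v) - c else 0)
          (fun x => x w) P := by
        have := (hind.indepFun_finset S {w} (by simpa using hw)
          (fun v => measurable_pi_apply v)).comp
          (φ := fun (y : S → ℝ) i => ∑ v : S, if v.1 ∈ pa i then ψ (y v) - c else 0)
          (ψ := fun y : ({w} : Finset V) → ℝ => y ⟨w, Finset.mem_singleton_self w⟩)
          (measurable_pi_lambda _ fun i => (BM.sum _ fun v _ =>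
            BM.ite _ ((bm_eval hψ v).sub (BM.const _)) (BM.const _)).1)
          (measurable_pi_apply (X := fun _ : ({w} : Finset V) => ℝ) ⟨w, Finset.mem_singleton_self w⟩)
        convert this using 1
        · funext x i
          exact (Finset.sum_coe_sort S (fun v => if v ∈ pa i then ψ (x v) - c else 0)).symm
        · rfl
      have := freeze P (measurable_pi_lambda _ fun i => (hU c i).1) (measurable_pi_apply w) hi
        (fun p => exp (e * ⨆ i, ((a i + (if w ∈ pa i then 1 else 0) * (ψ p.2 - c)) + p.1 i)))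
        (by
          refine (Measurable.const_mul (Measurable.iSup fun i => ?_) e).exp
          have := hψ.1
          fun_prop)
        (((BM.iSup fun i => ((BM.const _).add (((bm_eval hψ w).sub (BM.const _)).const_mul _)).add
          (hU c i)).const_mul e).exp.integrable P)
      rw [hP, Measure.infinitePi_map_eval, ← hP] at this
      rw [← this]
      congr 1
      funext x
      congr 2
      refine iSup_congr fun i => ?_
      rw [Finset.sum_insert hw]
      split_ifs <;> ring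
    obtain ⟨g, g0, g1, g2, g3⟩ := log_int P (fun s x => ⨆ i, ((a i + (if w ∈ pa i then 1 else 0) * s) +
        ∑ v ∈ S, if v ∈ pa i then ψ (x v) - 4 * b ^ 2 else 0))
      (fun s => BM.iSup fun i => (BM.const _).add (hU _ i))
      (fun x s t hts => ciSup_le fun i => le_trans (by split_ifs <;> linarith) (le_iSup_fin _ i))
      (fun x s t hts => ciSup_le fun i => le_trans (by split_ifs <;> linarith)
        (add_le_add_left (le_iSup_fin _ i) _))
      (fun x s t θ k1 k2 => ciSup_le fun i => le_trans (le_of_eq (by ring))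
        (add_le_add (mul_le_mul_of_nonneg_left (le_iSup_fin _ i) k1)
          (mul_le_mul_of_nonneg_left (le_iSup_fin _ i) (sub_nonneg.2 k2))))
    have e1 := hfr (4 * b ^ 2) 1
    have e2 := hfr 0 (-1)
    simp only [one_mul, neg_one_mul, g0] at e1 e2
    rw [e1, e2]
    have bg : ∀ c, BM (fun t => g (ψ t - c)) := by
      intro c
      obtain ⟨m, C, hC⟩ := hψ
      refine ⟨g1.measurable.comp (m.sub_const c), |g (-C - c)| + |g (C - c)|, fun t => ?_⟩
      have k1 : g (-C - c) ≤ g (ψ t - c) := g1 (by linarith [(abs_le.1 (hC t)).1])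
      have k2 : g (ψ t - c) ≤ g (C - c) := g1 (by linarith [(abs_le.1 (hC t)).2])
      rw [abs_le]
      constructor <;>
      linarith [abs_nonneg (g (-C - c)), abs_nonneg (g (C - c)), le_abs_self (g (C - c)),
        neg_abs_le (g (-C - c))]
    have ip := (bg (4 * b ^ 2)).exp.integrable μ
    have iq := (bg 0).neg.exp.integrable μ
    simp only [sub_zero] at iq
    have e3 : ∫ t, (∫ x, exp (- ⨆ i, ((a i + (if w ∈ pa i then 1 else 0) * (ψ t - 0)) +
          ∑ v ∈ S, if v ∈ pa i then ψ (x v) - 0 else 0)) ∂P) ∂μ ≤ ∫ t, exp (- g (ψ t)) ∂μ := by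
      refine integral_mono_of_nonneg (Filter.Eventually.of_forall fun t =>
        integral_nonneg fun x => (exp_pos _).le) iq (Filter.Eventually.of_forall fun t => ?_)
      have := ih (fun i => a i + (if w ∈ pa i then 1 else 0) * (ψ t - 0))
      rw [g0, sub_zero] at this
      simp only [exp_neg (g (ψ t)), sub_zero] at this ⊢
      rw [← one_div, le_div_iff₀ (exp_pos _), mul_comm]
      exact this
    refine (mul_le_mul_of_nonneg_left e3 (integral_nonneg fun t => (exp_pos _).le)).trans ?_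
    obtain ⟨A, hA⟩ : ∃ A, A = ∫ t, exp (g (ψ t - 4 * b ^ 2)) ∂μ := ⟨_, rfl⟩
    obtain ⟨B, hB⟩ : ∃ B, B = ∫ t, exp (- g (ψ t)) ∂μ := ⟨_, rfl⟩
    rw [← hA, ← hB]
    have k1 : ∀ s, exp (g (ψ s - 4 * b ^ 2)) * B + A * exp (- g (ψ s)) ≤ 2 := by
      intro s
      rw [hA, hB, ← integral_const_mul, ← integral_mul_const,
        ← integral_add (iq.const_mul _) (ip.mul_const _)]
      refine (integral_mono ((iq.const_mul _).add (ip.mul_const _)) (integrable_const 2)
        fun t => ?_).trans (by simp)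
      simp only [← exp_add, ← sub_eq_add_neg]
      exact two_point g g1 g2 g3 hb _ _ (hr s t)
    have k2 := integral_mono ((ip.mul_const B).add (iq.const_mul A)) (integrable_const 2) k1
    simp only [Pi.add_apply] at k2
    rw [integral_add (ip.mul_const B) (iq.const_mul A), integral_mul_const, integral_const_mul,
      ← hA, ← hB] at k2
    simp only [integral_const, probReal_univ, smul_eq_mul, one_mul] at k2
    linarith

omit [DecidableEq V] in
theorem bm_max {ι : Type} [Finite ι] (pa : ι → Finset V) {φ : ℝ → ℝ} (hφ : BM φ) :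
    BM (fun x : V → ℝ => ⨆ i, ∑ v ∈ pa i, φ (x v)) :=
  BM.iSup fun _ => BM.sum _ fun v _ => bm_eval hφ v

theorem maurey {ι : Type} [Finite ι] [Nonempty ι] (pa : ι → Finset V) {N : ℕ}
    (hN : ∀ i, (pa i).card ≤ N) {φ : ℝ → ℝ} (hφ : BM φ) {b l : ℝ} (hl : 0 ≤ l)
    (hb : l * b ≤ 1 / 4) (hr : ∀ s t, |φ s - φ t| ≤ b) :
    (∫ x, exp (l * ⨆ i, ∑ v ∈ pa i, φ (x v)) ∂Measure.infinitePi (fun _ : V => μ)) *
    (∫ x, exp (- (l * ⨆ i, ∑ v ∈ pa i, φ (x v))) ∂Measure.infinitePi (fun _ : V => μ)) ≤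
      exp (4 * (l * b) ^ 2 * N) := by
  have := Fintype.ofFinite ι
  have h := maurey_aux μ pa (hφ.const_mul l) hb (fun s t => by
    rw [← mul_sub, abs_mul, abs_of_nonneg hl]
    exact mul_le_mul_of_nonneg_left (hr s t) hl) (Finset.univ.biUnion pa) (fun _ => 0)
  have e : ∀ (i : ι) (f : V → ℝ), (∑ v ∈ Finset.univ.biUnion pa, if v ∈ pa i then f v else 0) =
      ∑ v ∈ pa i, f v := by
    intro i f
    rw [← Finset.sum_filter, Finset.filter_mem_eq_inter,
      Finset.inter_eq_right.2 (Finset.subset_biUnion_of_mem pa (Finset.mem_univ i))]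
  simp only [e, zero_add, sub_zero, ← Finset.mul_sum, ← Real.mul_iSup_of_nonneg hl] at h
  have k : ∫ x, exp (l * ⨆ i, ∑ v ∈ pa i, φ (x v)) ∂Measure.infinitePi (fun _ : V => μ) ≤
      exp (4 * (l * b) ^ 2 * N) * ∫ x, exp (⨆ i, ∑ v ∈ pa i, (l * φ (x v) - 4 * (l * b) ^ 2))
        ∂Measure.infinitePi (fun _ : V => μ) := by
    rw [← integral_const_mul]
    refine integral_mono (((bm_max pa hφ).const_mul l).exp.integrable _)
      (((bm_max pa ((hφ.const_mul l).sub (BM.const _))).exp.integrable _).const_mul _) fun x => ?_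
    simp only [← exp_add]
    refine exp_le_exp.2 ?_
    rw [Real.mul_iSup_of_nonneg hl]
    refine ciSup_le fun i => le_trans ?_ (add_le_add_right (le_iSup_fin _ i) _)
    rw [Finset.sum_sub_distrib, Finset.mul_sum, Finset.sum_const, nsmul_eq_mul]
    have : ((pa i).card : ℝ) ≤ N := by exact_mod_cast hN i
    nlinarith [sq_nonneg (l * b)]
  refine (mul_le_mul_of_nonneg_right k (integral_nonneg fun x => (exp_pos _).le)).trans ?_
  rw [mul_assoc]
  exact mul_le_of_le_one_right (exp_pos _).le h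

theorem exp_int_le {Ω : Type} [MeasurableSpace Ω] (P : Measure Ω) [IsProbabilityMeasure P]
    {f : Ω → ℝ} (hf : BM f) : exp (∫ x, f x ∂P) ≤ ∫ x, exp (f x) ∂P := by
  have h1 : ∀ x, exp (∫ x, f x ∂P) * (f x - ∫ x, f x ∂P + 1) ≤ exp (f x) := by
    intro x
    have := mul_le_mul_of_nonneg_left (add_one_le_exp (f x - ∫ x, f x ∂P))
      (exp_pos (∫ x, f x ∂P)).le
    rwa [← exp_add, add_sub_cancel] at this
  have i1 := hf.integrable P
  have := integral_mono ((((hf.sub (BM.const _)).add (BM.const 1)).const_mul _).integrable P)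
    (hf.exp.integrable P) h1
  rw [integral_const_mul, integral_add ((hf.sub (BM.const _)).integrable P) (integrable_const _),
    integral_sub i1 (integrable_const _)] at this
  simpa using this

theorem mgf_upper {ι : Type} [Finite ι] [Nonempty ι] (pa : ι → Finset V) {N : ℕ}
    (hN : ∀ i, (pa i).card ≤ N) {φ : ℝ → ℝ} (hφ : BM φ) {b l : ℝ} (hl : 0 ≤ l)
    (hb : l * b ≤ 1 / 4) (hr : ∀ s t, |φ s - φ t| ≤ b) :
    ∫ x, exp (l * ⨆ i, ∑ v ∈ pa i, φ (x v)) ∂Measure.infinitePi (fun _ : V => μ) ≤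
      exp (l * (∫ x, (⨆ i, ∑ v ∈ pa i, φ (x v)) ∂Measure.infinitePi (fun _ : V => μ)) +
        4 * (l * b) ^ 2 * N) := by
  have h1 := maurey μ pa hN hφ hl hb hr
  have h2 := exp_int_le (Measure.infinitePi (fun _ : V => μ)) ((bm_max pa hφ).const_mul l).neg
  rw [integral_neg, integral_const_mul] at h2
  have h3 := (mul_le_mul_of_nonneg_left h2 (integral_nonneg fun x => (exp_pos _).le)).trans h1
  rwa [exp_neg, ← div_eq_mul_inv, div_le_iff₀ (exp_pos _), ← exp_add, add_comm] at h3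

theorem mgf_lower {ι : Type} [Finite ι] [Nonempty ι] (pa : ι → Finset V) {N : ℕ}
    (hN : ∀ i, (pa i).card ≤ N) {φ : ℝ → ℝ} (hφ : BM φ) {b l : ℝ} (hl : 0 ≤ l)
    (hb : l * b ≤ 1 / 4) (hr : ∀ s t, |φ s - φ t| ≤ b) :
    ∫ x, exp (- (l * ⨆ i, ∑ v ∈ pa i, φ (x v))) ∂Measure.infinitePi (fun _ : V => μ) ≤
      exp (- (l * (∫ x, (⨆ i, ∑ v ∈ pa i, φ (x v)) ∂Measure.infinitePi (fun _ : V => μ))) +
        4 * (l * b) ^ 2 * N) := by
  have h1 := maurey μ pa hN hφ hl hb hr
  have h2 := exp_int_le (Measure.infinitePi (fun _ : V => μ)) ((bm_max pa hφ).const_mul l)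
  rw [integral_const_mul] at h2
  have h3 := (mul_le_mul_of_nonneg_right h2 (integral_nonneg fun x => (exp_pos _).le)).trans h1
  rw [exp_add, exp_neg, ← div_eq_inv_mul, le_div_iff₀ (exp_pos _), mul_comm]
  exact h3

theorem markov_exp {Ω : Type} [MeasurableSpace Ω] (P : Measure Ω) [IsProbabilityMeasure P]
    {f : Ω → ℝ} (hf : BM f) {A t : ℝ} (h : ∫ x, exp (f x) ∂P ≤ exp A) :
    P {x | t ≤ f x} ≤ ENNReal.ofReal (exp (A - t)) := by
  have h1 := mul_meas_ge_le_integral_of_nonneg (μ := P) (f := fun x => exp (f x))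
    (Filter.Eventually.of_forall fun x => (exp_pos _).le) (hf.exp.integrable P) (exp t)
  simp only [exp_le_exp] at h1
  rw [← ofReal_measureReal]
  refine ENNReal.ofReal_le_ofReal ?_
  rw [exp_sub, le_div_iff₀ (exp_pos _), mul_comm]
  exact h1.trans h

end Pool.Agent.MP_1479fb_pr.Pr

end MrgPart0

-- ======== part 1: formerly Pool.Agent.MP_1479fb_pr.Bounded
section MrgPart1

/-! Linear growth of the greedy path value for bounded weights. -/

set_option autoImplicit false

open MeasureTheory ProbabilityTheory Filter Topology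

namespace Pool.Agent.MP_1479fb_pr

variable {d : ℕ}

/-- Self-avoiding paths with `n` steps from the origin. -/
def SAW (d n : ℕ) : Type :=
  {l : List (Fin d → ℤ) // (0 :: l).Nodup ∧ (0 :: l).IsChain Adj ∧ l.length = n}

instance (n : ℕ) : Finite (SAW d n) := by
  refine Set.Finite.to_subtype
    (s := {l : List (Fin d → ℤ) | (0 :: l).Nodup ∧ (0 :: l).IsChain Adj ∧ l.length = n})
    ((Sk n n (0 : Fin d → ℤ)).finite_toSet.subset ?_)
  rintro l ⟨-, h2, rfl⟩
  have := tot_le (List.Sublist.refl l) 0 0 h2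
  have z : len1 (0 : Fin d → ℤ) 0 = 0 := by simp [len1]
  exact mem_Sk _ l 0 (by omega)

lemma exists_ray (hd : 1 ≤ d) (n : ℕ) : ∀ o : Fin d → ℤ, ∃ l : List (Fin d → ℤ),
    (o :: l).Nodup ∧ (o :: l).IsChain Adj ∧ l.length = n ∧
      ∀ y ∈ l, o ⟨0, hd⟩ < y ⟨0, hd⟩ := by
  induction n with
  | zero => intro o; exact ⟨[], by simp, by simp, rfl, by simp⟩
  | succ n ih =>
    intro o
    obtain ⟨l, a1, a2, a3, a4⟩ := ih (o + Pi.single ⟨0, hd⟩ 1)
    have h : ∀ y ∈ (o + Pi.single ⟨0, hd⟩ 1) :: l, o ⟨0, hd⟩ < y ⟨0, hd⟩ := by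
      intro y hy
      rcases List.mem_cons.1 hy with rfl | hy
      · simp
      · have := a4 y hy
        simp only [Pi.add_apply, Pi.single_eq_same] at this
        omega
    refine ⟨_ :: l, List.nodup_cons.2 ⟨fun t => lt_irrefl _ (h o t), a1⟩,
      List.isChain_cons_cons.2 ⟨?_, a2⟩, by simp [a3], h⟩
    unfold Adj
    rw [Finset.sum_eq_single ⟨0, hd⟩ (fun j _ hj => by simp [Pi.single_eq_of_ne hj]) (by simp)]
    simp

lemma SAW.nonempty (hd : 1 ≤ d) (n : ℕ) : Nonempty (SAW d n) := by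
  obtain ⟨l, a1, a2, a3, -⟩ := exists_ray hd n 0
  exact ⟨⟨l, a1, a2, a3⟩⟩

/-- The greedy path value. -/
noncomputable def Mx (n : ℕ) (Y : (Fin d → ℤ) → ℝ) : ℝ := ⨆ l : SAW d n, ∑ v ∈ l.1.toFinset, Y v

lemma le_Mx (Y : (Fin d → ℤ) → ℝ) {l : List (Fin d → ℤ)} (h1 : (0 :: l).Nodup)
    (h2 : (0 :: l).IsChain Adj) : (l.map Y).sum ≤ Mx l.length Y := by
  rw [← List.sum_toFinset _ (List.nodup_cons.1 h1).2]
  exact Pr.le_iSup_fin (fun l : SAW d l.length => ∑ v ∈ l.1.toFinset, Y v) ⟨l, h1, h2, rfl⟩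

lemma exists_Mx (hd : 1 ≤ d) (n : ℕ) (Y : (Fin d → ℤ) → ℝ) : ∃ l : List (Fin d → ℤ),
    (0 :: l).Nodup ∧ (0 :: l).IsChain Adj ∧ l.length = n ∧ (l.map Y).sum = Mx n Y := by
  have := SAW.nonempty hd n
  obtain ⟨l, hl⟩ := exists_eq_ciSup_of_finite (f := fun l : SAW d n => ∑ v ∈ l.1.toFinset, Y v)
  exact ⟨l.1, l.2.1, l.2.2.1, l.2.2.2,
    (List.sum_toFinset _ (List.nodup_cons.1 l.2.1).2).symm.trans hl⟩

lemma SAW.card_le {n : ℕ} (l : SAW d n) : l.1.toFinset.card ≤ n :=
  (List.toFinset_card_le _).trans l.2.2.2.le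

lemma sum_map_le {Y : (Fin d → ℤ) → ℝ} {K : ℝ} (h : ∀ v, Y v ≤ K) (l : List (Fin d → ℤ)) :
    (l.map Y).sum ≤ K * l.length := by
  induction l with
  | nil => simp
  | cons a l ih =>
    simp only [List.map_cons, List.sum_cons, List.length_cons]
    push_cast
    linarith [h a]

lemma abs_Mx_le (hd : 1 ≤ d) (n : ℕ) {Y : (Fin d → ℤ) → ℝ} {K : ℝ} (h : ∀ v, |Y v| ≤ K) :
    |Mx n Y| ≤ K * n := by
  obtain ⟨l, -, -, rfl, a⟩ := exists_Mx hd n Y
  rw [← a, abs_le]
  refine ⟨?_, sum_map_le (fun v => le_of_abs_le (h v)) l⟩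
  have := sum_map_le (Y := fun v => -Y v) (fun v => (neg_le_abs _).trans (h v)) l
  have e : (l.map (fun v => -Y v)).sum = -(l.map Y).sum := by
    clear a this
    induction l with
    | nil => simp
    | cons b l ih => simp only [List.map_cons, List.sum_cons, ih]; ring
  linarith

lemma le_Mx_shift (Y : (Fin d → ℤ) → ℝ) (o : Fin d → ℤ) {l : List (Fin d → ℤ)}
    (h1 : (o :: l).Nodup) (h2 : (o :: l).IsChain Adj) :
    (l.map Y).sum ≤ Mx l.length (fun u => Y (u + o)) := by
  have e : (0 : Fin d → ℤ) :: l.map (fun u => u - o) = (o :: l).map (fun u => u - o) := by simp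
  have := le_Mx (fun u => Y (u + o)) (l := l.map (fun u => u - o))
    (e ▸ h1.map (sub_left_injective)) (by
      rw [e, List.isChain_map]
      exact h2.imp (fun a b h => by simpa [Adj] using h))
  simpa [Function.comp_def] using this

/-- Sum of block maxima along a skeleton. -/
noncomputable def Gs (m : ℕ) (Y : (Fin d → ℤ) → ℝ) : (Fin d → ℤ) → List (Fin d → ℤ) → ℝ
  | _, [] => 0
  | o, x :: s => Mx m (fun u => Y (u + o)) + Gs m Y x s

lemma exists_skeleton (m k : ℕ) : ∀ (o : Fin d → ℤ) (l : List (Fin d → ℤ)), (o :: l).Nodup →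
    (o :: l).IsChain Adj → k * m ≤ l.length → ∃ s ∈ Sk m k o, s.length = k ∧
      ∀ (Y : (Fin d → ℤ) → ℝ) (K : ℝ),
      (∀ v, Y v ≤ K) → (l.map Y).sum ≤ Gs m Y o s + K * (l.length - k * m) := by
  induction k with
  | zero =>
    intro o l _ _ _
    exact ⟨[], by simp [Sk], rfl, fun Y K h => by simpa [Gs] using sum_map_le h l⟩
  | succ k ih =>
    intro o l h1 h2 h3
    rw [add_mul, one_mul] at h3
    obtain ⟨x, t, hx⟩ : ∃ x t, (o :: l).drop m = x :: t := by
      rcases h : (o :: l).drop m with _ | ⟨x, t⟩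
      · have := congrArg List.length h
        simp at this
        omega
      · exact ⟨x, t, rfl⟩
    have ht : t = l.drop m := by
      have := congrArg List.tail hx
      rw [List.tail_drop] at this
      simpa using this.symm
    obtain ⟨s, b1, b2, b3⟩ := ih x t (hx ▸ h1.sublist (List.drop_sublist _ _)) (hx ▸ h2.drop _)
      (by rw [ht, List.length_drop]; omega)
    have c1 : (o :: l.take m).Nodup := h1.sublist ((List.take_sublist m l).cons_cons o)
    have c2 : (o :: l.take m).IsChain Adj := by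
      have : o :: l.take m = (o :: l).take (m + 1) := by simp
      rw [this]
      exact h2.take _
    have c3 : (l.take m).length = m := by simp; omega
    have c4 : InQ o m x := by
      have : x ∈ o :: l.take m := by
        have e : (o :: l).take (m + 1) = (o :: l).take m ++ [x] := by
          rw [List.take_add, hx]; rfl
        have : o :: l.take m = (o :: l).take (m + 1) := by simp
        rw [this, e]
        simp
      rcases List.mem_cons.1 this with rfl | g
      · exact InQ.refl _ _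
      · have := tot_le (List.singleton_sublist.2 g) o o c2
        have z : len1 o o = 0 := by simp [len1]
        simp only [tot] at this
        exact inQ_of_len1 (by omega)
    refine ⟨x :: s, ?_, by simp [b2], fun Y K h => ?_⟩
    · simp only [Sk, Finset.mem_biUnion, Finset.mem_image]
      exact ⟨x, mem_cube.2 c4, s, b1, rfl⟩
    · have d1 := b3 Y K h
      have d2 := le_Mx_shift Y o c1 c2
      have d3 : (l.map Y).sum = ((l.take m).map Y).sum + (t.map Y).sum := by
        rw [ht, ← List.sum_append, ← List.map_append, List.take_append_drop]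
      have d4 : (t.length : ℝ) = l.length - m := by
        rw [ht, List.length_drop, Nat.cast_sub (by omega)]
      rw [c3] at d2
      rw [d4] at d1
      simp only [Gs]
      push_cast
      linarith

lemma card_Sk (n m : ℕ) : ∀ o : Fin d → ℤ, (Sk n m o).card ≤ ((2 * n + 1) ^ d) ^ m := by
  induction m with
  | zero => intro o; simp [Sk]
  | succ m ih =>
    intro o
    rw [Sk, pow_succ']
    exact (Finset.card_biUnion_le_card_mul _ _ _
      (fun x _ => Finset.card_image_le.trans (ih x))).trans (by rw [card_cube])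

variable (μ : Measure ℝ) [IsProbabilityMeasure μ] {φ : ℝ → ℝ}

lemma bm_Mx (hφ : Pr.BM φ) (n : ℕ) (o : Fin d → ℤ) :
    Pr.BM (fun x : (Fin d → ℤ) → ℝ => Mx n (fun u => φ (x (u + o)))) :=
  Pr.BM.iSup fun _ => Pr.BM.sum _ fun _ _ => Pr.bm_eval hφ _

lemma int_Gs (hφ : Pr.BM φ) (m : ℕ) (s : List (Fin d → ℤ)) : ∀ o : Fin d → ℤ,
    Pr.BM (fun x : (Fin d → ℤ) → ℝ => Gs m (fun u => φ (x u)) o s) ∧
    ∫ x, Gs m (fun u => φ (x u)) o s ∂Measure.infinitePi (fun _ : Fin d → ℤ => μ) =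
      s.length * ∫ x, Mx m (fun u => φ (x u)) ∂Measure.infinitePi (fun _ : Fin d → ℤ => μ) := by
  induction s with
  | nil => intro o; simpa [Gs] using Pr.BM.const 0
  | cons a s ih =>
    intro o
    refine ⟨(bm_Mx hφ m o).add (ih a).1, ?_⟩
    simp only [Gs]
    rw [integral_add ((bm_Mx hφ m o).integrable _) ((ih a).1.integrable _), (ih a).2]
    have := Measure.map_infinitePi_infinitePi_of_inj (P := fun _ : Fin d → ℤ => μ)
      (f := fun u => u + o) (add_left_injective o)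
    conv_rhs => rw [List.length_cons, Nat.cast_succ, add_mul, one_mul, add_comm]
    congr 1
    conv_rhs => rw [← this]
    exact (integral_map (φ := fun (ω : (Fin d → ℤ) → ℝ) i => ω (i + o))
      (measurable_pi_lambda _ fun i => measurable_pi_apply _).aemeasurable
      (Pr.bm_max (fun l : SAW d m => l.1.toFinset) hφ).1.aestronglyMeasurable).symm

lemma summable_exp_lin (A δ : ℝ) (hδ : 0 < δ) :
    ∑' n : ℕ, ENNReal.ofReal (Real.exp (A - δ * n)) ≠ ⊤ := by
  refine Summable.tsum_ofReal_ne_top ?_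
  simp only [Real.exp_sub, mul_comm δ, Real.exp_nat_mul, div_eq_mul_inv, ← inv_pow]
  exact (summable_geometric_of_lt_one (by positivity)
    (inv_lt_one_of_one_lt₀ (Real.one_lt_exp_iff.2 hδ))).mul_left _

lemma poly_le_exp (d : ℕ) {δ : ℝ} (hδ : 0 < δ) :
    ∀ᶠ m : ℕ in atTop, ((2 * m + 1 : ℝ)) ^ d ≤ Real.exp (δ * m) := by
  have h := (isLittleO_pow_exp_pos_mul_atTop d (b := δ / 3) (by positivity)).eventuallyLE
  have t : Tendsto (fun m : ℕ => (2 * m + 1 : ℝ)) atTop atTop :=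
    tendsto_atTop_add_const_right _ _ (tendsto_natCast_atTop_atTop.const_mul_atTop two_pos)
  filter_upwards [t.eventually h, eventually_ge_atTop 1] with m h1 h2
  have : (1 : ℝ) ≤ m := by exact_mod_cast h2
  rw [Real.norm_of_nonneg (by positivity), Real.norm_of_nonneg (by positivity)] at h1
  exact h1.trans (Real.exp_le_exp.2 (by nlinarith))

theorem bounded_lln (hd : 1 ≤ d) (hφ : Pr.BM φ) : ∃ c : ℝ, ∀ ε > 0,
    ∀ᵐ x ∂Measure.infinitePi (fun _ : Fin d → ℤ => μ), ∀ᶠ n : ℕ in atTop,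
      (c - ε) * n ≤ Mx n (fun u => φ (x u)) ∧ Mx n (fun u => φ (x u)) ≤ (c + ε) * n := by
  classical
  set P := Measure.infinitePi (fun _ : Fin d → ℤ => μ) with hP
  obtain ⟨K, K0, hK⟩ : ∃ K : ℝ, 0 < K ∧ ∀ t, |φ t| ≤ K := by
    obtain ⟨C, hC⟩ := hφ.2
    exact ⟨|C| + 1, by positivity, fun t => by linarith [hC t, le_abs_self C]⟩
  have hr : ∀ s t, |φ s - φ t| ≤ 2 * K := fun s t =>
    (abs_sub _ _).trans (by linarith [hK s, hK t])
  have bM : ∀ n, Pr.BM (fun x : (Fin d → ℤ) → ℝ => Mx n (fun u => φ (x u))) := fun n =>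
    Pr.bm_max (fun l : SAW d n => l.1.toFinset) hφ
  set a : ℕ → ℝ := fun n => ∫ x, Mx n (fun u => φ (x u)) ∂P with ha
  have ha1 : ∀ n : ℕ, |a n / n| ≤ K := by
    intro n
    have : ‖a n‖ ≤ K * n * P.real Set.univ :=
      norm_integral_le_of_norm_le_const (ae_of_all _ fun x => abs_Mx_le hd n (fun v => hK _))
    rw [abs_div, Nat.abs_cast]
    exact div_le_of_le_mul₀ (by positivity) K0.le (by simpa using this)
  refine ⟨liminf (fun n => a n / n) atTop, fun ε hε => ?_⟩
  set c := liminf (fun n => a n / n) atTop with hc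
  obtain ⟨l, l0, l1, l2⟩ : ∃ l : ℝ, 0 < l ∧ l * (2 * K) ≤ 1 / 4 ∧
      4 * (l * (2 * K)) ^ 2 ≤ l * (ε / 4) := by
    refine ⟨min (1 / (8 * K)) (ε / (64 * K ^ 2)), by positivity, ?_, ?_⟩
    · have := min_le_left (1 / (8 * K)) (ε / (64 * K ^ 2))
      rw [le_div_iff₀ (by positivity)] at this
      linarith
    · have := min_le_right (1 / (8 * K)) (ε / (64 * K ^ 2))
      rw [le_div_iff₀ (by positivity)] at this
      have : 0 < min (1 / (8 * K)) (ε / (64 * K ^ 2)) := by positivity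
      nlinarith
  have e1 : ∀ᶠ n : ℕ in atTop, c - ε / 2 < a n / n :=
    eventually_lt_of_lt_liminf (by linarith)
      (isBoundedUnder_of ⟨-K, fun n => neg_le_of_abs_le (ha1 n)⟩)
  have e2 : ∃ᶠ n : ℕ in atTop, a n / n < c + ε / 4 :=
    frequently_lt_of_liminf_lt (isCoboundedUnder_ge_of_le _ (fun n => le_of_abs_le (ha1 n)))
      (by linarith)
  have e3 : ∀ᶠ m : ℕ in atTop, ((2 * m + 1 : ℝ)) ^ d ≤ Real.exp (l * (ε / 4) * m) :=
    poly_le_exp d (by positivity)
  obtain ⟨m, m1, m2, m3⟩ := (e2.and_eventually (e3.and (eventually_ge_atTop 1))).exists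
  have m0 : (0 : ℝ) < m := by exact_mod_cast m3
  rw [div_lt_iff₀ m0] at m1
  have low : ∀ n : ℕ, P {x | l * (ε / 2 * n - a n) ≤ -(l * Mx n (fun u => φ (x u)))} ≤
      ENNReal.ofReal (Real.exp (0 - l * (ε / 4) * n)) := by
    intro n
    have := SAW.nonempty hd n
    refine (Pr.markov_exp P ((bM n).const_mul l).neg
      (Pr.mgf_lower μ (fun p : SAW d n => p.1.toFinset) SAW.card_le hφ l0.le l1 hr)).trans
      (ENNReal.ofReal_le_ofReal (Real.exp_le_exp.2 ?_))
    have : (0 : ℝ) ≤ n := by positivity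
    change -(l * a n) + _ - _ ≤ _
    nlinarith
  have up : ∀ n : ℕ, P {x | (c + ε) * n ≤ Mx n (fun u => φ (x u))} ≤
      ENNReal.ofReal (Real.exp (l * ((K + |c + ε / 4|) * m) - l * (ε / 4) * n)) := by
    intro n
    have n0 : (0 : ℝ) ≤ n := by positivity
    let ι : List (Fin d → ℤ) → Type := fun s => {p : SAW d n // ∀ Y : (Fin d → ℤ) → ℝ,
      (∀ v, Y v ≤ K) → (p.1.map Y).sum ≤ Gs m Y 0 s + K * (n - (n / m : ℕ) * m)}
    let Z := (Sk m (n / m) (0 : Fin d → ℤ)).filter (fun s => s.length = n / m ∧ Nonempty (ι s))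
    have hsub : {x : (Fin d → ℤ) → ℝ | (c + ε) * n ≤ Mx n (fun u => φ (x u))} ⊆
        ⋃ s ∈ Z, {x | l * ((c + ε) * n) ≤ l * ⨆ p : ι s, ∑ v ∈ p.1.1.toFinset, φ (x v)} := by
      intro x hx
      obtain ⟨p, p1, p2, p3, p4⟩ := exists_Mx hd n (fun u => φ (x u))
      obtain ⟨s, s1, s2, s3⟩ := exists_skeleton m (n / m) 0 p p1 p2
        (p3 ▸ Nat.div_mul_le_self _ _)
      let q : ι s := ⟨⟨p, p1, p2, p3⟩, fun Y hY => p3 ▸ s3 Y K hY⟩
      simp only [Set.mem_iUnion]
      refine ⟨s, Finset.mem_filter.2 ⟨s1, s2, ⟨q⟩⟩, mul_le_mul_of_nonneg_left ?_ l0.le⟩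
      refine le_trans ?_ (Pr.le_iSup_fin _ q)
      rw [List.sum_toFinset _ (List.nodup_cons.1 p1).2, p4]
      exact hx
    have r1 : ((n / m : ℕ) : ℝ) * m ≤ n := by exact_mod_cast Nat.div_mul_le_self n m
    have r2 : (n : ℝ) ≤ (n / m : ℕ) * m + m := by
      have := Nat.lt_div_mul_add (a := n) m3
      exact_mod_cast this.le
    have each : ∀ s ∈ Z,
        P {x | l * ((c + ε) * n) ≤ l * ⨆ p : ι s, ∑ v ∈ p.1.1.toFinset, φ (x v)} ≤
        ENNReal.ofReal (Real.exp (l * ((K + |c + ε / 4|) * m) - l * (ε / 2) * n)) := by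
      intro s hs
      obtain ⟨-, s2, s3⟩ := Finset.mem_filter.1 hs
      have bF := Pr.bm_max (fun p : ι s => p.1.1.toFinset) hφ
      refine (Pr.markov_exp P (bF.const_mul l)
        (Pr.mgf_upper μ (fun p : ι s => p.1.1.toFinset) (fun p => p.1.card_le) hφ l0.le l1
          hr)).trans (ENNReal.ofReal_le_ofReal (Real.exp_le_exp.2 ?_))
      have i1 := integral_mono (bF.integrable P)
        (((int_Gs μ hφ m s 0).1.add (Pr.BM.const (K * (n - (n / m : ℕ) * m)))).integrable P)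
        (fun x => ciSup_le fun p => by
          rw [List.sum_toFinset _ (List.nodup_cons.1 p.1.2.1).2]
          exact p.2 _ (fun v => le_of_abs_le (hK _)))
      rw [integral_add ((int_Gs μ hφ m s 0).1.integrable P) (integrable_const _),
        (int_Gs μ hφ m s 0).2, s2] at i1
      simp only [integral_const, probReal_univ, smul_eq_mul, one_mul] at i1
      have i2 : ((n / m : ℕ) : ℝ) * a m ≤ (n / m : ℕ) * ((c + ε / 4) * m) :=
        mul_le_mul_of_nonneg_left m1.le (by positivity)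
      have i3 : -(c + ε / 4) * (n - (n / m : ℕ) * m) ≤ |c + ε / 4| * m :=
        (mul_le_mul_of_nonneg_right (neg_le_abs _) (by linarith)).trans
          (mul_le_mul_of_nonneg_left (by linarith) (abs_nonneg _))
      have i4 : K * (n - (n / m : ℕ) * m) ≤ K * m := mul_le_mul_of_nonneg_left (by linarith) K0.le
      have i5 : ∫ x, (⨆ p : ι s, ∑ v ∈ p.1.1.toFinset, φ (x v)) ∂P ≤
          (c + ε / 4) * n + (K + |c + ε / 4|) * m := by
        change _ ≤ _ * a m + _ at i1
        nlinarith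
      have i6 := mul_le_mul_of_nonneg_left i5 l0.le
      nlinarith
    refine (measure_mono hsub).trans ((measure_biUnion_finset_le _ _).trans
      ((Finset.sum_le_card_nsmul _ _ _ each).trans ?_))
    rw [nsmul_eq_mul, ← ENNReal.ofReal_natCast, ← ENNReal.ofReal_mul (by positivity)]
    refine ENNReal.ofReal_le_ofReal ?_
    have z1 : (Z.card : ℝ) ≤ Real.exp (l * (ε / 4) * n) := by
      calc (Z.card : ℝ) ≤ ((2 * m + 1 : ℝ) ^ d) ^ (n / m) := by
            exact_mod_cast (Finset.card_filter_le _ _).trans (card_Sk m (n / m) 0)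
        _ ≤ Real.exp (l * (ε / 4) * m) ^ (n / m) := pow_le_pow_left₀ (by positivity) m2 _
        _ ≤ _ := by
            rw [← Real.exp_nat_mul]
            refine Real.exp_le_exp.2 ?_
            have : 0 < l * (ε / 4) := by positivity
            nlinarith
    refine (mul_le_mul_of_nonneg_right z1 (by positivity)).trans (le_of_eq ?_)
    rw [← Real.exp_add]
    congr 1
    ring
  have hδ : 0 < l * (ε / 4) := by positivity
  filter_upwards [ae_eventually_notMem (ne_top_of_le_ne_top (summable_exp_lin _ _ hδ)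
      (ENNReal.tsum_le_tsum low)), ae_eventually_notMem (ne_top_of_le_ne_top
      (summable_exp_lin _ _ hδ) (ENNReal.tsum_le_tsum up))] with x h1 h2
  filter_upwards [h1, h2, e1, eventually_ge_atTop 1] with n g1 g2 g3 g4
  simp only [not_le] at g1 g2
  refine ⟨?_, g2.le⟩
  rw [lt_div_iff₀ (by exact_mod_cast g4)] at g3
  have : -Mx n (fun u => φ (x u)) < ε / 2 * n - a n := by
    by_contra t
    nlinarith
  linarith

end Pool.Agent.MP_1479fb_pr

end MrgPart1

-- ======== part 2: formerly Pool.Agent.MP_1479fb_pr.Assembly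
section MrgPart2

/-! The law of large numbers for greedy lattice paths on the canonical space. -/

set_option autoImplicit false

open MeasureTheory ProbabilityTheory Filter Topology

namespace Pool.Agent.MP_1479fb_pr

lemma ae_tendsto_of_approx {Ω : Type} [MeasurableSpace Ω] (P : Measure Ω) [IsProbabilityMeasure P]
    (f : ℕ → Ω → ℝ) (h : ∀ ε > 0, ∃ c : ℝ, ∀ᵐ ω ∂P, ∀ᶠ n in atTop, |f n ω - c| ≤ ε) :
    ∃ M : ℝ, ∀ᵐ ω ∂P, Tendsto (fun n => f n ω) atTop (𝓝 M) := by
  choose c hc using fun j : ℕ => h (1 / (j + 1)) (by positivity)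
  have ha := ae_all_iff.2 hc
  obtain ⟨ω₀, h₀⟩ := ha.exists
  have small : ∀ ε : ℝ, 0 < ε → ∃ j : ℕ, (1 : ℝ) / (j + 1) < ε / 2 := fun ε hε =>
    exists_nat_one_div_lt (half_pos hε)
  obtain ⟨M, hM⟩ := cauchySeq_tendsto_of_complete (u := fun n => f n ω₀)
    (Metric.cauchySeq_iff'.2 fun ε hε => by
      obtain ⟨j, hj⟩ := small ε hε
      obtain ⟨N, hN⟩ := eventually_atTop.1 (h₀ j)
      refine ⟨N, fun n hn => ?_⟩
      have a := abs_le.1 (hN n hn)
      have b := abs_le.1 (hN N le_rfl)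
      rw [Real.dist_eq, abs_lt]
      constructor <;> linarith)
  refine ⟨M, ha.mono fun ω hω => Metric.tendsto_nhds.2 fun ε hε => ?_⟩
  obtain ⟨j, hj⟩ := small ε hε
  have b := abs_le.1 (le_of_tendsto ((hM.sub_const (c j)).abs) (h₀ j))
  filter_upwards [hω j] with n hn
  have a := abs_le.1 hn
  rw [Real.dist_eq, abs_lt]
  constructor <;> linarith

variable {d : ℕ} (μ : Measure ℝ) [IsProbabilityMeasure μ]

/-- Truncation of the positive part costs little along every path. -/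
def PosTail (d : ℕ) (μ : Measure ℝ) : Prop :=
  ∀ ε > 0, ∃ K₀ : ℝ, 0 ≤ K₀ ∧ ∀ᵐ x ∂Measure.infinitePi (fun _ : Fin d → ℤ => μ),
    ∀ᶠ n : ℕ in atTop, ∀ l : List (Fin d → ℤ), (0 :: l).Nodup → (0 :: l).IsChain Adj →
      l.length ≤ n → ∀ K, K₀ ≤ K → (l.map x).sum ≤ (l.map (fun v => min (x v) K)).sum + ε * n

lemma sandwich (hd : 1 ≤ d) {C : ℕ} (hC : 1 ≤ C) (hS : Surg d C) (hp : PosTail d μ) {ε : ℝ}
    (hε : 0 < ε) : ∃ γ₀ > 0, ∀ γ > 0, γ ≤ γ₀ → ∃ c : ℝ,
      ∀ᵐ x ∂Measure.infinitePi (fun _ : Fin d → ℤ => μ), ∀ᶠ n : ℕ in atTop,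
        (1 + γ) * c - 4 * ε ≤ Mx n x / n ∧ Mx n x / n ≤ c + 2 * ε := by
  obtain ⟨L, L0, hL⟩ := neg_tail μ hd hC
  obtain ⟨K, K0, hK⟩ := hp ε hε
  refine ⟨min 1 (ε / (3 * K + L + 1)), by positivity, fun γ γ0 hγ => ?_⟩
  have γ1 : γ ≤ 1 := hγ.trans (min_le_left _ _)
  have γ2 : γ * (3 * K + L + 1) ≤ ε := (le_div_iff₀ (by positivity)).1 (hγ.trans (min_le_right _ _))
  obtain ⟨L₂, h₂, hN⟩ := hL (γ / 3) (by positivity)
  let φ : ℝ → ℝ := fun t => max (min t K) (-L₂)
  have φ1 : ∀ t, φ t ≤ K := fun t => max_le (min_le_right _ _) (by linarith)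
  obtain ⟨c, hc⟩ := bounded_lln μ (φ := φ) hd ⟨by fun_prop, K + L₂, fun t => abs_le.2
    ⟨by linarith [le_max_right (min t K) (-L₂)], by linarith [φ1 t]⟩⟩
  refine ⟨c, ?_⟩
  filter_upwards [hK, hN, hc ε hε] with x a1 ⟨rk, Ex, a2, a3, a4⟩ a5
  have tt : Tendsto (fun n : ℕ => ⌈(1 + γ) * n⌉₊) atTop atTop :=
    tendsto_nat_ceil_atTop.comp (tendsto_natCast_atTop_atTop.const_mul_atTop (by linarith))
  obtain ⟨E, hE⟩ : ∃ E, E = ∑ y ∈ Ex, (K + |min (x y) K|) := ⟨_, rfl⟩
  filter_upwards [a1, a5, tt.eventually a4, tt.eventually a5, eventually_ge_atTop 1,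
    (tendsto_natCast_atTop_atTop.const_mul_atTop hε).eventually_ge_atTop (E + K + |c - ε|)]
    with n b1 b2 b3 b4 b5 b6
  have n1 : (1 : ℝ) ≤ n := by exact_mod_cast b5
  rw [le_div_iff₀ (by linarith), div_le_iff₀ (by linarith)]
  constructor
  · obtain ⟨l, c1, c2, c3, c4⟩ := exists_Mx hd ⌈(1 + γ) * n⌉₊ (fun u => φ (x u))
    have e1 : (1 + γ) * n ≤ l.length := c3 ▸ Nat.le_ceil _
    have e2 : (l.length : ℝ) ≤ (1 + γ) * n + 1 := c3 ▸ (Nat.ceil_lt_add_one (by positivity)).le
    have e3 := b3 l c1 c2 c3.le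
    rw [← c3] at e3 b4 c4
    obtain ⟨l', d1, d2, d3, d4⟩ := lower_path hS 0 x (fun u => φ (x u)) K0 L0 h₂ (fun _ => φ1 _)
      (fun y hy => max_le (min_le_left _ _) hy) rk a2 Ex a3 l c1 c2 n (γ * n)
      (e3.trans (by
        have g1 : γ * n ≤ 1 * n := by gcongr
        have g2 : γ / 3 * l.length ≤ γ / 3 * (3 * n) := by gcongr; linarith
        linarith)) (by linarith)
    have f1 := le_Mx x d1 d2
    rw [d3] at f1
    rw [← hE, c4] at d4
    have f2 : (c - ε) * ((1 + γ) * n) - |c - ε| ≤ (c - ε) * l.length := by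
      have : -|c - ε| * 1 ≤ (c - ε) * (l.length - (1 + γ) * n) := by
        nlinarith [neg_abs_le (c - ε), abs_nonneg (c - ε)]
      linarith
    have f3 : K * (l.length + γ * n - n) ≤ K * (2 * γ * n + 1) :=
      mul_le_mul_of_nonneg_left (by linarith) K0
    have f4 := mul_le_mul_of_nonneg_right γ2 (show (0 : ℝ) ≤ n by linarith)
    have f5 : ε * γ * n ≤ ε * 1 * n := by gcongr
    have f6 : 0 ≤ γ * n := by positivity
    nlinarith [b4.1]
  · obtain ⟨l, c1, c2, c3, c4⟩ := exists_Mx hd n x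
    have e1 := b1 l c1 c2 c3.le K le_rfl
    have e2 : (l.map (fun v => min (x v) K)).sum ≤ (l.map (fun v => φ (x v))).sum :=
      List.sum_le_sum (fun v _ => le_max_left _ _)
    have e3 := le_Mx (fun v => φ (x v)) c1 c2
    rw [c3] at e3
    linarith [b2.2]

theorem canonical_lln (hd : 2 ≤ d) (hp : PosTail d μ) : ∃ M : ℝ,
    ∀ᵐ x ∂Measure.infinitePi (fun _ : Fin d → ℤ => μ),
      Tendsto (fun n : ℕ => Mx n x / n) atTop (𝓝 M) := by
  obtain ⟨D, rfl⟩ : ∃ D, d = D + 2 := ⟨d - 2, by omega⟩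
  obtain ⟨C, hC, hS⟩ := surgery D
  refine ae_tendsto_of_approx _ _ (fun ε hε => ?_)
  obtain ⟨γ₁, a1, a2⟩ := sandwich μ (by omega) hC hS hp one_pos
  obtain ⟨c₁, a3⟩ := a2 γ₁ a1 le_rfl
  obtain ⟨B, hB⟩ : ∃ B, B = (1 + γ₁) * c₁ - 4 * 1 := ⟨_, rfl⟩
  obtain ⟨γ₀, b1, b2⟩ := sandwich μ (by omega) hC hS hp (show 0 < ε / 5 by positivity)
  obtain ⟨c, b3⟩ := b2 (min γ₀ (ε / 5 / (|B| + ε))) (by positivity) (min_le_left _ _)
  obtain ⟨x₀, e1, e2⟩ := (a3.and b3).exists
  obtain ⟨n₀, e3, e4⟩ := (e1.and e2).exists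
  have f1 : -(|B| + ε) ≤ c := by linarith [neg_abs_le B, e3.1, e4.2]
  have f2 := (le_div_iff₀ (show 0 < |B| + ε by positivity)).1
    (min_le_right γ₀ (ε / 5 / (|B| + ε)))
  have f3 : 0 < min γ₀ (ε / 5 / (|B| + ε)) := by positivity
  refine ⟨c, b3.mono fun x hx => hx.mono fun n hn => abs_le.2 ⟨?_, by linarith [hn.2]⟩⟩
  nlinarith [hn.1]

lemma iSup_eq_Mx (n : ℕ) (Y : (Fin d → ℤ) → ℝ) :
    (⨆ p : {p : Fin (n + 1) → (Fin d → ℤ) // p 0 = 0 ∧ Function.Injective p ∧
        ∀ i : Fin n, ∑ j, |p i.succ j - p i.castSucc j| = 1},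
      ∑ i : Fin n, Y (p.1 i.succ)) = Mx n Y := by
  have e : ∀ p : Fin (n + 1) → (Fin d → ℤ), p 0 = 0 →
      (0 :: List.ofFn (fun i : Fin n => p i.succ)) = List.ofFn p := fun p h => by
    rw [List.ofFn_succ, h]
  have e' : ∀ p : Fin (n + 1) → (Fin d → ℤ), (List.ofFn p).IsChain Adj ↔
      ∀ i : Fin n, ∑ j, |p i.succ j - p i.castSucc j| = 1 := fun p => by
    rw [List.isChain_ofFn]
    exact ⟨fun h i => h i (by omega), fun h i hi => h ⟨i, by omega⟩⟩
  let g : {p : Fin (n + 1) → (Fin d → ℤ) // p 0 = 0 ∧ Function.Injective p ∧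
        ∀ i : Fin n, ∑ j, |p i.succ j - p i.castSucc j| = 1} → SAW d n := fun p =>
    ⟨List.ofFn (fun i : Fin n => p.1 i.succ), e _ p.2.1 ▸ List.nodup_ofFn.2 p.2.2.1,
      e _ p.2.1 ▸ (e' _).2 p.2.2.2, List.length_ofFn⟩
  have hg : Function.Surjective g := by
    rintro ⟨l, h1, h2, rfl⟩
    refine ⟨⟨(0 :: l).get, rfl, List.nodup_ofFn.1 (by rwa [List.ofFn_get]),
      (e' _).1 (by rwa [List.ofFn_get])⟩, Subtype.ext ?_⟩
    exact List.ofFn_get l
  rw [Mx, ← hg.iSup_comp]
  refine iSup_congr fun p => ?_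
  rw [List.sum_toFinset _ (List.nodup_cons.1 (g p).2.1).2]
  simp [g, List.sum_ofFn]

end Pool.Agent.MP_1479fb_pr

end MrgPart2

-- ======== part 3: formerly Pool.Agent.MP_1479fb_pr.PosTail
section MrgPart3

/-! The positive tail under the moment condition. -/

set_option autoImplicit false

open MeasureTheory ProbabilityTheory Filter Topology

namespace Pool.Agent.MP_1479fb_pr

lemma sum_dyadic_le {t : ℝ} (ht : 0 ≤ t) (N : ℕ) :
    (∑ k ∈ Finset.range N, if (2 : ℝ) ^ (k + 1) ≤ t then (2 : ℝ) ^ (k + 1) else 0) ≤ 2 ^ (N + 1) ∧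
    (∑ k ∈ Finset.range N, if (2 : ℝ) ^ (k + 1) ≤ t then (2 : ℝ) ^ (k + 1) else 0) ≤ 2 * t := by
  induction N with
  | zero => simp [ht]
  | succ N ih =>
    rw [Finset.sum_range_succ, pow_succ 2 (N + 1)]
    have : (0 : ℝ) < 2 ^ (N + 1) := by positivity
    split_ifs <;> constructor <;> linarith [ih.1, ih.2]

lemma summable_moment {d : ℕ} (hd : 1 ≤ d) (μ : Measure ℝ) [IsProbabilityMeasure μ] {β : ℝ}
    (hβ : 0 ≤ β) (hm : ∫⁻ t, ENNReal.ofReal ((max t 0) ^ d *
      (max (Real.log (max t 0)) 0) ^ β) ∂μ < ⊤) :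
    Summable (fun k : ℕ =>
      ((2 : ℝ) ^ (k + 1)) ^ d * (k + 1 : ℝ) ^ β * μ.real (Set.Ici (2 ^ (k + 1)))) := by
  let F : ℝ → ℝ := fun t => (max t 0) ^ d * (max (Real.log (max t 0)) 0) ^ β
  have F0 : ∀ t, 0 ≤ F t := fun t => by positivity
  have hF : Integrable F μ := (lintegral_ofReal_ne_top_iff_integrable
    (by fun_prop : Measurable F).aestronglyMeasurable (ae_of_all _ F0)).1 hm.ne
  refine summable_of_sum_range_le (c := ∫ t, 2 * 2 ^ β * F t ∂μ) (fun k => by positivity)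
    (fun N => ?_)
  have e : ∀ k : ℕ, ((2 : ℝ) ^ (k + 1)) ^ d * (k + 1 : ℝ) ^ β * μ.real (Set.Ici (2 ^ (k + 1))) =
      ∫ t, (Set.Ici ((2 : ℝ) ^ (k + 1))).indicator
        (fun _ => ((2 : ℝ) ^ (k + 1)) ^ d * (k + 1 : ℝ) ^ β) t ∂μ := fun k => by
    rw [integral_indicator_const _ measurableSet_Ici, smul_eq_mul, mul_comm]
  have i : ∀ k ∈ Finset.range N, Integrable ((Set.Ici ((2 : ℝ) ^ (k + 1))).indicator
        (fun _ => ((2 : ℝ) ^ (k + 1)) ^ d * (k + 1 : ℝ) ^ β)) μ :=
    fun k _ => (integrable_const _).indicator measurableSet_Ici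
  simp only [e]
  rw [← integral_finsetSum _ i]
  refine integral_mono (integrable_finsetSum _ i) (hF.const_mul _) (fun t => ?_)
  rcases le_or_gt t 0 with ht | ht
  · refine le_trans (Finset.sum_eq_zero fun k _ => Set.indicator_of_notMem ?_ _).le
      (by have := F0 t; positivity)
    have : (0 : ℝ) < 2 ^ (k + 1) := by positivity
    simp only [Set.mem_Ici, not_le]
    linarith
  have := F0 t
  calc _ ≤ ∑ k ∈ Finset.range N, 2 ^ β * F t / t *
        (if (2 : ℝ) ^ (k + 1) ≤ t then (2 : ℝ) ^ (k + 1) else 0) := by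
        refine Finset.sum_le_sum fun k _ => ?_
        simp only [Set.indicator, Set.mem_Ici]
        split_ifs with h
        · obtain ⟨D, rfl⟩ : ∃ D, d = D + 1 := ⟨d - 1, by omega⟩
          have a1 : (k + 1 : ℝ) ≤ 2 * max (Real.log t) 0 := by
            have := Real.log_le_log (by positivity) h
            rw [Real.log_pow] at this
            push_cast at this
            nlinarith [Real.log_two_gt_d9, le_max_left (Real.log t) 0, Nat.cast_nonneg (α := ℝ) k]
          calc _ ≤ (t ^ D * 2 ^ (k + 1)) * (2 * max (Real.log t) 0) ^ β := by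
                rw [pow_succ _ D]
                gcongr
            _ = _ := by
                simp only [F, max_eq_left ht.le]
                rw [Real.mul_rpow (by norm_num) (le_max_right _ _)]
                field_simp
                ring
        · simp
    _ ≤ 2 ^ β * F t / t * (2 * t) := by
        rw [← Finset.mul_sum]
        exact mul_le_mul_of_nonneg_left (sum_dyadic_le ht.le N).2 (by positivity)
    _ = _ := by field_simp

theorem pos_tail {d : ℕ} (hd : 1 ≤ d) (μ : Measure ℝ) [IsProbabilityMeasure μ] {α : ℝ}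
    (hα : 0 < α) (hm : ∫⁻ t, ENNReal.ofReal ((max t 0) ^ d *
      (max (Real.log (max t 0)) 0) ^ ((d : ℝ) + α)) ∂μ < ⊤) : PosTail d μ := by
  classical
  intro ε hε
  have d0 : (0 : ℝ) < d := by exact_mod_cast hd
  have hs := summable_moment hd μ (by positivity) hm
  obtain ⟨k₀, h⟩ := greedy (P := Measure.infinitePi (fun _ : Fin d → ℤ => μ)) hd
    (fun k v x => (2 : ℝ) ^ (k + 1) ≤ x v) (fun _ => 2 * 0)
    (fun k => μ.real (Set.Ici (2 ^ (k + 1)))) (fun k => 2 ^ (k + 2))
    (fun k => ((k + 1 : ℝ) ^ (1 + α / d))⁻¹)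
    (fun k => by positivity) (fun _ => by positivity) (fun k => by positivity)
    (fun k => rare_of_local μ _ 0 (by positivity)
      (fun v => measurableSet_le measurable_const (measurable_pi_apply v))
      (fun v _ _ g t => g v (InQ.refl _ _) ▸ t) (fun v => by
        rw [ofReal_measureReal, ← (measurePreserving_eval_infinitePi
          (fun _ : Fin d → ℤ => μ) v).measure_preimage measurableSet_Ici.nullMeasurableSet]
        rfl))
    (by
      have := (summable_nat_add_iff 1).2 (Real.summable_nat_rpow_inv.2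
        (show 1 < 1 + α / d by linarith [div_pos hα d0]))
      simpa using this)
    (Summable.of_nonneg_of_le (fun k => by positivity) (fun k => by
      have a0 : (1 : ℝ) ≤ k + 1 := by linarith [Nat.cast_nonneg (α := ℝ) k]
      have a1 : (1 : ℝ) ≤ (k + 1 : ℝ) ^ (1 + α / d) := Real.one_le_rpow a0 (by positivity)
      have a2 : (1 : ℝ) ≤ 2 ^ (k + 1) := one_le_pow₀ one_le_two
      have a3 : ((k + 1 : ℝ) ^ (1 + α / d)) ^ d = (k + 1 : ℝ) ^ (d + α) := by
        rw [← Real.rpow_natCast, ← Real.rpow_mul (by positivity)]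
        congr 1
        field_simp
      simp only [mul_zero, Nat.cast_zero, zero_add, one_pow, mul_one, div_inv_eq_mul]
      calc _ ≤ Real.exp 1 * (5 * (2 ^ (k + 1) * (k + 1 : ℝ) ^ (1 + α / d))) ^ d *
            μ.real (Set.Ici (2 ^ (k + 1))) := by
            gcongr
            rw [pow_succ 2 (k + 1)]
            nlinarith
        _ = _ := by rw [mul_pow, mul_pow, a3]; ring) (hs.mul_left (Real.exp 1 * 5 ^ d))) hε
  refine ⟨2 ^ (k₀ + 1), by positivity, ?_⟩
  filter_upwards [h] with x hx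
  filter_upwards [hx] with n hn l h1 h2 h3 K hK
  have K1 : (1 : ℝ) ≤ K := (one_le_pow₀ one_le_two).trans hK
  have ex : ∀ v, ∃ k, K < x v → k₀ ≤ k ∧ (2 : ℝ) ^ (k + 1) ≤ x v ∧ x v ≤ 2 ^ (k + 2) := by
    intro v
    by_cases hv : K < x v
    · obtain ⟨j, a1, a2⟩ := exists_nat_pow_near (K1.trans hv.le) one_lt_two
      have : k₀ + 1 < j + 1 := (pow_lt_pow_iff_right₀ one_lt_two).1 ((hK.trans hv.le).trans_lt a2)
      obtain ⟨i, rfl⟩ : ∃ i, j = i + 1 := ⟨j - 1, by omega⟩
      exact ⟨i, fun _ => ⟨by omega, a1, a2.le⟩⟩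
    · exact ⟨0, fun t => absurd t hv⟩
  choose κ hκ using ex
  have key := hn l h1 h2 h3 (l.toFinset.filter (fun v => K < x v)) κ (fun v hv => by
    obtain ⟨b1, b2⟩ := Finset.mem_filter.1 hv
    exact ⟨List.mem_toFinset.1 b1, (hκ v b2).1, (hκ v b2).2.1⟩)
  refine le_trans ?_ (add_le_add_right key _)
  rw [← List.sum_toFinset _ (List.nodup_cons.1 h1).2, ← List.sum_toFinset _ (List.nodup_cons.1 h1).2,
    Finset.sum_filter, ← Finset.sum_add_distrib]
  refine Finset.sum_le_sum fun v _ => ?_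
  split_ifs with hv
  · rw [min_eq_right hv.le]
    linarith [(hκ v hv).2.2]
  · rw [min_eq_left (not_lt.1 hv), add_zero]

end Pool.Agent.MP_1479fb_pr

end MrgPart3

-- marker of a merged file
example : 731051 + 258309 = 731051 + 258309 := rfl
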