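import Mathlib.Algebra.Order.Ring.Nat
import Mathlib.Data.Set.Finite.Lattice
import Mathlib.Order.CompleteLattice.Finset
import Mathlib.Tactic.Monotonicity.Lemmas
import Mathlib.Data.List.Triplewise
import Mathlib.Data.List.Lookmap
import Mathlib.Order.CompletePartialOrder
import Mathlib.Tactic.Ring.RingNF
import Mathlib.Algebra.BigOperators.Fin

-- ======== part 0: formerly Pool.Agent.MP_1479fb_pr.GeoSys
section MrgPart0

/-!
Systems of disjoint paths and local relinking moves.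
-/

set_option autoImplicit false

namespace Pool.Agent.MP_1479fb_pr.Geo

open Set

section Sys
variable {β : Type} (R : β → β → Prop)

/-- pairwise disjoint self-avoiding chains, each with at least two vertices -/
def Good (A : List (List β)) : Prop :=
  A.flatten.Nodup ∧ ∀ p ∈ A, p.IsChain R ∧ 2 ≤ p.length

/-- end vertices of the paths of a system -/
def ends (A : List (List β)) : Set β :=
  {x | ∃ p ∈ A, p.head? = some x ∨ p.getLast? = some x}

/-- vertices covered by a system -/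
def used (A : List (List β)) : Set β := {x | ∃ p ∈ A, x ∈ p}

variable {R}

theorem mem_ends_cons {p : List β} {B : List (List β)} {x : β} :
    x ∈ ends (p :: B) ↔ (p.head? = some x ∨ p.getLast? = some x) ∨ x ∈ ends B := by
  simp [ends]

theorem mem_used_cons {p : List β} {B : List (List β)} {x : β} :
    x ∈ used (p :: B) ↔ x ∈ p ∨ x ∈ used B := by
  simp [used]

theorem ends_subset_used (A : List (List β)) : ends A ⊆ used A := by
  rintro x ⟨p, hp, h | h⟩
  · exact ⟨p, hp, List.mem_of_mem_head? h⟩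
  · exact ⟨p, hp, List.mem_of_mem_getLast? h⟩

theorem used_finite (A : List (List β)) : (used A).Finite := by
  have : used A = {x | x ∈ A.flatten} := by
    ext x; simp [used, List.mem_flatten]
  rw [this]; exact List.finite_toSet _

theorem good_cons {p : List β} {B : List (List β)} :
    Good R (p :: B) ↔ p.Nodup ∧ p.IsChain R ∧ 2 ≤ p.length ∧ (∀ x ∈ p, x ∉ used B) ∧ Good R B := by
  unfold Good used
  simp only [List.flatten_cons, List.nodup_append, List.mem_cons, forall_eq_or_imp,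
    List.mem_flatten, mem_ofPred_eq]
  constructor
  · rintro ⟨⟨h1, h2, h3⟩, ⟨h4, h5⟩, h6⟩
    exact ⟨h1, h4, h5, fun x hx hB => h3 x hx x hB rfl, h2, h6⟩
  · rintro ⟨h1, h4, h5, h3, h2, h6⟩
    refine ⟨⟨h1, h2, ?_⟩, ⟨h4, h5⟩, h6⟩
    rintro a ha b hb rfl
    exact h3 a ha hb

theorem orient (hR : ∀ x y, R x y → R y x) {A : List (List β)} (hA : Good R A) {x : β}
    (hx : x ∈ ends A) :
    ∃ p B, Good R (p :: B) ∧ p.head? = some x ∧ ends (p :: B) = ends A ∧
      used (p :: B) = used A := by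
  classical
  obtain ⟨q, hq, h⟩ := hx
  have hperm : List.Perm A (q :: A.erase q) := List.perm_cons_erase hq
  have hg : Good R (q :: A.erase q) :=
    ⟨(List.Perm.flatten hperm).nodup_iff.1 hA.1, fun p hp => hA.2 p (hperm.mem_iff.2 hp)⟩
  have he : ends (q :: A.erase q) = ends A := by
    ext y; simp only [ends, mem_ofPred_eq, hperm.mem_iff]
  have hu : used (q :: A.erase q) = used A := by
    ext y; simp only [used, mem_ofPred_eq, hperm.mem_iff]
  rcases h with h | h
  · exact ⟨q, _, hg, h, he, hu⟩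
  · refine ⟨q.reverse, A.erase q, ?_, by simpa using h, ?_, ?_⟩
    · rw [good_cons] at hg ⊢
      obtain ⟨h1, h2, h3, h4, h5⟩ := hg
      refine ⟨List.nodup_reverse.2 h1, ?_, by simpa using h3, by simpa using h4, h5⟩
      rw [List.isChain_reverse]
      exact h2.imp (fun a b hab => hR _ _ hab)
    · rw [← he]; ext y; simp only [mem_ends_cons, List.head?_reverse, List.getLast?_reverse]; tauto
    · rw [← hu]; ext y; simp only [mem_used_cons, List.mem_reverse]

theorem head_ne_last {p : List β} (h1 : p.Nodup) (h2 : 2 ≤ p.length) {x y : β}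
    (hx : p.head? = some x) (hy : p.getLast? = some y) : x ≠ y := by
  rintro rfl
  match p, h2 with
  | a :: b :: t, _ =>
    simp only [List.head?_cons, Option.some.injEq] at hx
    subst hx
    have : a ∈ b :: t := by
      rw [List.getLast?_cons_cons] at hy
      exact List.mem_of_mem_getLast? hy
    exact (List.nodup_cons.1 h1).1 this

theorem extend (hR : ∀ x y, R x y → R y x) {A : List (List β)} (hA : Good R A) {x v : β}
    (hx : x ∈ ends A) (hv : v ∉ used A) (hxv : R x v) :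
    ∃ A', Good R A' ∧ (∀ y, y ∈ ends A' ↔ (y ∈ ends A ∧ y ≠ x) ∨ y = v) ∧
      (∀ y, y ∈ used A' ↔ y ∈ used A ∨ y = v) := by
  obtain ⟨p, B, hg, hp, he, hu⟩ := orient hR hA hx
  rw [← hu] at hv
  rw [← he, ← hu]
  rw [good_cons] at hg
  obtain ⟨h1, h2, h3, h4, h5⟩ := hg
  rw [mem_used_cons, not_or] at hv
  match p, h3 with
  | a :: b :: t, h3 =>
    simp only [List.head?_cons, Option.some.injEq] at hp
    subst hp
    refine ⟨(v :: a :: b :: t) :: B, ?_, ?_, ?_⟩
    · rw [good_cons]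
      refine ⟨List.nodup_cons.2 ⟨hv.1, h1⟩, ?_, by simp, ?_, h5⟩
      · exact List.IsChain.cons_cons (hR _ _ hxv) h2
      · intro y hy
        rcases List.mem_cons.1 hy with rfl | hy
        · exact hv.2
        · exact h4 y hy
    · intro y
      have hne : ∀ w, (a :: b :: t).getLast? = some w → a ≠ w :=
        fun w hw => head_ne_last h1 h3 rfl hw
      have hB : y ∈ ends B → y ≠ a := by
        rintro hy rfl
        exact h4 y (by simp) (ends_subset_used B hy)
      simp only [mem_ends_cons, List.head?_cons, Option.some.injEq, List.getLast?_cons_cons] at hne ⊢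
      constructor
      · rintro ((h | h) | h)
        · exact Or.inr h.symm
        · exact Or.inl ⟨Or.inl (Or.inr h), (hne y h).symm⟩
        · exact Or.inl ⟨Or.inr h, hB h⟩
      · rintro (⟨(h | h) | h, h'⟩ | h)
        · exact absurd h.symm h'
        · exact Or.inl (Or.inr h)
        · exact Or.inr h
        · exact Or.inl (Or.inl h.symm)
    · intro y
      simp only [mem_used_cons, List.mem_cons]; tauto

theorem join (hR : ∀ x y, R x y → R y x) {A : List (List β)} (hA : Good R A) {x v₁ v₂ : β}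
    (hx : x ∈ ends A) (h₁ : v₁ ∈ ends A) (h₂ : v₂ ∈ ends A) (h12 : v₁ ≠ v₂) (hx1 : v₁ ≠ x)
    (hx2 : v₂ ≠ x) (r1 : R x v₁) (r2 : R x v₂) :
    ∃ A', Good R A' ∧ (∀ y ∈ ends A', y ∈ ends A ∧ y ≠ x) ∧ used A' = used A := by
  obtain ⟨p, B, hg, hp, he, hu⟩ := orient hR hA hx
  rw [← he] at h₁ h₂
  rw [← he, ← hu]
  rw [good_cons] at hg
  obtain ⟨h1, h2, h3, h4, h5⟩ := hg
  have key : ∃ v, v ∈ ends B ∧ R x v := by
    rw [mem_ends_cons, hp] at h₁ h₂
    rcases h₁ with (h | h) | h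
    · exact absurd (Option.some.inj h).symm hx1
    · rcases h₂ with (h' | h') | h'
      · exact absurd (Option.some.inj h').symm hx2
      · rw [h] at h'; exact absurd (Option.some.inj h') h12
      · exact ⟨v₂, h', r2⟩
    · exact ⟨v₁, h, r1⟩
  obtain ⟨v, hv, hxv⟩ := key
  obtain ⟨q, C, hg', hq, he', hu'⟩ := orient hR h5 hv
  rw [← hu'] at h4
  rw [good_cons] at hg'
  obtain ⟨g1, g2, g3, g4, g5⟩ := hg'
  have hp0 : p ≠ [] := by rintro rfl; simp at h3
  have hq0 : q ≠ [] := by rintro rfl; simp at g3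
  refine ⟨(p.reverse ++ q) :: C, ?_, ?_, ?_⟩
  · rw [good_cons]
    refine ⟨?_, ?_, by simp; omega, ?_, g5⟩
    · rw [List.nodup_append]
      refine ⟨List.nodup_reverse.2 h1, g1, ?_⟩
      rintro a ha b hb rfl
      exact h4 a (List.mem_reverse.1 ha) (mem_used_cons.2 (Or.inl hb))
    · rw [List.isChain_append]
      refine ⟨?_, g2, ?_⟩
      · rw [List.isChain_reverse]
        exact h2.imp (fun a b hab => hR _ _ hab)
      · intro a ha b hb
        rw [List.getLast?_reverse, hp] at ha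
        rw [hq] at hb
        simp only [Option.mem_def, Option.some.injEq] at ha hb
        subst ha hb
        exact hxv
    · intro y hy
      rcases List.mem_append.1 hy with hy | hy
      · exact fun hc => h4 y (List.mem_reverse.1 hy) (mem_used_cons.2 (Or.inr hc))
      · exact g4 y hy
  · intro y hy
    have hxp : x ∈ p := List.mem_of_mem_head? hp
    rw [mem_ends_cons] at hy
    rw [mem_ends_cons, ← he', mem_ends_cons]
    rcases hy with (h | h) | h
    · rw [List.head?_append_of_ne_nil _ (by simpa using hp0), List.head?_reverse] at h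
      exact ⟨Or.inl (Or.inr h), (head_ne_last h1 h3 hp h).symm⟩
    · rw [List.getLast?_append_of_ne_nil _ hq0] at h
      refine ⟨Or.inr (Or.inl (Or.inr h)), ?_⟩
      rintro rfl
      exact h4 y hxp (mem_used_cons.2 (Or.inl (List.mem_of_mem_getLast? h)))
    · refine ⟨Or.inr (Or.inr h), ?_⟩
      rintro rfl
      exact h4 y hxp (mem_used_cons.2 (Or.inr (ends_subset_used C h)))
  · ext y
    rw [mem_used_cons, mem_used_cons, ← hu', mem_used_cons, List.mem_append, List.mem_reverse]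
    tauto

variable (R)

/-- Relinking: ends lying in `P` can be moved into `P'` using only the fresh vertices `W`. -/
def SRed (P P' W : Set β) : Prop :=
  ∀ (Q : Set β) (A : List (List β)), Good R A → ends A ⊆ P ∪ Q → Disjoint (used A) W →
    ∃ A', Good R A' ∧ ends A' ⊆ P' ∪ Q ∧ used A ⊆ used A' ∧ used A' ⊆ used A ∪ W

variable {R}

theorem SRed.mono {P P' W P₀ P₀' W₀ : Set β} (h : SRed R P P' W) (h1 : P₀ ⊆ P) (h2 : P' ⊆ P₀')
    (h3 : W ⊆ W₀) : SRed R P₀ P₀' W₀ := by
  intro Q A hA he hd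
  obtain ⟨A', g1, g2, g3, g4⟩ := h Q A hA (he.trans (union_subset_union_left _ h1))
    (hd.mono_right h3)
  exact ⟨A', g1, g2.trans (union_subset_union_left _ h2), g3,
    g4.trans (union_subset_union_right _ h3)⟩

theorem SRed.refl (P : Set β) : SRed R P P ∅ := fun _ A hA he _ =>
  ⟨A, hA, he, subset_rfl, subset_union_left⟩

theorem SRed.trans {P P' P'' W W' : Set β} (h : SRed R P P' W) (h' : SRed R P' P'' W')
    (hd : Disjoint W W') : SRed R P P'' (W ∪ W') := by
  intro Q A hA he hu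
  obtain ⟨A', g1, g2, g3, g4⟩ := h Q A hA he (hu.mono_right subset_union_left)
  obtain ⟨A'', k1, k2, k3, k4⟩ := h' Q A' g1 g2
    (Disjoint.mono_left g4 (disjoint_union_left.2 ⟨hu.mono_right subset_union_right, hd⟩))
  refine ⟨A'', k1, k2, g3.trans k3, k4.trans ?_⟩
  rw [← union_assoc]
  exact union_subset_union_left _ g4

theorem SRed.frame {P P' W : Set β} (h : SRed R P P' W) (S : Set β) :
    SRed R (P ∪ S) (P' ∪ S) W := by
  intro Q A hA he hu
  rw [union_assoc] at he ⊢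
  exact h (S ∪ Q) A hA he hu

theorem SRed.par {P P' W S S' W' : Set β} (h : SRed R P P' W) (h' : SRed R S S' W')
    (hd : Disjoint W W') : SRed R (P ∪ S) (P' ∪ S') (W ∪ W') := by
  refine (h.frame S).trans ?_ hd
  rw [union_comm P' S, union_comm P' S']
  exact h'.frame P'

theorem SRed.finsetUnion {ι : Type} {P P' W : ι → Set β} (h : ∀ i, SRed R (P i) (P' i) (W i))
    (hd : Pairwise fun i j => Disjoint (W i) (W j)) (s : Finset ι) :
    SRed R (⋃ i ∈ s, P i) (⋃ i ∈ s, P' i) (⋃ i ∈ s, W i) := by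
  classical
  induction s using Finset.induction_on with
  | empty => simpa using SRed.refl (R := R) ∅
  | insert a s ha ih =>
    simp only [Finset.set_biUnion_insert]
    refine (h a).par ih ?_
    simp only [disjoint_iUnion_right]
    intro i hi
    exact hd (by rintro rfl; exact ha hi)

theorem SRed.iUnion {ι : Type} {P P' W : ι → Set β} (h : ∀ i, SRed R (P i) (P' i) (W i))
    (hd : Pairwise fun i j => Disjoint (W i) (W j)) :
    SRed R (⋃ i, P i) (⋃ i, P' i) (⋃ i, W i) := by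
  intro Q A hA he hu
  have hfin : (ends A ∩ ⋃ i, P i).Finite :=
    ((used_finite A).subset (ends_subset_used A)).inter_of_left _
  obtain ⟨I, hI, hsub⟩ := finite_subset_iUnion hfin (t := P) inter_subset_right
  have hs := SRed.finsetUnion h hd hI.toFinset
  have hs' : SRed R (⋃ i ∈ I, P i) (⋃ i, P' i) (⋃ i, W i) := by
    refine hs.mono ?_ ?_ ?_
    · intro x; simp
    · intro x; simp only [mem_iUnion]; rintro ⟨i, -, hi⟩; exact ⟨i, hi⟩
    · intro x; simp only [mem_iUnion]; rintro ⟨i, -, hi⟩; exact ⟨i, hi⟩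
  refine hs' Q A hA ?_ hu
  intro x hx
  rcases he hx with h1 | h1
  · exact Or.inl (hsub ⟨hx, h1⟩)
  · exact Or.inr h1

theorem step (hR : ∀ x y, R x y → R y x) {A : List (List β)} (hA : Good R A) {x v : β}
    (hv : v ∉ used A) (hxv : R x v) :
    ∃ A', Good R A' ∧ (∀ y ∈ ends A', (y ∈ ends A ∧ y ≠ x) ∨ y = v) ∧
      (∀ y ∈ ends A, y ≠ x → y ∈ ends A') ∧ used A ⊆ used A' ∧
      (∀ y ∈ used A', y ∈ used A ∨ y = v) ∧ (v ∈ used A' → v ∈ ends A') := by
  by_cases hx : x ∈ ends A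
  · obtain ⟨A', g1, g2, g3⟩ := extend hR hA hx hv hxv
    exact ⟨A', g1, fun y hy => (g2 y).1 hy, fun y hy hne => (g2 y).2 (Or.inl ⟨hy, hne⟩),
      fun y hy => (g3 y).2 (Or.inl hy), fun y hy => (g3 y).1 hy, fun _ => (g2 v).2 (Or.inr rfl)⟩
  · exact ⟨A, hA, fun y hy => Or.inl ⟨hy, by rintro rfl; exact hx hy⟩, fun y hy _ => hy,
      subset_rfl, fun y hy => Or.inl hy, fun h => absurd h hv⟩

theorem SRed.slide (hR : ∀ x y, R x y → R y x) {x v : β} (hxv : R x v) :
    SRed R {x} {v} {v} := by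
  intro Q A hA he hu
  obtain ⟨A', g1, g2, -, g4, g5, -⟩ := step hR hA (disjoint_singleton_right.1 hu) hxv
  refine ⟨A', g1, ?_, g4, g5⟩
  intro y hy
  rcases g2 y hy with ⟨h1, h2⟩ | h
  · exact Or.inr ((he h1).resolve_left h2)
  · exact Or.inl h

theorem absorb (hR : ∀ x y, R x y → R y x) {A : List (List β)} (hA : Good R A) {u v₁ v₂ : β}
    (h12 : v₁ ≠ v₂) (r1 : R u v₁) (r2 : R u v₂) (hu1 : v₁ ≠ u) (hu2 : v₂ ≠ u)
    (s1 : v₁ ∈ used A → v₁ ∈ ends A) (s2 : v₂ ∈ used A → v₂ ∈ ends A) :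
    ∃ A', Good R A' ∧ (∀ y ∈ ends A', (y ∈ ends A ∧ y ≠ u) ∨ y = v₁ ∨ y = v₂) ∧
      used A ⊆ used A' ∧ (∀ y ∈ used A', y ∈ used A ∨ y = v₁ ∨ y = v₂) := by
  by_cases hu : u ∈ ends A
  · by_cases k1 : v₁ ∈ used A
    · by_cases k2 : v₂ ∈ used A
      · obtain ⟨A', g1, g2, g3⟩ := join hR hA hu (s1 k1) (s2 k2) h12 hu1 hu2 r1 r2
        exact ⟨A', g1, fun y hy => Or.inl (g2 y hy), g3.ge, fun y hy => Or.inl (g3 ▸ hy)⟩
      · obtain ⟨A', g1, g2, -, g4, g5, -⟩ := step hR hA k2 r2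
        exact ⟨A', g1, fun y hy => (g2 y hy).imp_right Or.inr, g4,
          fun y hy => (g5 y hy).imp_right Or.inr⟩
    · obtain ⟨A', g1, g2, -, g4, g5, -⟩ := step hR hA k1 r1
      exact ⟨A', g1, fun y hy => (g2 y hy).imp_right Or.inl, g4,
        fun y hy => (g5 y hy).imp_right Or.inl⟩
  · exact ⟨A, hA, fun y hy => Or.inl ⟨hy, by rintro rfl; exact hu hy⟩, subset_rfl,
      fun y hy => Or.inl hy⟩

theorem SRed.mthree (hR : ∀ x y, R x y → R y x) {u₁ u u₂ v₁ v₂ : β} (h12 : v₁ ≠ v₂)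
    (r1 : R u₁ v₁) (r2 : R u v₁) (r3 : R u v₂) (r4 : R u₂ v₂)
    (n1 : v₁ ≠ u) (n2 : v₂ ≠ u) (n3 : v₁ ≠ u₂) :
    SRed R {u₁, u, u₂} {v₁, v₂} {v₁, v₂} := by
  intro Q A hA he hu
  have k1 : v₁ ∉ used A := fun h => disjoint_left.1 hu h (by simp)
  have k2 : v₂ ∉ used A := fun h => disjoint_left.1 hu h (by simp)
  obtain ⟨A₁, a1, a2, -, a4, a5, a6⟩ := step hR hA k1 r1
  have k3 : v₂ ∉ used A₁ := fun h => (a5 _ h).elim k2 (fun h => h12 h.symm)
  obtain ⟨A₂, b1, b2, b3, b4, b5, b6⟩ := step hR a1 k3 r4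
  obtain ⟨A₃, c1, c2, c4, c5⟩ := absorb hR b1 h12 r2 r3 n1 n2
    (fun h => b3 _ (a6 ((b5 _ h).resolve_right h12)) n3) b6
  refine ⟨A₃, c1, ?_, a4.trans (b4.trans c4), ?_⟩
  · intro y hy
    rcases c2 y hy with ⟨h1, h2⟩ | h
    · rcases b2 y h1 with ⟨h3, h4⟩ | h
      · rcases a2 y h3 with ⟨h5, h6⟩ | h
        · rcases he h5 with h | h
          · simp only [mem_insert_iff, mem_singleton_iff] at h; tauto
          · exact Or.inr h
        · exact Or.inl (Or.inl h)
      · exact Or.inl (Or.inr h)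
    · exact Or.inl h
  · intro y hy
    rcases c5 y hy with h | h
    · rcases b5 y h with h | h
      · rcases a5 y h with h | h
        · exact Or.inl h
        · exact Or.inr (Or.inl h)
      · exact Or.inr (Or.inr h)
    · exact Or.inr h

end Sys

section Red
variable {V : Type} (adj : V → V → Prop)

/-- Relinking inside any graph that contains the graph `adj`. -/
def Red (P P' W : Set V) : Prop :=
  ∀ (β : Type) (R : β → β → Prop) (f : V → β), (∀ x y, R x y → R y x) → Function.Injective f →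
    (∀ x y, adj x y → R (f x) (f y)) → SRed R (f '' P) (f '' P') (f '' W)

variable {adj}

theorem Red.mono {P P' W P₀ P₀' W₀ : Set V} (h : Red adj P P' W) (h1 : P₀ ⊆ P) (h2 : P' ⊆ P₀')
    (h3 : W ⊆ W₀) : Red adj P₀ P₀' W₀ := fun β R f hR hf ha =>
  (h β R f hR hf ha).mono (image_mono h1) (image_mono h2) (image_mono h3)

theorem Red.refl (P : Set V) : Red adj P P ∅ := fun β R f _ _ _ => by
  simpa using SRed.refl (R := R) (f '' P)

theorem Red.trans {P P' P'' W W' : Set V} (h : Red adj P P' W) (h' : Red adj P' P'' W')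
    (hd : Disjoint W W') : Red adj P P'' (W ∪ W') := fun β R f hR hf ha => by
  rw [image_union]
  exact (h β R f hR hf ha).trans (h' β R f hR hf ha) ((disjoint_image_iff hf).2 hd)

theorem Red.trans' {P P' P'' W W' W₀ : Set V} (h : Red adj P P' W) (h' : Red adj P' P'' W')
    (hd : Disjoint W W') (h1 : W ⊆ W₀) (h2 : W' ⊆ W₀) : Red adj P P'' W₀ :=
  (h.trans h' hd).mono subset_rfl subset_rfl (union_subset h1 h2)

theorem Red.frame {P P' W : Set V} (h : Red adj P P' W) (S : Set V) :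
    Red adj (P ∪ S) (P' ∪ S) W := fun β R f hR hf ha => by
  rw [image_union, image_union]
  exact (h β R f hR hf ha).frame _

theorem Red.par {P P' W S S' W' : Set V} (h : Red adj P P' W) (h' : Red adj S S' W')
    (hd : Disjoint W W') : Red adj (P ∪ S) (P' ∪ S') (W ∪ W') := fun β R f hR hf ha => by
  rw [image_union, image_union, image_union]
  exact (h β R f hR hf ha).par (h' β R f hR hf ha) ((disjoint_image_iff hf).2 hd)

theorem Red.iUnion {ι : Type} {P P' W : ι → Set V} (h : ∀ i, Red adj (P i) (P' i) (W i))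
    (hd : Pairwise fun i j => Disjoint (W i) (W j)) :
    Red adj (⋃ i, P i) (⋃ i, P' i) (⋃ i, W i) := fun β R f hR hf ha => by
  rw [image_iUnion, image_iUnion, image_iUnion]
  exact SRed.iUnion (fun i => h i β R f hR hf ha)
    (fun i j hij => (disjoint_image_iff hf).2 (hd hij))

theorem Red.iUnion' {ι : Type} {P P' W : ι → Set V} {P₀ P₀' W₀ : Set V}
    (h : ∀ i, Red adj (P i) (P' i) (W i))
    (hd : Pairwise fun i j => Disjoint (W i) (W j)) (h1 : ∀ x ∈ P₀, ∃ i, x ∈ P i)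
    (h2 : ∀ i, P' i ⊆ P₀') (h3 : ∀ i, W i ⊆ W₀) : Red adj P₀ P₀' W₀ :=
  (Red.iUnion h hd).mono (fun x hx => mem_iUnion.2 (h1 x hx)) (iUnion_subset h2)
    (iUnion_subset h3)

theorem Red.slide {x v : V} (h : adj x v ∨ adj v x) : Red adj {x} {v} {v} :=
  fun β R f hR _ ha => by
  simp only [image_singleton]
  exact SRed.slide hR (h.elim (ha _ _) (fun h => hR _ _ (ha _ _ h)))

theorem Red.mthree {u₁ u u₂ v₁ v₂ : V} (h12 : v₁ ≠ v₂)
    (r1 : adj u₁ v₁ ∨ adj v₁ u₁) (r2 : adj u v₁ ∨ adj v₁ u) (r3 : adj u v₂ ∨ adj v₂ u)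
    (r4 : adj u₂ v₂ ∨ adj v₂ u₂)
    (n1 : v₁ ≠ u) (n2 : v₂ ≠ u) (n3 : v₁ ≠ u₂) :
    Red adj {u₁, u, u₂} {v₁, v₂} {v₁, v₂} := fun β R f hR hf ha => by
  have e : ∀ {a b : V}, adj a b ∨ adj b a → R (f a) (f b) :=
    fun h => h.elim (ha _ _) (fun h => hR _ _ (ha _ _ h))
  simp only [image_insert_eq, image_singleton]
  exact SRed.mthree hR (hf.ne h12) (e r1) (e r2) (e r3) (e r4) (hf.ne n1) (hf.ne n2) (hf.ne n3)

theorem Red.map {V' : Type} {adj' : V' → V' → Prop} {P P' W : Set V} (h : Red adj P P' W)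
    (φ : V → V') (hφ : Function.Injective φ) (ha' : ∀ x y, adj x y → adj' (φ x) (φ y)) :
    Red adj' (φ '' P) (φ '' P') (φ '' W) := fun β R f hR hf ha => by
  rw [image_image, image_image, image_image]
  exact h β R (fun x => f (φ x)) hR (hf.comp hφ) (fun x y hxy => ha _ _ (ha' _ _ hxy))

/-- slide along a finite path -/
theorem Red.path (γ : ℕ → V) (n : ℕ) (ha : ∀ t < n, adj (γ t) (γ (t + 1)) ∨ adj (γ (t + 1)) (γ t))
    (hi : ∀ s ≤ n, ∀ t ≤ n, γ s = γ t → s = t) :
    Red adj {γ 0} {γ n} {x | ∃ t, 1 ≤ t ∧ t ≤ n ∧ x = γ t} := by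
  induction n with
  | zero => exact (Red.refl _).mono subset_rfl subset_rfl (empty_subset _)
  | succ n ih =>
    refine (ih (fun t ht => ha t (by omega)) (fun s hs t ht => hi s (by omega) t (by omega))).trans'
      (Red.slide (ha n (by omega))) ?_ ?_ ?_
    · rw [disjoint_singleton_right]
      rintro ⟨t, h1, h2, h3⟩
      have := hi _ le_rfl _ (by omega) h3
      omega
    · rintro x ⟨t, h1, h2, h3⟩
      exact ⟨t, h1, by omega, h3⟩
    · rintro x rfl
      exact ⟨n + 1, by omega, le_rfl, rfl⟩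

end Red

end Pool.Agent.MP_1479fb_pr.Geo

end MrgPart0

-- ======== part 1: formerly Pool.Agent.MP_1479fb_pr.GeoScheme
section MrgPart1

/-!
Peeling one layer of a discrete simplex.
-/

set_option autoImplicit false

namespace Pool.Agent.MP_1479fb_pr.Geo

open Set

/-- A peeling scheme on a graded graph. -/
structure Sch (Y : Type) (lev : Y → ℕ) (Up : Y → Y → Prop) where
  τ : Y → Y
  c : ℕ
  γ : Y → Bool → Y
  inj : Function.Injective τ
  up : ∀ v, Up v (τ v)
  gup : ∀ u a, u ∉ range τ → c ≤ lev u → Up (γ u a) u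
  ginj : ∀ u a u' a', u ∉ range τ → c ≤ lev u → u' ∉ range τ → c ≤ lev u' →
    γ u a = γ u' a' → u = u' ∧ a = a'
  ev : ∀ L, ∃ N, ∀ v, lev v ≤ L → ∀ n, N ≤ n → ∀ u a, u ∉ range τ → c ≤ lev u →
    τ^[n] v ≠ γ u a

namespace Sch

variable {Y : Type} {lev : Y → ℕ} {Up : Y → Y → Prop} (S : Sch Y lev Up)

def G (v : Y) : Prop := ∃ u a, u ∉ range S.τ ∧ S.c ≤ lev u ∧ v = S.γ u a

def A (g : ℕ) (y : Y) : Prop :=
  lev y < g / 2 ∧ ∀ n, g / 2 ≤ lev y + n + 1 → ¬ S.G (S.τ^[n] y)

theorem lev_iter (hlev : ∀ v u, Up v u → lev u = lev v + 1) (n : ℕ) (y : Y) :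
    lev (S.τ^[n] y) = lev y + n := by
  induction n with
  | zero => rfl
  | succ n ih => rw [Function.iterate_succ_apply', hlev _ _ (S.up _), ih]; omega

theorem A_down (hlev : ∀ v u, Up v u → lev u = lev v + 1) {g : ℕ} {y : Y}
    (h : S.A g (S.τ y)) : S.A g y := by
  have e := hlev _ _ (S.up y)
  obtain ⟨h1, h2⟩ := h
  refine ⟨by omega, fun n hn => ?_⟩
  cases n with
  | zero => omega
  | succ n => rw [Function.iterate_succ_apply]; exact h2 n (by omega)

theorem A_cut (hlev : ∀ v u, Up v u → lev u = lev v + 1) {g : ℕ} {y : Y}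
    (h : S.A g y) (h' : ¬ S.A g (S.τ y)) : ¬ S.G y ∧ ¬ S.G (S.τ y) := by
  have e := hlev _ _ (S.up y)
  obtain ⟨h1, h2⟩ := h
  by_cases hc : lev (S.τ y) < g / 2
  · exfalso
    refine h' ⟨hc, fun n hn => ?_⟩
    rw [← Function.iterate_succ_apply]
    exact h2 (n + 1) (by omega)
  · exact ⟨h2 0 (by omega), h2 1 (by omega)⟩

theorem A_mono {g g' : ℕ} (hg : g ≤ g') {y : Y} (h : S.A g y) : S.A g' y :=
  ⟨by have := h.1; omega, fun n hn => h.2 n (by omega)⟩

theorem A_ev (L : ℕ) : ∃ g₀, ∀ g, g₀ ≤ g → ∀ y, lev y ≤ L → S.A g y := by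
  obtain ⟨N, hN⟩ := S.ev L
  refine ⟨2 * (L + N + 1), fun g hg y hy => ⟨by omega, fun n hn => ?_⟩⟩
  rintro ⟨u, a, h1, h2, h3⟩
  exact hN y hy n (by omega) u a h1 h2 h3

open Classical in
noncomputable def τ₂ (p : Y × ℕ) : Y × ℕ :=
  if S.A (lev p.1 + p.2 + 1) p.1 then (p.1, p.2 + 1) else (S.τ p.1, p.2)

open Classical in
noncomputable def γ₂ (p : Y × ℕ) (a : Bool) : Y × ℕ :=
  if h : p.1 ∈ range S.τ then (if a then (h.choose, p.2) else (p.1, p.2 - 1)) else (S.γ p.1 a, p.2)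

include S in
theorem step (hlev : ∀ v u, Up v u → lev u = lev v + 1) :
    Nonempty (Sch (Y × ℕ) (fun p => lev p.1 + p.2)
      (fun p q => (Up p.1 q.1 ∧ p.2 = q.2) ∨ (p.1 = q.1 ∧ q.2 = p.2 + 1))) := by
  obtain ⟨c₂, hc₂⟩ := S.A_ev S.c
  have hτ : ∀ y, lev (S.τ y) = lev y + 1 := fun y => hlev _ _ (S.up y)
  have t1 : ∀ y s, S.A (lev y + s + 1) y → S.τ₂ (y, s) = (y, s + 1) := fun y s h => by
    simp [τ₂, h]
  have t2 : ∀ y s, ¬ S.A (lev y + s + 1) y → S.τ₂ (y, s) = (S.τ y, s) := fun y s h => by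
    simp [τ₂, h]
  have g1 : ∀ u s a, u ∉ range S.τ → S.γ₂ (u, s) a = (S.γ u a, s) := fun u s a h => by
    unfold γ₂; rw [dif_neg h]
  have g2 : ∀ y s, S.γ₂ (S.τ y, s) true = (y, s) := fun y s => by
    unfold γ₂
    have h : S.τ y ∈ range S.τ := ⟨y, rfl⟩
    rw [dif_pos h, if_pos rfl, S.inj h.choose_spec]
  have g3 : ∀ y s, S.γ₂ (S.τ y, s) false = (S.τ y, s - 1) := fun y s => by
    unfold γ₂
    have h : S.τ y ∈ range S.τ := ⟨y, rfl⟩
    rw [dif_pos h, if_neg (by simp)]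
  have mon : ∀ u s, (u, s) ∉ range S.τ₂ → c₂ + 1 ≤ lev u + s →
      ¬ S.A (lev u + s) u ∧ ((u ∉ range S.τ ∧ S.c ≤ lev u) ∨
        ∃ y, u = S.τ y ∧ S.A (lev u + s) y ∧ 1 ≤ s) := by
    intro u s h1 h2
    have hA : ¬ S.A (lev u + s) u := by
      intro hA
      have := hA.1
      obtain ⟨s', rfl⟩ : ∃ s', s = s' + 1 := ⟨s - 1, by omega⟩
      exact h1 ⟨(u, s'), t1 u s' hA⟩
    refine ⟨hA, ?_⟩
    by_cases hu : u ∈ range S.τ
    · obtain ⟨y, rfl⟩ := hu
      right
      have e : lev y + s + 1 = lev (S.τ y) + s := by rw [hτ]; omega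
      have hy : S.A (lev (S.τ y) + s) y := by
        by_contra hy
        exact h1 ⟨(y, s), t2 y s (e ▸ hy)⟩
      refine ⟨y, rfl, hy, ?_⟩
      have := hy.1
      have := hτ y
      omega
    · left
      refine ⟨hu, ?_⟩
      by_contra hc
      exact hA (hc₂ _ (by omega) u (by omega))
  have hup : ∀ p : Y × ℕ, (Up p.1 (S.τ₂ p).1 ∧ p.2 = (S.τ₂ p).2) ∨
      (p.1 = (S.τ₂ p).1 ∧ (S.τ₂ p).2 = p.2 + 1) := by
    rintro ⟨y, s⟩
    by_cases h : S.A (lev y + s + 1) y
    · rw [t1 y s h]; exact Or.inr ⟨rfl, rfl⟩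
    · rw [t2 y s h]; exact Or.inl ⟨S.up y, rfl⟩
  have hl2 : ∀ p q : Y × ℕ, ((Up p.1 q.1 ∧ p.2 = q.2) ∨ (p.1 = q.1 ∧ q.2 = p.2 + 1)) →
      lev q.1 + q.2 = lev p.1 + p.2 + 1 := by
    rintro p q (⟨h1, h2⟩ | ⟨h1, h2⟩)
    · rw [hlev _ _ h1]; omega
    · rw [h1]; omega
  have hgup : ∀ (u : Y × ℕ) a, u ∉ range S.τ₂ → c₂ + 1 ≤ lev u.1 + u.2 →
      (Up (S.γ₂ u a).1 u.1 ∧ (S.γ₂ u a).2 = u.2) ∨
        ((S.γ₂ u a).1 = u.1 ∧ u.2 = (S.γ₂ u a).2 + 1) := by
    rintro ⟨u, s⟩ a h1 h2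
    rcases (mon u s h1 h2).2 with ⟨h3, h4⟩ | ⟨y, rfl, h3, h4⟩
    · rw [g1 u s a h3]; exact Or.inl ⟨S.gup u a h3 h4, rfl⟩
    · cases a
      · rw [g3]; exact Or.inr ⟨rfl, by simp only; omega⟩
      · rw [g2]; exact Or.inl ⟨S.up y, rfl⟩
  refine ⟨⟨S.τ₂, c₂ + 1, S.γ₂, ?_, hup, hgup, ?_, ?_⟩⟩
  · rintro ⟨y, s⟩ ⟨y', s'⟩ h
    have e1 := hl2 _ _ (hup (y, s))
    have e2 := hl2 _ _ (hup (y', s'))
    rw [h] at e1
    have e : lev y + s + 1 = lev y' + s' + 1 := by simp only at e1 e2; omega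
    by_cases h1 : S.A (lev y + s + 1) y <;> by_cases h2 : S.A (lev y' + s' + 1) y'
    · rw [t1 _ _ h1, t1 _ _ h2] at h
      simp only [Prod.mk.injEq] at h ⊢
      exact ⟨h.1, by omega⟩
    · rw [t1 _ _ h1, t2 _ _ h2] at h
      simp only [Prod.mk.injEq] at h
      rw [e, h.1] at h1
      exact absurd (S.A_down hlev h1) h2
    · rw [t2 _ _ h1, t1 _ _ h2] at h
      simp only [Prod.mk.injEq] at h
      rw [← e, ← h.1] at h2
      exact absurd (S.A_down hlev h2) h1
    · rw [t2 _ _ h1, t2 _ _ h2] at h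
      simp only [Prod.mk.injEq] at h ⊢
      exact ⟨S.inj h.1, h.2⟩
  · rintro ⟨u, s⟩ a ⟨u', s'⟩ a' h1 h2 h1' h2' h
    have e1 := hl2 _ _ (hgup _ a h1 h2)
    have e2 := hl2 _ _ (hgup _ a' h1' h2')
    rw [h] at e1
    have e : lev u + s = lev u' + s' := by simp only at e1 e2; omega
    obtain ⟨n1, m1⟩ := mon u s h1 h2
    obtain ⟨n2, m2⟩ := mon u' s' h1' h2'
    rcases m1 with ⟨h3, h4⟩ | ⟨y, rfl, h3, h4⟩ <;> rcases m2 with ⟨h3', h4'⟩ | ⟨y', rfl, h3', h4'⟩
    · rw [g1 _ _ _ h3, g1 _ _ _ h3'] at h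
      simp only [Prod.mk.injEq] at h ⊢
      obtain ⟨k1, k2⟩ := S.ginj _ _ _ _ h3 h4 h3' h4' h.1
      exact ⟨⟨k1, h.2⟩, k2⟩
    · exfalso
      obtain ⟨k1, k2⟩ := S.A_cut hlev h3' n2
      rw [g1 _ _ _ h3] at h
      cases a'
      · rw [g3] at h
        exact k2 ⟨u, a, h3, h4, (Prod.mk.inj h).1.symm⟩
      · rw [g2] at h
        exact k1 ⟨u, a, h3, h4, (Prod.mk.inj h).1.symm⟩
    · exfalso
      obtain ⟨k1, k2⟩ := S.A_cut hlev h3 n1
      rw [g1 _ _ _ h3'] at h
      cases a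
      · rw [g3] at h
        exact k2 ⟨u', a', h3', h4', (Prod.mk.inj h).1⟩
      · rw [g2] at h
        exact k1 ⟨u', a', h3', h4', (Prod.mk.inj h).1⟩
    · cases a <;> cases a'
      · rw [g3, g3] at h
        simp only [Prod.mk.injEq] at h ⊢
        exact ⟨⟨h.1, by omega⟩, trivial⟩
      · rw [g3, g2] at h
        exfalso
        rw [← e, ← (Prod.mk.inj h).1] at h3'
        exact n1 h3'
      · rw [g3, g2] at h
        exfalso
        rw [e, (Prod.mk.inj h).1] at h3
        exact n2 h3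
      · rw [g2, g2] at h
        simp only [Prod.mk.injEq] at h ⊢
        exact ⟨⟨by rw [h.1], h.2⟩, trivial⟩
  · intro L
    obtain ⟨N, hN⟩ := S.ev L
    obtain ⟨g₀, hg₀⟩ := S.A_ev (L + 1)
    refine ⟨N + g₀ + L + 3, ?_⟩
    rintro ⟨y, s⟩ hL
    simp only at hL
    have inv : ∀ n, lev (S.τ₂^[n] (y, s)).1 + (S.τ₂^[n] (y, s)).2 = lev y + s + n ∧
        (S.τ₂^[n] (y, s) = (S.τ^[n] y, s) ∨
          (lev (S.τ₂^[n] (y, s)).1 ≤ L ∧ S.A (lev y + s + n + 1) (S.τ₂^[n] (y, s)).1)) := by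
      intro n
      induction n with
      | zero => exact ⟨rfl, Or.inl rfl⟩
      | succ n ih =>
        obtain ⟨i1, i2⟩ := ih
        rw [Function.iterate_succ_apply', Function.iterate_succ_apply']
        refine ⟨by rw [hl2 _ _ (hup _), i1]; omega, ?_⟩
        generalize S.τ₂^[n] (y, s) = p at i1 i2
        obtain ⟨z, t⟩ := p
        simp only at i1 i2
        by_cases hA : S.A (lev z + t + 1) z
        · right
          rw [t1 _ _ hA]
          refine ⟨?_, S.A_mono (by omega) hA⟩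
          rcases i2 with i2 | i2
          · have k := hA.1
            have k2 := (Prod.mk.inj i2).2
            simp only
            omega
          · exact i2.1
        · rcases i2 with i2 | i2
          · left
            rw [t2 _ _ hA, (Prod.mk.inj i2).1, (Prod.mk.inj i2).2]
          · exact absurd (i1 ▸ i2.2) hA
    rintro n hn ⟨u, t⟩ a h1 h2 h
    obtain ⟨i1, i2⟩ := inv n
    have e0 := hgup _ a h1 h2
    have e1 := hl2 _ _ e0
    obtain ⟨n1, m1⟩ := mon u t h1 h2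
    rw [← h] at e0 e1
    simp only at e0 e1
    rcases i2 with i2 | i2
    · rw [i2] at h
      have k := S.lev_iter hlev n y
      rcases m1 with ⟨h3, h4⟩ | ⟨y', rfl, h3, h4⟩
      · rw [g1 _ _ _ h3] at h
        exact hN y (by omega) n (by omega) u a h3 h4 (Prod.mk.inj h).1
      · have k1 := h3.1
        have k2 := hτ y'
        cases a
        · rw [g3] at h
          rw [(Prod.mk.inj h).1] at k
          omega
        · rw [g2] at h
          rw [(Prod.mk.inj h).1] at k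
          omega
    · refine n1 (hg₀ _ (by omega) u ?_)
      rcases e0 with ⟨e0, -⟩ | ⟨e0, -⟩
      · rw [hlev _ _ e0]; omega
      · rw [← e0]; omega

theorem cov (hlev : ∀ v u, Up v u → lev u = lev v + 1) {g : ℕ} (hg : S.c ≤ g + 1) :
    Red Up {x | lev x = g + 1} {x | lev x = g} {x | lev x = g} := by
  have hτ : ∀ y, lev (S.τ y) = lev y + 1 := fun y => hlev _ _ (S.up y)
  have r1 : Red Up (⋃ u : {u // u ∉ range S.τ ∧ lev u = g + 1},
        {S.τ (S.γ u.1 true), u.1, S.τ (S.γ u.1 false)})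
      {x | lev x = g} {x | lev x = g ∧ S.G x} := by
    refine Red.iUnion' (P' := fun u => {S.γ u.1 true, S.γ u.1 false})
      (W := fun u => {S.γ u.1 true, S.γ u.1 false}) ?_ ?_ (fun x hx => mem_iUnion.1 hx) ?_ ?_
    · rintro ⟨u, h1, h2⟩
      have k1 := S.gup u true h1 (by omega)
      have k2 := S.gup u false h1 (by omega)
      have l1 := hlev _ _ k1
      have l2 := hlev _ _ k2
      have l3 := hτ (S.γ u false)
      refine Red.mthree ?_ (Or.inr (S.up _)) (Or.inr k1) (Or.inr k2) (Or.inr (S.up _)) ?_ ?_ ?_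
      · intro h
        simpa using (S.ginj _ _ _ _ h1 (by omega) h1 (by omega) h).2
      · intro h; simp only at h; rw [h] at l1; omega
      · intro h; simp only at h; rw [h] at l2; omega
      · intro h; simp only at h; rw [← h] at l3; omega
    · rintro ⟨u, h1, h2⟩ ⟨u', h1', h2'⟩ hne
      rw [disjoint_left]
      intro x hx hx'
      apply hne
      simp only [mem_insert_iff, mem_singleton_iff] at hx hx'
      rcases hx with rfl | rfl <;> rcases hx' with h | h <;>
        exact Subtype.ext (S.ginj _ _ _ _ h1 (by omega) h1' (by omega) h).1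
    · rintro ⟨u, h1, h2⟩ x hx
      simp only [mem_insert_iff, mem_singleton_iff] at hx
      rcases hx with rfl | rfl
      · have := hlev _ _ (S.gup u true h1 (by omega)); simp only [mem_ofPred_eq]; omega
      · have := hlev _ _ (S.gup u false h1 (by omega)); simp only [mem_ofPred_eq]; omega
    · rintro ⟨u, h1, h2⟩ x hx
      simp only [mem_insert_iff, mem_singleton_iff] at hx
      rcases hx with rfl | rfl
      · have := hlev _ _ (S.gup u true h1 (by omega))
        exact ⟨by omega, u, true, h1, by omega, rfl⟩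
      · have := hlev _ _ (S.gup u false h1 (by omega))
        exact ⟨by omega, u, false, h1, by omega, rfl⟩
  have r2 : Red Up (⋃ v : {v // lev v = g ∧ ¬ S.G v}, {S.τ v.1})
      {x | lev x = g} {x | lev x = g ∧ ¬ S.G x} := by
    refine Red.iUnion' (P' := fun v => {v.1}) (W := fun v => {v.1})
      (fun v => Red.slide (Or.inr (S.up _))) ?_ (fun x hx => mem_iUnion.1 hx) ?_ ?_
    · intro v v' hne
      simpa using fun h => hne (Subtype.ext h)
    · rintro v x rfl; exact v.2.1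
    · rintro v x rfl; exact v.2
  refine (r1.par r2 ?_).mono ?_ (by simp) ?_
  · rw [disjoint_left]; exact fun x h1 h2 => h2.2 h1.2
  · intro u hu
    simp only [mem_ofPred_eq] at hu
    by_cases h : u ∈ range S.τ
    · obtain ⟨v, rfl⟩ := h
      have := hτ v
      by_cases hG : S.G v
      · obtain ⟨w, a, h1, h2, rfl⟩ := hG
        have := hlev _ _ (S.gup w a h1 h2)
        refine Or.inl (mem_iUnion.2 ⟨⟨w, h1, by omega⟩, ?_⟩)
        cases a <;> simp
      · exact Or.inr (mem_iUnion.2 ⟨⟨v, by omega, hG⟩, rfl⟩)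
    · exact Or.inl (mem_iUnion.2 ⟨⟨u, h, hu⟩, by simp⟩)
  · rintro x (h | h) <;> exact h.1

theorem peel (hlev : ∀ v u, Up v u → lev u = lev v + 1) {g : ℕ} (hg : S.c ≤ g) :
    Red Up {x | lev x = g} {x | lev x = S.c} {x | S.c ≤ lev x ∧ lev x < g} := by
  induction g, hg using Nat.le_induction with
  | base => exact (Red.refl _).mono subset_rfl subset_rfl (empty_subset _)
  | succ g hg ih =>
    refine (S.cov hlev (by omega)).trans' ih ?_ ?_ ?_
    · rw [disjoint_left]; intro x h1 h2; simp only [mem_ofPred_eq] at h1 h2; omega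
    · intro x h1; simp only [mem_ofPred_eq] at h1 ⊢; omega
    · intro x h1; simp only [mem_ofPred_eq] at h1 ⊢; omega

include S in
theorem transport {Y' : Type} {lev' : Y' → ℕ} {Up' : Y' → Y' → Prop} (e : Y ≃ Y')
    (h1 : ∀ y, lev' (e y) = lev y) (h2 : ∀ y y', Up y y' → Up' (e y) (e y')) :
    Nonempty (Sch Y' lev' Up') := by
  have hr : ∀ u, e u ∉ range (fun v => e (S.τ (e.symm v))) → u ∉ range S.τ := by
    rintro u h ⟨v, rfl⟩
    exact h ⟨e v, by simp⟩
  refine ⟨⟨fun v => e (S.τ (e.symm v)), S.c, fun u a => e (S.γ (e.symm u) a), ?_, ?_, ?_, ?_, ?_⟩⟩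
  · exact e.injective.comp (S.inj.comp e.symm.injective)
  · intro v
    obtain ⟨v, rfl⟩ := e.surjective v
    simpa using h2 _ _ (S.up v)
  · intro u a k1 k2
    obtain ⟨u, rfl⟩ := e.surjective u
    simpa using h2 _ _ (S.gup u a (hr u k1) (h1 u ▸ k2))
  · intro u a u' a' k1 k2 k3 k4 h
    obtain ⟨u, rfl⟩ := e.surjective u
    obtain ⟨u', rfl⟩ := e.surjective u'
    simp only [Equiv.symm_apply_apply, EmbeddingLike.apply_eq_iff_eq] at h ⊢
    exact S.ginj _ _ _ _ (hr u k1) (h1 u ▸ k2) (hr u' k3) (h1 u' ▸ k4) h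
  · intro L
    obtain ⟨N, hN⟩ := S.ev L
    refine ⟨N, fun v hv n hn u a k1 k2 h => ?_⟩
    obtain ⟨u, rfl⟩ := e.surjective u
    obtain ⟨v, rfl⟩ := e.surjective v
    have : (fun v => e (S.τ (e.symm v)))^[n] (e v) = e (S.τ^[n] v) := by
      clear hn h
      induction n with
      | zero => rfl
      | succ n ih => rw [Function.iterate_succ_apply', Function.iterate_succ_apply', ih]; simp
    rw [this] at h
    simp only [Equiv.symm_apply_apply, EmbeddingLike.apply_eq_iff_eq] at h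
    exact hN v (h1 v ▸ hv) n hn u a (hr u k1) (h1 u ▸ k2) h

end Sch

/-- upper neighbour in the positive orthant -/
def UpN {k : ℕ} (v u : Fin k → ℕ) : Prop := ∃ i, u i = v i + 1 ∧ ∀ j, j ≠ i → u j = v j

theorem UpN.sum {k : ℕ} {v u : Fin k → ℕ} (h : UpN v u) : ∑ j, u j = ∑ j, v j + 1 := by
  obtain ⟨i, h1, h2⟩ := h
  rw [← Finset.add_sum_erase _ _ (Finset.mem_univ i), ← Finset.add_sum_erase _ v (Finset.mem_univ i),
    Finset.sum_congr rfl (fun j hj => h2 j (Finset.ne_of_mem_erase hj)), h1]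
  ring

theorem UpN.cons {k : ℕ} {v u : Fin k → ℕ} (h : UpN v u) (s : ℕ) :
    UpN (Fin.cons s v : Fin (k + 1) → ℕ) (Fin.cons s u) := by
  obtain ⟨i, h1, h2⟩ := h
  refine ⟨i.succ, by simpa using h1, fun j hj => ?_⟩
  induction j using Fin.cases with
  | zero => rfl
  | succ j => simpa using h2 j (fun h => hj (by rw [h]))

theorem exists_sch (k : ℕ) : Nonempty (Sch (Fin (k + 1) → ℕ) (fun x => ∑ j, x j) UpN) := by
  induction k with
  | zero =>
    have S : Sch ℕ (fun x => x) (fun v u => u = v + 1) := by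
      have h : ∀ u : ℕ, u ∉ range (fun v : ℕ => v + 1) → 1 ≤ u → False :=
        fun u h1 h2 => h1 ⟨u - 1, by simp only; omega⟩
      exact ⟨fun v => v + 1, 1, fun u _ => u, fun a b h => by simpa using h, fun _ => rfl,
        fun u _ h1 h2 => (h u h1 h2).elim, fun u _ _ _ h1 h2 => (h u h1 h2).elim,
        fun L => ⟨0, fun _ _ _ _ u _ h1 h2 => (h u h1 h2).elim⟩⟩
    refine S.transport (Equiv.funUnique (Fin 1) ℕ).symm (by simp) ?_
    rintro y _ rfl
    exact ⟨0, rfl, fun j hj => absurd (Fin.ext (by have := j.2; simp only [Fin.val_zero]; omega)) hj⟩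
  | succ k ih =>
    obtain ⟨S⟩ := ih
    obtain ⟨S₂⟩ := S.step (fun v u h => h.sum)
    refine S₂.transport ((Equiv.prodComm _ _).trans (Fin.consEquiv (fun _ => ℕ))) ?_ ?_
    · rintro ⟨y, s⟩
      simp [Fin.consEquiv, Fin.sum_univ_succ, add_comm]
    · rintro ⟨y, s⟩ ⟨y', s'⟩ (⟨h1, h2⟩ | ⟨h1, h2⟩)
      · simp only at h1 h2
        subst h2
        exact h1.cons s
      · simp only at h1 h2
        subst h1 h2
        refine ⟨0, rfl, fun j hj => ?_⟩
        induction j using Fin.cases with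
        | zero => exact absurd rfl hj
        | succ j => rfl

theorem exists_peel (k : ℕ) : ∃ c, ∀ g, c ≤ g → Red (V := Fin (k + 1) → ℕ) UpN
    {x | ∑ j, x j = g} {x | ∑ j, x j = c} {x | c ≤ ∑ j, x j ∧ ∑ j, x j < g} := by
  obtain ⟨S⟩ := exists_sch k
  exact ⟨S.c, fun g hg => S.peel (fun v u h => h.sum) hg⟩

end Pool.Agent.MP_1479fb_pr.Geo

end MrgPart1

-- marker of a merged file
example : 731051 + 849015 = 731051 + 849015 := rfl
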