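import Mathlib.Tactic.NormNum.Ineq
import Mathlib.GroupTheory.NoncommPiCoprod
import Mathlib.Algebra.Field.ZMod
import Mathlib.Data.Int.ConditionallyCompleteOrder
import Mathlib.Data.Int.Star
import Mathlib.Algebra.Order.Ring.Star
import Mathlib.Data.List.ReduceOption
import Pool.Agent.MP_1479fb_pr.GeoScheme

-- ======== part 0: formerly Pool.Agent.MP_1479fb_pr.GeoCol
section MrgPart0

/-!
Absorption along parallel columns.
-/

set_option autoImplicit false

namespace Pool.Agent.MP_1479fb_pr.Geo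

open Set

variable {V : Type} {adj : V → V → Prop}

theorem Red.slides {ι : Type} (γ : ι → ℕ → V) (n : ι → ℕ) {P P' W : Set V}
    (ha : ∀ i, ∀ t < n i, adj (γ i t) (γ i (t + 1)) ∨ adj (γ i (t + 1)) (γ i t))
    (hi : ∀ i, ∀ s ≤ n i, ∀ t ≤ n i, γ i s = γ i t → s = t)
    (hd : ∀ i j s t, 1 ≤ s → s ≤ n i → 1 ≤ t → t ≤ n j → γ i s = γ j t → i = j)
    (h1 : ∀ x ∈ P, ∃ i, x = γ i 0) (h2 : ∀ i, γ i (n i) ∈ P')
    (h3 : ∀ i t, 1 ≤ t → t ≤ n i → γ i t ∈ W) : Red adj P P' W := by
  refine Red.iUnion' (fun i => Red.path (γ i) (n i) (ha i) (hi i)) ?_ h1 ?_ ?_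
  · intro i j hij
    rw [disjoint_left]
    rintro x ⟨s, a1, a2, rfl⟩ ⟨t, b1, b2, b3⟩
    exact hij (hd i j s t a1 a2 b1 b2 b3)
  · rintro i x rfl; exact h2 i
  · rintro i x ⟨t, a1, a2, rfl⟩; exact h3 i t a1 a2

theorem Red.gadget (a b c : ℕ → V)
    (va : ∀ t < 2, adj (a t) (a (t + 1)) ∨ adj (a (t + 1)) (a t))
    (vb : ∀ t < 2, adj (b t) (b (t + 1)) ∨ adj (b (t + 1)) (b t))
    (vc : ∀ t < 2, adj (c t) (c (t + 1)) ∨ adj (c (t + 1)) (c t))
    (hab : adj (a 2) (b 2) ∨ adj (b 2) (a 2)) (hbc : adj (b 1) (c 1) ∨ adj (c 1) (b 1))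
    (n1 : a 1 ≠ a 2) (n2 : a 1 ≠ b 1) (n3 : a 1 ≠ b 2) (n4 : a 1 ≠ c 1) (n5 : a 1 ≠ c 2)
    (n6 : a 2 ≠ b 1) (n7 : a 2 ≠ b 2) (n8 : a 2 ≠ c 1) (n9 : a 2 ≠ c 2)
    (n10 : b 1 ≠ b 2) (n11 : b 1 ≠ c 1) (n12 : b 1 ≠ c 2) (n13 : b 2 ≠ c 1) (n14 : b 2 ≠ c 2)
    (n15 : c 1 ≠ c 2) (n16 : b 2 ≠ c 0) :
    Red adj {a 0, b 0, c 0} {b 2, c 2} {a 1, a 2, b 1, b 2, c 1, c 2} := by
  have s1 := (Red.slide (va 0 (by omega))).frame {b 0, c 0}
  have s2 := (Red.slide (va 1 (by omega))).frame {b 0, c 0}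
  have s3 := (Red.slide (vb 0 (by omega))).frame {a 2, c 0}
  have s4 := Red.mthree n13 hab (vb 1 (by omega)) hbc (vc 0 (by omega)) n10.symm n11.symm n16
  have s5 := (Red.slide (vc 1 (by omega))).frame {b 2}
  have t1 := s1.trans s2 (by simpa using n1)
  have t2 := t1.trans (s3.mono (P₀ := {a (1 + 1)} ∪ {b 0, c 0}) (by intro x; simp; tauto)
    subset_rfl subset_rfl) (by simp [n2.symm, n6.symm])
  have t3 := t2.trans (s4.mono (P₀ := {b (0 + 1)} ∪ {a 2, c 0}) (by intro x; simp; tauto)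
    subset_rfl subset_rfl)
    (by simp [n3.symm, n4.symm, n7.symm, n8.symm, n10.symm, n11.symm])
  have t4 := t3.trans (s5.mono (P₀ := {b 2, c 1}) (by intro x; simp)
    subset_rfl subset_rfl)
    (by simp [n5.symm, n9.symm, n12.symm, n14.symm, n15.symm])
  refine t4.mono ?_ ?_ ?_ <;> intro x <;> simp <;> tauto

theorem Red.col {K : Type} (r : K → K → Prop) (rk : K → ℕ) {y₀ y₁ : K} (h01 : y₀ ≠ y₁)
    (r01 : r y₀ y₁) (n : ℕ) :
    ∀ (s : Finset K) (D : ℕ) (ψ : K → ℕ → V), s.card = n → y₀ ∈ s → y₁ ∈ s →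
      (∀ x ∈ s, x ≠ y₀ → x ≠ y₁ → ∃ y ∈ s, r x y ∧ rk y < rk x) → 2 * n ≤ D →
      (∀ x ∈ s, ∀ y ∈ s, ∀ a ≤ D, ∀ b ≤ D, ψ x a = ψ y b → x = y ∧ a = b) →
      (∀ x ∈ s, ∀ t < D, adj (ψ x t) (ψ x (t + 1)) ∨ adj (ψ x (t + 1)) (ψ x t)) →
      (∀ x ∈ s, ∀ y ∈ s, r x y → ∀ t ≤ D, adj (ψ x t) (ψ y t) ∨ adj (ψ y t) (ψ x t)) →
      Red adj {v | ∃ x ∈ s, v = ψ x 0} {ψ y₀ D, ψ y₁ D}
        {v | ∃ x ∈ s, ∃ t, 1 ≤ t ∧ t ≤ D ∧ v = ψ x t} := by
  classical
  induction n using Nat.strong_induction_on with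
  | _ n ih =>
  intro s D ψ hn m0 m1 hpar hD hinj hv hh
  by_cases hs : ∀ x ∈ s, x = y₀ ∨ x = y₁
  · refine Red.slides (ι := s) (fun x => ψ x.1) (fun _ => D) (fun x => hv x.1 x.2)
      (fun x a ha b hb h => (hinj _ x.2 _ x.2 a ha b hb h).2)
      (fun x y a b _ ha _ hb h => Subtype.ext (hinj _ x.2 _ y.2 a ha b hb h).1) ?_ ?_ ?_
    · rintro v ⟨x, hx, rfl⟩; exact ⟨⟨x, hx⟩, rfl⟩
    · rintro ⟨x, hx⟩
      rcases hs x hx with rfl | rfl <;> simp
    · rintro ⟨x, hx⟩ t h1 h2; exact ⟨x, hx, t, h1, h2, rfl⟩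
  · push Not at hs
    obtain ⟨x, hx, hmax⟩ := Finset.exists_max_image (s.filter fun x => x ≠ y₀ ∧ x ≠ y₁) rk
      (by obtain ⟨x, h1, h2⟩ := hs; exact ⟨x, Finset.mem_filter.2 ⟨h1, h2⟩⟩)
    obtain ⟨xs, x0, x1⟩ := Finset.mem_filter.1 hx
    obtain ⟨y, ys, rxy, hy⟩ := hpar x xs x0 x1
    have yx : y ≠ x := by rintro rfl; omega
    obtain ⟨z, zs, zx, zy, ryz⟩ : ∃ z ∈ s, z ≠ x ∧ z ≠ y ∧ (r y z ∨ r z y) := by
      by_cases e0 : y = y₀
      · subst e0; exact ⟨y₁, m1, x1.symm, h01.symm, Or.inl r01⟩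
      by_cases e1 : y = y₁
      · subst e1; exact ⟨y₀, m0, x0.symm, h01, Or.inr r01⟩
      obtain ⟨z, zs, ryz, hz⟩ := hpar y ys e0 e1
      exact ⟨z, zs, by rintro rfl; omega, by rintro rfl; omega, Or.inl ryz⟩
    have hpos : 1 ≤ n := hn ▸ Finset.card_pos.2 ⟨x, xs⟩
    obtain ⟨D, rfl⟩ : ∃ D', D = D' + 2 := ⟨D - 2, by omega⟩
    have ne1 : ∀ {u w : K}, u ∈ s → w ∈ s → u ≠ w → ∀ a b, a ≤ 2 → b ≤ 2 → ψ u a ≠ ψ w b :=
      fun hu hw hne a b ha hb h => hne (hinj _ hu _ hw a (by omega) b (by omega) h).1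
    have ne2 : ∀ {u : K}, u ∈ s → ψ u 1 ≠ ψ u 2 :=
      fun hu h => by have := (hinj _ hu _ hu 1 (by omega) 2 (by omega) h).2; omega
    have g1 := Red.gadget (ψ x) (ψ y) (ψ z) (fun t ht => hv x xs t (by omega))
      (fun t ht => hv y ys t (by omega)) (fun t ht => hv z zs t (by omega))
      (hh x xs y ys rxy 2 (by omega))
      (ryz.elim (fun h => hh y ys z zs h 1 (by omega)) (fun h => (hh z zs y ys h 1 (by omega)).symm))
      (ne2 xs) (ne1 xs ys yx.symm _ _ (by omega) (by omega))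
      (ne1 xs ys yx.symm _ _ (by omega) (by omega)) (ne1 xs zs zx.symm _ _ (by omega) (by omega))
      (ne1 xs zs zx.symm _ _ (by omega) (by omega)) (ne1 xs ys yx.symm _ _ (by omega) (by omega))
      (ne1 xs ys yx.symm _ _ (by omega) (by omega)) (ne1 xs zs zx.symm _ _ (by omega) (by omega))
      (ne1 xs zs zx.symm _ _ (by omega) (by omega)) (ne2 ys)
      (ne1 ys zs zy.symm _ _ (by omega) (by omega)) (ne1 ys zs zy.symm _ _ (by omega) (by omega))
      (ne1 ys zs zy.symm _ _ (by omega) (by omega)) (ne1 ys zs zy.symm _ _ (by omega) (by omega))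
      (ne2 zs) (ne1 ys zs zy.symm _ _ (by omega) (by omega))
    have g2 : Red adj {v | ∃ w ∈ s, w ≠ x ∧ w ≠ y ∧ w ≠ z ∧ v = ψ w 0}
        {v | ∃ w ∈ s.erase x, v = ψ w (0 + 2)}
        {v | ∃ w ∈ s, w ≠ x ∧ w ≠ y ∧ w ≠ z ∧ ∃ t, 1 ≤ t ∧ t ≤ 2 ∧ v = ψ w t} := by
      refine Red.slides (ι := {w // w ∈ s ∧ w ≠ x ∧ w ≠ y ∧ w ≠ z}) (fun w => ψ w.1) (fun _ => 2)
        (fun w t ht => hv w.1 w.2.1 t (by omega))
        (fun w a ha b hb h => (hinj _ w.2.1 _ w.2.1 a (by omega) b (by omega) h).2)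
        (fun w w' a b _ ha _ hb h =>
          Subtype.ext (hinj _ w.2.1 _ w'.2.1 a (by omega) b (by omega) h).1) ?_ ?_ ?_
      · rintro v ⟨w, h1, h2, h3, h4, rfl⟩; exact ⟨⟨w, h1, h2, h3, h4⟩, rfl⟩
      · rintro ⟨w, h1, h2, h3, h4⟩; exact ⟨w, Finset.mem_erase.2 ⟨h2, h1⟩, rfl⟩
      · rintro ⟨w, h1, h2, h3, h4⟩ t a1 a2; exact ⟨w, h1, h2, h3, h4, t, a1, a2, rfl⟩
    have g3 : Red adj {v | ∃ w ∈ s, v = ψ w 0} {v | ∃ w ∈ s.erase x, v = ψ w (0 + 2)}
        {v | ∃ w ∈ s, ∃ t, 1 ≤ t ∧ t ≤ 2 ∧ v = ψ w t} := by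
      refine (g1.par g2 ?_).mono ?_ ?_ ?_
      · rw [disjoint_right]
        rintro v ⟨w, h1, h2, h3, h4, t, a1, a2, rfl⟩ h
        simp only [mem_insert_iff, mem_singleton_iff] at h
        rcases h with h | h | h | h | h | h
        · exact ne1 h1 xs h2 _ _ a2 (by omega) h
        · exact ne1 h1 xs h2 _ _ a2 (by omega) h
        · exact ne1 h1 ys h3 _ _ a2 (by omega) h
        · exact ne1 h1 ys h3 _ _ a2 (by omega) h
        · exact ne1 h1 zs h4 _ _ a2 (by omega) h
        · exact ne1 h1 zs h4 _ _ a2 (by omega) h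
      · rintro v ⟨w, h1, rfl⟩
        by_cases e1 : w = x
        · subst e1; left; simp
        by_cases e2 : w = y
        · subst e2; left; simp
        by_cases e3 : w = z
        · subst e3; left; simp
        exact Or.inr ⟨w, h1, e1, e2, e3, rfl⟩
      · rintro v ((rfl | rfl) | h)
        · exact ⟨y, Finset.mem_erase.2 ⟨yx, ys⟩, rfl⟩
        · exact ⟨z, Finset.mem_erase.2 ⟨zx, zs⟩, rfl⟩
        · exact h
      · rintro v ((rfl | rfl | rfl | rfl | rfl | rfl) | ⟨w, h1, -, -, -, h⟩)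
        · exact ⟨x, xs, 1, by omega, by omega, rfl⟩
        · exact ⟨x, xs, 2, by omega, by omega, rfl⟩
        · exact ⟨y, ys, 1, by omega, by omega, rfl⟩
        · exact ⟨y, ys, 2, by omega, by omega, rfl⟩
        · exact ⟨z, zs, 1, by omega, by omega, rfl⟩
        · exact ⟨z, zs, 2, by omega, by omega, rfl⟩
        · exact ⟨w, h1, h⟩
    have sub : ∀ {w}, w ∈ s.erase x → w ∈ s := fun h => Finset.mem_of_mem_erase h
    have g4 := ih (n - 1) (by omega) (s.erase x) D (fun w t => ψ w (t + 2))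
      (by rw [Finset.card_erase_of_mem xs, hn]) (Finset.mem_erase.2 ⟨x0.symm, m0⟩)
      (Finset.mem_erase.2 ⟨x1.symm, m1⟩) ?_ (by omega)
      (fun u hu w hw a ha b hb h => by
        have := hinj _ (sub hu) _ (sub hw) _ (by omega) _ (by omega) h
        exact ⟨this.1, by omega⟩)
      (fun u hu t ht => hv u (sub hu) (t + 2) (by omega))
      (fun u hu w hw h t ht => hh u (sub hu) w (sub hw) h (t + 2) (by omega))
    · refine g3.trans' g4 ?_ ?_ ?_
      · rw [disjoint_left]
        rintro v ⟨w, h1, t, a1, a2, rfl⟩ ⟨w', h1', t', b1, b2, h⟩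
        have := (hinj _ h1 _ (sub h1') _ (by omega) _ (by omega) h).2
        omega
      · rintro v ⟨w, h1, t, a1, a2, rfl⟩; exact ⟨w, h1, t, a1, by omega, rfl⟩
      · rintro v ⟨w, h1, t, a1, a2, rfl⟩; exact ⟨w, sub h1, t + 2, by omega, by omega, rfl⟩
    · intro w hw w0 w1
      obtain ⟨u, us, h1, h2⟩ := hpar w (sub hw) w0 w1
      refine ⟨u, Finset.mem_erase.2 ⟨?_, us⟩, h1, h2⟩
      rintro rfl
      have := hmax w (Finset.mem_filter.2 ⟨sub hw, w0, w1⟩)
      omega

theorem Red.map' {V' : Type} {adj' : V' → V' → Prop} {P P' W : Set V} {P₀ P₀' W₀ : Set V'}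
    (h : Red adj P P' W) (φ : V → V') (hφ : Function.Injective φ)
    (ha' : ∀ x y, adj x y → adj' (φ x) (φ y) ∨ adj' (φ y) (φ x))
    (h1 : ∀ x ∈ P₀, ∃ y ∈ P, φ y = x) (h2 : ∀ y ∈ P', φ y ∈ P₀') (h3 : ∀ y ∈ W, φ y ∈ W₀) :
    Red adj' P₀ P₀' W₀ := by
  have : Red adj' (φ '' P) (φ '' P') (φ '' W) := fun β R f hR hf ha => by
    rw [image_image, image_image, image_image]
    exact h β R (fun x => f (φ x)) hR (hf.comp hφ)
      (fun x y hxy => (ha' _ _ hxy).elim (ha _ _) (fun h => hR _ _ (ha _ _ h)))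
  refine this.mono h1 ?_ ?_
  · rintro _ ⟨y, hy, rfl⟩; exact h2 y hy
  · rintro _ ⟨y, hy, rfl⟩; exact h3 y hy

theorem Red.box {k : ℕ} (w : Fin k → ℕ) (N D : ℕ) (i : Fin k) (hw : ∀ l, 1 ≤ w l ∧ w l ≤ N)
    (hi : 2 ≤ w i) (hD : 2 * N ^ k ≤ D) (ψ : (Fin k → ℕ) → ℕ → V) {P P' W : Set V}
    (hinj : ∀ x y, (∀ l, x l < w l) → (∀ l, y l < w l) → ∀ a ≤ D, ∀ b ≤ D,
      ψ x a = ψ y b → x = y ∧ a = b)
    (hv : ∀ x, ∀ t < D, adj (ψ x t) (ψ x (t + 1)) ∨ adj (ψ x (t + 1)) (ψ x t))
    (hh : ∀ x y, (∀ l, x l < w l) → (∀ l, y l < w l) → UpN x y → ∀ t,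
      adj (ψ x t) (ψ y t) ∨ adj (ψ y t) (ψ x t))
    (h1 : ∀ v ∈ P, ∃ x, (∀ l, x l < w l) ∧ v = ψ x 0)
    (h2 : ψ 0 D ∈ P') (h2' : ψ (Pi.single i 1) D ∈ P')
    (h3 : ∀ x, (∀ l, x l < w l) → ∀ t, 1 ≤ t → t ≤ D → ψ x t ∈ W) : Red adj P P' W := by
  classical
  have hm : ∀ x : Fin k → ℕ, x ∈ Fintype.piFinset (fun l => Finset.range (w l)) ↔
      ∀ l, x l < w l := by simp
  have up0 : UpN (0 : Fin k → ℕ) (Pi.single i 1) :=
    ⟨i, by simp, fun j hj => by simp [Pi.single_eq_of_ne hj]⟩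
  have hcard : (Fintype.piFinset (fun l => Finset.range (w l))).card ≤ N ^ k := by
    rw [Fintype.card_piFinset]
    simp only [Finset.card_range]
    calc ∏ l, w l ≤ ∏ _l : Fin k, N := Finset.prod_le_prod' (fun l _ => (hw l).2)
      _ = N ^ k := by simp
  have := Red.col (adj := adj) (fun x y : Fin k → ℕ => UpN x y ∨ UpN y x) (fun x => ∑ l, x l)
    (y₀ := 0) (y₁ := Pi.single i 1) (fun h => by simpa using congrFun h i) (Or.inl up0) _
    (Fintype.piFinset (fun l => Finset.range (w l))) D ψ rfl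
    ((hm _).2 (fun l => (hw l).1))
    ((hm _).2 (fun l => by
      by_cases h : l = i
      · subst h; simp; omega
      · rw [Pi.single_eq_of_ne h]; exact (hw l).1)) ?_ (by omega)
    (fun x hx y hy => hinj x y ((hm _).1 hx) ((hm _).1 hy)) (fun x _ => hv x)
    (fun x hx y hy h t _ => h.elim (fun h => hh x y ((hm _).1 hx) ((hm _).1 hy) h t)
      (fun h => (hh y x ((hm _).1 hy) ((hm _).1 hx) h t).symm))
  · refine this.mono ?_ ?_ ?_
    · intro v hv'
      obtain ⟨x, a, b⟩ := h1 v hv'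
      exact ⟨x, (hm _).2 a, b⟩
    · rintro v (rfl | rfl)
      · exact h2
      · exact h2'
    · rintro v ⟨x, hx, t, a, b, rfl⟩
      exact h3 x ((hm _).1 hx) t a b
  · intro x hx h0 _
    obtain ⟨l, hl⟩ : ∃ l, x l ≠ 0 := by
      by_contra hc
      push Not at hc
      exact h0 (funext hc)
    have up : UpN (Function.update x l (x l - 1)) x :=
      ⟨l, by simp; omega, fun j hj => by simp [Function.update_of_ne hj]⟩
    refine ⟨Function.update x l (x l - 1), (hm _).2 (fun j => ?_), Or.inr up, ?_⟩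
    · have := (hm _).1 hx j
      by_cases h : j = l
      · subst h; simp; omega
      · rwa [Function.update_of_ne h]
    · have := up.sum
      omega

end Pool.Agent.MP_1479fb_pr.Geo

end MrgPart0

-- ======== part 1: formerly Pool.Agent.MP_1479fb_pr.GeoGame
section MrgPart1

/-!
Relinking a discrete simplex down to small patches on the faces of a free cube.
-/

set_option autoImplicit false

namespace Pool.Agent.MP_1479fb_pr.Geo

open Set

theorem upN_update {k : ℕ} (x : Fin k → ℕ) (j : Fin k) (a : ℕ) :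
    UpN (Function.update x j a) (Function.update x j (a + 1)) :=
  ⟨j, by simp, fun l hl => by simp [Function.update_of_ne hl]⟩

theorem colN {k : ℕ} (w : Fin k → ℕ) (N a b : ℕ) (i j : Fin k) (hij : i ≠ j)
    (hw : ∀ l, 1 ≤ w l ∧ w l ≤ N) (hi : 2 ≤ w i) (hD : b + 2 * N ^ k ≤ a) :
    Red (V := Fin k → ℕ) UpN {x | x j = a ∧ ∀ l, l ≠ j → x l < w l}
      {x | x j = b ∧ ∀ l, l ≠ j → x l < 2}
      {x | b ≤ x j ∧ x j < a ∧ ∀ l, l ≠ j → x l < w l} := by
  have hw' : ∀ x : Fin k → ℕ, (∀ l, x l < Function.update w j 1 l) ↔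
      x j = 0 ∧ ∀ l, l ≠ j → x l < w l := by
    intro x
    constructor
    · intro h
      refine ⟨by simpa using h j, fun l hl => ?_⟩
      simpa [Function.update_of_ne hl] using h l
    · rintro ⟨h1, h2⟩ l
      by_cases hl : l = j
      · subst hl; simp [h1]
      · simpa [Function.update_of_ne hl] using h2 l hl
  refine Red.box (Function.update w j 1) N (a - b) i ?_ (by simpa [Function.update_of_ne hij] using hi)
    (by omega) (fun x t => Function.update x j (a - t)) ?_ ?_ ?_ ?_ ?_ ?_ ?_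
  · intro l
    by_cases hl : l = j
    · subst hl; have := hw l; simp; omega
    · simpa [Function.update_of_ne hl] using hw l
  · intro x y hx hy s hs t ht h
    rw [hw'] at hx hy
    have e := congrFun h j
    simp only [Function.update_self] at e
    refine ⟨funext fun l => ?_, by omega⟩
    by_cases hl : l = j
    · rw [hl, hx.1, hy.1]
    · simpa [Function.update_of_ne hl] using congrFun h l
  · intro x t ht
    right
    have := upN_update x j (a - (t + 1))
    rwa [show a - (t + 1) + 1 = a - t by omega] at this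
  · rintro x y hx hy ⟨l, h1, h2⟩ t
    rw [hw'] at hx hy
    left
    have hl : l ≠ j := by rintro rfl; omega
    refine ⟨l, by simpa [Function.update_of_ne hl] using h1, fun l' hl' => ?_⟩
    by_cases e : l' = j
    · subst e; simp
    · simpa [Function.update_of_ne e] using h2 l' hl'
  · rintro v ⟨h1, h2⟩
    refine ⟨Function.update v j 0, (hw' _).2 ⟨by simp, fun l hl => ?_⟩, ?_⟩
    · simpa [Function.update_of_ne hl] using h2 l hl
    · simp [← h1]
  · refine ⟨by simp; omega, fun l hl => by simp [Function.update_of_ne hl]⟩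
  · refine ⟨by simp; omega, fun l hl => ?_⟩
    rw [Function.update_of_ne hl]
    by_cases e : l = i
    · subst e; simp
    · simp [Pi.single_eq_of_ne e]
  · intro x hx t h1 h2
    rw [hw'] at hx
    refine ⟨by simp; omega, by simp; omega, fun l hl => ?_⟩
    simpa [Function.update_of_ne hl] using hx.2 l hl

theorem game (k : ℕ) : ∃ r, 2 ≤ r ∧ ∀ m, r ≤ m → ∃ G, ∀ g, G ≤ g →
    Red (V := Fin k → ℕ) UpN {x | ∑ j, x j = g} {x | ∃ i, x i = m ∧ ∀ j, j ≠ i → x j < r}
      {x | ∑ j, x j < g ∧ ∃ j, m ≤ x j} := by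
  induction k with
  | zero =>
    refine ⟨2, le_rfl, fun m _ => ⟨1, fun g hg => (Red.refl ∅).mono ?_ (empty_subset _) (empty_subset _)⟩⟩
    intro x hx
    simp only [Finset.univ_eq_empty, Finset.sum_empty, mem_ofPred_eq] at hx
    omega
  | succ k ih =>
    obtain ⟨r, hr, ih⟩ := ih
    obtain ⟨c, hc⟩ := exists_peel k
    refine ⟨max r (c + 1), by omega, fun m hm => ?_⟩
    obtain ⟨m₁, hm₁⟩ : ∃ m₁, m₁ = m + 2 * m ^ (k + 1) := ⟨_, rfl⟩
    obtain ⟨G, hG⟩ := ih m₁ (by omega)
    refine ⟨G + m + c + (k + 1) * m₁ + 1, fun g hg => ?_⟩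
    have R1 : Red (V := Fin (k + 1) → ℕ) UpN {x | x 0 < m ∧ ∑ j, x j = g}
        {x | x 0 < m ∧ ∃ i : Fin k, x i.succ = m₁ ∧ ∀ j, j ≠ i → x j.succ < r}
        {x | x 0 < m ∧ ∑ j, x j < g ∧ ∃ j : Fin k, m₁ ≤ x j.succ} := by
      refine Red.iUnion' (ι := Fin m) (P := fun h => {x | x 0 = h.1 ∧ ∑ j, x j = g})
        (P' := fun _ => {x | x 0 < m ∧ ∃ i : Fin k, x i.succ = m₁ ∧ ∀ j, j ≠ i → x j.succ < r})
        (W := fun h => {x | x 0 = h.1 ∧ ∑ j, x j < g ∧ ∃ j : Fin k, m₁ ≤ x j.succ})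
        ?_ ?_ ?_ (fun _ => subset_rfl) ?_
      · intro h
        have hh := h.2
        refine (hG (g - h.1) (by omega)).map' (fun y => Fin.cons h.1 y) 
          (fun y y' e => funext fun l => congrFun e l.succ)
          (fun x y hxy => Or.inl (hxy.cons _)) ?_ ?_ ?_
        · rintro x ⟨h1, h2⟩
          refine ⟨Fin.tail x, ?_, by rw [← h1]; exact Fin.cons_self_tail x⟩
          rw [Fin.sum_univ_succ] at h2
          simp only [mem_ofPred_eq, Fin.tail]
          omega
        · rintro y ⟨i, h1, h2⟩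
          exact ⟨hh, i, h1, h2⟩
        · rintro y ⟨h1, h2⟩
          refine ⟨rfl, ?_, h2⟩
          simp only [Fin.sum_univ_succ, Fin.cons_zero, Fin.cons_succ]
          omega
      · intro h h' hne
        rw [disjoint_left]
        rintro x ⟨h1, -⟩ ⟨h2, -⟩
        exact hne (Fin.ext (h1.symm.trans h2))
      · rintro x ⟨h1, h2⟩
        exact ⟨⟨x 0, h1⟩, rfl, h2⟩
      · rintro h x ⟨h1, h2⟩
        exact ⟨h1 ▸ h.2, h2⟩
    have R2 : Red (V := Fin (k + 1) → ℕ) UpN
        {x | x 0 < m ∧ ∃ i : Fin k, x i.succ = m₁ ∧ ∀ j, j ≠ i → x j.succ < r}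
        {x | ∃ i, x i = m ∧ ∀ j, j ≠ i → x j < max r (c + 1)}
        {x | x 0 < m ∧ (∀ j : Fin k, x j.succ < m₁) ∧ ∃ j : Fin k, m ≤ x j.succ} := by
      refine Red.iUnion' (ι := Fin k)
        (fun i => colN (Fin.cons m (fun _ => r)) m m₁ m 0 i.succ (Fin.succ_ne_zero i).symm
          (fun l => ?_) (by simp; omega) (by omega)) ?_ ?_ ?_ ?_
      · induction l using Fin.cases with
        | zero => simp; omega
        | succ l => simp; omega
      · intro i i' hne
        rw [disjoint_left]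
        rintro x ⟨h1, -, -⟩ ⟨-, -, h2⟩
        have := h2 i.succ (fun h => hne (Fin.succ_injective _ h))
        simp only [Fin.cons_succ] at this
        omega
      · rintro x ⟨h1, i, h2, h3⟩
        refine ⟨i, h2, fun l hl => ?_⟩
        induction l using Fin.cases with
        | zero => exact h1
        | succ l => exact h3 l (fun h => hl (by rw [h]))
      · rintro i x ⟨h1, h2⟩
        exact ⟨i.succ, h1, fun j hj => by have := h2 j hj; omega⟩
      · rintro i x ⟨h1, h2, h3⟩
        refine ⟨h3 0 (Fin.succ_ne_zero i).symm, fun j => ?_, i, h1⟩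
        by_cases e : j = i
        · rw [e]; exact h2
        · have := h3 j.succ (fun h => e (Fin.succ_injective _ h))
          simp only [Fin.cons_succ] at this
          omega
    have R3 : Red (V := Fin (k + 1) → ℕ) UpN {x | m ≤ x 0 ∧ ∑ j, x j = g}
        {x | m ≤ x 0 ∧ ∑ j, x j = c + m} {x | m ≤ x 0 ∧ c + m ≤ ∑ j, x j ∧ ∑ j, x j < g} := by
      have hs : ∀ y : Fin (k + 1) → ℕ,
          ∑ j, (Fin.cons (y 0 + m) (Fin.tail y) : Fin (k + 1) → ℕ) j = ∑ j, y j + m := by
        intro y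
        simp only [Fin.sum_univ_succ, Fin.cons_zero, Fin.cons_succ, Fin.tail]
        omega
      refine (hc (g - m) (by omega)).map' (fun y => Fin.cons (y 0 + m) (Fin.tail y)) ?_ ?_ ?_ ?_ ?_
      · intro y y' h
        funext l
        have := congrFun h l
        induction l using Fin.cases with
        | zero => simpa using this
        | succ l => exact this
      · rintro y y' ⟨i, h1, h2⟩
        refine Or.inl ⟨i, ?_, fun l hl => ?_⟩
        · induction i using Fin.cases with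
          | zero => simp only [Fin.cons_zero]; omega
          | succ i => exact h1
        · have := h2 l hl
          induction l using Fin.cases with
          | zero => simp only [Fin.cons_zero]; omega
          | succ l => exact this
      · rintro x ⟨h1, h2⟩
        refine ⟨Fin.cons (x 0 - m) (Fin.tail x), ?_, ?_⟩
        · rw [Fin.sum_univ_succ] at h2
          simp only [mem_ofPred_eq, Fin.sum_univ_succ, Fin.cons_zero, Fin.cons_succ, Fin.tail]
          omega
        · simp only [Fin.cons_zero, Fin.tail_cons]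
          rw [show x 0 - m + m = x 0 by omega]
          exact Fin.cons_self_tail x
      · intro y hy
        simp only [mem_ofPred_eq] at hy ⊢
        rw [hs]
        exact ⟨by simp, by omega⟩
      · intro y hy
        simp only [mem_ofPred_eq] at hy ⊢
        rw [hs]
        exact ⟨by simp, by omega⟩
    have R4 : Red (V := Fin (k + 1) → ℕ) UpN {x | m ≤ x 0 ∧ ∑ j, x j = c + m}
        {x | ∃ i, x i = m ∧ ∀ j, j ≠ i → x j < max r (c + 1)}
        {x | m ≤ x 0 ∧ ∑ j, x j < c + m} := by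
      refine Red.slides (ι := {y : Fin k → ℕ // ∑ j, y j ≤ c})
        (fun y t => Fin.cons (m + c - ∑ j, y.1 j - t) y.1) (fun y => c - ∑ j, y.1 j)
        ?_ ?_ ?_ ?_ ?_ ?_
      · rintro ⟨y, hy⟩ t ht
        simp only at ht
        refine Or.inr ⟨0, by simp only [Fin.cons_zero]; omega, fun l hl => ?_⟩
        induction l using Fin.cases with
        | zero => exact absurd rfl hl
        | succ l => rfl
      · rintro ⟨y, hy⟩ s hs t ht h
        have := congrFun h 0
        simp only [Fin.cons_zero] at this hs ht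
        omega
      · rintro ⟨y, hy⟩ ⟨y', hy'⟩ s t - - - - h
        exact Subtype.ext (funext fun l => congrFun h l.succ)
      · rintro x ⟨h1, h2⟩
        rw [Fin.sum_univ_succ] at h2
        refine ⟨⟨Fin.tail x, by simp only [Fin.tail]; omega⟩, ?_⟩
        simp only [Fin.tail]
        rw [show m + c - ∑ j : Fin k, x j.succ - 0 = x 0 by omega]
        exact (Fin.cons_self_tail x).symm
      · rintro ⟨y, hy⟩
        refine ⟨0, by simp only [Fin.cons_zero]; omega, fun l hl => ?_⟩
        induction l using Fin.cases with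
        | zero => exact absurd rfl hl
        | succ l =>
          have := Finset.single_le_sum (f := y) (fun _ _ => Nat.zero_le _) (Finset.mem_univ l)
          simp only [Fin.cons_succ]
          omega
      · rintro ⟨y, hy⟩ t h1 h2
        simp only [mem_ofPred_eq, Fin.sum_univ_succ, Fin.cons_zero, Fin.cons_succ] at h2 ⊢
        omega
    have R12 := R1.trans R2 (by
      rw [disjoint_left]
      rintro x ⟨-, -, j, h1⟩ ⟨-, h2, -⟩
      have := h2 j
      omega)
    have R34 := R3.trans R4 (by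
      rw [disjoint_left]
      rintro x ⟨-, h1, -⟩ ⟨-, h2⟩
      omega)
    refine (R12.par R34 ?_).mono ?_ (by simp) ?_
    · rw [disjoint_left]
      rintro x (⟨h1, -⟩ | ⟨h1, -⟩) (⟨h2, -⟩ | ⟨h2, -⟩) <;> omega
    · intro x hx
      by_cases h : x 0 < m
      · exact Or.inl ⟨h, hx⟩
      · exact Or.inr ⟨by omega, hx⟩
    · rintro x ((⟨h1, h2, j, h3⟩ | ⟨h1, h2, j, h3⟩) | (⟨h1, h2, h3⟩ | ⟨h1, h2⟩))
      · exact ⟨h2, j.succ, by omega⟩
      · refine ⟨?_, j.succ, h3⟩
        have : ∑ j, x j ≤ (Finset.univ : Finset (Fin (k + 1))).card • m₁ := by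
          refine Finset.sum_le_card_nsmul _ _ _ (fun l _ => ?_)
          induction l using Fin.cases with
          | zero => omega
          | succ l => exact (h2 l).le
        simp only [Finset.card_univ, Fintype.card_fin, smul_eq_mul] at this
        omega
      · exact ⟨h3, 0, h1⟩
      · exact ⟨by omega, 0, h1⟩

end Pool.Agent.MP_1479fb_pr.Geo

end MrgPart1

-- ======== part 2: formerly Pool.Agent.MP_1479fb_pr.GeoBall
section MrgPart2

/-!
Relinking a mirrored ball of the lattice down to two adjacent sites.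
-/

set_option autoImplicit false

namespace Pool.Agent.MP_1479fb_pr.Geo

open Set

/-- upper neighbour in the lattice -/
def UpZ {d : ℕ} (v u : Fin d → ℤ) : Prop := ∃ i, u i = v i + 1 ∧ ∀ j, j ≠ i → u j = v j

/-- distance to the pair of integers -1, 0 -/
def nu (t : ℤ) : ℤ := max t (-1 - t)

/-- level of a site -/
def lvl {d : ℕ} (x : Fin d → ℤ) : ℤ := ∑ j, nu (x j)

theorem gameZ (k : ℕ) : ∃ r : ℕ, 2 ≤ r ∧ ∀ m : ℕ, r ≤ m → ∃ G : ℕ, ∀ g : ℕ, G ≤ g →
    Red (V := Fin k → ℤ) UpZ {x | lvl x = g} {x | ∃ i, nu (x i) = m ∧ ∀ j, j ≠ i → nu (x j) < r}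
      {x | lvl x < g ∧ ∃ j, (m : ℤ) ≤ nu (x j)} := by
  obtain ⟨r, hr, h⟩ := game k
  refine ⟨r, hr, fun m hm => ?_⟩
  obtain ⟨G, hG⟩ := h m hm
  refine ⟨G, fun g hg => ?_⟩
  have hn : ∀ (b : Bool) (y : ℕ), nu (if b then (y : ℤ) else -1 - y) = y := by
    intro b y
    cases b <;> simp only [nu, if_true, if_false, Bool.false_eq_true] <;> omega
  have hl : ∀ (ε : Fin k → Bool) (y : Fin k → ℕ),
      lvl (fun j => if ε j then (y j : ℤ) else -1 - y j) = ((∑ j, y j : ℕ) : ℤ) := by
    intro ε y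
    simp only [lvl, hn, Nat.cast_sum]
  refine Red.iUnion' (ι := Fin k → Bool)
    (P := fun ε => {x | (∀ j, ε j = true ↔ 0 ≤ x j) ∧ lvl x = g})
    (P' := fun _ => {x | ∃ i, nu (x i) = m ∧ ∀ j, j ≠ i → nu (x j) < r})
    (W := fun ε => {x | (∀ j, ε j = true ↔ 0 ≤ x j) ∧ lvl x < g ∧ ∃ j, (m : ℤ) ≤ nu (x j)})
    ?_ ?_ ?_ (fun _ => subset_rfl) (fun _ _ hx => hx.2)
  · intro ε
    refine (hG g hg).map' (fun y j => if ε j then (y j : ℤ) else -1 - y j) ?_ ?_ ?_ ?_ ?_
    · intro y y' e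
      funext j
      have := congrArg nu (congrFun e j)
      simp only [hn] at this
      omega
    · rintro y y' ⟨i, h1, h2⟩
      cases hi : ε i
      · refine Or.inr ⟨i, by simp [hi, h1]; omega, fun j hj => by simp only [h2 j hj]⟩
      · refine Or.inl ⟨i, by simp [hi, h1], fun j hj => by simp only [h2 j hj]⟩
    · rintro x ⟨h1, h2⟩
      have e : (fun j => if ε j then (((nu (x j)).toNat : ℕ) : ℤ) else -1 - ((nu (x j)).toNat : ℕ))
          = x := by
        funext j
        have := h1 j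
        cases hj : ε j <;> simp only [hj, nu, if_true, if_false, Bool.false_eq_true, false_iff,
          true_iff] at this ⊢ <;> omega
      refine ⟨fun j => (nu (x j)).toNat, ?_, e⟩
      have := hl ε (fun j => (nu (x j)).toNat)
      rw [e, h2] at this
      exact_mod_cast this.symm
    · rintro y ⟨i, h1, h2⟩
      refine ⟨i, by simp only [hn, h1], fun j hj => ?_⟩
      simp only [hn]
      exact_mod_cast h2 j hj
    · rintro y ⟨h1, j, h2⟩
      refine ⟨fun j => ?_, ?_, j, ?_⟩
      · cases hj : ε j <;> simp only [hj, if_true, if_false, Bool.false_eq_true, false_iff,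
          true_iff] <;> omega
      · rw [hl]; exact_mod_cast h1
      · simp only [hn]; exact_mod_cast h2
  · intro ε ε' hne
    rw [disjoint_left]
    rintro x ⟨h1, -⟩ ⟨h2, -⟩
    refine hne (funext fun j => ?_)
    rw [Bool.eq_iff_iff, h1, h2]
  · intro x hx
    exact ⟨fun j => decide (0 ≤ x j), fun j => by simp, hx⟩

theorem upZ_update {d : ℕ} (x : Fin d → ℤ) (j : Fin d) (a b : ℤ) (h : b = a + 1 ∨ a = b + 1) :
    UpZ (Function.update x j a) (Function.update x j b) ∨
      UpZ (Function.update x j b) (Function.update x j a) :=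
  h.imp (fun h => ⟨j, by simp [h], fun l hl => by simp [Function.update_of_ne hl]⟩)
    (fun h => ⟨j, by simp [h], fun l hl => by simp [Function.update_of_ne hl]⟩)

theorem slideZ {d : ℕ} (j : Fin d) (b : (Fin d → ℤ) → ℤ) {P P' W : Set (Fin d → ℤ)}
    (hd : ∀ u ∈ P, ∀ u' ∈ P, ∀ s, ((u j < s ∧ s ≤ b u) ∨ (b u ≤ s ∧ s < u j)) →
      ((u' j < s ∧ s ≤ b u') ∨ (b u' ≤ s ∧ s < u' j)) → (∀ l, l ≠ j → u l = u' l) → u j = u' j)
    (h2 : ∀ u ∈ P, ∀ x : Fin d → ℤ, x j = b u → (∀ l, l ≠ j → x l = u l) → x ∈ P')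
    (h3 : ∀ u ∈ P, ∀ x : Fin d → ℤ, ((u j < x j ∧ x j ≤ b u) ∨ (b u ≤ x j ∧ x j < u j)) →
      (∀ l, l ≠ j → x l = u l) → x ∈ W) : Red UpZ P P' W := by
  refine Red.slides (ι := P)
    (fun u t => Function.update u.1 j (if u.1 j ≤ b u.1 then u.1 j + t else u.1 j - t))
    (fun u => (b u.1 - u.1 j).natAbs) ?_ ?_ ?_ ?_ ?_ ?_
  · intro u t _
    refine upZ_update _ _ _ _ ?_
    split_ifs <;> omega
  · intro u s _ t _ h
    have := congrFun h j
    simp only [Function.update_self] at this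
    split_ifs at this <;> omega
  · rintro ⟨u, hu⟩ ⟨u', hu'⟩ s t a1 a2 a3 a4 h
    have e := congrFun h j
    simp only [Function.update_self] at e a2 a4
    have e2 : ∀ l, l ≠ j → u l = u' l := fun l hl => by
      simpa [Function.update_of_ne hl] using congrFun h l
    have := hd u hu u' hu' (if u j ≤ b u then u j + s else u j - s) (by split_ifs <;> omega)
      (by rw [e]; split_ifs <;> omega) e2
    refine Subtype.ext (funext fun l => ?_)
    by_cases hl : l = j
    · rw [hl]; exact this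
    · exact e2 l hl
  · intro x hx
    exact ⟨⟨x, hx⟩, by simp⟩
  · rintro ⟨u, hu⟩
    refine h2 u hu _ ?_ (fun l hl => by simp [Function.update_of_ne hl])
    simp only [Function.update_self]
    split_ifs <;> omega
  · rintro ⟨u, hu⟩ t a1 a2
    refine h3 u hu _ ?_ (fun l hl => by simp [Function.update_of_ne hl])
    simp only [Function.update_self] at a2 ⊢
    split_ifs <;> omega

theorem colZ {d : ℕ} (lo : Fin d → ℤ) (w : Fin d → ℕ) (N D : ℕ) (a b : ℤ) (i j : Fin d)
    (hij : i ≠ j) (hw : ∀ l, 1 ≤ w l ∧ w l ≤ N) (hi : 2 ≤ w i) (hD : 2 * N ^ d ≤ D)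
    (hb : b = a + D ∨ b = a - D) :
    Red (V := Fin d → ℤ) UpZ {x | x j = a ∧ ∀ l, l ≠ j → lo l ≤ x l ∧ x l < lo l + w l}
      {x | x j = b ∧ (x i = lo i ∨ x i = lo i + 1) ∧ ∀ l, l ≠ j → l ≠ i → x l = lo l}
      {x | ((a < x j ∧ x j ≤ b) ∨ (b ≤ x j ∧ x j < a)) ∧
        ∀ l, l ≠ j → lo l ≤ x l ∧ x l < lo l + w l} := by
  have hw' : ∀ x : Fin d → ℕ, (∀ l, x l < Function.update w j 1 l) ↔
      x j = 0 ∧ ∀ l, l ≠ j → x l < w l := by
    intro x
    constructor
    · intro h
      refine ⟨by simpa using h j, fun l hl => ?_⟩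
      simpa [Function.update_of_ne hl] using h l
    · rintro ⟨h1, h2⟩ l
      by_cases hl : l = j
      · subst hl; simp [h1]
      · simpa [Function.update_of_ne hl] using h2 l hl
  refine Red.box (Function.update w j 1) N D i ?_ (by simpa [Function.update_of_ne hij] using hi)
    hD (fun x t => Function.update (fun l => lo l + x l) j (if a ≤ b then a + t else a - t))
    ?_ ?_ ?_ ?_ ?_ ?_ ?_
  · intro l
    by_cases hl : l = j
    · subst hl; have := hw l; simp; omega
    · simpa [Function.update_of_ne hl] using hw l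
  · intro x y hx hy s hs t ht h
    rw [hw'] at hx hy
    have e := congrFun h j
    simp only [Function.update_self] at e
    refine ⟨funext fun l => ?_, by split_ifs at e <;> omega⟩
    by_cases hl : l = j
    · rw [hl, hx.1, hy.1]
    · simpa [Function.update_of_ne hl] using congrFun h l
  · intro x t ht
    refine upZ_update _ _ _ _ ?_
    split_ifs <;> omega
  · rintro x y hx hy ⟨l, h1, h2⟩ t
    rw [hw'] at hx hy
    left
    have hl : l ≠ j := by rintro rfl; omega
    refine ⟨l, by simp [Function.update_of_ne hl, h1, add_assoc], fun l' hl' => ?_⟩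
    by_cases e : l' = j
    · subst e; simp
    · simp [Function.update_of_ne e, h2 l' hl']
  · rintro v ⟨h1, h2⟩
    refine ⟨Function.update (fun l => (v l - lo l).toNat) j 0,
      (hw' _).2 ⟨by simp, fun l hl => ?_⟩, funext fun l => ?_⟩
    · have := h2 l hl
      rw [Function.update_of_ne hl]
      omega
    · by_cases hl : l = j
      · subst hl; simp [h1]
      · have := h2 l hl
        simp only [Function.update_of_ne hl]
        omega
  · refine ⟨?_, Or.inl (by simp [Function.update_of_ne hij]),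
      fun l hl _ => by simp [Function.update_of_ne hl]⟩
    simp only [Function.update_self]
    split_ifs <;> omega
  · refine ⟨?_, Or.inr (by simp [Function.update_of_ne hij]),
      fun l hl hl' => by simp [Function.update_of_ne hl, Pi.single_eq_of_ne hl']⟩
    simp only [Function.update_self]
    split_ifs <;> omega
  · intro x hx t h1 h2
    rw [hw'] at hx
    refine ⟨?_, fun l hl => ?_⟩
    · simp only [Function.update_self]
      split_ifs <;> omega
    · have := hx.2 l hl
      simp only [Function.update_of_ne hl]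
      omega

theorem merge {d : ℕ} (a b : Fin d) (hab : a ≠ b) (r : ℕ) (hr : 2 ≤ r) :
    ∃ M : ℕ, r ≤ M ∧ ∃ p q : Fin d → ℤ, UpZ p q ∧ (∀ j, nu (p j) < M) ∧
      Red UpZ {x | ∃ i, nu (x i) = M ∧ ∀ j, j ≠ i → nu (x j) < r} {p, q}
        {x | ∀ j, nu (x j) < M} := by
  obtain ⟨D, hD⟩ : ∃ D, D = 2 * (6 * r) ^ d := ⟨_, rfl⟩
  have hD1 : 6 * r ≤ D := by
    have : (6 * r) ^ 1 ≤ (6 * r) ^ d := Nat.pow_le_pow_right (by omega) a.pos
    rw [pow_one] at this
    omega
  obtain ⟨M, hM⟩ : ∃ M, M = r + 2 * D + 5 := ⟨_, rfl⟩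
  obtain ⟨t, ht⟩ : ∃ t : ℤ, t = -1 - M + D := ⟨_, rfl⟩
  obtain ⟨lo, hlo⟩ : ∃ lo : ℤ, lo = -3 * r := ⟨_, rfl⟩
  refine ⟨M, by omega, fun l => if l = a then t + 1 else if l = b then lo + 1 + D else lo,
    fun l => if l = a then t + 2 else if l = b then lo + 1 + D else lo,
    ⟨a, by simp; omega, fun l hl => by simp [hl]⟩, ?_, ?_⟩
  · intro j
    simp only [nu]
    split_ifs <;> omega
  have RA : Red UpZ {x : Fin d → ℤ | ∃ j, j ≠ a ∧ nu (x j) = M ∧ ∀ l, l ≠ j → nu (x l) < r}
      {x | ∃ j, j ≠ a ∧ nu (x j) = 2 * r - 1 - x a ∧ ∀ l, l ≠ j → nu (x l) < r}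
      {x | ∃ j, j ≠ a ∧ 2 * r - 1 - x a ≤ nu (x j) ∧ nu (x j) < M ∧ ∀ l, l ≠ j → nu (x l) < r} := by
    refine Red.iUnion' (ι := {j // j ≠ a})
      (P := fun j => {x | nu (x j.1) = M ∧ ∀ l, l ≠ j.1 → nu (x l) < r})
      (P' := fun _ => {x | ∃ j, j ≠ a ∧ nu (x j) = 2 * r - 1 - x a ∧ ∀ l, l ≠ j → nu (x l) < r})
      (W := fun j => {x | 2 * r - 1 - x a ≤ nu (x j.1) ∧ nu (x j.1) < M ∧
        ∀ l, l ≠ j.1 → nu (x l) < r}) ?_ ?_ ?_ (fun _ => subset_rfl) ?_
    · rintro ⟨j, hj⟩
      refine slideZ j (fun u => if 0 ≤ u j then 2 * r - 1 - u a else -1 - (2 * r - 1 - u a)) ?_ ?_ ?_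
      · rintro u ⟨h1, h2⟩ u' ⟨h1', h2'⟩ s c1 c2 -
        have k1 := h2 a hj.symm
        have k2 := h2' a hj.symm
        simp only [nu] at h1 h1' k1 k2
        split_ifs at c1 c2 <;> omega
      · rintro u ⟨h1, h2⟩ x c1 c2
        have k1 := h2 a hj.symm
        refine ⟨j, hj, ?_, fun l hl => by rw [c2 l hl]; exact h2 l hl⟩
        rw [c2 a hj.symm]
        simp only [nu] at h1 k1 ⊢
        split_ifs at c1 <;> omega
      · rintro u ⟨h1, h2⟩ x c1 c2
        have k1 := h2 a hj.symm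
        refine ⟨?_, ?_, fun l hl => by rw [c2 l hl]; exact h2 l hl⟩
        · rw [c2 a hj.symm]
          simp only [nu] at h1 k1 ⊢
          split_ifs at c1 <;> omega
        · simp only [nu] at h1 k1 ⊢
          split_ifs at c1 <;> omega
    · rintro ⟨j, hj⟩ ⟨j', hj'⟩ hne
      rw [disjoint_left]
      rintro x ⟨h1, -, h2⟩ ⟨-, -, h3⟩
      have k1 := h2 a hj.symm
      have k2 := h3 j (fun h => hne (Subtype.ext h))
      simp only [nu] at h1 k1 k2
      omega
    · rintro x ⟨j, hj, h⟩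
      exact ⟨⟨j, hj⟩, h⟩
    · rintro ⟨j, hj⟩ x h
      exact ⟨j, hj, h⟩
  have RB : Red UpZ ({x : Fin d → ℤ | ∃ j, j ≠ a ∧ nu (x j) = 2 * r - 1 - x a ∧
        ∀ l, l ≠ j → nu (x l) < r} ∪ {x | x a = M ∧ ∀ l, l ≠ a → nu (x l) < r})
      {x | x a = -r - 1 ∧ ∀ l, l ≠ a → lo ≤ x l ∧ x l < lo + (6 * r : ℕ)}
      {x | -r - 1 ≤ x a ∧ x a < M ∧ ∀ l, l ≠ a → nu (x l) < 3 * r ∧
        (nu (x l) < r ∨ nu (x l) < 2 * r - 1 - x a)} := by
    refine slideZ a (fun _ => -r - 1) ?_ ?_ ?_
    · rintro u (⟨j, hj, h1, h2⟩ | ⟨h1, h2⟩) u' (⟨j', hj', h1', h2'⟩ | ⟨h1', h2'⟩) s - - e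
      · by_cases hjj : j = j'
        · subst hjj
          rw [e j hj] at h1
          omega
        · have k1 := h2 a hj.symm
          have k2 := h2' j hjj
          rw [← e j hj] at k2
          simp only [nu] at h1 k1 k2
          omega
      · have k1 := h2 a hj.symm
        have k2 := h2' j hj
        rw [← e j hj] at k2
        simp only [nu] at h1 k1 k2
        omega
      · have k1 := h2' a hj'.symm
        have k2 := h2 j' hj'
        rw [e j' hj'] at k2
        simp only [nu] at h1' k1 k2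
        omega
      · omega
    · rintro u (⟨j, hj, h1, h2⟩ | ⟨h1, h2⟩) x c1 c2
      · refine ⟨c1, fun l hl => ?_⟩
        rw [c2 l hl]
        have k1 := h2 a hj.symm
        by_cases e : l = j
        · subst e
          simp only [nu] at h1 k1
          omega
        · have := h2 l e
          simp only [nu] at this
          omega
      · refine ⟨c1, fun l hl => ?_⟩
        rw [c2 l hl]
        have := h2 l hl
        simp only [nu] at this
        omega
    · rintro u (⟨j, hj, h1, h2⟩ | ⟨h1, h2⟩) x c1 c2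
      · have k1 := h2 a hj.symm
        simp only [nu] at k1
        refine ⟨by omega, by omega, fun l hl => ?_⟩
        rw [c2 l hl]
        by_cases e : l = j
        · subst e
          omega
        · have := h2 l e
          omega
      · refine ⟨by omega, by omega, fun l hl => ?_⟩
        rw [c2 l hl]
        have := h2 l hl
        omega
  have RC := colZ (fun _ => lo) (fun _ => 6 * r) (6 * r) D (-r - 1) (t + 5) b a hab.symm
    (fun _ => by omega) (by omega) (by omega) (by omega)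
  have RD := colZ (fun _ => lo) (fun _ => 6 * r) (6 * r) D (-1 - M) t b a hab.symm
    (fun _ => by omega) (by omega) (by omega) (by omega)
  have RE1 : Red UpZ {x : Fin d → ℤ | (x a = t ∨ x a = t + 5) ∧ (x b = lo ∨ x b = lo + 1) ∧
        ∀ l, l ≠ a → l ≠ b → x l = lo}
      {x | ((x b = lo ∧ (x a = t + 2 ∨ x a = t + 3)) ∨ (x b = lo + 1 ∧ (x a = t + 1 ∨ x a = t + 4))) ∧
        ∀ l, l ≠ a → l ≠ b → x l = lo}
      {x | t + 1 ≤ x a ∧ x a ≤ t + 4 ∧ (x b = lo ∨ (x b = lo + 1 ∧ (x a = t + 1 ∨ x a = t + 4))) ∧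
        ∀ l, l ≠ a → l ≠ b → x l = lo} := by
    refine slideZ a (fun u => if u a = t then (if u b = lo then t + 2 else t + 1)
      else (if u b = lo then t + 3 else t + 4)) ?_ ?_ ?_
    · rintro u ⟨h1, h2, -⟩ u' ⟨h1', h2', -⟩ s c1 c2 e
      have := e b hab.symm
      split_ifs at c1 c2 <;> omega
    · rintro u ⟨h1, h2, h3⟩ x c1 c2
      have := c2 b hab.symm
      refine ⟨?_, fun l k1 k2 => by rw [c2 l k1]; exact h3 l k1 k2⟩
      split_ifs at c1 <;> omega
    · rintro u ⟨h1, h2, h3⟩ x c1 c2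
      have := c2 b hab.symm
      refine ⟨?_, ?_, ?_, fun l k1 k2 => by rw [c2 l k1]; exact h3 l k1 k2⟩ <;>
      split_ifs at c1 <;> omega
  have RE2 : Red UpZ
      {x : Fin d → ℤ | ((x b = lo ∧ (x a = t + 2 ∨ x a = t + 3)) ∨
        (x b = lo + 1 ∧ (x a = t + 1 ∨ x a = t + 4))) ∧ ∀ l, l ≠ a → l ≠ b → x l = lo}
      {x | x b = lo + 1 ∧ ∀ l, l ≠ b → (if l = a then t + 1 else lo) ≤ x l ∧
        x l < (if l = a then t + 1 else lo) + ((if l = a then 4 else 1 : ℕ) : ℤ)}
      {x | x b = lo + 1 ∧ (x a = t + 2 ∨ x a = t + 3) ∧ ∀ l, l ≠ a → l ≠ b → x l = lo} := by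
    refine slideZ b (fun _ => lo + 1) ?_ ?_ ?_
    · rintro u ⟨h1, -⟩ u' ⟨h1', -⟩ s c1 c2 e
      omega
    · rintro u ⟨h1, h3⟩ x c1 c2
      refine ⟨c1, fun l hl => ?_⟩
      rw [c2 l hl]
      by_cases e : l = a
      · subst e; simp only [if_true]; omega
      · rw [h3 l e hl]; simp [e]
    · rintro u ⟨h1, h3⟩ x c1 c2
      have := c2 a hab
      exact ⟨by omega, by omega, fun l k1 k2 => by rw [c2 l k2]; exact h3 l k1 k2⟩
  have RE3 := colZ (fun l => if l = a then t + 1 else lo) (fun l => if l = a then 4 else 1)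
    (6 * r) D (lo + 1) (lo + 1 + D) a b hab (fun l => by split_ifs <;> omega) (by simp)
    (by omega) (by omega)
  have S1 : Red UpZ ({x : Fin d → ℤ | ∃ j, j ≠ a ∧ nu (x j) = M ∧ ∀ l, l ≠ j → nu (x l) < r} ∪
        {x | x a = M ∧ ∀ l, l ≠ a → nu (x l) < r})
      {x | x a = -r - 1 ∧ ∀ l, l ≠ a → lo ≤ x l ∧ x l < lo + (6 * r : ℕ)}
      {x | -r - 1 ≤ x a ∧ ∀ l, nu (x l) < M} := by
    refine (RA.frame _).trans' RB ?_ ?_ ?_
    · rw [disjoint_left]
      rintro x ⟨j, hj, h1, -, h2⟩ ⟨-, -, h3⟩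
      have k1 := h2 a hj.symm
      have k2 := h3 j hj
      simp only [nu] at h1 k1 k2
      omega
    · rintro x ⟨j, hj, h1, h2, h3⟩
      have k1 := h3 a hj.symm
      refine ⟨by simp only [nu] at k1; omega, fun l => ?_⟩
      by_cases e : l = j
      · rw [e]; exact h2
      · have := h3 l e; omega
    · rintro x ⟨h1, h2, h3⟩
      refine ⟨h1, fun l => ?_⟩
      by_cases e : l = a
      · rw [e]; simp only [nu]; omega
      · have := h3 l e; omega
  have S2 := S1.trans' (W₀ := {x | t + 5 ≤ x a ∧ ∀ l, nu (x l) < M}) RC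
    (by
      rw [disjoint_left]
      rintro x ⟨h1, -⟩ ⟨h2, -⟩
      omega)
    (by rintro x ⟨h1, h2⟩; exact ⟨by omega, h2⟩)
    (by
      rintro x ⟨h1, h2⟩
      refine ⟨by omega, fun l => ?_⟩
      by_cases e : l = a
      · rw [e]; simp only [nu]; omega
      · have := h2 l e; simp only [nu] at this ⊢; omega)
  have S3 : Red UpZ {x : Fin d → ℤ | ∃ i, nu (x i) = M ∧ ∀ j, j ≠ i → nu (x j) < r}
      {x | (x a = t ∨ x a = t + 5) ∧ (x b = lo ∨ x b = lo + 1) ∧ ∀ l, l ≠ a → l ≠ b → x l = lo}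
      {x | (x a ≤ t ∨ t + 5 ≤ x a) ∧ ∀ l, nu (x l) < M} := by
    refine (S2.par RD ?_).mono ?_ ?_ ?_
    · rw [disjoint_left]
      rintro x ⟨h1, -⟩ ⟨h2, -⟩
      omega
    · rintro x ⟨i, h1, h2⟩
      by_cases e : i = a
      · subst e
        by_cases h : 0 ≤ x i
        · exact Or.inl (Or.inr ⟨by simp only [nu] at h1; omega, h2⟩)
        · refine Or.inr ⟨by simp only [nu] at h1; omega, fun l hl => ?_⟩
          have := h2 l hl
          simp only [nu] at this ⊢
          omega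
      · exact Or.inl (Or.inl ⟨i, e, h1, h2⟩)
    · rintro x (⟨h1, h2⟩ | ⟨h1, h2⟩)
      · exact ⟨Or.inr h1, h2⟩
      · exact ⟨Or.inl h1, h2⟩
    · rintro x (⟨h1, h2⟩ | ⟨h1, h2⟩)
      · exact ⟨Or.inr h1, h2⟩
      · refine ⟨by omega, fun l => ?_⟩
        by_cases e : l = a
        · rw [e]; simp only [nu]; omega
        · have := h2 l e; simp only [nu] at this ⊢; omega
  have S4 := RE1.trans' (W₀ := {x | t + 1 ≤ x a ∧ x a ≤ t + 4 ∧ (x b = lo ∨ x b = lo + 1) ∧
      ∀ l, l ≠ a → l ≠ b → x l = lo}) RE2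
    (by
      rw [disjoint_left]
      rintro x ⟨-, -, h1, -⟩ ⟨h2, h3, -⟩
      omega)
    (by rintro x ⟨h1, h2, h3, h4⟩; exact ⟨h1, h2, by omega, h4⟩)
    (by rintro x ⟨h1, h2, h4⟩; exact ⟨by omega, by omega, by omega, h4⟩)
  have S5 := S4.trans' (W₀ := {x | t + 1 ≤ x a ∧ x a ≤ t + 4 ∧ ∀ l, nu (x l) < M}) RE3
    (by
      rw [disjoint_left]
      rintro x ⟨-, -, h1, -⟩ ⟨h2, -⟩
      omega)
    (by
      rintro x ⟨h1, h2, h3, h4⟩
      refine ⟨h1, h2, fun l => ?_⟩
      by_cases e : l = a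
      · rw [e]; simp only [nu]; omega
      by_cases e' : l = b
      · rw [e']; simp only [nu]; omega
      rw [h4 l e e']; simp only [nu]; omega)
    (by
      rintro x ⟨h1, h2⟩
      have k := h2 a hab
      simp only [if_true] at k
      refine ⟨by omega, by omega, fun l => ?_⟩
      by_cases e : l = a
      · rw [e]; simp only [nu]; omega
      by_cases e' : l = b
      · rw [e']; simp only [nu]; omega
      have := h2 l e'
      simp only [e, if_false] at this
      simp only [nu]; omega)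
  refine (S3.trans' (W₀ := {x : Fin d → ℤ | ∀ j, nu (x j) < M}) S5 ?_ (fun x h => h.2) (fun x h => h.2.2)).mono
    subset_rfl ?_ subset_rfl
  · rw [disjoint_left]
    rintro x ⟨h1, -⟩ ⟨h2, h3, -⟩
    omega
  · rintro x ⟨h1, h2, h3⟩
    simp only [if_true] at h2
    have key : ∀ s, x a = s → x = fun l => if l = a then s else if l = b then lo + 1 + D else lo := by
      intro s hs
      funext l
      by_cases e : l = a
      · rw [if_pos e, e, hs]
      by_cases e' : l = b
      · rw [if_neg e, if_pos e', e', h1]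
      rw [if_neg e, if_neg e', h3 l e' e, if_neg e]
    rcases h2 with h2 | h2
    · exact Or.inl (key _ h2)
    · exact Or.inr (key _ (by omega))

theorem relink {d : ℕ} (hd : 2 ≤ d) : ∃ (g : ℕ) (p q : Fin d → ℤ), UpZ p q ∧ lvl p + 3 ≤ g ∧
    Red UpZ {x | lvl x = g} {p, q} {x | lvl x < g} := by
  obtain ⟨r, hr, h⟩ := gameZ d
  obtain ⟨M, hM, p, q, h1, h2, h3⟩ := merge (⟨0, by omega⟩ : Fin d) ⟨1, by omega⟩ (by simp) r hr
  obtain ⟨G, hG⟩ := h M hM
  have key : ∀ x : Fin d → ℤ, (∀ j, nu (x j) < M) → lvl x ≤ d * M := by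
    intro x hx
    have := Finset.sum_le_card_nsmul Finset.univ (fun j => nu (x j)) M (fun j _ => (hx j).le)
    simpa [lvl] using this
  refine ⟨G + d * M + 3, p, q, h1, ?_, (hG _ (by omega)).trans' h3 ?_ (fun x h => h.1) ?_⟩
  · have := key p h2
    push_cast
    omega
  · rw [disjoint_left]
    rintro x ⟨-, j, k1⟩ k2
    have := k2 j
    omega
  · intro x hx
    have := key x hx
    simp only [mem_ofPred_eq]
    push_cast
    omega

end Pool.Agent.MP_1479fb_pr.Geo

end MrgPart2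

-- ======== part 3: formerly Pool.Agent.MP_1479fb_pr.GeoMove
section MrgPart3

/-!
Moving the loose end of a cut path by relinking inside a ball.
-/

set_option autoImplicit false

namespace Pool.Agent.MP_1479fb_pr.Geo

open Set

section Abstract
variable {β : Type} {R : β → β → Prop}

theorem erase_aux (hR : ∀ x y, R x y → R y x) (Rg rim : Set β)
    (hrim : ∀ x ∈ Rg, ∀ y, y ∉ Rg → R x y → x ∈ rim) (t : List β) :
    ∀ a : β, (a :: t).Nodup → (a :: t).IsChain R → ∃ (p : List β) (B : List (List β)),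
      (a :: p).Nodup ∧ (a :: p).IsChain R ∧ Good R B ∧ (∀ x ∈ a :: p, x ∉ used B) ∧
      (∀ x ∈ p, x ∈ t) ∧ (∀ x ∈ used B, x ∈ t) ∧ (∀ x ∈ t, x ∉ Rg → x ∈ p ∨ x ∈ used B) ∧
      (∀ x ∈ used B, x ∈ Rg → x ∈ rim) ∧ (∀ x ∈ p, x ∈ Rg → x ∈ rim) ∧
      (p ≠ [] → a ∈ Rg → a ∈ rim) ∧ (p = [] → a ∈ Rg ∨ t = []) ∧
      (∀ x ∈ ends B, x ∈ Rg ∨ (a :: t).getLast? = some x) ∧
      (∀ x, (a :: p).getLast? = some x → x ∈ Rg ∨ (a :: t).getLast? = some x) := by
  induction t with
  | nil =>
    intro a h1 h2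
    refine ⟨[], [], h1, h2, ⟨by simp, by simp⟩, ?_, by simp, ?_, by simp, ?_, by simp, by simp,
      by simp, ?_, fun x hx => Or.inr hx⟩ <;> simp [used, ends]
  | cons c t ih =>
    intro a h1 h2
    obtain ⟨ha, h1'⟩ := List.nodup_cons.1 h1
    obtain ⟨hac, h2'⟩ := List.isChain_cons_cons.1 h2
    obtain ⟨p, B, g1, g2, g3, g4, g5, g6, g7, g8, g9, g10, g11, g12, g13⟩ := ih c h1' h2'
    have hat : a ∉ t := fun h => ha (List.mem_cons_of_mem _ h)
    have hac' : a ≠ c := fun h => ha (h ▸ List.mem_cons_self)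
    rw [List.getLast?_cons_cons]
    by_cases hc : a ∈ Rg ∧ c ∈ Rg
    · by_cases hp : p = []
      · subst hp
        refine ⟨[], B, by simp, by simp, g3, ?_, by simp,
          fun x hx => List.mem_cons_of_mem _ (g6 x hx), ?_, g8, by simp, by simp,
          fun _ => Or.inl hc.1, g12, ?_⟩
        · intro x hx hB
          rw [List.mem_singleton] at hx
          exact hat (hx ▸ g6 x hB)
        · intro x hx hx'
          rcases List.mem_cons.1 hx with rfl | hx
          · exact absurd hc.2 hx'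
          · exact g7 x hx hx'
        · intro x hx
          simp only [List.getLast?_singleton, Option.some.injEq] at hx
          exact Or.inl (hx ▸ hc.1)
      · refine ⟨[], (c :: p) :: B, by simp, by simp, ?_, ?_, by simp, ?_, ?_, ?_, by simp, by simp,
          fun _ => Or.inl hc.1, ?_, ?_⟩
        · refine good_cons.2 ⟨g1, g2, ?_, g4, g3⟩
          have := List.length_pos_iff.2 hp
          simp only [List.length_cons]; omega
        · intro x hx hB
          rw [List.mem_singleton] at hx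
          subst hx
          rcases mem_used_cons.1 hB with h | h
          · rcases List.mem_cons.1 h with h | h
            · exact hac' h
            · exact hat (g5 _ h)
          · exact hat (g6 _ h)
        · intro x hB
          rcases mem_used_cons.1 hB with h | h
          · rcases List.mem_cons.1 h with h | h
            · exact h ▸ List.mem_cons_self
            · exact List.mem_cons_of_mem _ (g5 _ h)
          · exact List.mem_cons_of_mem _ (g6 _ h)
        · intro x hx hx'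
          rcases List.mem_cons.1 hx with rfl | hx
          · exact absurd hc.2 hx'
          · right
            rw [mem_used_cons]
            exact (g7 x hx hx').imp_left (List.mem_cons_of_mem _)
        · intro x hB hx
          rcases mem_used_cons.1 hB with h | h
          · rcases List.mem_cons.1 h with h | h
            · exact h ▸ g10 hp hc.2
            · exact g9 _ h hx
          · exact g8 _ h hx
        · intro x hx
          rcases mem_ends_cons.1 hx with (h | h) | h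
          · simp only [List.head?_cons, Option.some.injEq] at h
            exact Or.inl (h ▸ hc.2)
          · exact g13 x h
          · exact g12 x h
        · intro x hx
          simp only [List.getLast?_singleton, Option.some.injEq] at hx
          exact Or.inl (hx ▸ hc.1)
    · refine ⟨c :: p, B, ?_, List.isChain_cons_cons.2 ⟨hac, g2⟩, g3, ?_, ?_,
        fun x hx => List.mem_cons_of_mem _ (g6 x hx), ?_, g8, ?_, ?_, by simp, g12, ?_⟩
      · refine List.nodup_cons.2 ⟨fun h => ?_, g1⟩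
        rcases List.mem_cons.1 h with h | h
        · exact hac' h
        · exact hat (g5 _ h)
      · intro x hx
        rcases List.mem_cons.1 hx with rfl | hx
        · exact fun h => hat (g6 _ h)
        · exact g4 x hx
      · intro x hx
        rcases List.mem_cons.1 hx with rfl | hx
        · exact List.mem_cons_self
        · exact List.mem_cons_of_mem _ (g5 _ hx)
      · intro x hx hx'
        rcases List.mem_cons.1 hx with rfl | hx
        · exact Or.inl List.mem_cons_self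
        · exact (g7 x hx hx').imp_left (List.mem_cons_of_mem _)
      · intro x hx hx'
        rcases List.mem_cons.1 hx with rfl | hx
        · exact hrim x hx' a (fun h => hc ⟨h, hx'⟩) (hR _ _ hac)
        · exact g9 x hx hx'
      · exact fun _ h => hrim a h c (fun h' => hc ⟨h, h'⟩) hac
      · intro x hx
        rw [List.getLast?_cons_cons] at hx
        exact g13 x hx

theorem erase (hR : ∀ x y, R x y → R y x) (Rg rim : Set β)
    (hrim : ∀ x ∈ Rg, ∀ y, y ∉ Rg → R x y → x ∈ rim) {l : List β} (h1 : l.Nodup)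
    (h2 : l.IsChain R) (h3 : 2 ≤ l.length) :
    ∃ A, Good R A ∧ (∀ x ∈ used A, x ∈ l) ∧ (∀ x ∈ l, x ∉ Rg → x ∈ used A) ∧
      (∀ x ∈ used A, x ∈ Rg → x ∈ rim) ∧
      (∀ x ∈ ends A, x ∈ Rg ∨ l.head? = some x ∨ l.getLast? = some x) := by
  match l, h3 with
  | a :: c :: t, _ =>
    obtain ⟨p, B, g1, g2, g3, g4, g5, g6, g7, g8, g9, g10, g11, g12, g13⟩ :=
      erase_aux hR Rg rim hrim (c :: t) a h1 h2
    by_cases hp : p = []
    · subst hp
      refine ⟨B, g3, fun x hx => List.mem_cons_of_mem _ (g6 x hx), ?_, g8,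
        fun x hx => (g12 x hx).imp_right Or.inr⟩
      intro x hx hx'
      rcases List.mem_cons.1 hx with rfl | hx
      · exact absurd ((g11 rfl).resolve_right (by simp)) hx'
      · exact (g7 x hx hx').resolve_left (by simp)
    · refine ⟨(a :: p) :: B, good_cons.2 ⟨g1, g2, ?_, g4, g3⟩, ?_, ?_, ?_, ?_⟩
      · have := List.length_pos_iff.2 hp
        simp only [List.length_cons]; omega
      · intro x hB
        rcases mem_used_cons.1 hB with h | h
        · rcases List.mem_cons.1 h with h | h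
          · exact h ▸ List.mem_cons_self
          · exact List.mem_cons_of_mem _ (g5 _ h)
        · exact List.mem_cons_of_mem _ (g6 _ h)
      · intro x hx hx'
        rw [mem_used_cons]
        rcases List.mem_cons.1 hx with rfl | hx
        · exact Or.inl List.mem_cons_self
        · exact (g7 x hx hx').imp_left (List.mem_cons_of_mem _)
      · intro x hB hx
        rcases mem_used_cons.1 hB with h | h
        · rcases List.mem_cons.1 h with h | h
          · exact h ▸ g10 hp (h ▸ hx)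
          · exact g9 _ h hx
        · exact g8 _ h hx
      · intro x hx
        rcases mem_ends_cons.1 hx with (h | h) | h
        · exact Or.inr (Or.inl h)
        · exact (g13 x h).imp_right Or.inr
        · exact (g12 x h).imp_right Or.inr

theorem two_ends {p : List β} (h1 : p.Nodup) (h2 : 2 ≤ p.length) :
    ∃ x y, p.head? = some x ∧ p.getLast? = some y ∧ x ≠ y := by
  have hp : p ≠ [] := by rintro rfl; simp at h2
  exact ⟨p.head hp, p.getLast hp, List.head?_eq_some_head hp, List.getLast?_eq_some_getLast hp,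
    head_ne_last h1 h2 (List.head?_eq_some_head hp) (List.getLast?_eq_some_getLast hp)⟩

theorem single {A : List (List β)} (hA : Good R A) {p q c : β} (he : ends A ⊆ {p, q, c})
    {w : β} (hw : w ∈ used A) : ∃ l, A = [l] := by
  match A, hA with
  | [], _ => simp [used] at hw
  | [l], _ => exact ⟨l, rfl⟩
  | l :: l' :: B, hA =>
    exfalso
    obtain ⟨h1, -, h3, h4, h5⟩ := good_cons.1 hA
    obtain ⟨k1, -, k3, -, -⟩ := good_cons.1 h5
    obtain ⟨x, y, a1, a2, a3⟩ := two_ends h1 h3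
    obtain ⟨x', y', b1, b2, b3⟩ := two_ends k1 k3
    have n : ∀ u v, u ∈ l → v ∈ l' → u ≠ v := by
      rintro u v hu hv rfl
      exact h4 u hu (mem_used_cons.2 (Or.inl hv))
    have e1 := he (mem_ends_cons.2 (Or.inl (Or.inl a1)))
    have e2 := he (mem_ends_cons.2 (Or.inl (Or.inr a2)))
    have e3 := he (mem_ends_cons.2 (Or.inr (mem_ends_cons.2 (Or.inl (Or.inl b1)))))
    have e4 := he (mem_ends_cons.2 (Or.inr (mem_ends_cons.2 (Or.inl (Or.inr b2)))))
    have n1 := n _ _ (List.mem_of_mem_head? a1) (List.mem_of_mem_head? b1)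
    have n2 := n _ _ (List.mem_of_mem_head? a1) (List.mem_of_mem_getLast? b2)
    have n3 := n _ _ (List.mem_of_mem_getLast? a2) (List.mem_of_mem_head? b1)
    have n4 := n _ _ (List.mem_of_mem_getLast? a2) (List.mem_of_mem_getLast? b2)
    simp only [mem_insert_iff, mem_singleton_iff] at e1 e2 e3 e4
    grind

theorem move_abs (hR : ∀ x y, R x y → R y x) (Rg rim W : Set β)
    (hrim : ∀ x ∈ Rg, ∀ y, y ∉ Rg → R x y → x ∈ rim) {p q : β} (hred : SRed R rim {p, q} W)
    (hW : W ⊆ Rg) (hW' : Disjoint rim W) {l : List β} (h1 : l.Nodup) (h2 : l.IsChain R)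
    (h3 : 2 ≤ l.length) {c a w : β} (hc : l.head? = some c) (ha : l.getLast? = some a)
    (ha' : a ∈ Rg) (hw : w ∈ l) (hw' : w ∉ Rg) :
    ∃ l' : List β, l'.Nodup ∧ l'.IsChain R ∧ (∀ x ∈ l, x ∉ Rg → x ∈ l') ∧
      (∀ x ∈ l', x ∈ l ∨ x ∈ W) ∧
      ((l'.head? = some p ∧ l'.getLast? = some q) ∨
        (c ∉ Rg ∧ l'.head? = some c ∧ (l'.getLast? = some p ∨ l'.getLast? = some q))) := by
  obtain ⟨A, g1, g2, g3, g4, g5⟩ := erase hR Rg rim hrim h1 h2 h3
  obtain ⟨A', k1, k2, k3, k4⟩ := hred ({c} \ Rg) A g1 (by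
      intro x hx
      by_cases h : x ∈ Rg
      · exact Or.inl (g4 x (ends_subset_used A hx) h)
      · rcases g5 x hx with h' | h' | h'
        · exact absurd h' h
        · rw [hc] at h'
          exact Or.inr ⟨(Option.some.inj h').symm, h⟩
        · rw [ha] at h'
          exact absurd (Option.some.inj h' ▸ ha') h)
    (by
      rw [disjoint_left]
      intro x hx hx'
      exact disjoint_left.1 hW' (g4 x hx (hW hx')) hx')
  obtain ⟨l', rfl⟩ := single k1 (p := p) (q := q) (c := c) (by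
      intro x hx
      rcases k2 hx with (h | h) | h
      · exact Or.inl h
      · exact Or.inr (Or.inl h)
      · exact Or.inr (Or.inr h.1)) (k3 (g3 w hw hw'))
  obtain ⟨m1, m2, m3, -, -⟩ := good_cons.1 k1
  have hu : ∀ x, x ∈ used [l'] ↔ x ∈ l' := by simp [used]
  have t1 : ∀ x ∈ l, x ∉ Rg → x ∈ l' := fun x hx hx' => (hu x).1 (k3 (g3 x hx hx'))
  have t2 : ∀ x ∈ l', x ∈ l ∨ x ∈ W := fun x hx => (k4 ((hu x).2 hx)).imp_left (g2 x)
  obtain ⟨x, y, a1, a2, a3⟩ := two_ends m1 m3
  have e1 := k2 (mem_ends_cons.2 (Or.inl (Or.inl a1)))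
  have e2 := k2 (mem_ends_cons.2 (Or.inl (Or.inr a2)))
  have rev : l'.reverse.IsChain R := by
    rw [List.isChain_reverse]
    exact m2.imp (fun a b hab => hR _ _ hab)
  simp only [mem_union, mem_insert_iff, mem_singleton_iff, mem_sdiff] at e1 e2
  by_cases hh : (x = p ∧ y = q) ∨ (c ∉ Rg ∧ x = c ∧ (y = p ∨ y = q))
  · refine ⟨l', m1, m2, t1, t2, ?_⟩
    rw [a1, a2]
    simpa using hh
  · refine ⟨l'.reverse, List.nodup_reverse.2 m1, rev, by simpa using t1, by simpa using t2, ?_⟩
    rw [List.head?_reverse, List.getLast?_reverse, a1, a2]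
    simp only [Option.some.injEq]
    grind

end Abstract

/-- nearest neighbours of the lattice -/
def Adj {d : ℕ} (x y : Fin d → ℤ) : Prop := ∑ j, |y j - x j| = 1

/-- self-avoiding nearest-neighbour walks, as lists of sites -/
def IsSAW {d : ℕ} (l : List (Fin d → ℤ)) : Prop := l.Nodup ∧ l.IsChain Adj

/-- cube of radius `r` -/
def ball {d : ℕ} (x : Fin d → ℤ) (r : ℕ) : Set (Fin d → ℤ) := {y | ∀ j, |y j - x j| ≤ r}

variable {d : ℕ}

theorem Adj.symm {x y : Fin d → ℤ} (h : Adj x y) : Adj y x := by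
  unfold Adj at h ⊢
  simpa only [abs_sub_comm] using h

theorem UpZ.adj {x y : Fin d → ℤ} (h : UpZ x y) : Adj x y := by
  obtain ⟨i, h1, h2⟩ := h
  unfold Adj
  rw [Finset.sum_eq_single i (fun j _ hj => by simp [h2 j hj]) (by simp)]
  simp [h1]

theorem Adj.upZ {x y : Fin d → ℤ} (h : Adj x y) : UpZ x y ∨ UpZ y x := by
  unfold Adj at h
  obtain ⟨i, hi⟩ : ∃ i, y i ≠ x i := by
    by_contra hc
    push Not at hc
    simp [hc] at h
  rw [← Finset.add_sum_erase _ _ (Finset.mem_univ i)] at h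
  have h0 : 0 ≤ ∑ j ∈ Finset.univ.erase i, |y j - x j| := Finset.sum_nonneg fun _ _ => abs_nonneg _
  have h1 : 1 ≤ |y i - x i| := Int.one_le_abs (sub_ne_zero.2 hi)
  have h2 : ∑ j ∈ Finset.univ.erase i, |y j - x j| = 0 := by omega
  rw [Finset.sum_eq_zero_iff_of_nonneg (fun _ _ => abs_nonneg _)] at h2
  have h3 : ∀ j, j ≠ i → y j = x j := fun j hj => by
    have := h2 j (Finset.mem_erase.2 ⟨hj, Finset.mem_univ j⟩)
    rwa [abs_eq_zero, sub_eq_zero] at this
  have h4 : |y i - x i| = 1 := by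
    have : ∑ j ∈ Finset.univ.erase i, |y j - x j| = 0 :=
      Finset.sum_eq_zero fun j hj => by rw [h3 j (Finset.ne_of_mem_erase hj)]; simp
    omega
  rcases abs_eq (by norm_num : (0 : ℤ) ≤ 1) |>.1 h4 with h5 | h5
  · exact Or.inl ⟨i, by omega, h3⟩
  · exact Or.inr ⟨i, by omega, fun j hj => (h3 j hj).symm⟩

theorem lvl_le (x y : Fin d → ℤ) : lvl y ≤ lvl x + ∑ j, |y j - x j| := by
  unfold lvl
  rw [← Finset.sum_add_distrib]
  refine Finset.sum_le_sum fun j _ => ?_
  have := le_abs_self (y j - x j)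
  have := neg_abs_le (y j - x j)
  simp only [nu]
  omega

theorem nu_le_lvl (x : Fin d → ℤ) (j : Fin d) : nu (x j) ≤ lvl x :=
  Finset.single_le_sum (f := fun j => nu (x j)) (fun j _ => by simp only [nu]; omega)
    (Finset.mem_univ j)

/-- the lattice with one extra vertex joined to `o` and `z` -/
def Rel (o z : Fin d → ℤ) : Option (Fin d → ℤ) → Option (Fin d → ℤ) → Prop
  | some x, some y => Adj x y
  | none, some y => y = o ∨ y = z
  | some x, none => x = o ∨ x = z
  | none, none => False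

theorem Rel.symm (o z : Fin d → ℤ) : ∀ x y, Rel o z x y → Rel o z y x
  | some _, some _, h => Adj.symm h
  | none, some _, h => h
  | some _, none, h => h
  | none, none, h => h

theorem close {o z p q : Fin d → ℤ} (hpq : Adj p q) {l : List (Option (Fin d → ℤ))}
    (h1 : l.Nodup) (h2 : l.IsChain (Rel o z)) (hp : l.head? = some (some p))
    (hq : l.getLast? = some (some q)) (hn : none ∈ l) :
    ∃ π : List (Fin d → ℤ), IsSAW π ∧ π.head? = some o ∧ π.getLast? = some z ∧
      ∀ x, x ∈ π ↔ some x ∈ l := by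
  obtain ⟨l₁, l₂, rfl⟩ := List.append_of_mem hn
  have n1 : l₁ ≠ [] := by rintro rfl; simp at hp
  have n2 : l₂ ≠ [] := by rintro rfl; simp at hq
  rw [List.nodup_middle, List.nodup_cons] at h1
  obtain ⟨hnone, hnd⟩ := h1
  rw [List.isChain_append] at h2
  obtain ⟨c1, c2, c3⟩ := h2
  obtain ⟨m₁, rfl⟩ : ∃ m : List (Fin d → ℤ), l₁ = m.map some := by
    refine ⟨l₁.reduceOption, ?_⟩
    have : ∀ x ∈ l₁, x ≠ none := fun x hx h => hnone (List.mem_append_left _ (h ▸ hx))
    clear * - this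
    induction l₁ with
    | nil => rfl
    | cons a t ih =>
      cases a with
      | none => exact absurd rfl (this none List.mem_cons_self)
      | some a =>
        rw [List.reduceOption_cons_of_some, List.map_cons,
          ← ih (fun x hx => this x (List.mem_cons_of_mem _ hx))]
  obtain ⟨m₂, rfl⟩ : ∃ m : List (Fin d → ℤ), l₂ = m.map some := by
    refine ⟨l₂.reduceOption, ?_⟩
    have : ∀ x ∈ l₂, x ≠ none := fun x hx h => hnone (List.mem_append_right _ (h ▸ hx))
    clear * - this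
    induction l₂ with
    | nil => rfl
    | cons a t ih =>
      cases a with
      | none => exact absurd rfl (this none List.mem_cons_self)
      | some a =>
        rw [List.reduceOption_cons_of_some, List.map_cons,
          ← ih (fun x hx => this x (List.mem_cons_of_mem _ hx))]
  have n1' : m₁ ≠ [] := by rintro rfl; simp at n1
  have n2' : m₂ ≠ [] := by rintro rfl; simp at n2
  rw [← List.map_append, List.nodup_map_iff (Option.some_injective _)] at hnd
  have hnd' : (m₂ ++ m₁).Nodup := List.nodup_append_comm.1 hnd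
  rw [List.head?_append_of_ne_nil _ n1, List.head?_map] at hp
  rw [List.getLast?_append_of_ne_nil _ (by simp), List.getLast?_cons_of_ne_nil n2,
    List.getLast?_map] at hq
  have hp' : m₁.head? = some p := by
    cases h : m₁.head? <;> simp_all
  have hq' : m₂.getLast? = some q := by
    cases h : m₂.getLast? <;> simp_all
  rw [List.isChain_map] at c1
  obtain ⟨c4, c5⟩ := List.isChain_cons.1 c2
  rw [List.isChain_map] at c5
  have hch : (m₂ ++ m₁).IsChain Adj := by
    rw [List.isChain_append]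
    refine ⟨c5, c1, fun x hx y hy => ?_⟩
    rw [hq'] at hx
    rw [hp'] at hy
    simp only [Option.mem_def, Option.some.injEq] at hx hy
    subst hx hy
    exact hpq.symm
  obtain ⟨u, v, a1, a2, a3⟩ := two_ends hnd' (by
    have := List.length_pos_iff.2 n1'
    have := List.length_pos_iff.2 n2'
    simp only [List.length_append]; omega)
  have b1 : u = o ∨ u = z := by
    rw [List.head?_append_of_ne_nil _ n2'] at a1
    exact c4 (some u) (by simp [List.head?_map, a1])
  have b2 : v = o ∨ v = z := by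
    rw [List.getLast?_append_of_ne_nil _ n1'] at a2
    exact c3 (some v) (by simp [List.getLast?_map, a2]) none (by simp)
  have hmem : ∀ x, x ∈ m₂ ++ m₁ ↔ some x ∈ m₁.map some ++ none :: m₂.map some := by
    intro x; simp; tauto
  by_cases hh : u = o ∧ v = z
  · exact ⟨m₂ ++ m₁, ⟨hnd', hch⟩, hh.1 ▸ a1, hh.2 ▸ a2, hmem⟩
  · have hh' : v = o ∧ u = z := by grind
    refine ⟨(m₂ ++ m₁).reverse, ⟨List.nodup_reverse.2 hnd', ?_⟩, ?_, ?_, ?_⟩
    · rw [List.isChain_reverse]
      exact hch.imp (fun a b hab => hab.symm)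
    · rw [List.head?_reverse, a2, hh'.1]
    · rw [List.getLast?_reverse, a1, hh'.2]
    · intro x; rw [List.mem_reverse]; exact hmem x

theorem moveZ (hd : 2 ≤ d) : ∃ ρ : ℕ, ∀ (o z c a y : Fin d → ℤ) (l : List (Option (Fin d → ℤ))),
    l.Nodup → l.IsChain (Rel o z) → l.head? = some (some c) → l.getLast? = some (some a) →
    none ∈ l → ∑ j, |a j - y j| ≤ 3 → o ∉ ball y ρ → z ∉ ball y ρ →
    (∃ π : List (Fin d → ℤ), IsSAW π ∧ π.head? = some o ∧ π.getLast? = some z ∧
      (∀ x ∈ π, some x ∈ l ∨ x ∈ ball y ρ) ∧ (∀ x, some x ∈ l → x ∈ π ∨ x ∈ ball y ρ)) ∨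
    (c ≠ y ∧ ∃ (l' : List (Option (Fin d → ℤ))) (a' : Fin d → ℤ), l'.Nodup ∧
      l'.IsChain (Rel o z) ∧ l'.head? = some (some c) ∧ l'.getLast? = some (some a') ∧ none ∈ l' ∧
      ∑ j, |a' j - y j| ≤ 1 ∧ (∀ x, some x ∈ l' → some x ∈ l ∨ x ∈ ball y ρ) ∧
      (∀ x, some x ∈ l → some x ∈ l' ∨ x ∈ ball y ρ)) := by
  obtain ⟨g, p, q, hpq, hg, hred⟩ := relink hd
  refine ⟨2 * g + 2, fun o z c a y l h1 h2 hc ha hn hay ho hz => ?_⟩
  have hball : ∀ x : Fin d → ℤ, lvl x ≤ g → x + (y - p) ∈ ball y (2 * g + 2) := by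
    intro x hx j
    have k1 := nu_le_lvl x j
    have k2 := nu_le_lvl p j
    simp only [nu] at k1 k2
    simp only [Pi.add_apply, Pi.sub_apply, abs_le]
    push_cast
    omega
  have hin : ∀ x : Fin d → ℤ, ∑ j, |x j - y j| ≤ 3 →
      some x ∈ (fun x => some (x + (y - p))) '' {x | lvl x ≤ g} := by
    intro x hx
    refine ⟨x - (y - p), ?_, by simp⟩
    have := lvl_le p (x - (y - p))
    have e : ∀ j, (x - (y - p)) j - p j = x j - y j := fun j => by simp only [Pi.sub_apply]; ring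
    simp only [e] at this
    simp only [mem_ofPred_eq]
    omega
  have hadj : ∀ u v : Fin d → ℤ, Adj (u + (y - p)) (v + (y - p)) ↔ Adj u v := by
    intro u v; simp [Adj]
  have hlen : 2 ≤ l.length := by
    match l, hc, hn with
    | [_], hc, hn => simp_all
    | _ :: _ :: _, _, _ => simp
  have hred' := hred (Option (Fin d → ℤ)) (Rel o z) (fun x => some (x + (y - p))) (Rel.symm o z)
    (fun u v h => by simpa using h) (fun u v h => (hadj u v).2 h.adj)
  rw [image_pair] at hred'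
  obtain ⟨l', g1, g2, g3, g4, g5⟩ := move_abs (Rel.symm o z)
    ((fun x => some (x + (y - p))) '' {x | lvl x ≤ g}) _ _ (by
      rintro _ ⟨u, hu, rfl⟩ v hv huv
      refine ⟨u, ?_, rfl⟩
      cases v with
      | none =>
        rcases huv with h | h
        · exact absurd (h ▸ hball u hu) ho
        · exact absurd (h ▸ hball u hu) hz
      | some v =>
        obtain ⟨v, rfl⟩ : ∃ v', v = v' + (y - p) := ⟨v - (y - p), by simp⟩
        have k : Adj u v := (hadj u v).1 huv
        have k1 := lvl_le u v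
        have k2 : ¬ lvl v ≤ g := fun h => hv ⟨v, h, rfl⟩
        unfold Adj at k
        simp only [mem_ofPred_eq] at hu ⊢
        omega) hred' (image_mono (fun x (hx : lvl x < g) => (le_of_lt hx : lvl x ≤ g))) (by
      rw [disjoint_image_iff (fun u v h => by simpa using h), disjoint_left]
      intro x k1 k2
      simp only [mem_ofPred_eq] at k1 k2
      omega) h1 h2 hlen hc ha (hin a hay) hn (by simp)
  have t1 : ∀ x, some x ∈ l → some x ∈ l' ∨ x ∈ ball y (2 * g + 2) := by
    intro x hx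
    by_cases h : some x ∈ (fun x => some (x + (y - p))) '' {x | lvl x ≤ g}
    · obtain ⟨u, hu, e⟩ := h
      exact Or.inr (Option.some.inj e ▸ hball u hu)
    · exact Or.inl (g3 _ hx h)
  have t2 : ∀ x, some x ∈ l' → some x ∈ l ∨ x ∈ ball y (2 * g + 2) := by
    intro x hx
    refine (g4 _ hx).imp_right ?_
    rintro ⟨u, hu, e⟩
    exact Option.some.inj e ▸ hball u (le_of_lt hu)
  have hn' : none ∈ l' := g3 _ hn (by simp)
  rcases g5 with ⟨k1, k2⟩ | ⟨k1, k2, k3⟩
  · obtain ⟨π, m1, m2, m3, m4⟩ := close ((hadj p q).2 hpq.adj) g1 g2 k1 k2 hn'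
    exact Or.inl ⟨π, m1, m2, m3, fun x hx => t2 x ((m4 x).1 hx),
      fun x hx => (t1 x hx).imp_left (m4 x).2⟩
  · refine Or.inr ⟨?_, ?_⟩
    · rintro rfl
      exact k1 (hin c (by simp))
    · rcases k3 with k3 | k3
      · exact ⟨l', _, g1, g2, k2, k3, hn', by simp, t2, t1⟩
      · refine ⟨l', _, g1, g2, k2, k3, hn', ?_, t2, t1⟩
        have := hpq.adj
        unfold Adj at this
        have e : ∀ j, (q + (y - p)) j - y j = q j - p j := fun j => by
          simp only [Pi.sub_apply, Pi.add_apply]; ring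
        simp only [e]
        omega

end Pool.Agent.MP_1479fb_pr.Geo

end MrgPart3

-- ======== part 4: formerly Pool.Agent.MP_1479fb_pr.GeoTimar
section MrgPart4

/-!
Connectivity of the outer boundary of a connected set of lattice sites.
-/

set_option autoImplicit false

namespace Pool.Agent.MP_1479fb_pr.Geo

open Set Relation

variable {d : ℕ}

/-- the l1 distance -/
def dist1 (x y : Fin d → ℤ) : ℤ := ∑ j, |y j - x j|

theorem dist1_comm (x y : Fin d → ℤ) : dist1 x y = dist1 y x := by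
  simp only [dist1, abs_sub_comm]

theorem dist1_self (x : Fin d → ℤ) : dist1 x x = 0 := by simp [dist1]

theorem dist1_nonneg (x y : Fin d → ℤ) : 0 ≤ dist1 x y :=
  Finset.sum_nonneg fun _ _ => abs_nonneg _

theorem dist1_triangle (x y z : Fin d → ℤ) : dist1 x z ≤ dist1 x y + dist1 y z := by
  unfold dist1
  rw [← Finset.sum_add_distrib]
  refine Finset.sum_le_sum fun j _ => ?_
  have := abs_add_le (y j - x j) (z j - y j)
  rwa [show y j - x j + (z j - y j) = z j - x j by ring] at this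

theorem abs_le_dist1 (x y : Fin d → ℤ) (j : Fin d) : |y j - x j| ≤ dist1 x y :=
  Finset.single_le_sum (f := fun j => |y j - x j|) (fun _ _ => abs_nonneg _) (Finset.mem_univ j)

theorem upZ_single (x : Fin d → ℤ) (i : Fin d) : UpZ x (x + Pi.single i 1) :=
  ⟨i, by simp, fun j hj => by simp [Pi.single_eq_of_ne hj]⟩

theorem UpZ.eq_add {x y : Fin d → ℤ} (h : UpZ x y) : ∃ i, y = x + Pi.single i 1 := by
  obtain ⟨i, h1, h2⟩ := h
  refine ⟨i, funext fun j => ?_⟩
  by_cases hj : j = i
  · subst hj; simp [h1]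
  · simp [h2 j hj, Pi.single_eq_of_ne hj]

theorem conn_between (p : (Fin d → ℤ) → Prop) (y : Fin d → ℤ) (n : ℕ) : ∀ x : Fin d → ℤ,
    dist1 x y = n → (∀ z : Fin d → ℤ, (∀ j, (x j ≤ z j ∧ z j ≤ y j) ∨ (y j ≤ z j ∧ z j ≤ x j)) → p z) →
    ReflTransGen (fun u v => Adj u v ∧ p v) x y := by
  induction n with
  | zero =>
    intro x h _
    have : x = y := funext fun j => by
      have := abs_le_dist1 x y j
      have := abs_nonneg (y j - x j)
      have : |y j - x j| = 0 := by omega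
      rw [abs_eq_zero] at this
      omega
    rw [this]
  | succ n ih =>
    intro x h hp
    obtain ⟨i, hi⟩ : ∃ i, x i ≠ y i := by
      by_contra hc
      push Not at hc
      rw [funext hc, dist1_self] at h
      omega
    obtain ⟨s, hs⟩ : ∃ s : ℤ, s = if x i < y i then x i + 1 else x i - 1 := ⟨_, rfl⟩
    have hadj : Adj x (Function.update x i s) := by
      have := upZ_update x i (x i) s (by split_ifs at hs <;> omega)
      rw [Function.update_eq_self] at this
      exact this.elim (fun h => h.adj) (fun h => h.adj.symm)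
    have hbt : ∀ j, (x j ≤ Function.update x i s j ∧ Function.update x i s j ≤ y j) ∨
        (y j ≤ Function.update x i s j ∧ Function.update x i s j ≤ x j) := by
      intro j
      by_cases hj : j = i
      · subst hj; rw [Function.update_self]; split_ifs at hs <;> omega
      · rw [Function.update_of_ne hj]; omega
    refine ReflTransGen.head ⟨hadj, hp _ hbt⟩ (ih _ ?_ (fun z hz => hp z fun j => ?_))
    · unfold dist1 at h ⊢
      rw [← Finset.add_sum_erase _ _ (Finset.mem_univ i)] at h ⊢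
      rw [Finset.sum_congr rfl (fun j hj => by
        rw [Function.update_of_ne (Finset.ne_of_mem_erase hj)]), Function.update_self]
      have : |y i - s| + 1 = |y i - x i| := by
        split_ifs at hs
        · rw [abs_of_nonneg (by omega), abs_of_nonneg (by omega)]; omega
        · rw [abs_of_nonpos (by omega), abs_of_nonpos (by omega)]; omega
      push_cast at h
      omega
    · have := hz j
      have := hbt j
      omega

theorem conn_between' (p : (Fin d → ℤ) → Prop) (x y : Fin d → ℤ)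
    (h : ∀ z : Fin d → ℤ, (∀ j, (x j ≤ z j ∧ z j ≤ y j) ∨ (y j ≤ z j ∧ z j ≤ x j)) → p z) :
    ReflTransGen (fun u v => Adj u v ∧ p v) x y :=
  conn_between p y (dist1 x y).toNat x (by have := dist1_nonneg x y; omega) h

theorem conn_outside (hd : 2 ≤ d) (b : Fin d → ℤ) (r : ℕ) {x y : Fin d → ℤ} (hx : x ∉ ball b r)
    (hy : y ∉ ball b r) : ReflTransGen (fun u v => Adj u v ∧ v ∉ ball b r) x y := by
  have key : ∀ x, x ∉ ball b r →
      ReflTransGen (fun u v => Adj u v ∧ v ∉ ball b r) x (fun j => b j + r + 1) ∧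
      ReflTransGen (fun u v => Adj u v ∧ v ∉ ball b r) (fun j => b j + r + 1) x := by
    intro x hx
    obtain ⟨i, hi⟩ : ∃ i, ¬ |x i - b i| ≤ r := not_forall.1 hx
    obtain ⟨k, hk⟩ : ∃ k : Fin d, k ≠ i := by
      by_cases h : i = ⟨0, by omega⟩
      · exact ⟨⟨1, by omega⟩, by simp [h]⟩
      · exact ⟨⟨0, by omega⟩, fun h' => h h'.symm⟩
    have h1 : ∀ z : Fin d → ℤ, z i = x i → z ∉ ball b r := fun z hz h => hi (hz ▸ h i)
    have h2 : ∀ z : Fin d → ℤ, z k = b k + r + 1 → z ∉ ball b r := fun z hz h => by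
      have := h k
      rw [hz, abs_le] at this
      omega
    have e1 : Function.update x k (b k + r + 1) i = x i := Function.update_of_ne hk.symm _ _
    have e2 : Function.update x k (b k + r + 1) k = b k + r + 1 := Function.update_self _ _ _
    constructor
    · refine (conn_between' _ x (Function.update x k (b k + r + 1)) fun z hz => h1 z ?_).trans
        (conn_between' _ _ _ fun z hz => h2 z ?_)
      · have := hz i; omega
      · have := hz k; omega
    · refine (conn_between' _ _ (Function.update x k (b k + r + 1)) fun z hz => h2 z ?_).trans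
        (conn_between' _ _ _ fun z hz => h1 z ?_)
      · have := hz k; omega
      · have := hz i; omega
  exact (key x hx).1.trans (key y hy).2

theorem exact_cochain (ω : (Fin d → ℤ) → Fin d → ZMod 2)
    (hω : ∀ x i j, i ≠ j → ω x i + ω (x + Pi.single i 1) j = ω x j + ω (x + Pi.single j 1) i) :
    ∃ φ : (Fin d → ℤ) → ZMod 2, ∀ x i, φ (x + Pi.single i 1) = φ x + ω x i := by
  let T : Fin d → Equiv.Perm ((Fin d → ℤ) × ZMod 2) := fun i =>
    { toFun := fun p => (p.1 + Pi.single i 1, p.2 + ω p.1 i)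
      invFun := fun p => (p.1 - Pi.single i 1, p.2 - ω (p.1 - Pi.single i 1) i)
      left_inv := fun p => by simp
      right_inv := fun p => by simp }
  have hT : ∀ i j, i ≠ j → Commute (T i) (T j) := by
    intro i j hij
    ext1 p
    change (p.1 + Pi.single j 1 + Pi.single i 1, p.2 + ω p.1 j + ω (p.1 + Pi.single j 1) i) =
      (p.1 + Pi.single i 1 + Pi.single j 1, p.2 + ω p.1 i + ω (p.1 + Pi.single i 1) j)
    rw [add_right_comm, add_assoc p.2, add_assoc p.2, hω p.1 i j hij]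
  let H := MonoidHom.noncommPiCoprod (fun i => zpowersHom _ (T i))
    (fun i j hij x y => (hT i j hij).zpow_zpow _ _)
  let ψ : (Fin d → ℤ) → (Fin d → ℤ) × ZMod 2 :=
    fun x => H (fun j => Multiplicative.ofAdd (x j)) (0, 0)
  have hψ : ∀ x i, ψ (x + Pi.single i 1) = T i (ψ x) := by
    intro x i
    have e : (fun j => Multiplicative.ofAdd ((x + Pi.single i 1 : Fin d → ℤ) j)) =
        Pi.mulSingle i (Multiplicative.ofAdd (1 : ℤ)) * fun j => Multiplicative.ofAdd (x j) := by
      funext j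
      by_cases hj : j = i
      · subst hj; simp [mul_comm]
      · simp [Pi.single_eq_of_ne hj, Pi.mulSingle_eq_of_ne hj]
    change H _ (0, 0) = T i (H _ (0, 0))
    rw [e, map_mul, MonoidHom.noncommPiCoprod_mulSingle]
    simp
  have h1 : ∀ x, (ψ x).1 = x := by
    intro x
    have hc := conn_between' (fun _ => True) 0 x (fun _ _ => trivial)
    induction hc with
    | refl =>
      change (H (fun _ => 1) (0, 0)).1 = 0
      rw [show (fun _ => 1 : Fin d → Multiplicative ℤ) = 1 from rfl, map_one]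
      rfl
    | tail _ h ih =>
      rcases h.1.upZ with h' | h'
      · obtain ⟨i, rfl⟩ := h'.eq_add
        rw [hψ]
        change (ψ _).1 + _ = _
        rw [ih]
      · obtain ⟨i, rfl⟩ := h'.eq_add
        rw [hψ] at ih
        exact add_right_cancel ih
  refine ⟨fun x => (ψ x).2, fun x i => ?_⟩
  simp only [hψ]
  change (ψ x).2 + ω (ψ x).1 i = _
  rw [h1]

theorem timar {C D : Set (Fin d → ℤ)} (hCD : ∀ x ∈ C, x ∉ D)
    (hbd : ∀ x ∈ D, ∀ y, y ∉ D → Adj x y → y ∈ C) {a a' c c' : Fin d → ℤ}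
    (ha : a ∈ D) (ha' : a' ∉ D) (haa : Adj a a') (hc : c ∈ D) (hc' : c' ∉ D) (hcc : Adj c c')
    (hD : ReflTransGen (fun u v => Adj u v ∧ v ∈ D) a c)
    (hC : ReflTransGen (fun u v => Adj u v ∧ v ∈ C) a' c') :
    ReflTransGen (fun u v => dist1 u v ≤ 2 ∧ v ∈ D ∧ ∃ w ∈ C, Adj v w) a c := by
  classical
  let S : Set (Fin d → ℤ) :=
    {v | ReflTransGen (fun u v => dist1 u v ≤ 2 ∧ v ∈ D ∧ ∃ w ∈ C, Adj v w) a v}
  have hS : ∀ v ∈ S, v ∈ D := by
    intro v hv
    induction hv with
    | refl => exact ha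
    | tail _ h _ => exact h.2.1
  let f : (Fin d → ℤ) → (Fin d → ℤ) → ZMod 2 :=
    fun u v => if (u ∈ S ∧ v ∉ D) ∨ (v ∈ S ∧ u ∉ D) then 1 else 0
  let χ : (Fin d → ℤ) → ZMod 2 := fun u => if u ∈ D then 1 else 0
  have hf : ∀ u v s, s ∈ S → Adj u v → dist1 s u ≤ 2 → dist1 s v ≤ 2 → f u v = χ u + χ v := by
    intro u v s hs huv h1 h2
    by_cases hu : u ∈ D <;> by_cases hv : v ∈ D
    · simp only [f, χ, hu, hv, not_true, and_false, or_self, if_true, if_false]; rfl
    · have : u ∈ S := ReflTransGen.tail hs ⟨h1, hu, v, hbd u hu v hv huv, huv⟩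
      simp [f, χ, hu, hv, this]
    · have : v ∈ S := ReflTransGen.tail hs ⟨h2, hv, u, hbd v hv u hu huv.symm, huv.symm⟩
      simp [f, χ, hu, hv, this]
    · have k1 : u ∉ S := fun h => hu (hS u h)
      have k2 : v ∉ S := fun h => hv (hS v h)
      simp [f, χ, hu, hv, k1, k2]
  have sq : ∀ p₀ p₁ p₂ p₃, Adj p₀ p₁ → Adj p₁ p₂ → Adj p₀ p₃ → Adj p₃ p₂ →
      f p₀ p₁ + f p₁ p₂ = f p₀ p₃ + f p₃ p₂ := by
    intro p₀ p₁ p₂ p₃ a1 a2 a3 a4
    by_cases h : ∃ s ∈ S, dist1 s p₀ ≤ 2 ∧ dist1 s p₁ ≤ 2 ∧ dist1 s p₂ ≤ 2 ∧ dist1 s p₃ ≤ 2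
    · obtain ⟨s, hs, b0, b1, b2, b3⟩ := h
      rw [hf _ _ s hs a1 b0 b1, hf _ _ s hs a2 b1 b2, hf _ _ s hs a3 b0 b3, hf _ _ s hs a4 b3 b2]
      generalize χ p₀ = x, χ p₁ = y, χ p₂ = z, χ p₃ = w
      revert x y z w
      decide
    · have d1 : dist1 p₀ p₁ = 1 := a1
      have d2 : dist1 p₁ p₂ = 1 := a2
      have d3 : dist1 p₀ p₃ = 1 := a3
      have d4 : dist1 p₃ p₂ = 1 := a4
      have d1' : dist1 p₁ p₀ = 1 := a1.symm
      have d2' : dist1 p₂ p₁ = 1 := a2.symm
      have d3' : dist1 p₃ p₀ = 1 := a3.symm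
      have d4' : dist1 p₂ p₃ = 1 := a4.symm
      have t1 := dist1_triangle p₀ p₁ p₂
      have t2 := dist1_triangle p₁ p₀ p₃
      have t3 := dist1_triangle p₂ p₁ p₀
      have t4 := dist1_triangle p₃ p₀ p₁
      have k0 : p₀ ∉ S := fun k => h ⟨_, k, by rw [dist1_self]; omega, by omega, by omega, by omega⟩
      have k1 : p₁ ∉ S := fun k => h ⟨_, k, by omega, by rw [dist1_self]; omega, by omega, by omega⟩
      have k2 : p₂ ∉ S := fun k => h ⟨_, k, by omega, by omega, by rw [dist1_self]; omega, by omega⟩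
      have k3 : p₃ ∉ S := fun k => h ⟨_, k, by omega, by omega, by omega, by rw [dist1_self]; omega⟩
      simp [f, k0, k1, k2, k3]
  obtain ⟨φ, hφ⟩ := exact_cochain (fun x i => f x (x + Pi.single i 1)) (by
    intro x i j _
    have := sq x (x + Pi.single i 1) (x + Pi.single i 1 + Pi.single j 1) (x + Pi.single j 1)
      (upZ_single _ _).adj (upZ_single _ _).adj (upZ_single _ _).adj
      (by rw [add_right_comm]; exact (upZ_single _ _).adj)
    rw [this, add_right_comm x])
  have hφ' : ∀ u v, Adj u v → φ v = φ u + f u v := by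
    intro u v h
    rcases h.upZ with h' | h'
    · obtain ⟨i, rfl⟩ := h'.eq_add
      exact hφ u i
    · obtain ⟨i, rfl⟩ := h'.eq_add
      rw [hφ v i]
      have : f (v + Pi.single i 1) v = f v (v + Pi.single i 1) := by simp only [f, or_comm]
      rw [this]
      generalize φ v = x, f v (v + Pi.single i 1) = y
      revert x y
      decide
  have e1 : φ c = φ a := by
    clear hcc
    induction hD with
    | refl => rfl
    | tail h1 h2 ih =>
      rename_i u v
      have hu : u ∈ D := by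
        rcases h1.cases_tail with h | ⟨_, _, h⟩
        · exact h ▸ ha
        · exact h.2
      rw [hφ' _ _ h2.1, ih hu]
      simp [f, hu, h2.2]
  have e2 : φ c' = φ a' := by
    clear hcc
    induction hC with
    | refl => rfl
    | tail h1 h2 ih =>
      rename_i u v
      have hu : u ∉ D := by
        rcases h1.cases_tail with h | ⟨_, _, h⟩
        · exact h ▸ ha'
        · exact hCD _ h.2
      rw [hφ' _ _ h2.1, ih hu]
      have k1 : u ∉ S := fun h => hu (hS u h)
      have k2 : v ∉ S := fun h => hc' (hS v h)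
      simp [f, k1, k2]
  have e3 := hφ' _ _ haa
  have e4 := hφ' _ _ hcc
  have haS : a ∈ S := ReflTransGen.refl
  by_contra hcS
  have hcS' : c ∉ S := hcS
  have k2 : c' ∉ S := fun h => hc' (hS _ h)
  simp only [f, haS, ha', hcS', k2, not_false_iff, and_self, true_or, if_true, false_and, or_self,
    if_false, add_zero] at e3 e4
  rw [e1, e2, e3] at e4
  simp at e4

end Pool.Agent.MP_1479fb_pr.Geo

end MrgPart4

-- marker of a merged file
example : 731051 + 740165 = 731051 + 740165 := rfl
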