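import Mathlib
import Pool.Agent.MP_1479fb_pr.GeoTimar

/-!
Local surgery: removing prescribed bad sites from a self-avoiding walk.
-/

set_option autoImplicit false

namespace Pool.Agent.MP_1479fb_pr.Geo

open Set Relation

variable {d : ℕ}

/-- sites with a bad site in the cube of radius `ρ` around them -/
def Tainted (ρ : ℕ) (B : Set (Fin d → ℤ)) (x : Fin d → ℤ) : Prop := ∃ b ∈ B, b ∈ ball x ρ

/-- the tainted cluster of `b` stays in the cube of radius `r` around `b` -/
def Rad (ρ : ℕ) (B : Set (Fin d → ℤ)) (b : Fin d → ℤ) (r : ℕ) : Prop :=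
  ∀ y, ReflTransGen (fun u v => Adj u v ∧ Tainted ρ B v) b y → y ∈ ball b r

theorem ball_mono (x : Fin d → ℤ) {r s : ℕ} (h : r ≤ s) : ball x r ⊆ ball x s :=
  fun _ hy j => (hy j).trans (by exact_mod_cast h)

theorem ball_trans {x y z : Fin d → ℤ} {r s : ℕ} (h1 : y ∈ ball x r) (h2 : z ∈ ball y s) :
    z ∈ ball x (r + s) := fun j => by
  have := h1 j
  have := h2 j
  rw [abs_le] at *
  push_cast
  omega

theorem Adj.mem_ball {x y : Fin d → ℤ} (h : Adj x y) : y ∈ ball x 1 := fun j => by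
  have := abs_le_dist1 x y j
  have e : dist1 x y = 1 := h
  push_cast
  omega

theorem comp_conn (p : (Fin d → ℤ) → Prop) (o : Fin d → ℤ) {x y : Fin d → ℤ}
    (hx : ReflTransGen (fun u v => Adj u v ∧ p v) o x)
    (hy : ReflTransGen (fun u v => Adj u v ∧ p v) o y) :
    ReflTransGen (fun u v => Adj u v ∧ v ∈ {w | ReflTransGen (fun u v => Adj u v ∧ p v) o w}) x y := by
  refine ReflTransGen.trans (b := o) ?_ ?_
  · induction hx with
    | refl => exact ReflTransGen.refl
    | tail h1 h2 ih => exact ReflTransGen.head ⟨h2.1.symm, h1⟩ ih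
  · induction hy with
    | refl => exact ReflTransGen.refl
    | tail h1 h2 ih => exact ReflTransGen.tail ih ⟨h2.1, h1.tail h2⟩

theorem first_split {α : Type} (D : α → Prop) (l : List α) (h : ∃ x ∈ l, D x) :
    ∃ n₁ c n₂, l = n₁ ++ c :: n₂ ∧ D c ∧ ∀ x ∈ n₁, ¬ D x := by
  induction l with
  | nil => simp at h
  | cons a t ih =>
    by_cases ha : D a
    · exact ⟨[], a, t, rfl, ha, by simp⟩
    · obtain ⟨n₁, c, n₂, rfl, h1, h2⟩ := ih (by simpa [ha] using h)
      exact ⟨a :: n₁, c, n₂, rfl, h1, by simpa [ha] using h2⟩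

theorem split_three {α : Type} (D : α → Prop) {l : List α} {o z b : α} (ho : l.head? = some o)
    (hz : l.getLast? = some z) (hb : b ∈ l) (h1 : D o) (h2 : D z) (h3 : ¬ D b) :
    ∃ m a mid c n, l = (m ++ [a]) ++ (mid ++ c :: n) ∧ D a ∧ D c ∧ b ∈ mid ∧ ∀ x ∈ mid, ¬ D x := by
  obtain ⟨l₁, l₂, rfl⟩ := List.append_of_mem hb
  have n1 : l₁ ≠ [] := by
    rintro rfl
    simp only [List.nil_append, List.head?_cons, Option.some.injEq] at ho
    exact h3 (ho ▸ h1)
  have n2 : l₂ ≠ [] := by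
    rintro rfl
    simp only [List.getLast?_append, List.getLast?_singleton, Option.some_or,
      Option.some.injEq] at hz
    exact h3 (hz ▸ h2)
  rw [List.head?_append_of_ne_nil _ n1] at ho
  rw [List.getLast?_append_of_ne_nil _ (by simp), List.getLast?_cons_of_ne_nil n2] at hz
  obtain ⟨n₁, c, n₂, rfl, k1, k2⟩ := first_split D l₂ ⟨z, List.mem_of_mem_getLast? hz, h2⟩
  obtain ⟨m₁, a, m₂, e, k3, k4⟩ := first_split D l₁.reverse
    ⟨o, List.mem_reverse.2 (List.mem_of_mem_head? ho), h1⟩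
  rw [List.reverse_eq_iff] at e
  subst e
  refine ⟨m₂.reverse, a, m₁.reverse ++ b :: n₁, c, n₂, by simp, k3, k1, by simp, ?_⟩
  intro x hx
  rcases List.mem_append.1 hx with h | h
  · exact k4 x (List.mem_reverse.1 h)
  · rcases List.mem_cons.1 h with rfl | h
    · exact h3
    · exact k2 x h

theorem repair (hd : 2 ≤ d) : ∃ ρ : ℕ, ∀ (B : Set (Fin d → ℤ)) (b : Fin d → ℤ) (r : ℕ)
    (π : List (Fin d → ℤ)) (o z : Fin d → ℤ), b ∈ B → IsSAW π → π.head? = some o →
    π.getLast? = some z → b ∈ π → Rad ρ B b r → o ∉ ball b (r + ρ) → z ∉ ball b (r + ρ) →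
    ∃ π' : List (Fin d → ℤ), IsSAW π' ∧ π'.head? = some o ∧ π'.getLast? = some z ∧
      (∀ x ∈ π', (x ∈ π ∧ x ≠ b) ∨ (x ∉ B ∧ x ∈ ball b (r + ρ))) ∧
      (∀ x ∈ π, x ∈ π' ∨ x ∈ ball b (r + ρ)) := by
  obtain ⟨ρ, hρ⟩ := moveZ hd
  refine ⟨ρ + 1, fun B b r π o z hb hπ ho hz hbπ hrad hob hzb => ?_⟩
  let C : Set (Fin d → ℤ) := {y | ReflTransGen (fun u v => Adj u v ∧ Tainted (ρ + 1) B v) b y}
  let D : Set (Fin d → ℤ) := {y | ReflTransGen (fun u v => Adj u v ∧ v ∉ C) o y}
  have hob' : o ∉ ball b r := fun h => hob (ball_mono b (by omega) h)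
  have hzb' : z ∉ ball b r := fun h => hzb (ball_mono b (by omega) h)
  have hCD : ∀ x ∈ C, x ∉ D := by
    intro x hx h
    rcases ReflTransGen.cases_tail h with h | ⟨_, _, h⟩
    · exact hob' (h ▸ hrad x hx)
    · exact h.2 hx
  have hout : ∀ x, x ∉ ball b r → x ∈ D := fun x hx =>
    ReflTransGen.mono (fun u v h => ⟨h.1, fun hv => h.2 (hrad v hv)⟩) _ _ (conn_outside hd b r hob' hx)
  have hbd : ∀ x ∈ D, ∀ y, y ∉ D → Adj x y → y ∈ C := by
    intro x hx y hy h
    by_contra hc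
    exact hy (ReflTransGen.tail hx ⟨h, hc⟩)
  obtain ⟨m, a, mid, c, n, rfl, ha, hc, hbm, hmid⟩ := split_three (fun x => x ∈ D) ho hz hbπ
    ReflTransGen.refl (hout z hzb') (hCD b ReflTransGen.refl)
  have hm0 : mid ≠ [] := List.ne_nil_of_mem hbm
  obtain ⟨hnd, hch⟩ := hπ
  rw [List.isChain_append] at hch
  obtain ⟨c1, c2, c3⟩ := hch
  rw [List.isChain_append] at c2
  obtain ⟨c4, c5, c6⟩ := c2
  have haa : Adj a (mid.head hm0) := c3 a (by simp) _ (by
    rw [List.head?_append_of_ne_nil _ hm0, List.head?_eq_some_head hm0]; rfl)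
  have hcc : Adj c (mid.getLast hm0) :=
    (c6 _ (by rw [List.getLast?_eq_some_getLast hm0]; rfl) c (by simp)).symm
  have ha' := hmid _ (List.head_mem hm0)
  have hc' := hmid _ (List.getLast_mem hm0)
  have chain := timar hCD hbd ha ha' haa hc hc' hcc (comp_conn _ o ha hc)
    (comp_conn _ b (hbd a ha _ ha' haa) (hbd c hc _ hc' hcc))
  have hok : ∀ v, v ∈ D → (∃ w ∈ C, Adj v w) → ∀ x ∈ ball v ρ, x ∉ B ∧ x ∈ ball b (r + (ρ + 1)) := by
    rintro v hv ⟨w, hw, hvw⟩ x hx
    refine ⟨fun hxB => hCD v (ReflTransGen.tail hw ⟨hvw.symm, x, hxB, ball_mono v (by omega) hx⟩) hv,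
      ?_⟩
    have := ball_trans (ball_trans (hrad w hw) hvw.symm.mem_ball) hx
    rwa [show r + 1 + ρ = r + (ρ + 1) by omega] at this
  have main : ∀ y, ReflTransGen (fun u v => dist1 u v ≤ 2 ∧ v ∈ D ∧ ∃ w ∈ C, Adj v w) y c →
      (∀ x ∈ ball y ρ, x ∉ B ∧ x ∈ ball b (r + (ρ + 1))) →
      ∀ (l : List (Option (Fin d → ℤ))) (e : Fin d → ℤ), l.Nodup → l.IsChain (Rel o z) →
      l.head? = some (some c) → l.getLast? = some (some e) → none ∈ l → dist1 y e ≤ 3 →
      ∃ π' : List (Fin d → ℤ), IsSAW π' ∧ π'.head? = some o ∧ π'.getLast? = some z ∧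
        (∀ x ∈ π', some x ∈ l ∨ (x ∉ B ∧ x ∈ ball b (r + (ρ + 1)))) ∧
        (∀ x, some x ∈ l → x ∈ π' ∨ x ∈ ball b (r + (ρ + 1))) := by
    intro y hy
    induction hy using ReflTransGen.head_induction_on with
    | refl =>
      intro hk l e h1 h2 h3 h4 h5 h6
      rcases hρ o z c e c l h1 h2 h3 h4 h5 h6 (fun h => hob (hk o h).2) (fun h => hzb (hk z h).2)
        with ⟨π', k1, k2, k3, k4, k5⟩ | ⟨k, -⟩
      · exact ⟨π', k1, k2, k3, fun x hx => (k4 x hx).imp_right (hk x),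
          fun x hx => (k5 x hx).imp_right fun h => (hk x h).2⟩
      · exact absurd rfl k
    | head hyy _ ih =>
      rename_i y y' _
      intro hk l e h1 h2 h3 h4 h5 h6
      rcases hρ o z c e y l h1 h2 h3 h4 h5 h6 (fun h => hob (hk o h).2) (fun h => hzb (hk z h).2)
        with ⟨π', k1, k2, k3, k4, k5⟩ | ⟨-, l', e', k1, k2, k3, k4, k5, k6, k7, k8⟩
      · exact ⟨π', k1, k2, k3, fun x hx => (k4 x hx).imp_right (hk x),
          fun x hx => (k5 x hx).imp_right fun h => (hk x h).2⟩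
      · obtain ⟨π', j1, j2, j3, j4, j5⟩ := ih (hok y' hyy.2.1 hyy.2.2) l' e' k1 k2 k3 k4 k5 (by
          have t1 := dist1_triangle y' y e'
          have t2 := dist1_comm y y'
          have t3 : dist1 y e' ≤ 1 := k6
          have t4 := hyy.1
          omega)
        refine ⟨π', j1, j2, j3, fun x hx => ?_, fun x hx => ?_⟩
        · rcases j4 x hx with h | h
          · exact (k7 x h).imp_right (hk x)
          · exact Or.inr h
        · rcases k8 x hx with h | h
          · exact j5 x h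
          · exact Or.inr (hk x h).2
  rw [List.head?_append_of_ne_nil _ (by simp)] at ho
  rw [List.getLast?_append_of_ne_nil _ (by simp), List.getLast?_append_of_ne_nil _ (by simp)] at hz
  have hnd2 : ((c :: n) ++ (m ++ [a])).Nodup := by
    refine List.nodup_append_comm.1 (hnd.sublist ?_)
    exact (List.sublist_append_right _ _).append_left _
  obtain ⟨π', j1, j2, j3, j4, j5⟩ := main a chain (hok a ha ⟨_, hbd a ha _ ha' haa, haa⟩)
    ((c :: n).map some ++ none :: (m ++ [a]).map some) a (by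
      rw [List.nodup_middle, List.nodup_cons, ← List.map_append]
      exact ⟨by simp, hnd2.map (Option.some_injective _)⟩)
    (by
      rw [List.isChain_append]
      refine ⟨(List.isChain_map _).2 c5, List.isChain_cons.2 ⟨?_, (List.isChain_map _).2 c1⟩, ?_⟩
      · intro y hy
        rw [List.head?_map, ho] at hy
        simp only [Option.map_some, Option.mem_def, Option.some.injEq] at hy
        subst hy
        exact Or.inl rfl
      · intro x hx y hy
        rw [List.getLast?_map, hz] at hx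
        simp only [Option.map_some, Option.mem_def, Option.some.injEq, List.head?_cons] at hx hy
        subst hx hy
        exact Or.inr rfl)
    (by simp) (by
      rw [List.getLast?_append_of_ne_nil _ (by simp), List.getLast?_cons_of_ne_nil (by simp)]
      simp) (by simp) (by rw [dist1_self]; omega)
  refine ⟨π', j1, j2, j3, fun x hx => (j4 x hx).imp_left fun h => ?_, fun x hx => ?_⟩
  · have h' : x ∈ m ++ [a] ∨ x ∈ c :: n := by simpa [or_comm, or_assoc, or_left_comm] using h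
    refine ⟨?_, ?_⟩
    · rcases h' with h' | h'
      · exact List.mem_append_left _ h'
      · exact List.mem_append_right _ (List.mem_append_right _ h')
    · rintro rfl
      rw [List.nodup_append] at hnd
      rcases h' with h' | h'
      · exact hnd.2.2 x h' x (List.mem_append_left _ hbm) rfl
      · exact (List.nodup_append.1 hnd.2.1).2.2 x hbm x h' rfl
  · by_cases hx' : x ∈ mid
    · right
      by_contra hcon
      exact hmid x hx' (hout x fun h => hcon (ball_mono b (by omega) h))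
    · refine j5 x ?_
      simpa [hx', or_comm, or_assoc, or_left_comm] using hx

theorem clean (hd : 2 ≤ d) : ∃ ρ : ℕ, ∀ (B VB : Set (Fin d → ℤ)), VB ⊆ B →
    ∀ (r : (Fin d → ℤ) → ℕ) (π : List (Fin d → ℤ)) (o z : Fin d → ℤ), IsSAW π →
    π.head? = some o → π.getLast? = some z →
    (∀ b ∈ π, b ∈ VB → Rad ρ B b (r b) ∧ o ∉ ball b (r b + ρ) ∧ z ∉ ball b (r b + ρ)) →
    ∃ π' : List (Fin d → ℤ), IsSAW π' ∧ π'.head? = some o ∧ π'.getLast? = some z ∧
      (∀ x ∈ π', x ∉ VB) ∧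
      (∀ x ∈ π', x ∉ π → x ∉ B ∧ ∃ b ∈ π, b ∈ VB ∧ x ∈ ball b (r b + ρ)) ∧
      (∀ x ∈ π, x ∉ π' → ∃ b ∈ π, b ∈ VB ∧ x ∈ ball b (r b + ρ)) := by
  classical
  obtain ⟨ρ, hρ⟩ := repair hd
  refine ⟨ρ, fun B VB hVB r π o z => ?_⟩
  generalize hn : (π.toFinset.filter (· ∈ VB)).card = n
  induction n using Nat.strong_induction_on generalizing π with
  | _ n ih =>
  intro h1 h2 h3 h4
  by_cases hb : ∃ b ∈ π, b ∈ VB
  · obtain ⟨b, hb, hb'⟩ := hb
    obtain ⟨π₁, k1, k2, k3, k4, k5⟩ := hρ B b (r b) π o z (hVB hb') h1 h2 h3 hb (h4 b hb hb').1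
      (h4 b hb hb').2.1 (h4 b hb hb').2.2
    have sub : ∀ x ∈ π₁, x ∈ VB → x ∈ π ∧ x ≠ b := fun x hx hx' =>
      (k4 x hx).resolve_right fun h => h.1 (hVB hx')
    obtain ⟨π₂, j1, j2, j3, j4, j5, j6⟩ := ih _ (by
      rw [← hn]
      refine Finset.card_lt_card ⟨fun x hx => ?_, fun h => ?_⟩
      · simp only [Finset.mem_filter, List.mem_toFinset] at hx ⊢
        exact ⟨(sub x hx.1 hx.2).1, hx.2⟩
      · have := h (Finset.mem_filter.2 ⟨List.mem_toFinset.2 hb, hb'⟩)
        simp only [Finset.mem_filter, List.mem_toFinset] at this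
        exact (sub b this.1 this.2).2 rfl) π₁ rfl k1 k2 k3
      (fun x hx hx' => h4 x (sub x hx hx').1 hx')
    refine ⟨π₂, j1, j2, j3, j4, fun x hx hx' => ?_, fun x hx hx' => ?_⟩
    · by_cases h : x ∈ π₁
      · have := (k4 x h).resolve_left fun h => hx' h.1
        exact ⟨this.1, b, hb, hb', this.2⟩
      · obtain ⟨m1, b', m2, m3, m4⟩ := j5 x hx h
        exact ⟨m1, b', (sub b' m2 m3).1, m3, m4⟩
    · rcases k5 x hx with h | h
      · obtain ⟨b', m2, m3, m4⟩ := j6 x h hx'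
        exact ⟨b', (sub b' m2 m3).1, m3, m4⟩
      · exact ⟨b, hb, hb', h⟩
  · exact ⟨π, h1, h2, h3, fun x hx hx' => hb ⟨x, hx, hx'⟩, fun x hx hx' => absurd hx hx',
      fun x hx hx' => absurd hx hx'⟩

end Pool.Agent.MP_1479fb_pr.Geo
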